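import Mathlib

set_option autoImplicit false

/-! Linear algebra of cyclic extensions of degree `p`: a nilpotent operator `D` on `M`, the maps
`ι : W → M` and `N : M → W`. -/

namespace Pool.Agent.H403.Z

open Module

section lin

variable {k M W : Type} [Field k] [AddCommGroup M] [Module k M] [AddCommGroup W] [Module k W]

/-- if `A + DM = M`, `D` is nilpotent and `A` is `D`-stable then `A = M` -/
lemma eq_top_of_nil (D : M →ₗ[k] M) (n : ℕ) (hD : D ^ n = 0) (A : Submodule k M)
    (hA : A.map D ≤ A) (h : A ⊔ LinearMap.range D = ⊤) : A = ⊤ := by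
  have h1 : ∀ i : ℕ, A ⊔ LinearMap.range (D ^ i) = ⊤ := by
    intro i
    induction i with
    | zero =>
      rw [eq_top_iff]
      intro x _
      exact Submodule.mem_sup_right ⟨x, rfl⟩
    | succ i ih =>
      rw [eq_top_iff, ← h]
      refine sup_le le_sup_left ?_
      rintro _ ⟨x, rfl⟩
      have hx : x ∈ A ⊔ LinearMap.range (D ^ i) := by rw [ih]; trivial
      obtain ⟨a, ha, y, ⟨z, rfl⟩, rfl⟩ := Submodule.mem_sup.1 hx
      rw [map_add]
      refine Submodule.add_mem _ (Submodule.mem_sup_left (hA ⟨a, ha, rfl⟩))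
        (Submodule.mem_sup_right ⟨z, ?_⟩)
      rw [pow_succ', Module.End.mul_apply]
  have h2 := h1 n
  rw [hD] at h2
  rw [← h2, LinearMap.range_zero, sup_bot_eq]

/-- if `A + DM = M`, `D` is nilpotent and `A` is finite dimensional, so is `M` -/
lemma fin_of_nil (D : M →ₗ[k] M) (n : ℕ) (hD : D ^ n = 0) (A : Submodule k M)
    [FiniteDimensional k A] (h : A ⊔ LinearMap.range D = ⊤) : FiniteDimensional k M := by
  have h1 : ∀ i : ℕ, ∃ B : Submodule k M, FiniteDimensional k B ∧
      B ⊔ LinearMap.range (D ^ i) = ⊤ := by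
    intro i
    induction i with
    | zero =>
      refine ⟨⊥, inferInstance, ?_⟩
      rw [eq_top_iff]
      intro x _
      exact Submodule.mem_sup_right ⟨x, rfl⟩
    | succ i ih =>
      obtain ⟨B, hB, hB1⟩ := ih
      refine ⟨A ⊔ B.map D, inferInstance, ?_⟩
      rw [eq_top_iff, ← h]
      refine sup_le (le_sup_left.trans le_sup_left) ?_
      rintro _ ⟨x, rfl⟩
      have hx : x ∈ B ⊔ LinearMap.range (D ^ i) := by rw [hB1]; trivial
      obtain ⟨a, ha, y, ⟨z, rfl⟩, rfl⟩ := Submodule.mem_sup.1 hx
      rw [map_add]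
      refine Submodule.add_mem _ (Submodule.mem_sup_left (Submodule.mem_sup_right ⟨a, ha, rfl⟩))
        (Submodule.mem_sup_right ⟨z, ?_⟩)
      rw [pow_succ', Module.End.mul_apply]
  obtain ⟨B, hB, h2⟩ := h1 n
  rw [hD, LinearMap.range_zero, sup_bot_eq] at h2
  subst h2
  exact Module.Finite.equiv (Submodule.topEquiv (R := k) (M := M))

/-- the ranges of the powers -/
lemma rank_pow [FiniteDimensional k M] (D : M →ₗ[k] M) (p : ℕ) (hp : 1 ≤ p) (hD : D ^ p = 0)
    (j : ℕ) (hj : j ≤ p) :
    j * finrank k (LinearMap.range (D ^ (p - 1))) ≤ finrank k (LinearMap.range (D ^ (p - j))) := by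
  induction j with
  | zero => simp
  | succ j ih =>
    have h1 := ih (by omega)
    -- D maps range D^(p-(j+1)) onto range D^(p-j)
    have hpj : p - j = (p - (j + 1)) + 1 := by omega
    set R := LinearMap.range (D ^ (p - (j + 1))) with hR
    have h2 : LinearMap.range (D ^ (p - j)) = R.map D := by
      rw [hpj, pow_succ', Module.End.mul_eq_comp, LinearMap.range_comp]
    have h3 := LinearMap.finrank_range_add_finrank_ker (D.domRestrict R)
    rw [LinearMap.range_domRestrict, ← h2] at h3
    have h4 : finrank k (LinearMap.range (D ^ (p - 1))) ≤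
        finrank k (LinearMap.ker (D.domRestrict R)) := by
      have h5 : LinearMap.range (D ^ (p - 1)) ≤ R := by
        have : p - 1 = (p - (j + 1)) + j := by omega
        rw [this, pow_add, Module.End.mul_eq_comp, LinearMap.range_comp]
        exact LinearMap.map_le_range
      have h6 : LinearMap.range (D ^ (p - 1)) ≤ LinearMap.ker D := by
        rintro _ ⟨x, rfl⟩
        rw [LinearMap.mem_ker, ← Module.End.mul_apply, ← pow_succ', Nat.sub_add_cancel hp, hD]
        rfl
      let f : LinearMap.range (D ^ (p - 1)) →ₗ[k] LinearMap.ker (D.domRestrict R) :=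
        LinearMap.codRestrict _ (Submodule.inclusion h5) (fun x => by
          rw [LinearMap.mem_ker, LinearMap.domRestrict_apply]
          exact h6 x.2)
      refine LinearMap.finrank_le_finrank_of_injective (f := f) ?_
      intro x y hxy
      have := congrArg (fun z : LinearMap.ker (D.domRestrict R) => ((z : R) : M)) hxy
      exact Subtype.ext this
    have h7 : (j + 1) * finrank k (LinearMap.range (D ^ (p - 1))) =
        j * finrank k (LinearMap.range (D ^ (p - 1))) +
          finrank k (LinearMap.range (D ^ (p - 1))) := by ring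
    omega

/-- the data of a cyclic extension of degree `p` -/
structure Cyc (p : ℕ) (D : M →ₗ[k] M) (ι : W →ₗ[k] M) (N : M →ₗ[k] W) (c : W) (t : M) :
    Prop where
  nil : D ^ p = 0
  nrm : D ^ (p - 1) = ι ∘ₗ N
  dι : D ∘ₗ ι = 0
  nι : N ∘ₗ ι = 0
  nd : N ∘ₗ D = 0
  ker : LinearMap.ker ι = Submodule.span k {c}
  ne : c ≠ 0
  h90 : ∀ x, N x = 0 → x ∈ LinearMap.range ι ⊔ LinearMap.range D
  nt : N t = c
  dt : D t ∈ LinearMap.range ι

variable {p : ℕ} {D : M →ₗ[k] M} {ι : W →ₗ[k] M} {N : M →ₗ[k] W} {c : W} {t : M}

lemma Cyc.fin (h : Cyc p D ι N c t) [FiniteDimensional k W] : FiniteDimensional k M := by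
  obtain ⟨s, hs⟩ := (LinearMap.rangeRestrict N).exists_rightInverse_of_surjective
    (LinearMap.range_rangeRestrict N)
  refine fin_of_nil D p h.nil (LinearMap.range ι ⊔ LinearMap.range s) ?_
  rw [eq_top_iff]
  intro x _
  have h1 : N (x - s (LinearMap.rangeRestrict N x)) = 0 := by
    have h2 := congrArg (fun f => ((f (LinearMap.rangeRestrict N x) : LinearMap.range N) : W)) hs
    simp only [LinearMap.comp_apply, LinearMap.id_apply] at h2
    rw [map_sub, sub_eq_zero]
    exact h2.symm
  have h3 := h.h90 _ h1
  have h4 : x = (x - s (LinearMap.rangeRestrict N x)) + s (LinearMap.rangeRestrict N x) := by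
    rw [sub_add_cancel]
  rw [h4]
  refine Submodule.add_mem _ ?_ (Submodule.mem_sup_left (Submodule.mem_sup_right ⟨_, rfl⟩))
  exact SetLike.le_def.1 (sup_le_sup_right le_sup_left _) h3

/-- the growth inequality -/
theorem Cyc.growth (h : Cyc p D ι N c t) (hp : 2 ≤ p) [FiniteDimensional k W] :
    finrank k W + (p - 1) * (finrank k (LinearMap.range N) - 1) ≤ finrank k M := by
  have := h.fin
  set d := finrank k (LinearMap.range N) with hd
  have hcN : c ∈ LinearMap.range N := ⟨t, h.nt⟩
  have hspan : finrank k (Submodule.span k {c}) = 1 := finrank_span_singleton h.ne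
  -- rank of ι
  have h1 : finrank k (LinearMap.range ι) + 1 = finrank k W := by
    have := LinearMap.finrank_range_add_finrank_ker ι
    rwa [h.ker, hspan] at this
  -- rank of `D^(p-1)`
  have h2 : finrank k (LinearMap.range (D ^ (p - 1))) + 1 = d := by
    have h3 := LinearMap.finrank_range_add_finrank_ker (ι.domRestrict (LinearMap.range N))
    rw [LinearMap.range_domRestrict, ← LinearMap.range_comp, ← h.nrm, ← hd] at h3
    have h4 : finrank k (LinearMap.ker (ι.domRestrict (LinearMap.range N))) = 1 := by
      rw [← hspan, ← h.ker]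
      have hle : LinearMap.ker ι ≤ LinearMap.range N := by
        rw [h.ker, Submodule.span_le]
        rintro x hx
        rw [Set.mem_singleton_iff] at hx
        rw [hx]
        exact hcN
      have h5 : LinearMap.ker (ι.domRestrict (LinearMap.range N)) =
          (LinearMap.ker ι).comap (LinearMap.range N).subtype := by
        ext x
        simp [LinearMap.mem_ker]
      rw [h5]
      exact (Submodule.comapSubtypeEquivOfLe hle).finrank_eq
    omega
  have h3 := rank_pow D p (by omega) h.nil (p - 2) (by omega)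
  have hpp : p - (p - 2) = 2 := by omega
  rw [hpp] at h3
  -- the kernel of the norm
  set Q := LinearMap.range ι ⊔ LinearMap.range D with hQ
  have h4 : Q ≤ LinearMap.ker N := by
    refine sup_le ?_ ?_
    · rintro _ ⟨x, rfl⟩
      rw [LinearMap.mem_ker, ← LinearMap.comp_apply, h.nι]
      rfl
    · rintro _ ⟨x, rfl⟩
      rw [LinearMap.mem_ker, ← LinearMap.comp_apply, h.nd]
      rfl
  have h5 := LinearMap.finrank_range_add_finrank_ker N
  have h6 := Submodule.finrank_mono h4
  have h7 := LinearMap.finrank_range_add_finrank_ker (D.domRestrict Q)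
  have h8 : LinearMap.range (D.domRestrict Q) = LinearMap.range (D ^ 2) := by
    rw [LinearMap.range_domRestrict, hQ, Submodule.map_sup, ← LinearMap.range_comp, h.dι,
      LinearMap.range_zero, bot_sup_eq, ← LinearMap.range_comp, pow_two]
    rfl
  rw [h8] at h7
  have h9 : finrank k (LinearMap.range ι) ≤ finrank k (LinearMap.ker (D.domRestrict Q)) := by
    have h10 : LinearMap.range ι ≤ Q := le_sup_left
    let f : LinearMap.range ι →ₗ[k] LinearMap.ker (D.domRestrict Q) :=
      LinearMap.codRestrict _ (Submodule.inclusion h10) (fun x => by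
        rw [LinearMap.mem_ker, LinearMap.domRestrict_apply]
        obtain ⟨_, y, rfl⟩ := x
        exact congrArg (fun g : W →ₗ[k] M => g y) h.dι)
    refine LinearMap.finrank_le_finrank_of_injective (f := f) ?_
    intro x y hxy
    have := congrArg (fun z : LinearMap.ker (D.domRestrict Q) => ((z : Q) : M)) hxy
    exact Subtype.ext this
  set ρ := finrank k (LinearMap.range (D ^ (p - 1))) with hρ
  have h10 : d - 1 = ρ := by omega
  rw [h10]
  have h11 : (p - 1) * ρ = (p - 2) * ρ + ρ := by
    obtain ⟨q, rfl⟩ : ∃ q, p = q + 2 := ⟨p - 2, by omega⟩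
    simp only [Nat.add_sub_cancel]
    have : q + 2 - 1 = q + 1 := by omega
    rw [this]
    ring
  omega

/-- if the norms are the multiples of `c` then `M` is generated by `t` and `ι W` -/
theorem Cyc.span (h : Cyc p D ι N c t) (hN : ∀ x, N x ∈ Submodule.span k {c}) :
    Submodule.span k {t} ⊔ LinearMap.range ι = ⊤ := by
  refine eq_top_of_nil D p h.nil _ ?_ ?_
  · rw [Submodule.map_sup, ← LinearMap.range_comp, h.dι, LinearMap.range_zero, sup_bot_eq,
      Submodule.map_span, Set.image_singleton, Submodule.span_le]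
    rintro x hx
    rw [Set.mem_singleton_iff] at hx
    rw [hx]
    exact Submodule.mem_sup_right h.dt
  · rw [eq_top_iff]
    intro x _
    obtain ⟨a, ha⟩ := Submodule.mem_span_singleton.1 (hN x)
    have h1 : N (x - a • t) = 0 := by
      rw [map_sub, map_smul, h.nt, ha, sub_self]
    have h2 := h.h90 _ h1
    have h3 : x = a • t + (x - a • t) := by abel
    rw [h3]
    refine Submodule.add_mem _ (Submodule.mem_sup_left (Submodule.mem_sup_left
      (Submodule.smul_mem _ _ (Submodule.mem_span_singleton_self t)))) ?_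
    exact SetLike.le_def.1 (sup_le_sup_right le_sup_right _) h2

end lin

end Pool.Agent.H403.Z
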