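import Mathlib
import Pool.Graph.R_seed8.Y920.EP.Stm
import Pool.Agent.H403.Z.Lin

set_option autoImplicit false
set_option linter.unusedSectionVars false

/-! The space `K*/K*^p` and cyclic extensions of degree `p`. -/

namespace Pool.Agent.H403.Z

open Module Pool.Agent.Y920.EP

section vs

/-- the group `K*/K*^p`, written additively -/
def VS (K : Type) [Field K] (p : ℕ) : Type := Additive (Kˣ ⧸ pwG K p)

noncomputable instance (K : Type) [Field K] (p : ℕ) : AddCommGroup (VS K p) :=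
  inferInstanceAs (AddCommGroup (Additive (Kˣ ⧸ pwG K p)))

variable {K K' : Type} [Field K] [Field K'] {p : ℕ}

/-- the class of a unit -/
def cls (p : ℕ) (x : Kˣ) : VS K p := Additive.ofMul (QuotientGroup.mk x)

lemma cls_mul (x y : Kˣ) : cls p (x * y) = cls p x + cls p y := rfl
lemma cls_one : cls p (1 : Kˣ) = 0 := rfl
lemma cls_inv (x : Kˣ) : cls p x⁻¹ = - cls p x := rfl
lemma cls_div (x y : Kˣ) : cls p (x / y) = cls p x - cls p y := rfl
lemma cls_pow (x : Kˣ) (n : ℕ) : cls p (x ^ n) = n • cls p x := rfl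
lemma cls_zpow (x : Kˣ) (n : ℤ) : cls p (x ^ n) = n • cls p x := rfl

lemma cls_eq_zero {x : Kˣ} : cls p x = 0 ↔ x ∈ pwG K p := QuotientGroup.eq_one_iff x

lemma cls_surj (v : VS K p) : ∃ x : Kˣ, cls p x = v := by
  obtain ⟨x, hx⟩ := QuotientGroup.mk_surjective (Additive.toMul v)
  exact ⟨x, congrArg Additive.ofMul hx⟩

noncomputable instance : Module (ZMod p) (VS K p) := AddCommGroup.zmodModule (by
  intro v
  obtain ⟨x, rfl⟩ := cls_surj v
  rw [← cls_pow]
  exact cls_eq_zero.2 ⟨x, rfl⟩)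

/-- functoriality -/
noncomputable def vmap (p : ℕ) (f : Kˣ →* K'ˣ) : VS K p →ₗ[ZMod p] VS K' p :=
  AddMonoidHom.toZModLinearMap p (MonoidHom.toAdditive
    (QuotientGroup.map (pwG K p) (pwG K' p) f (by
      rintro _ ⟨x, rfl⟩
      exact ⟨f x, (map_pow f x p).symm⟩)))

lemma vmap_cls (f : Kˣ →* K'ˣ) (x : Kˣ) : vmap p f (cls p x) = cls p (f x) := rfl

lemma zmod_smul_cls [Fact p.Prime] (a : ZMod p) (x : Kˣ) : a • cls p x = cls p (x ^ a.val) := by
  rw [cls_pow, ← Nat.cast_smul_eq_nsmul (ZMod p), ZMod.natCast_zmod_val]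

lemma mem_span_cls [Fact p.Prime] {x c : Kˣ} :
    cls p x ∈ Submodule.span (ZMod p) {cls p c} ↔ x ∈ Subgroup.zpowers c ⊔ pwG K p := by
  rw [Submodule.mem_span_singleton]
  constructor
  · rintro ⟨a, ha⟩
    rw [zmod_smul_cls, eq_comm, ← sub_eq_zero, ← cls_div, cls_eq_zero] at ha
    have h1 : x = c ^ a.val * (x / c ^ a.val) := by rw [mul_div_cancel]
    rw [h1]
    exact mul_mem (Subgroup.mem_sup_left (pow_mem (Subgroup.mem_zpowers c) _))
      (Subgroup.mem_sup_right ha)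
  · intro h
    obtain ⟨y, hy, t, ht, rfl⟩ := Subgroup.mem_sup.1 h
    obtain ⟨n, rfl⟩ := Subgroup.mem_zpowers_iff.1 hy
    refine ⟨(n : ZMod p), ?_⟩
    rw [cls_mul, cls_eq_zero.2 ht, add_zero, cls_zpow, Int.cast_smul_eq_zsmul]

lemma card_VS [Fact p.Prime] (h : (pwG K p).index ≠ 0) :
    (pwG K p).index = p ^ finrank (ZMod p) (VS K p) ∧ FiniteDimensional (ZMod p) (VS K p) := by
  have h1 : Nat.card (VS K p) = (pwG K p).index := rfl
  have h2 : Finite (VS K p) := Nat.finite_of_card_ne_zero (by rw [h1]; exact h)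
  have h3 : FiniteDimensional (ZMod p) (VS K p) := Module.Finite.of_finite
  refine ⟨?_, h3⟩
  rw [← h1, Module.natCard_eq_pow_finrank (K := ZMod p), Nat.card_zmod]

lemma index_of_fin [Fact p.Prime] [FiniteDimensional (ZMod p) (VS K p)] :
    (pwG K p).index = p ^ finrank (ZMod p) (VS K p) := by
  have h1 : Nat.card (VS K p) = (pwG K p).index := rfl
  rw [← h1, Module.natCard_eq_pow_finrank (K := ZMod p), Nat.card_zmod]

end vs

section poly

variable {p : ℕ} [Fact p.Prime] {M : Type} [AddCommGroup M] [Module (ZMod p) M]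

open Polynomial in
lemma sub_one_pow_p (S : M →ₗ[ZMod p] M) : (S - 1) ^ p = S ^ p - 1 := by
  have h1 : (X - 1 : (ZMod p)[X]) ^ p = X ^ p - 1 := by
    rw [sub_pow_char, one_pow]
  have h2 := congrArg (aeval S) h1
  simpa using h2

open Polynomial in
lemma sub_one_pow_pred (S : M →ₗ[ZMod p] M) :
    (S - 1) ^ (p - 1) = ∑ i ∈ Finset.range p, S ^ i := by
  have hp : p.Prime := Fact.out
  have h1 : (X - 1 : (ZMod p)[X]) ^ (p - 1) = ∑ i ∈ Finset.range p, X ^ i := by
    have h0 : (X - 1 : (ZMod p)[X]) ≠ 0 := by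
      have := Polynomial.X_sub_C_ne_zero (1 : ZMod p)
      rwa [map_one] at this
    apply mul_left_cancel₀ h0
    rw [mul_geom_sum, ← pow_succ', Nat.sub_add_cancel hp.one_lt.le, sub_pow_char, one_pow]
  have h2 := congrArg (aeval S) h1
  simpa using h2

end poly

section un

variable {F L : Type} [Field F] [Field L] [Algebra F L]

/-- the action on units -/
noncomputable def su (σ : L ≃ₐ[F] L) : Lˣ →* Lˣ := Units.map (σ : L →* L)

lemma su_val (σ : L ≃ₐ[F] L) (x : Lˣ) : ((su σ x : Lˣ) : L) = σ x := rfl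

lemma su_pow_val (σ : L ≃ₐ[F] L) (x : Lˣ) (i : ℕ) : (((su σ)^[i] x : Lˣ) : L) = (σ ^ i) x := by
  induction i with
  | zero => rfl
  | succ i ih => rw [Function.iterate_succ_apply', su_val, ih, pow_succ']; rfl

/-- the inclusion of units -/
noncomputable def iu (F L : Type) [Field F] [Field L] [Algebra F L] : Fˣ →* Lˣ :=
  Units.map (algebraMap F L : F →* L)

lemma iu_val (x : Fˣ) : ((iu F L x : Lˣ) : L) = algebraMap F L x := rfl

/-- the norm of units -/
noncomputable def nu (F L : Type) [Field F] [Field L] [Algebra F L] : Lˣ →* Fˣ :=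
  Units.map (Algebra.norm F : L →* F)

lemma nu_val (x : Lˣ) : ((nu F L x : Fˣ) : F) = Algebra.norm F (x : L) := rfl

lemma nu_iu {p : ℕ} (hL : Module.finrank F L = p) (g : Fˣ) : nu F L (iu F L g) = g ^ p := by
  ext
  rw [nu_val, iu_val, Algebra.norm_algebraMap, hL, Units.val_pow_eq_pow_val]

lemma su_iu (σ : L ≃ₐ[F] L) (g : Fˣ) : su σ (iu F L g) = iu F L g := by
  ext
  rw [su_val, iu_val, AlgEquiv.commutes]

lemma nu_su (σ : L ≃ₐ[F] L) (x : Lˣ) : nu F L (su σ x) = nu F L x := by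
  ext
  rw [nu_val, nu_val, su_val, Algebra.norm_eq_of_algEquiv σ (x : L)]

end un

section ce

/-- a cyclic extension `L = F(θ)`, `θ^p = c`, with generator `σ`, `σθ = ωθ` -/
structure CE (p : ℕ) {F L : Type} [Field F] [Field L] [Algebra F L] (σ : L ≃ₐ[F] L) (ω : F)
    (θ : Lˣ) (c : Fˣ) : Prop where
  gen : ∀ τ : L ≃ₐ[F] L, τ ∈ Subgroup.zpowers σ
  prim : IsPrimitiveRoot ω p
  act : σ θ = algebraMap F L ω * θ
  pow : (θ : L) ^ p = algebraMap F L c
  deg : Module.finrank F L = p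

variable {p : ℕ} {F L : Type} [Field F] [Field L] [Algebra F L] [FiniteDimensional F L]
  [IsGalois F L]

/-- an element fixed by the generator is in `F` -/
lemma mem_of_fix {σ : L ≃ₐ[F] L} (hσ : ∀ τ : L ≃ₐ[F] L, τ ∈ Subgroup.zpowers σ) {x : L}
    (hx : σ x = x) : ∃ g : F, algebraMap F L g = x := by
  have h1 : x ∈ (⊥ : IntermediateField F L) := by
    rw [IsGalois.mem_bot_iff_fixed]
    intro τ
    obtain ⟨n, rfl⟩ := Subgroup.mem_zpowers_iff.1 (hσ τ)
    have h2 : σ ∈ MulAction.stabilizer (L ≃ₐ[F] L) x := hx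
    exact zpow_mem h2 n
  obtain ⟨g, hg⟩ := IntermediateField.mem_bot.1 h1
  exact ⟨g, hg⟩

theorem exists_CE (hp : p.Prime) (hL : Module.finrank F L = p)
    (hζ : ∃ ζ : F, IsPrimitiveRoot ζ p) :
    ∃ (σ : L ≃ₐ[F] L) (ω : F) (θ : Lˣ) (c : Fˣ), CE p σ ω θ c := by
  obtain ⟨ζ, hζ⟩ := hζ
  have hcard : Nat.card (L ≃ₐ[F] L) = p := by rw [IsGalois.card_aut_eq_finrank, hL]
  have := Fact.mk hp
  have : NeZero p := ⟨hp.ne_zero⟩
  have hcyc : IsCyclic (L ≃ₐ[F] L) := isCyclic_of_prime_card hcard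
  obtain ⟨σ, hσ⟩ := hcyc.exists_generator
  have hK : (primitiveRoots (finrank F L) F).Nonempty := by
    rw [hL]
    exact ⟨ζ, (mem_primitiveRoots hp.pos).2 hζ⟩
  obtain ⟨α, ⟨c, hc⟩, hα⟩ := exists_root_adjoin_eq_top_of_isCyclic F L hK
  rw [hL] at hc
  have hnot : ∀ g : F, algebraMap F L g ≠ α := by
    rintro g rfl
    have h1 : IntermediateField.adjoin F {algebraMap F L g} = ⊥ := by
      rw [IntermediateField.adjoin_simple_eq_bot_iff]
      exact IntermediateField.algebraMap_mem _ g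
    rw [h1] at hα
    have h2 := IntermediateField.bot_eq_top_iff_finrank_eq_one.1 hα
    rw [hL] at h2
    exact hp.one_lt.ne' h2
  have hα0 : α ≠ 0 := fun h => hnot 0 (by rw [map_zero, h])
  have hc0 : c ≠ 0 := by
    rintro rfl
    rw [map_zero] at hc
    exact pow_ne_zero p hα0 hc.symm
  have h1 : (σ α / α) ^ p = 1 := by
    rw [div_pow, ← map_pow, ← hc, AlgEquiv.commutes, div_self]
    rw [hc]
    exact pow_ne_zero p hα0
  have hζL : IsPrimitiveRoot (algebraMap F L ζ) p := hζ.map_of_injective (algebraMap F L).injective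
  obtain ⟨i, hi, h2⟩ := hζL.eq_pow_of_pow_eq_one h1
  have h3 : σ α = algebraMap F L (ζ ^ i) * α := by
    rw [map_pow, h2, div_mul_cancel₀ _ hα0]
  refine ⟨σ, ζ ^ i, Units.mk0 α hα0, Units.mk0 c hc0, hσ, ?_, h3, hc.symm, hL⟩
  refine hζ.pow_of_coprime i ?_
  rw [Nat.coprime_comm]
  refine (Nat.Prime.coprime_iff_not_dvd hp).2 fun hd => ?_
  have hi0 : i = 0 := Nat.eq_zero_of_dvd_of_lt hd hi
  rw [hi0, pow_zero, map_one, one_mul] at h3
  obtain ⟨g, hg⟩ := mem_of_fix hσ h3
  exact hnot g hg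

variable {σ : L ≃ₐ[F] L} {ω : F} {θ : Lˣ} {c : Fˣ}

lemma order_p (h : CE p σ ω θ c) : orderOf σ = p := by
  rw [orderOf_eq_card_of_forall_mem_zpowers h.gen, IsGalois.card_aut_eq_finrank, h.deg]

lemma norm_prod (h : CE p σ ω θ c) (x : L) :
    algebraMap F L (Algebra.norm F x) = ∏ i ∈ Finset.range p, (σ ^ i) x := by
  classical
  rw [Algebra.norm_eq_prod_automorphisms]
  have ho := order_p h
  symm
  refine Finset.prod_bij (fun (i : ℕ) _ => σ ^ i) (fun _ _ => Finset.mem_univ _) ?_ ?_ ?_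
  · intro i hi j hj hij
    rw [Finset.mem_range] at hi hj
    exact pow_injOn_Iio_orderOf (by rw [ho]; exact hi) (by rw [ho]; exact hj) hij
  · intro τ _
    have h1 := h.gen τ
    rw [mem_zpowers_iff_mem_range_orderOf, Finset.mem_image] at h1
    obtain ⟨i, hi, hi1⟩ := h1
    rw [ho] at hi
    exact ⟨i, hi, hi1⟩
  · intro i _
    rfl

lemma c_notMem (hp : p.Prime) (h : CE p σ ω θ c) : c ∉ pwG F p := by
  rintro ⟨b, hb⟩
  have hb' : (b : F) ^ p = c := by
    rw [← Units.val_pow_eq_pow_val]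
    exact congrArg Units.val hb
  have : NeZero p := ⟨hp.ne_zero⟩
  have hω : IsPrimitiveRoot (algebraMap F L ω) p := h.prim.map_of_injective (algebraMap F L).injective
  have hb0 : algebraMap F L b ≠ 0 := (_root_.map_ne_zero _).2 b.ne_zero
  have h1 : ((θ : L) / algebraMap F L b) ^ p = 1 := by
    rw [div_pow, h.pow, ← map_pow, hb', div_self]
    exact (_root_.map_ne_zero _).2 c.ne_zero
  obtain ⟨i, hi, h2⟩ := hω.eq_pow_of_pow_eq_one h1
  have h3 : (θ : L) = algebraMap F L (ω ^ i * b) := by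
    rw [map_mul, map_pow, h2, div_mul_cancel₀ _ hb0]
  have h4 := h.act
  rw [h3, AlgEquiv.commutes, ← h3] at h4
  have h5 : algebraMap F L ω = 1 := by
    have := θ.ne_zero
    field_simp at h4
    exact h4.symm
  exact hω.ne_one hp.one_lt h5

/-- Kummer theory: the kernel of `F*/F*^p → L*/L*^p` -/
lemma kummer (hp : p.Prime) (h : CE p σ ω θ c) {g : Fˣ} {y : L} (hy : y ^ p = algebraMap F L g) :
    ∃ (i : ℕ) (b : Fˣ), g = c ^ i * b ^ p := by
  have : NeZero p := ⟨hp.ne_zero⟩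
  have hω : IsPrimitiveRoot (algebraMap F L ω) p := h.prim.map_of_injective (algebraMap F L).injective
  have hg0 : algebraMap F L g ≠ 0 := (_root_.map_ne_zero _).2 g.ne_zero
  have hy0 : y ≠ 0 := by
    rintro rfl
    rw [zero_pow hp.ne_zero] at hy
    exact hg0 hy.symm
  have h1 : (σ y / y) ^ p = 1 := by
    rw [div_pow, ← map_pow, hy, AlgEquiv.commutes, div_self hg0]
  obtain ⟨i, hi, h2⟩ := hω.eq_pow_of_pow_eq_one h1
  have h3 : σ y = algebraMap F L ω ^ i * y := by rw [h2, div_mul_cancel₀ _ hy0]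
  have h4 : σ (y / (θ : L) ^ i) = y / (θ : L) ^ i := by
    rw [map_div₀, map_pow, h3, h.act, mul_pow]
    have hω0 : algebraMap F L ω ≠ 0 := hω.ne_zero hp.ne_zero
    have := θ.ne_zero
    field_simp
  obtain ⟨b, hb⟩ := mem_of_fix h.gen h4
  have hb0 : b ≠ 0 := by
    rintro rfl
    rw [map_zero] at hb
    exact div_ne_zero hy0 (pow_ne_zero _ θ.ne_zero) hb.symm
  refine ⟨i, Units.mk0 b hb0, ?_⟩
  refine Units.ext ((algebraMap F L).injective ?_)
  rw [Units.val_mul, Units.val_pow_eq_pow_val, Units.val_pow_eq_pow_val, Units.val_mk0, map_mul,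
    map_pow, map_pow, hb, ← h.pow, ← hy, div_pow, ← pow_mul, ← pow_mul, mul_comm i p]
  have := θ.ne_zero
  field_simp

/-- `N(θ)` is `c` up to sign -/
lemma nu_theta (h : CE p σ ω θ c) :
    nu F L θ = c ∨ nu F L θ = -c := by
  have hs : ∀ i : ℕ, (σ ^ i) (θ : L) = algebraMap F L (ω ^ i) * θ := by
    intro i
    induction i with
    | zero => simp
    | succ i ih =>
      rw [pow_succ', AlgEquiv.mul_apply, ih, map_mul, AlgEquiv.commutes, h.act, pow_succ, map_mul]
      ring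
  have h1 : algebraMap F L (Algebra.norm F (θ : L)) =
      algebraMap F L (ω ^ (∑ i ∈ Finset.range p, i) * c) := by
    rw [norm_prod h, Finset.prod_congr rfl fun i _ => hs i, Finset.prod_mul_distrib,
      Finset.prod_const, Finset.card_range, h.pow, map_mul, ← map_prod,
      Finset.prod_pow_eq_pow_sum]
  have h2 := (algebraMap F L).injective h1
  have h3 : (ω ^ (∑ i ∈ Finset.range p, i)) ^ 2 = 1 := by
    rw [← pow_mul, Finset.sum_range_id_mul_two, pow_mul, h.prim.pow_eq_one, one_pow]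
  rcases sq_eq_one_iff_of_ne_zero_or h3 with h4 | h4
  · left
    ext
    rw [nu_val, h2, h4, one_mul]
  · right
    ext
    rw [nu_val, h2, h4, neg_one_mul, Units.val_neg]
where
  sq_eq_one_iff_of_ne_zero_or {x : F} (h : x ^ 2 = 1) : x = 1 ∨ x = -1 := sq_eq_one_iff_of_side h
  sq_eq_one_iff_of_side {x : F} (h : x ^ 2 = 1) : x = 1 ∨ x = -1 := by
    have : (x - 1) * (x + 1) = 0 := by linear_combination h
    rcases mul_eq_zero.1 this with h | h
    · left; linear_combination h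
    · right; linear_combination h

/-- Hilbert 90 -/
lemma h90 (h : CE p σ ω θ c) {x : Lˣ} (hx : nu F L x = 1) :
    ∃ y : Lˣ, x = su σ y / y := by
  have hcyc : IsCyclic (L ≃ₐ[F] L) := ⟨σ, h.gen⟩
  have h1 : Algebra.norm F ((x⁻¹ : Lˣ) : L) = 1 := by
    rw [← nu_val, map_inv, hx, inv_one, Units.val_one]
  obtain ⟨y, hy⟩ := groupCohomology.exists_div_of_norm_eq_one h.gen h1
  refine ⟨y, ?_⟩
  have h2 : x⁻¹ = y / su σ y := by
    ext
    rw [← hy, Units.val_div_eq_div_val, su_val]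
  rw [← inv_inj, h2, inv_div]

/-- the linear data of a cyclic extension -/
theorem cyc_of_CE [Fact p.Prime] (h : CE p σ ω θ c) (hneg : (-1 : Fˣ) ∈ pwG F p) :
    Cyc p (vmap p (su σ) - 1) (vmap p (iu F L)) (vmap p (nu F L)) (cls p c) (cls p θ) := by
  have hp : p.Prime := Fact.out
  have hS : ∀ (i : ℕ) (x : Lˣ), ((vmap p (su σ)) ^ i) (cls p x) = cls p ((su σ)^[i] x) := by
    intro i x
    induction i with
    | zero => rfl
    | succ i ih =>
      rw [pow_succ', Module.End.mul_apply, ih, vmap_cls, Function.iterate_succ_apply']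
  have hprod : ∀ x : Lˣ, iu F L (nu F L x) = ∏ i ∈ Finset.range p, (su σ)^[i] x := by
    intro x
    ext
    rw [iu_val, nu_val, norm_prod h, Units.coe_prod]
    exact Finset.prod_congr rfl fun i _ => (su_pow_val σ x i).symm
  have hclsprod : ∀ (s : Finset ℕ) (f : ℕ → Lˣ), cls p (∏ i ∈ s, f i) = ∑ i ∈ s, cls p (f i) := by
    intro s f
    classical
    induction s using Finset.induction_on with
    | empty => rfl
    | insert a s ha ih => rw [Finset.prod_insert ha, Finset.sum_insert ha, cls_mul, ih]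
  refine ⟨?_, ?_, ?_, ?_, ?_, ?_, ?_, ?_, ?_, ?_⟩
  · rw [sub_one_pow_p, sub_eq_zero]
    ext v
    obtain ⟨x, rfl⟩ := cls_surj v
    rw [hS, Module.End.one_apply]
    congr 1
    ext
    rw [su_pow_val, ← order_p h, pow_orderOf_eq_one]
    rfl
  · rw [sub_one_pow_pred]
    ext v
    obtain ⟨x, rfl⟩ := cls_surj v
    rw [LinearMap.comp_apply, vmap_cls, vmap_cls, hprod, hclsprod, LinearMap.sum_apply]
    exact Finset.sum_congr rfl fun i _ => hS i x
  · ext v
    obtain ⟨x, rfl⟩ := cls_surj v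
    rw [LinearMap.comp_apply, vmap_cls, LinearMap.sub_apply, vmap_cls, su_iu,
      Module.End.one_apply, sub_self]
    rfl
  · ext v
    obtain ⟨x, rfl⟩ := cls_surj v
    rw [LinearMap.comp_apply, vmap_cls, vmap_cls, nu_iu h.deg]
    exact cls_eq_zero.2 ⟨x, rfl⟩
  · ext v
    obtain ⟨x, rfl⟩ := cls_surj v
    rw [LinearMap.comp_apply, LinearMap.sub_apply, map_sub, vmap_cls, vmap_cls, nu_su,
      Module.End.one_apply, vmap_cls, sub_self]
    rfl
  · apply le_antisymm
    · intro v hv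
      obtain ⟨g, rfl⟩ := cls_surj v
      rw [LinearMap.mem_ker, vmap_cls, cls_eq_zero] at hv
      obtain ⟨y, hy⟩ := hv
      have hy' : (y : L) ^ p = algebraMap F L g := by
        rw [← Units.val_pow_eq_pow_val]
        exact congrArg Units.val hy
      obtain ⟨i, b, rfl⟩ := kummer hp h hy'
      rw [mem_span_cls]
      exact mul_mem (Subgroup.mem_sup_left (pow_mem (Subgroup.mem_zpowers c) _))
        (Subgroup.mem_sup_right ⟨b, rfl⟩)
    · rw [Submodule.span_le]
      rintro x hx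
      rw [Set.mem_singleton_iff] at hx
      rw [hx, SetLike.mem_coe, LinearMap.mem_ker, vmap_cls, cls_eq_zero]
      refine ⟨θ, ?_⟩
      ext
      change ((θ ^ p : Lˣ) : L) = _
      rw [Units.val_pow_eq_pow_val, h.pow, iu_val]
  · intro h0
    exact c_notMem hp h (cls_eq_zero.1 h0)
  · intro v hv
    obtain ⟨x, rfl⟩ := cls_surj v
    rw [vmap_cls, cls_eq_zero] at hv
    obtain ⟨g, hg⟩ := hv
    have hg' : nu F L x = g ^ p := hg.symm
    have h1 : nu F L (x / iu F L g) = 1 := by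
      rw [map_div, nu_iu h.deg, hg', div_self']
    obtain ⟨y, hy⟩ := h90 h h1
    have h2 : cls p x = vmap p (iu F L) (cls p g) + (vmap p (su σ) - 1) (cls p y) := by
      rw [LinearMap.sub_apply, vmap_cls, vmap_cls, Module.End.one_apply, ← cls_div, ← hy,
        ← cls_mul, mul_div_cancel]
    rw [h2]
    exact Submodule.add_mem _ (Submodule.mem_sup_left ⟨_, rfl⟩) (Submodule.mem_sup_right ⟨_, rfl⟩)
  · rw [vmap_cls]
    rcases nu_theta h with h1 | h1
    · rw [h1]
    · rw [h1, ← neg_one_mul, cls_mul, cls_eq_zero.2 hneg, zero_add]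
  · refine ⟨cls p (Units.mk0 ω (h.prim.ne_zero hp.ne_zero)), ?_⟩
    rw [vmap_cls, LinearMap.sub_apply, vmap_cls, Module.End.one_apply, ← cls_div]
    congr 1
    ext
    rw [iu_val, Units.val_mk0, Units.val_div_eq_div_val, su_val, h.act]
    have := θ.ne_zero
    field_simp

end ce

end Pool.Agent.H403.Z
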