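import Mathlib
import Pool.Graph.R_seed8.Y349.EP.Symm
import Pool.Graph.R_seed8.Y349.EP.NG
import Pool.Agent.H403.Z.Vsp

set_option autoImplicit false
set_option linter.unusedSectionVars false

/-! Norm groups of cyclic extensions of degree `p`. -/

namespace Pool.Agent.H403.Z

open Module Polynomial Pool.Agent.Y920.EP Pool.Agent.Y349.EP

section nrm

variable {p : ℕ} {F : Type} [Field F]

lemma pow_mem_nmG (hp : 0 < p) (a x : Fˣ) : x ^ p ∈ nmG p a := by
  refine ⟨Units.map (algebraMap F (AdjoinRoot (X ^ p - C (a : F))) : F →* _) x, ?_⟩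
  ext
  exact norm_scalar hp _ _

lemma pwG_le_nmG (hp : 0 < p) (a : Fˣ) : pwG F p ≤ nmG p a := by
  rintro _ ⟨x, rfl⟩
  exact pow_mem_nmG hp a x

/-- an element of nonzero norm gives an element of the norm group -/
lemma mem_nmG_of (hp : 0 < p) {a v : Fˣ} {z : AdjoinRoot (X ^ p - C (a : F))}
    (h : Algebra.norm F z = v) : v ∈ nmG p a := by
  have hfin : Module.Finite F (AdjoinRoot (X ^ p - C (a : F))) :=
    (AdjoinRoot.powerBasis (ne0 hp (a : F))).finite
  have hfree : Module.Free F (AdjoinRoot (X ^ p - C (a : F))) :=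
    Module.Free.of_basis (AdjoinRoot.powerBasis (ne0 hp (a : F))).basis
  have hz : IsUnit z := by
    have h1 : IsUnit (Algebra.norm F z) := by rw [h]; exact v.isUnit
    rw [Algebra.norm_apply, ← LinearMap.isUnit_iff_isUnit_det, Module.End.isUnit_iff] at h1
    obtain ⟨w, hw⟩ := h1.2 1
    exact IsUnit.of_mul_eq_one w hw
  exact ⟨hz.unit, Units.ext h⟩

lemma one_sub_mem (hp : 0 < p) {u v : Fˣ} (h : (v : F) = 1 - u) : v ∈ nmG p u := by
  refine mem_nmG_of hp (z := algebraMap F _ 1 - AdjoinRoot.root _) ?_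
  rw [norm_sub_root hp, one_pow, h]

lemma neg_mem_nmG (hp : 0 < p) (u : Fˣ) : -u ∈ nmG p u := by
  refine mem_nmG_of hp (z := algebraMap F _ 0 - AdjoinRoot.root _) ?_
  rw [norm_sub_root hp, zero_pow hp.ne', zero_sub, Units.val_neg]

lemma self_mem_nmG (hp : 0 < p) (hneg : (-1 : Fˣ) ∈ pwG F p) (u : Fˣ) : u ∈ nmG p u := by
  have h := mul_mem (pwG_le_nmG hp u hneg) (neg_mem_nmG hp u)
  rwa [neg_one_mul, neg_neg] at h

/-- symmetry for `p = 2` -/
lemma symm_two {a b : Fˣ} (hb : b ∉ pwG F 2) (h : b ∈ nmG 2 a) : a ∈ nmG 2 b := by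
  obtain ⟨z, hz⟩ := h
  have hz' : Algebra.norm F (z : AdjoinRoot (X ^ 2 - C (a : F))) = b := congrArg Units.val hz
  obtain ⟨g, hg⟩ := AdjoinRoot.mk_surjective (z : AdjoinRoot (X ^ 2 - C (a : F)))
  have hm : (X ^ 2 - C (a : F)).Monic := monic_X_pow_sub_C _ two_ne_zero
  set r := g %ₘ (X ^ 2 - C (a : F)) with hr
  have hmk : AdjoinRoot.mk (X ^ 2 - C (a : F)) r = AdjoinRoot.mk (X ^ 2 - C (a : F)) g := by
    rw [AdjoinRoot.mk_eq_mk, hr, ← dvd_neg, neg_sub]
    refine ⟨g /ₘ (X ^ 2 - C (a : F)), ?_⟩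
    have := modByMonic_add_div g (X ^ 2 - C (a : F))
    linear_combination -this
  have hdeg : r.degree ≤ 1 := by
    have h1 := degree_modByMonic_lt g hm
    rw [degree_X_pow_sub_C two_pos] at h1
    exact Order.le_of_lt_succ h1
  have h2 := eq_X_add_C_of_degree_le_one hdeg
  set x := r.coeff 0
  set y := r.coeff 1
  have h3 : (z : AdjoinRoot (X ^ 2 - C (a : F))) =
      algebraMap F _ y * AdjoinRoot.root _ + algebraMap F _ x := by
    rw [← hg, ← hmk, h2, map_add, map_mul, AdjoinRoot.mk_X, AdjoinRoot.mk_C, AdjoinRoot.mk_C]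
    rfl
  have hy : y ≠ 0 := by
    intro hy
    rw [hy, map_zero, zero_mul, zero_add] at h3
    rw [h3, norm_scalar two_pos] at hz'
    apply hb
    have hx : x ≠ 0 := by
      rintro h
      rw [h] at hz'
      exact b.ne_zero (by rw [← hz']; ring)
    exact ⟨Units.mk0 x hx, Units.ext hz'⟩
  have h4 : (z : AdjoinRoot (X ^ 2 - C (a : F))) = algebraMap F _ (-y) *
      (algebraMap F _ (-x / y) - AdjoinRoot.root _) := by
    rw [h3, mul_sub, ← map_mul]
    have : -y * (-x / y) = x := by field_simp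
    rw [this, map_neg]
    ring
  rw [h4, map_mul, norm_scalar two_pos, norm_sub_root two_pos] at hz'
  -- `b = x² - a y²`
  have h5 : (b : F) = x ^ 2 - a * y ^ 2 := by
    rw [← hz']
    field_simp
  have h6 : (Units.mk0 (y⁻¹) (inv_ne_zero hy) ^ 2 : Fˣ) ∈ nmG 2 b := pow_mem_nmG two_pos _ _
  have h7 : (x ^ 2 - b : F) = a * y ^ 2 := by rw [h5]; ring
  have h8 : (a * Units.mk0 y hy ^ 2 : Fˣ) ∈ nmG 2 b := by
    refine mem_nmG_of two_pos (z := algebraMap F _ x - AdjoinRoot.root _) ?_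
    rw [norm_sub_root two_pos, h7, Units.val_mul, Units.val_pow_eq_pow_val, Units.val_mk0]
  have h9 := mul_mem h8 h6
  have h10 : a * Units.mk0 y hy ^ 2 * Units.mk0 (y⁻¹) (inv_ne_zero hy) ^ 2 = a := by
    ext
    push_cast
    rw [Units.val_mk0, Units.val_mk0]
    field_simp
  rwa [h10] at h9

/-- symmetry -/
theorem symm_nmG (hp : p.Prime) (hζ : ∃ ζ : F, IsPrimitiveRoot ζ p) {a b : Fˣ} (ha : a ∉ pwG F p)
    (hb : b ∉ pwG F p) (h : b ∈ nmG p a) : a ∈ nmG p b := by
  by_cases hp2 : p = 2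
  · subst hp2
    exact symm_two hb h
  · obtain ⟨ζ, hζ⟩ := hζ
    exact t_SYMM p hp hp2 F ζ hζ a b ha hb h

variable {L : Type} [Field L] [Algebra F L] [FiniteDimensional F L] [IsGalois F L]
  {σ : L ≃ₐ[F] L} {ω : F} {θ : Lˣ} {c : Fˣ}

/-- the norm group of a cyclic extension -/
theorem range_nu (hp : p.Prime) (h : CE p σ ω θ c) : (nu F L).range = nmG p c := by
  have Hc := irr hp c (c_notMem hp h)
  have := Fact.mk Hc
  let j : AdjoinRoot (X ^ p - C (c : F)) →ₐ[F] L :=
    AdjoinRoot.liftAlgHom (X ^ p - C (c : F)) (Algebra.ofId F L) (θ : L) (by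
      change aeval _ _ = _
      rw [map_sub, map_pow, aeval_X, aeval_C, h.pow, sub_self])
  have hinj : Function.Injective j := j.toRingHom.injective
  have hfin : FiniteDimensional F (AdjoinRoot (X ^ p - C (c : F))) :=
    (AdjoinRoot.powerBasis (ne0 hp.pos (c : F))).finite
  have hdim : Module.finrank F (AdjoinRoot (X ^ p - C (c : F))) = Module.finrank F L := by
    rw [h.deg, finrank_eq hp.pos]
  have hsurj : Function.Surjective j :=
    (LinearMap.injective_iff_surjective_of_finrank_eq_finrank (f := j.toLinearMap) hdim).1 hinj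
  let e : AdjoinRoot (X ^ p - C (c : F)) ≃ₐ[F] L := AlgEquiv.ofBijective j ⟨hinj, hsurj⟩
  apply le_antisymm
  · rintro _ ⟨z, rfl⟩
    refine mem_nmG_of hp.pos (z := e.symm z) ?_
    rw [nu_val, ← Algebra.norm_eq_of_algEquiv e, AlgEquiv.apply_symm_apply]
  · rintro _ ⟨z, rfl⟩
    refine ⟨Units.map e.toRingEquiv.toRingHom.toMonoidHom z, ?_⟩
    ext
    exact Algebra.norm_eq_of_algEquiv e (z : AdjoinRoot (X ^ p - C (c : F)))

/-- norms in `L(g^(1/p))` and in `F(g^(1/p))` -/
theorem proj (hp : p.Prime) {g : Fˣ} (hg : g ∉ pwG F p) {x : Lˣ}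
    (hx : x ∈ nmG p (iu F L g)) : nu F L x ∈ nmG p g := by
  obtain ⟨z, hz⟩ := hx
  have Hg := irr hp g hg
  have := Fact.mk Hg
  let A := AdjoinRoot (X ^ p - C (g : F))
  let B := AdjoinRoot (X ^ p - C ((iu F L g : Lˣ) : L))
  let j : A →ₐ[F] B :=
    AdjoinRoot.liftAlgHom (X ^ p - C (g : F)) (Algebra.ofId F B) (AdjoinRoot.root _) (by
      change aeval _ _ = _
      rw [map_sub, map_pow, aeval_X, aeval_C, root_pow, sub_eq_zero]
      rfl)
  let _ : Algebra A B := j.toRingHom.toAlgebra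
  have : IsScalarTower F A B := IsScalarTower.of_algebraMap_eq fun x => (j.commutes x).symm
  have : Module.Free L B := Module.Free.of_basis (AdjoinRoot.powerBasis (ne0 hp.pos _)).basis
  have : Module.Free A B := inferInstance
  have h1 : Algebra.norm F (Algebra.norm L (z : B)) = Algebra.norm F (z : B) := Algebra.norm_norm
  have h2 : Algebra.norm F (Algebra.norm A (z : B)) = Algebra.norm F (z : B) := Algebra.norm_norm
  have h3 : Algebra.norm L (z : B) = x := congrArg Units.val hz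
  refine mem_nmG_of hp.pos (z := Algebra.norm A (z : B)) ?_
  rw [h2, ← h1, h3, nu_val]

end nrm

end Pool.Agent.H403.Z
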