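import Mathlib
import Pool.Graph.R_pool_sql_team_seeded_b677cdb8.E8helper26.EO.Part
import Pool.Graph.R_pool_sql_team_seeded_b677cdb8.E8helper26.ETC.PVal
import Pool.Agent.H403.Z.Nrm

set_option autoImplicit false
set_option linter.unusedSectionVars false

/-! A norm-rigid class in `F` gives a partition for `L = F(c^(1/p))` and a valuation ring of `L`. -/

namespace Pool.Agent.H403.Z

open Module Pool.Agent.Y920.EP Pool.Agent.R675.TP

section val

/-- `p ∈ O*`, `1 + m ⊆ K*^p` and `O* K*^p ≠ K*` -/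
def Gd {K : Type} [Field K] (p : ℕ) (O : ValuationSubring K) : Prop :=
  Pw p O ∧ O.unitGroup ⊔ pwG K p ≠ ⊤

/-- valuation rings from partitions -/
theorem val_of_partition {p : ℕ} (hp : p.Prime) {K : Type} [Field K]
    (hζ : ∃ ζ : K, IsPrimitiveRoot ζ p) (hneg : (-1 : Kˣ) ∈ pwG K p)
    {P : Set (Subgroup Kˣ)} (hP : IsPart (pwG K p) P)
    (hsum : ∀ x v : Kˣ, x ∉ pwG K p → (v : K) = 1 + x → ∀ H ∈ P, x ∈ H → v ∈ H) :
    ∃ O : ValuationSubring K, Gd p O := by
  have hpK : (p : K) ≠ 0 := by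
    obtain ⟨ζ, hζ⟩ := hζ
    have : NeZero p := ⟨hp.ne_zero⟩
    exact hζ.neZero'.ne
  by_cases hp2 : p = 2
  · subst hp2
    have hP' : Pool.Agent.E8helper26.ETC.Ptn P :=
      ⟨hP.le, hP.cover, hP.inf, fun x v hx _ hv K hK hxK => hsum x v hx hv K hK hxK⟩
    obtain ⟨O, H, hO, hOH, hSH, hHt, -⟩ :=
      Pool.Agent.E8helper26.ETC.val_of_part hP' (by exact_mod_cast hpK) hP.ne_top
        (fun h => absurd hneg h)
    refine ⟨O, ⟨by exact_mod_cast hO.1, hpK, fun x hx hx' => ?_⟩,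
      fun e => hHt (eq_top_iff.2 ?_)⟩
    · obtain ⟨y, hy⟩ := hO.2.2 x hx hx'
      exact ⟨y, by rw [pow_two, ← hy]⟩
    · rw [← e]
      exact sup_le hOH hSH
  · obtain ⟨H, hH, O, h1, h2⟩ := Pool.Agent.E8helper26.EO.val_of_part' p hp hp2 K hpK hζ hP hsum
    refine ⟨O, h2, fun e => hP.ne_top H hH (eq_top_iff.2 ?_)⟩
    rw [← e]
    exact sup_le h1 (hP.le H hH)

end val

section rig

variable {p : ℕ} {F L : Type} [Field F] [Field L] [Algebra F L] [FiniteDimensional F L]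
  [IsGalois F L] {σ : L ≃ₐ[F] L} {ω : F} {θ : Lˣ} {c : Fˣ}

/-- the preimage of `F*^p` under the norm -/
noncomputable def HH (p : ℕ) (F L : Type) [Field F] [Field L] [Algebra F L] : Subgroup Lˣ :=
  (pwG F p).comap (nu F L)

lemma mem_HH {x : Lˣ} : x ∈ HH p F L ↔ nu F L x ∈ pwG F p := Iff.rfl

lemma pwG_le_HH : pwG L p ≤ HH p F L := by
  rintro _ ⟨x, rfl⟩
  exact ⟨nu F L x, (map_pow (nu F L) x p).symm⟩

lemma iu_mem_HH (h : CE p σ ω θ c) (g : Fˣ) : iu F L g ∈ HH p F L := by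
  rw [mem_HH, nu_iu h.deg]
  exact ⟨g, rfl⟩

lemma iu_mem_pwG [Fact p.Prime] (h : CE p σ ω θ c) (hneg : (-1 : Fˣ) ∈ pwG F p) (g : Fˣ) :
    iu F L g ∈ pwG L p ↔ g ∈ Subgroup.zpowers c ⊔ pwG F p := by
  have hc := cyc_of_CE h hneg
  rw [← cls_eq_zero, ← vmap_cls, ← LinearMap.mem_ker, hc.ker, mem_span_cls]

/-- the class of `nu x` for a norm-rigid class -/
lemma nu_cls [Fact p.Prime] (hrig : (nu F L).range ≤ Subgroup.zpowers c ⊔ pwG F p) (x : Lˣ) :
    ∃ a : ZMod p, vmap p (nu F L) (cls p x) = a • cls p c := by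
  have h1 : nu F L x ∈ Subgroup.zpowers c ⊔ pwG F p := hrig ⟨x, rfl⟩
  rw [← mem_span_cls, Submodule.mem_span_singleton] at h1
  obtain ⟨a, ha⟩ := h1
  exact ⟨a, ha.symm⟩

/-- elements outside of `H` generate modulo `F*` -/
lemma span_of_notMem [Fact p.Prime] (h : CE p σ ω θ c) (hneg : (-1 : Fˣ) ∈ pwG F p)
    (hrig : (nu F L).range ≤ Subgroup.zpowers c ⊔ pwG F p) {x : Lˣ} (hx : x ∉ HH p F L) (y : Lˣ) :
    ∃ (a : ZMod p) (g : Fˣ), cls p y = a • cls p x + cls p (iu F L g) := by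
  have hc := cyc_of_CE h hneg
  have hN : ∀ v, vmap p (nu F L) v ∈ Submodule.span (ZMod p) {cls p c} := by
    intro v
    obtain ⟨z, rfl⟩ := cls_surj v
    obtain ⟨a, ha⟩ := nu_cls hrig z
    rw [ha]
    exact Submodule.smul_mem _ _ (Submodule.mem_span_singleton_self _)
  have htop := hc.span hN
  obtain ⟨b, hb⟩ := nu_cls hrig x
  have hb0 : b ≠ 0 := by
    rintro rfl
    rw [zero_smul, vmap_cls, cls_eq_zero] at hb
    exact hx hb
  obtain ⟨a, ha⟩ := nu_cls hrig y
  have h1 : vmap p (nu F L) (cls p y - (a / b) • cls p x) = 0 := by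
    rw [map_sub, map_smul, ha, hb, smul_smul, div_mul_cancel₀ _ hb0, sub_self]
  have h2 : cls p y - (a / b) • cls p x ∈ Submodule.span (ZMod p) {cls p θ} ⊔
      LinearMap.range (vmap p (iu F L)) := by rw [htop]; trivial
  obtain ⟨u, hu, _, ⟨w, rfl⟩, huw⟩ := Submodule.mem_sup.1 h2
  obtain ⟨e, rfl⟩ := Submodule.mem_span_singleton.1 hu
  rw [← huw, map_add, map_smul, hc.nt, ← LinearMap.comp_apply, hc.nι, LinearMap.zero_apply,
    add_zero] at h1
  have he : e = 0 := by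
    rcases smul_eq_zero.1 h1 with h3 | h3
    · exact h3
    · exact absurd h3 hc.ne
  obtain ⟨g, rfl⟩ := cls_surj w
  refine ⟨a / b, g, ?_⟩
  rw [he, zero_smul, zero_add] at huw
  rw [← vmap_cls, huw]
  abel

/-- the elements outside of `H` are rigid -/
theorem rigid_of_notMem [Fact p.Prime] (h : CE p σ ω θ c) (hneg : (-1 : Fˣ) ∈ pwG F p)
    (hrig : (nu F L).range ≤ Subgroup.zpowers c ⊔ pwG F p) {x v : Lˣ} (hx : x ∉ HH p F L)
    (hv : (v : L) = 1 - x) : cls p v ∈ Submodule.span (ZMod p) {cls p x} := by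
  have hp : p.Prime := Fact.out
  have hζF : ∃ ζ : F, IsPrimitiveRoot ζ p := ⟨ω, h.prim⟩
  have hζL : ∃ ζ : L, IsPrimitiveRoot ζ p :=
    ⟨_, h.prim.map_of_injective (algebraMap F L).injective⟩
  have hnegL : (-1 : Lˣ) ∈ pwG L p := by
    obtain ⟨e, he⟩ := hneg
    refine ⟨iu F L e, ?_⟩
    have he' : e ^ p = -1 := he
    change (iu F L e) ^ p = -1
    rw [← map_pow, he']
    ext
    rw [iu_val, Units.val_neg, Units.val_one, map_neg, map_one, Units.val_neg, Units.val_one]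
  obtain ⟨a, g, hg⟩ := span_of_notMem h hneg hrig hx v
  by_cases hg1 : iu F L g ∈ pwG L p
  · rw [cls_eq_zero.2 hg1, add_zero] at hg
    rw [hg]
    exact Submodule.smul_mem _ _ (Submodule.mem_span_singleton_self _)
  exfalso
  have hgT : g ∉ pwG F p := by
    intro h1
    apply hg1
    rw [iu_mem_pwG h hneg]
    exact Subgroup.mem_sup_right h1
  have hxT : x ∉ pwG L p := fun h1 => hx (pwG_le_HH h1)
  -- `g` is a norm from `L(x^(1/p))`
  have h1 : iu F L g ∈ nmG p x := by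
    have h2 : cls p (iu F L g * x ^ a.val / v) = 0 := by
      rw [cls_div, cls_mul, hg, zmod_smul_cls]
      abel
    rw [cls_eq_zero] at h2
    have h3 := pwG_le_nmG hp.pos x h2
    have h4 := one_sub_mem hp.pos hv
    have h5 := pow_mem (self_mem_nmG hp.pos hnegL x) a.val
    have h6 := mul_mem (mul_mem h3 h4) (inv_mem h5)
    have h7 : iu F L g * x ^ a.val / v * v * (x ^ a.val)⁻¹ = iu F L g := by
      rw [div_mul_cancel, mul_inv_cancel_right]
    rwa [h7] at h6
  have h2 : x ∈ nmG p (iu F L g) := symm_nmG hp hζL hxT hg1 h1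
  have h3 := proj hp hgT h2
  -- `c` is a norm from `F(g^(1/p))`
  have h4 : c ∈ nmG p g := by
    obtain ⟨b, hb⟩ := nu_cls hrig x
    have hb0 : b ≠ 0 := by
      rintro rfl
      rw [zero_smul, vmap_cls, cls_eq_zero] at hb
      exact hx hb
    rw [vmap_cls] at hb
    have h5 : cls p c = cls p (nu F L x ^ (b⁻¹).val) := by
      rw [← zmod_smul_cls, hb, smul_smul, inv_mul_cancel₀ hb0, one_smul]
    have h6 : cls p (c / nu F L x ^ (b⁻¹).val) = 0 := by rw [cls_div, h5, sub_self]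
    rw [cls_eq_zero] at h6
    have h7 := mul_mem (pwG_le_nmG hp.pos g h6) (pow_mem h3 (b⁻¹).val)
    rwa [div_mul_cancel] at h7
  have h5 : g ∈ nmG p c := symm_nmG hp hζF hgT (c_notMem hp h) h4
  rw [← range_nu hp h] at h5
  exact hg1 ((iu_mem_pwG h hneg g).2 (hrig h5))

/-- **a norm-rigid class gives a valuation ring of `L`** -/
theorem rig_val [Fact p.Prime] (h : CE p σ ω θ c) (hneg : (-1 : Fˣ) ∈ pwG F p)
    (hrig : (nu F L).range ≤ Subgroup.zpowers c ⊔ pwG F p)
    (hbig : ∃ g : Fˣ, g ∉ Subgroup.zpowers c ⊔ pwG F p) :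
    ∃ O : ValuationSubring L, Gd p O := by
  have hp : p.Prime := Fact.out
  have hζL : ∃ ζ : L, IsPrimitiveRoot ζ p :=
    ⟨_, h.prim.map_of_injective (algebraMap F L).injective⟩
  have hnegL : (-1 : Lˣ) ∈ pwG L p := by
    obtain ⟨e, he⟩ := hneg
    refine ⟨iu F L e, ?_⟩
    have he' : e ^ p = -1 := he
    change (iu F L e) ^ p = -1
    rw [← map_pow, he']
    ext
    rw [iu_val, Units.val_neg, Units.val_one, map_neg, map_one, Units.val_neg, Units.val_one]
  have hHtop : HH p F L ≠ ⊤ := by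
    intro e
    have h1 : θ ∈ HH p F L := by rw [e]; trivial
    have hc := cyc_of_CE h hneg
    rw [mem_HH, ← cls_eq_zero, ← vmap_cls, hc.nt] at h1
    exact hc.ne h1
  -- the intersection of a cyclic part with `H`
  have hcyc : ∀ x : Lˣ, x ∉ HH p F L → ∀ y : Lˣ, y ∈ Subgroup.zpowers x ⊔ pwG L p →
      y ∈ HH p F L → y ∈ pwG L p := by
    intro x hx y hy hyH
    rw [← mem_span_cls, Submodule.mem_span_singleton] at hy
    obtain ⟨a, ha⟩ := hy
    rw [mem_HH, ← cls_eq_zero, ← vmap_cls, ← ha, map_smul, smul_eq_zero] at hyH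
    rcases hyH with h1 | h1
    · rw [← cls_eq_zero, ← ha, h1, zero_smul]
    · rw [vmap_cls, cls_eq_zero] at h1
      exact absurd h1 hx
  -- cyclic parts with a common nontrivial element
  have hcyc2 : ∀ x y : Lˣ, y ∉ pwG L p → y ∈ Subgroup.zpowers x ⊔ pwG L p →
      Subgroup.zpowers y ⊔ pwG L p = Subgroup.zpowers x ⊔ pwG L p := by
    intro x y hy hyx
    rw [← mem_span_cls, Submodule.mem_span_singleton] at hyx
    obtain ⟨a, ha⟩ := hyx
    have ha0 : a ≠ 0 := by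
      rintro rfl
      rw [zero_smul] at ha
      exact hy (cls_eq_zero.1 ha.symm)
    ext z
    rw [← mem_span_cls, ← mem_span_cls, ← ha, Submodule.mem_span_singleton,
      Submodule.mem_span_singleton]
    constructor
    · rintro ⟨b, hb⟩
      exact ⟨b * a, by rw [← hb, smul_smul]⟩
    · rintro ⟨b, hb⟩
      exact ⟨b * a⁻¹, by rw [← hb, smul_smul, mul_assoc, inv_mul_cancel₀ ha0, mul_one]⟩
  obtain ⟨P, hPdef⟩ : ∃ P : Set (Subgroup Lˣ), P = {K | K = HH p F L ∨ ∃ x : Lˣ, x ∉ HH p F L ∧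
    K = Subgroup.zpowers x ⊔ pwG L p} := ⟨_, rfl⟩
  have hP : IsPart (pwG L p) P := by
    subst hPdef
    refine ⟨?_, ?_, ?_, ?_⟩
    · rintro K (rfl | ⟨x, -, rfl⟩)
      · exact pwG_le_HH
      · exact le_sup_right
    · rintro K (rfl | ⟨x, hx, rfl⟩)
      · exact hHtop
      · intro e
        obtain ⟨g, hg⟩ := hbig
        apply hg
        rw [← iu_mem_pwG h hneg]
        exact hcyc x hx _ (by rw [e]; trivial) (iu_mem_HH h g)
    · intro x
      by_cases hx : x ∈ HH p F L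
      · exact ⟨_, Or.inl rfl, hx⟩
      · exact ⟨_, Or.inr ⟨x, hx, rfl⟩, Subgroup.mem_sup_left (Subgroup.mem_zpowers x)⟩
    · rintro K (rfl | ⟨x, hx, rfl⟩) K' (rfl | ⟨x', hx', rfl⟩) hne
      · exact absurd rfl hne
      · apply le_antisymm
        · rintro y ⟨h1, h2⟩
          exact hcyc x' hx' y h2 h1
        · exact le_inf pwG_le_HH le_sup_right
      · apply le_antisymm
        · rintro y ⟨h1, h2⟩
          exact hcyc x hx y h1 h2
        · exact le_inf le_sup_right pwG_le_HH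
      · apply le_antisymm
        · rintro y ⟨h1, h2⟩
          by_contra hy
          exact hne ((hcyc2 x y hy h1).symm.trans (hcyc2 x' y hy h2))
        · exact le_inf le_sup_right le_sup_right
  refine val_of_partition hp hζL hnegL hP ?_
  intro x v hx hv K hK hxK
  subst hPdef
  have hneg1 : ∀ z : Lˣ, cls p (-z) = cls p z := by
    intro z
    rw [← neg_one_mul, cls_mul, cls_eq_zero.2 hnegL, zero_add]
  have hnegH : ∀ z : Lˣ, -z ∈ HH p F L ↔ z ∈ HH p F L := by
    intro z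
    rw [mem_HH, mem_HH, ← cls_eq_zero, ← cls_eq_zero, ← vmap_cls, ← vmap_cls, hneg1]
  by_cases hxH : x ∈ HH p F L
  · -- `x ∈ H`
    have hKH : K = HH p F L := by
      rcases hK with rfl | ⟨y, hy, rfl⟩
      · rfl
      · exact absurd (hcyc y hy x hxK hxH) hx
    rw [hKH]
    by_contra hvH
    have h1 : ((-x : Lˣ) : L) = 1 - v := by rw [hv, Units.val_neg]; ring
    have h2 := rigid_of_notMem h hneg hrig hvH h1
    rw [hneg1, mem_span_cls] at h2
    exact hx (hcyc v hvH x h2 hxH)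
  · -- `x ∉ H`
    have h1 : (v : L) = 1 - ((-x : Lˣ) : L) := by rw [hv, Units.val_neg]; ring
    have h2 := rigid_of_notMem h hneg hrig (fun h3 => hxH ((hnegH x).1 h3)) h1
    rw [hneg1, mem_span_cls] at h2
    rcases hK with rfl | ⟨y, hy, rfl⟩
    · exact absurd hxK hxH
    · rwa [← hcyc2 y x hx hxK]

end rig

end Pool.Agent.H403.Z
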