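import Mathlib
import Pool.Agent.H403.Z.Rig

set_option autoImplicit false
set_option linter.unusedSectionVars false

/-! Descent of valuation rings in cyclic extensions of degree `p`. -/

namespace Pool.Agent.H403.Z

open Module Pool.Agent.Y920.EP

section approx

variable {L : Type} [Field L]

lemma eq_one_of_pow {Γ : Type} [LinearOrderedCommGroupWithZero Γ] {n : ℕ} (hn : n ≠ 0) {x : Γ}
    (h : x ^ n = 1) : x = 1 := by
  rcases lt_trichotomy x 1 with h1 | h1 | h1
  · exact absurd h (pow_lt_one₀ zero_le' h1 hn).ne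
  · exact h1
  · exact absurd h (one_lt_pow₀ h1 hn).ne'

lemma lt_one_iff {A : ValuationSubring L} {x : L} : A.valuation x < 1 ↔ x = 0 ∨ x⁻¹ ∉ A := by
  rw [← ValuationSubring.mem_nonunits_iff, ValuationSubring.mem_nonunits_iff_or]

lemma pw_val {p : ℕ} {A : ValuationSubring L} (hA : Pw p A) {x : L} (hx : A.valuation x < 1) :
    ∃ y : L, y ^ p = 1 + x := by
  rcases lt_one_iff.1 hx with h | h
  · exact ⟨1, by rw [h, one_pow, add_zero]⟩
  · exact hA.2.2 x ((A.valuation_le_one_iff x).1 hx.le) h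

/-- elements of the compositum of two valuation rings -/
lemma mem_sup {A B : ValuationSubring L} {y : L} (hy : y ∈ A ⊔ B) :
    ∃ b : L, B.valuation b ≤ 1 ∧ 1 ≤ A.valuation b ∧ A.valuation y ≤ A.valuation b := by
  let R : Subring L :=
    { carrier := {y | ∃ b : L, B.valuation b ≤ 1 ∧ 1 ≤ A.valuation b ∧
        A.valuation y ≤ A.valuation b}
      mul_mem' := by
        rintro x y ⟨a, h1, h2, h3⟩ ⟨b, h4, h5, h6⟩
        refine ⟨a * b, ?_, ?_, ?_⟩
        · rw [map_mul]; exact mul_le_one' h1 h4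
        · rw [map_mul]; exact one_le_mul h2 h5
        · rw [map_mul, map_mul]; exact mul_le_mul' h3 h6
      one_mem' := ⟨1, by simp, by simp, by simp⟩
      add_mem' := by
        rintro x y ⟨a, h1, h2, h3⟩ ⟨b, h4, h5, h6⟩
        refine ⟨a * b, ?_, ?_, ?_⟩
        · rw [map_mul]; exact mul_le_one' h1 h4
        · rw [map_mul]; exact one_le_mul h2 h5
        · rw [map_mul]
          refine (A.valuation.map_add x y).trans (max_le ?_ ?_)
          · exact h3.trans (le_mul_of_one_le_right' h5)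
          · exact h6.trans (le_mul_of_one_le_left' h2)
      zero_mem' := ⟨1, by simp, by simp, by simp⟩
      neg_mem' := by
        rintro x ⟨a, h1, h2, h3⟩
        exact ⟨a, h1, h2, by rwa [Valuation.map_neg]⟩ }
  have hAR : ∀ x ∈ A, x ∈ R := fun x hx =>
    ⟨1, by simp, by simp, by rw [map_one]; exact (A.valuation_le_one_iff x).2 hx⟩
  let C : ValuationSubring L := ValuationSubring.ofSubring R (fun x =>
    (A.mem_or_inv_mem x).imp (hAR x) (hAR x⁻¹))
  have hAC : A ≤ C := fun x hx => hAR x hx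
  have hBC : B ≤ C := by
    intro x hx
    change ∃ b : L, B.valuation b ≤ 1 ∧ 1 ≤ A.valuation b ∧ A.valuation x ≤ A.valuation b
    rcases le_total (A.valuation x) 1 with h | h
    · exact ⟨1, by simp, by simp, by rwa [map_one]⟩
    · exact ⟨x, (B.valuation_le_one_iff x).2 hx, h, le_rfl⟩
  exact sup_le hAC hBC hy

/-- weak approximation -/
lemma approx {A B : ValuationSubring L} (hAB : ¬ A ≤ B) (hBA : ¬ B ≤ A) {y : L} (hy0 : y ≠ 0)
    (hy : y ∈ A ⊔ B) (hy' : y⁻¹ ∈ A ⊔ B) :
    ∃ z : L, A.valuation (z - 1) < 1 ∧ B.valuation (z * y⁻¹ - 1) < 1 := by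
  obtain ⟨u, huA, huB⟩ := SetLike.not_le_iff_exists.1 hAB
  obtain ⟨w, hwB, hwA⟩ := SetLike.not_le_iff_exists.1 hBA
  rw [← ValuationSubring.valuation_le_one_iff] at huA huB hwA hwB
  rw [not_le] at huB hwA
  have hA1 : (1 : A.ValueGroup) ≠ 0 := one_ne_zero
  have hwA0 : A.valuation w ≠ 0 := (zero_lt_one.trans hwA).ne'
  have hw0 : w ≠ 0 := by
    rintro rfl
    rw [map_zero] at hwA0
    exact hwA0 rfl
  have hwB0 : B.valuation w ≠ 0 := (Valuation.ne_zero_iff _).2 hw0
  obtain ⟨b, hb1, hb2, hb3⟩ := mem_sup (A := A) (B := B) (y := y - 1)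
    (sub_mem hy (one_mem _))
  obtain ⟨a, ha1, ha2, ha3⟩ := mem_sup (A := B) (B := A) (y := 1 - y⁻¹)
    (by rw [sup_comm]; exact sub_mem (one_mem _) hy')
  have hb0 : b ≠ 0 := by
    rintro rfl
    rw [map_zero] at hb2
    exact zero_lt_one.not_ge hb2
  have ha0 : a ≠ 0 := by
    rintro rfl
    rw [map_zero] at ha2
    exact zero_lt_one.not_ge ha2
  have hbA0 : A.valuation b ≠ 0 := (Valuation.ne_zero_iff _).2 hb0
  have hbB0 : B.valuation b ≠ 0 := (Valuation.ne_zero_iff _).2 hb0
  have haB0 : B.valuation a ≠ 0 := (Valuation.ne_zero_iff _).2 ha0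
  set s : L := u * w⁻¹ with hs
  have hsA : A.valuation s < 1 := by
    rw [hs, map_mul, map_inv₀]
    have : (A.valuation w)⁻¹ < 1 := inv_lt_one_of_one_lt₀ hwA
    exact lt_of_le_of_lt (mul_le_of_le_one_left' huA) this
  have hsB : 1 < B.valuation s := by
    rw [hs, map_mul, map_inv₀]
    have h1 : 1 ≤ (B.valuation w)⁻¹ := (one_le_inv₀ (zero_lt_iff.2 hwB0)).2 hwB
    exact one_lt_mul_of_lt_of_le' huB h1
  set t : L := s * a * b⁻¹ with ht
  have htA : A.valuation t * A.valuation b < 1 := by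
    rw [ht, map_mul, map_mul, map_inv₀, mul_assoc, inv_mul_cancel₀ hbA0, mul_one]
    exact mul_lt_one_of_lt_of_le hsA ha1
  have htA1 : A.valuation t < 1 :=
    lt_of_le_of_lt (le_mul_of_one_le_right' hb2) htA
  have htB : B.valuation a < B.valuation t := by
    rw [ht, map_mul, map_mul, map_inv₀]
    have h1 : 1 ≤ (B.valuation b)⁻¹ := (one_le_inv₀ (zero_lt_iff.2 hbB0)).2 hb1
    have h2 : B.valuation a < B.valuation s * B.valuation a := by
      have := mul_lt_mul_of_pos_right hsB (zero_lt_iff.2 haB0)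
      rwa [one_mul] at this
    exact lt_of_lt_of_le h2 (le_mul_of_one_le_right' h1)
  have htB1 : 1 < B.valuation t := lt_of_le_of_lt ha2 htB
  have htB0 : B.valuation t ≠ 0 := (zero_lt_one.trans htB1).ne'
  have h1A : A.valuation (1 + t) = 1 := by
    have := Valuation.map_add_eq_of_lt_right A.valuation (x := t) (y := 1) (by rwa [map_one])
    rwa [map_one, add_comm] at this
  have h1B : B.valuation (1 + t) = B.valuation t :=
    Valuation.map_add_eq_of_lt_right B.valuation (by rwa [map_one])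
  have h10 : 1 + t ≠ 0 := by
    intro h
    rw [h, map_zero] at h1A
    exact zero_ne_one h1A
  refine ⟨1 + t / (1 + t) * (y - 1), ?_, ?_⟩
  · rw [add_sub_cancel_left, map_mul, map_div₀, h1A, div_one]
    exact lt_of_le_of_lt (mul_le_mul_right hb3 _) htA
  · have h2 : (1 + t / (1 + t) * (y - 1)) * y⁻¹ - 1 = -((1 - y⁻¹) * (1 + t)⁻¹) := by
      field_simp
      ring
    rw [h2, Valuation.map_neg, map_mul, map_inv₀, h1B]
    have h3 : B.valuation (1 - y⁻¹) < B.valuation t := lt_of_le_of_lt ha3 htB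
    rw [← div_eq_mul_inv]
    exact (div_lt_one₀ (zero_lt_iff.2 htB0)).2 h3

end approx

section stab

variable {p : ℕ} {F L : Type} [Field F] [Field L] [Algebra F L] [FiniteDimensional F L]
  [IsGalois F L] {σ : L ≃ₐ[F] L} {ω : F} {θ : Lˣ} {c : Fˣ}

/-- the conjugate valuation ring -/
def cj (σ : L ≃ₐ[F] L) (O : ValuationSubring L) : ValuationSubring L :=
  O.comap (σ : L →+* L)

lemma mem_cj {O : ValuationSubring L} {x : L} : x ∈ cj σ O ↔ σ x ∈ O := Iff.rfl

lemma iter_mem {O : ValuationSubring L} (h : ∀ x, x ∈ O → σ x ∈ O) (n : ℕ) (x : L) (hx : x ∈ O) :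
    (σ ^ n) x ∈ O := by
  induction n with
  | zero => exact hx
  | succ n ih => rw [pow_succ']; exact h _ ih

/-- a conjugate which is comparable is equal -/
lemma cj_eq (hσ : σ ^ p = 1) (hp : 0 < p) {O : ValuationSubring L}
    (h : O ≤ cj σ O ∨ cj σ O ≤ O) : cj σ O = O := by
  obtain ⟨q, rfl⟩ : ∃ q, p = q + 1 := ⟨p - 1, by omega⟩
  have key : (∀ x, x ∈ O → σ x ∈ O) → ∀ x, σ x ∈ O → x ∈ O := by
    intro h1 x hx
    have h2 := iter_mem h1 q _ hx
    rwa [← AlgEquiv.mul_apply, ← pow_succ, hσ] at h2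
  rcases h with h | h
  · exact le_antisymm (key h) h
  · -- use the inverse of `σ`
    refine le_antisymm h ?_
    intro x hx
    have h1 : ∀ (n : ℕ) (y : L), (σ ^ n) y ∈ O → y ∈ O := by
      intro n
      induction n with
      | zero => intro y hy; exact hy
      | succ n ih =>
        intro y hy
        rw [pow_succ, AlgEquiv.mul_apply] at hy
        exact h (ih _ hy)
    rw [mem_cj]
    apply h1 q
    rw [← AlgEquiv.mul_apply, ← pow_succ, hσ]
    exact hx

/-- a stable valuation ring -/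
theorem exists_stable (hp : p.Prime) (hσ : σ ^ p = 1) {O : ValuationSubring L} (hO : Gd p O) :
    ∃ O' : ValuationSubring L, Gd p O' ∧ cj σ O' = O' := by
  by_cases hcomp : O ≤ cj σ O ∨ cj σ O ≤ O
  · exact ⟨O, hO, cj_eq hσ hp.pos hcomp⟩
  push Not at hcomp
  obtain ⟨hOB, hBO⟩ := hcomp
  set B := cj σ O with hB
  have hBpw : Pw p B := by
    refine ⟨?_, hO.1.2.1, ?_⟩
    · rw [hB, mem_cj, map_inv₀, map_natCast]
      exact hO.1.1
    · intro x hx hx'
      rw [hB, mem_cj] at hx hx'
      rw [map_inv₀] at hx'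
      obtain ⟨y, hy⟩ := hO.1.2.2 _ hx hx'
      refine ⟨σ.symm y, ?_⟩
      rw [← map_pow, hy, map_add, map_one, AlgEquiv.symm_apply_apply]
  have hunits : ∀ y : Lˣ, y ∈ (O ⊔ B).unitGroup → y ∈ pwG L p := by
    intro y hy
    have h1 : (y : L) ∈ O ⊔ B := ((O ⊔ B).valuation_le_one_iff _).1 (le_of_eq hy)
    have h2 : (y : L)⁻¹ ∈ O ⊔ B := by
      rw [← ValuationSubring.valuation_le_one_iff, map_inv₀, show (O ⊔ B).valuation (y : L) = 1
        from hy, inv_one]
    obtain ⟨z, hz1, hz2⟩ := approx hOB hBO y.ne_zero h1 h2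
    obtain ⟨a, ha⟩ := pw_val hO.1 hz1
    obtain ⟨b, hb⟩ := pw_val hBpw hz2
    rw [add_sub_cancel] at ha hb
    have hz0 : z ≠ 0 := by
      rintro rfl
      rw [zero_sub, Valuation.map_neg, map_one] at hz1
      exact lt_irrefl _ hz1
    have ha0 : a ≠ 0 := by
      rintro rfl
      rw [zero_pow hp.ne_zero] at ha
      exact hz0 ha.symm
    have hb0 : b ≠ 0 := by
      rintro rfl
      rw [zero_pow hp.ne_zero] at hb
      exact mul_ne_zero hz0 (inv_ne_zero y.ne_zero) hb.symm
    refine ⟨Units.mk0 (a / b) (div_ne_zero ha0 hb0), ?_⟩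
    ext
    change ((Units.mk0 (a / b) _ ^ p : Lˣ) : L) = y
    rw [Units.val_pow_eq_pow_val, Units.val_mk0, div_pow, ha, hb]
    have := y.ne_zero
    field_simp
  have hle : O ≤ O ⊔ B := le_sup_left
  have hgd : Gd p (O ⊔ B) := by
    refine ⟨⟨hle hO.1.1, hO.1.2.1, fun x hx hx' => ?_⟩, fun e => hO.2 ?_⟩
    · have h1 : x⁻¹ ∉ O := fun h => hx' (hle h)
      exact hO.1.2.2 x ((O.mem_or_inv_mem x).resolve_right h1) h1
    · rw [eq_top_iff, ← e]
      refine sup_le ?_ le_sup_right
      intro y hy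
      exact Subgroup.mem_sup_right (hunits y hy)
  refine ⟨O ⊔ B, hgd, cj_eq hσ hp.pos ?_⟩
  -- both contain `B`
  have h1 : B ≤ cj σ (O ⊔ B) := fun x hx => hle hx
  have h2 : B ≤ O ⊔ B := le_sup_right
  by_contra hc
  push Not at hc
  obtain ⟨x, hx, hx'⟩ := SetLike.not_le_iff_exists.1 hc.1
  obtain ⟨y, hy, hy'⟩ := SetLike.not_le_iff_exists.1 hc.2
  have hx0 : x ≠ 0 := fun h => hx' (by rw [h]; exact zero_mem _)
  have hy0 : y ≠ 0 := fun h => hy' (by rw [h]; exact zero_mem _)
  rcases B.mem_or_inv_mem (x / y) with h | h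
  · apply hx'
    have h3 := mul_mem (h1 h) hy
    rwa [div_mul_cancel₀ _ hy0] at h3
  · apply hy'
    rw [inv_div] at h
    have h3 := mul_mem (h2 h) hx
    rwa [div_mul_cancel₀ _ hx0] at h3

lemma val_lt_of_stable {O : ValuationSubring L} (hst : cj σ O = O) {x : L}
    (hx : O.valuation x < 1) : O.valuation (σ x) < 1 := by
  rw [lt_one_iff] at hx ⊢
  rcases hx with h | h
  · left; rw [h, map_zero]
  · right
    intro h1
    apply h
    rw [← hst, mem_cj, map_inv₀]
    exact h1

/-- `p`-th roots of unity near `1` -/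
lemma root_eq_one {O : ValuationSubring L} (hp : p.Prime) (hpw : Pw p O) {μ : L} (h1 : μ ^ p = 1)
    (h2 : O.valuation (μ - 1) < 1) : μ = 1 := by
  have hμ : O.valuation μ = 1 := by
    have h3 : O.valuation μ ^ p = 1 := by rw [← map_pow, h1, map_one]
    exact eq_one_of_pow hp.ne_zero h3
  have hpv : O.valuation (p : L) = 1 := by
    apply le_antisymm
    · rw [ValuationSubring.valuation_le_one_iff]
      exact natCast_mem O p
    · have h3 := (O.valuation_le_one_iff _).2 hpw.1
      rw [map_inv₀] at h3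
      have h4 : O.valuation (p : L) ≠ 0 := (Valuation.ne_zero_iff _).2 hpw.2.1
      exact (inv_le_one₀ (zero_lt_iff.2 h4)).1 h3
  have h3 : ∀ i : ℕ, O.valuation (μ ^ i - 1) < 1 := by
    intro i
    induction i with
    | zero => simp
    | succ i ih =>
      have h4 : μ ^ (i + 1) - 1 = μ ^ i * (μ - 1) + (μ ^ i - 1) := by ring
      rw [h4]
      refine Valuation.map_add_lt _ ?_ ih
      rw [map_mul, map_pow, hμ, one_pow, one_mul]
      exact h2
  have h4 : O.valuation (∑ i ∈ Finset.range p, μ ^ i) = 1 := by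
    have h5 : ∑ i ∈ Finset.range p, μ ^ i = (p : L) + ∑ i ∈ Finset.range p, (μ ^ i - 1) := by
      rw [Finset.sum_sub_distrib, Finset.sum_const, Finset.card_range, nsmul_eq_mul, mul_one]
      ring
    have h6 : O.valuation (∑ i ∈ Finset.range p, (μ ^ i - 1)) < 1 :=
      Valuation.map_sum_lt _ one_ne_zero fun i _ => h3 i
    rw [h5, Valuation.map_add_eq_of_lt_left _ (by rwa [hpv]), hpv]
  have h5 := mul_geom_sum μ p
  rw [h1, sub_self] at h5
  rcases mul_eq_zero.1 h5 with h6 | h6
  · exact sub_eq_zero.1 h6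
  · rw [h6, map_zero] at h4
    exact absurd h4 zero_ne_one

/-- units and conjugates -/
lemma div_mem_unit (h : CE p σ ω θ c) {O : ValuationSubring L} (hst : cj σ O = O)
    (x : Lˣ) : su σ x / x ∈ O.unitGroup := by
  have hp0 : 0 < p := by
    rw [← h.deg]
    exact Module.finrank_pos
  obtain ⟨q, rfl⟩ : ∃ q, p = q + 1 := ⟨p - 1, by omega⟩
  have hmem : ∀ u : L, u ∈ O → ∀ n : ℕ, (σ ^ n) u ∈ O := by
    intro u hu n
    exact iter_mem (fun x hx => by rw [← hst] at hx; exact hx) n u hu
  have hnorm : ∀ u : L, Algebra.norm F u = 1 → u ∈ O → u⁻¹ ∈ O := by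
    intro u hu huO
    have h1 := norm_prod h u
    rw [hu, map_one, Finset.prod_range_succ', pow_zero] at h1
    have hu0 : u ≠ 0 := by
      rintro rfl
      rw [Algebra.norm_zero] at hu
      exact zero_ne_one hu
    have h2 : u⁻¹ = ∏ k ∈ Finset.range q, (σ ^ (k + 1)) u := by
      rw [inv_eq_iff_eq_inv, ← mul_eq_one_iff_eq_inv₀ ?_, mul_comm]
      · exact h1.symm
      · intro h0
        rw [h0, zero_mul] at h1
        exact one_ne_zero h1
    rw [h2]
    exact prod_mem fun k _ => hmem u huO _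
  set u : L := σ x / x with hu
  have hx0 := x.ne_zero
  have hσx0 : σ (x : L) ≠ 0 := (map_ne_zero_iff σ σ.injective).2 hx0
  have hN : Algebra.norm F u = 1 := by
    have h1 : nu F L (su σ x / x) = 1 := by rw [map_div, nu_su, div_self']
    have h2 := congrArg Units.val h1
    rwa [nu_val, Units.val_div_eq_div_val, su_val, Units.val_one] at h2
  have hu0 : u ≠ 0 := div_ne_zero hσx0 hx0
  have hboth : u ∈ O ∧ u⁻¹ ∈ O := by
    rcases O.mem_or_inv_mem u with h1 | h1
    · exact ⟨h1, hnorm u hN h1⟩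
    · have h2 := hnorm u⁻¹ (by rw [Algebra.norm_inv, hN, inv_one]) h1
      rw [inv_inv] at h2
      exact ⟨h2, h1⟩
  have h1 : O.valuation u ≤ 1 := (O.valuation_le_one_iff _).2 hboth.1
  have h2 : O.valuation u⁻¹ ≤ 1 := (O.valuation_le_one_iff _).2 hboth.2
  rw [map_inv₀] at h2
  have h3 : O.valuation u ≠ 0 := (Valuation.ne_zero_iff _).2 hu0
  have h4 : 1 ≤ O.valuation u := (inv_le_one₀ (zero_lt_iff.2 h3)).1 h2
  change O.valuation ((su σ x / x : Lˣ) : L) = 1
  rw [Units.val_div_eq_div_val, su_val]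
  exact le_antisymm h1 h4

/-- **descent** -/
theorem desc (hp : p.Prime) (h : CE p σ ω θ c) {O : ValuationSubring L} (hO : Gd p O) :
    ∃ O' : ValuationSubring F, Gd p O' := by
  have hσ : σ ^ p = 1 := by
    have := pow_orderOf_eq_one σ
    rwa [order_p h] at this
  obtain ⟨O, hO, hst⟩ := exists_stable hp hσ hO
  have hpF : (p : F) ≠ 0 := by
    intro h0
    apply hO.1.2.1
    rw [← map_natCast (algebraMap F L), h0, map_zero]
  have : NeZero p := ⟨hp.ne_zero⟩
  have hωL : IsPrimitiveRoot (algebraMap F L ω) p := h.prim.map_of_injective (algebraMap F L).injective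
  refine ⟨O.comap (algebraMap F L), ⟨?_, hpF, ?_⟩, ?_⟩
  · rw [ValuationSubring.mem_comap, map_inv₀, map_natCast]
    exact hO.1.1
  · intro x hx hx'
    rw [ValuationSubring.mem_comap] at hx hx'
    rw [map_inv₀] at hx'
    have hvx : O.valuation (algebraMap F L x) < 1 := lt_one_iff.2 (Or.inr hx')
    obtain ⟨y, hy⟩ := hO.1.2.2 _ hx hx'
    have h1 : O.valuation (1 + algebraMap F L x) = 1 := by
      have := Valuation.map_add_eq_of_lt_right O.valuation (x := algebraMap F L x) (y := 1)
        (by rwa [map_one])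
      rwa [map_one, add_comm] at this
    -- a root near 1
    have h2 : ∃ ζ : L, ζ ^ p = 1 ∧ O.valuation (y - ζ) < 1 := by
      by_contra hc
      push Not at hc
      have h3 := hωL.pow_sub_pow_eq_prod_sub_mul y 1 hp.pos
      rw [hy, one_pow, add_sub_cancel_left] at h3
      have h4 : 1 ≤ O.valuation (∏ ζ ∈ Polynomial.nthRootsFinset p (1 : L), (y - ζ * 1)) := by
        rw [map_prod]
        refine Finset.one_le_prod' fun ζ hζ => ?_
        rw [mul_one]
        exact hc ζ ((Polynomial.mem_nthRootsFinset hp.pos (1 : L)).1 hζ)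
      rw [← h3] at h4
      exact absurd hvx (not_lt.2 h4)
    obtain ⟨ζ, hζ1, hζ2⟩ := h2
    have hζ0 : ζ ≠ 0 := by
      rintro rfl
      rw [zero_pow hp.ne_zero] at hζ1
      exact zero_ne_one hζ1
    have hζv : O.valuation ζ = 1 := by
      have h3 : O.valuation ζ ^ p = 1 := by rw [← map_pow, hζ1, map_one]
      exact eq_one_of_pow hp.ne_zero h3
    set z := y / ζ with hz
    have hz1 : O.valuation (z - 1) < 1 := by
      have : z - 1 = (y - ζ) / ζ := by rw [hz]; field_simp
      rw [this, map_div₀, hζv, div_one]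
      exact hζ2
    have hzp : z ^ p = 1 + algebraMap F L x := by rw [hz, div_pow, hζ1, div_one, hy]
    have hz0 : z ≠ 0 := by
      intro h0
      rw [h0, zero_pow hp.ne_zero] at hzp
      rw [← hzp, map_zero] at h1
      exact zero_ne_one h1
    have hzv : O.valuation z = 1 := by
      have := Valuation.map_add_eq_of_lt_right O.valuation (x := z - 1) (y := 1)
        (by rwa [map_one])
      rwa [sub_add_cancel, map_one] at this
    have hμ : σ z / z = 1 := by
      refine root_eq_one hp hO.1 ?_ ?_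
      · rw [div_pow, ← map_pow, hzp, map_add, map_one, AlgEquiv.commutes, div_self]
        rw [← hzp]
        exact pow_ne_zero _ hz0
      · have h3 : σ z / z - 1 = ((σ (z - 1)) - (z - 1)) / z := by
          rw [map_sub, map_one]
          field_simp
          ring
        rw [h3, map_div₀, hzv, div_one]
        exact Valuation.map_sub_lt _ (val_lt_of_stable hst hz1) hz1
    have hfix : σ z = z := by
      field_simp at hμ
      exact hμ
    obtain ⟨g, hg⟩ := mem_of_fix h.gen hfix
    refine ⟨g, (algebraMap F L).injective ?_⟩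
    rw [map_pow, hg, hzp, map_add, map_one]
  · intro e
    apply hO.2
    rw [eq_top_iff]
    intro x _
    have hiu : ∀ g : Fˣ, ∃ k : Fˣ, iu F L g / (iu F L k) ^ p ∈ O.unitGroup := by
      intro g
      have hg : g ∈ (O.comap (algebraMap F L)).unitGroup ⊔ pwG F p := by rw [e]; trivial
      obtain ⟨u, hu, _, ⟨k, rfl⟩, rfl⟩ := Subgroup.mem_sup.1 hg
      refine ⟨k, ?_⟩
      have h1 : iu F L (u * (powMonoidHom p) k) / iu F L k ^ p = iu F L u := by
        rw [map_mul, powMonoidHom_apply, map_pow, mul_div_cancel_right]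
      rw [h1]
      have hu1 : (u : F) ∈ O.comap (algebraMap F L) :=
        ((O.comap (algebraMap F L)).valuation_le_one_iff _).1 (le_of_eq hu)
      have hu2 : (u : F)⁻¹ ∈ O.comap (algebraMap F L) := by
        rw [← ValuationSubring.valuation_le_one_iff, map_inv₀,
          show (O.comap (algebraMap F L)).valuation (u : F) = 1 from hu, inv_one]
      rw [ValuationSubring.mem_comap] at hu1 hu2
      rw [map_inv₀, ← ValuationSubring.valuation_le_one_iff, map_inv₀] at hu2
      rw [← ValuationSubring.valuation_le_one_iff] at hu1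
      have h3 : O.valuation (algebraMap F L u) ≠ 0 :=
        (Valuation.ne_zero_iff _).2 ((_root_.map_ne_zero _).2 u.ne_zero)
      exact le_antisymm hu1 ((inv_le_one₀ (zero_lt_iff.2 h3)).1 hu2)
    have hit : ∀ i : ℕ, (su σ)^[i] x / x ∈ O.unitGroup := by
      intro i
      induction i with
      | zero => rw [Function.iterate_zero_apply, div_self']; exact one_mem _
      | succ i ih =>
        rw [Function.iterate_succ_apply']
        have h1 : su σ ((su σ)^[i] x) / x = (su σ ((su σ)^[i] x) / (su σ)^[i] x) *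
            ((su σ)^[i] x / x) := by rw [div_mul_div_cancel]
        rw [h1]
        exact mul_mem (div_mem_unit h hst _) ih
    have hprod : iu F L (nu F L x) = ∏ i ∈ Finset.range p, (su σ)^[i] x := by
      ext
      rw [iu_val, nu_val, norm_prod h, Units.coe_prod]
      exact Finset.prod_congr rfl fun i _ => (su_pow_val σ x i).symm
    have h1 : iu F L (nu F L x) / x ^ p ∈ O.unitGroup := by
      have h2 : iu F L (nu F L x) / x ^ p = ∏ i ∈ Finset.range p, ((su σ)^[i] x / x) := by
        rw [hprod, Finset.prod_div_distrib, Finset.prod_const, Finset.card_range]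
      rw [h2]
      exact prod_mem fun i _ => hit i
    obtain ⟨k, hk⟩ := hiu (nu F L x)
    have h2 : (x / iu F L k) ^ p ∈ O.unitGroup := by
      have h3 := div_mem hk h1
      have h4 : iu F L (nu F L x) / iu F L k ^ p / (iu F L (nu F L x) / x ^ p) =
          (x / iu F L k) ^ p := by
        rw [div_pow, div_div_div_cancel_left]
      rwa [h4] at h3
    have h3 : x / iu F L k ∈ O.unitGroup := by
      have h4 : O.valuation (((x / iu F L k) ^ p : Lˣ) : L) = 1 := h2
      rw [Units.val_pow_eq_pow_val, map_pow] at h4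
      exact eq_one_of_pow hp.ne_zero h4
    obtain ⟨k', hk'⟩ := hiu k
    have h4 : x = (x / iu F L k) * (iu F L k / iu F L k' ^ p) * (iu F L k') ^ p := by
      rw [div_mul_div_cancel, div_mul_cancel]
    rw [h4]
    exact mul_mem (Subgroup.mem_sup_left (mul_mem h3 hk')) (Subgroup.mem_sup_right ⟨_, rfl⟩)

end stab

end Pool.Agent.H403.Z
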