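import Mathlib
import Pool.Agent.H403.Z.Desc

set_option autoImplicit false
set_option linter.unusedSectionVars false

/-! Towers of cyclic extensions of degree `p`. -/

namespace Pool.Agent.H403.Z

open Module Pool.Agent.Y920.EP Polynomial

section iso

variable {p : ℕ} {K K' : Type} [Field K] [Field K']

/-- there is a valuation ring with `p ∈ O*`, `1 + m ⊆ K*^p` and `O* K*^p ≠ K*` -/
def Good (K : Type) [Field K] (p : ℕ) : Prop := ∃ O : ValuationSubring K, Gd p O

/-- `K*/K*^p` has at least `p²` elements -/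
def Big (K : Type) [Field K] (p : ℕ) : Prop := (pwG K p).index ≠ 1 ∧ (pwG K p).index ≠ p

lemma map_pwG (e : K ≃+* K') : (pwG K p).map (Units.mapEquiv e.toMulEquiv).toMonoidHom =
    pwG K' p := by
  apply le_antisymm
  · rintro _ ⟨_, ⟨x, rfl⟩, rfl⟩
    exact ⟨Units.mapEquiv e.toMulEquiv x, (map_pow (Units.mapEquiv e.toMulEquiv) x p).symm⟩
  · rintro _ ⟨x, rfl⟩
    refine ⟨(powMonoidHom p) ((Units.mapEquiv e.toMulEquiv).symm x), ⟨_, rfl⟩, ?_⟩
    change Units.mapEquiv e.toMulEquiv (((Units.mapEquiv e.toMulEquiv).symm x) ^ p) = x ^ p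
    rw [map_pow, MulEquiv.apply_symm_apply]

lemma index_iso (e : K ≃+* K') : (pwG K p).index = (pwG K' p).index := by
  rw [← map_pwG e]
  exact (Subgroup.index_map_equiv (pwG K p) (Units.mapEquiv e.toMulEquiv)).symm

lemma good_iso (e : K ≃+* K') (h : Good K p) : Good K' p := by
  obtain ⟨O, hO, hne⟩ := h
  refine ⟨O.comap (e.symm : K' →+* K), ⟨?_, ?_, ?_⟩, ?_⟩
  · rw [ValuationSubring.mem_comap, map_inv₀, map_natCast]
    exact hO.1
  · intro h0
    apply hO.2.1
    have := congrArg e.symm h0
    rwa [map_natCast, map_zero] at this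
  · intro x hx hx'
    rw [ValuationSubring.mem_comap] at hx hx'
    rw [map_inv₀] at hx'
    obtain ⟨y, hy⟩ := hO.2.2 _ hx hx'
    refine ⟨e y, ?_⟩
    rw [← map_pow, hy, map_add, map_one]
    simp
  · intro htop
    apply hne
    rw [eq_top_iff]
    intro x _
    have h1 : Units.mapEquiv e.toMulEquiv x ∈
        (O.comap (e.symm : K' →+* K)).unitGroup ⊔ pwG K' p := by rw [htop]; trivial
    obtain ⟨u, hu, t, ht, hut⟩ := Subgroup.mem_sup.1 h1
    rw [← map_pwG e] at ht
    obtain ⟨t, ht, rfl⟩ := ht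
    have h2 : x = (Units.mapEquiv e.toMulEquiv).symm u * t := by
      apply (Units.mapEquiv e.toMulEquiv).injective
      rw [map_mul, MulEquiv.apply_symm_apply]
      exact hut.symm
    rw [h2]
    refine mul_mem (Subgroup.mem_sup_left ?_) (Subgroup.mem_sup_right ht)
    have hu1 : (u : K') ∈ O.comap (e.symm : K' →+* K) :=
      ((O.comap (e.symm : K' →+* K)).valuation_le_one_iff _).1 (le_of_eq hu)
    have hu2 : (u : K')⁻¹ ∈ O.comap (e.symm : K' →+* K) := by
      rw [← ValuationSubring.valuation_le_one_iff, map_inv₀,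
        show (O.comap (e.symm : K' →+* K)).valuation (u : K') = 1 from hu, inv_one]
    rw [ValuationSubring.mem_comap] at hu1 hu2
    rw [map_inv₀, ← ValuationSubring.valuation_le_one_iff, map_inv₀] at hu2
    rw [← ValuationSubring.valuation_le_one_iff] at hu1
    have h3 : O.valuation ((e.symm : K' →+* K) u) ≠ 0 :=
      (Valuation.ne_zero_iff _).2 ((_root_.map_ne_zero _).2 u.ne_zero)
    exact le_antisymm hu1 ((inv_le_one₀ (zero_lt_iff.2 h3)).1 hu2)

end iso

section step

variable {p : ℕ} {F L : Type} [Field F] [Field L] [Algebra F L] [FiniteDimensional F L]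
  [IsGalois F L]

lemma exists_of_big [Fact p.Prime] (hbig : Big F p) {c : Fˣ} (hc : c ∉ pwG F p) :
    ∃ g : Fˣ, g ∉ Subgroup.zpowers c ⊔ pwG F p := by
  by_contra hcon
  push Not at hcon
  have h1 : Submodule.span (ZMod p) {cls p c} = ⊤ := by
    rw [eq_top_iff]
    intro v _
    obtain ⟨g, rfl⟩ := cls_surj v
    exact mem_span_cls.2 (hcon g)
  have h0 : cls p c ≠ 0 := fun h => hc (cls_eq_zero.1 h)
  have h2 : finrank (ZMod p) (VS F p) = 1 := by
    rw [← finrank_top, ← h1, finrank_span_singleton h0]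
  have : FiniteDimensional (ZMod p) (VS F p) := Module.finite_of_finrank_pos (by rw [h2]; exact one_pos)
  apply hbig.2
  rw [index_of_fin, h2, pow_one]

/-- a norm-rigid class in `F` -/
theorem good_of_rigid_step [Fact p.Prime] {σ : L ≃ₐ[F] L} {ω : F} {θ : Lˣ} {c : Fˣ}
    (h : CE p σ ω θ c) (hneg : (-1 : Fˣ) ∈ pwG F p)
    (hrig : (nu F L).range ≤ Subgroup.zpowers c ⊔ pwG F p) (hbig : Big F p) : Good F p := by
  have hp : p.Prime := Fact.out
  obtain ⟨O, hO⟩ := rig_val h hneg hrig (exists_of_big hbig (c_notMem hp h))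
  exact desc hp h hO

/-- **a norm-rigid class gives a valuation ring** -/
theorem good_of_rigid [Fact p.Prime] (hζ : ∃ ζ : F, IsPrimitiveRoot ζ p)
    (hneg : (-1 : Fˣ) ∈ pwG F p) (hbig : Big F p) {c : Fˣ} (hc : c ∉ pwG F p)
    (hrig : nmG p c ≤ Subgroup.zpowers c ⊔ pwG F p) : Good F p := by
  have hp : p.Prime := Fact.out
  have Hc := Pool.Agent.Y349.EP.irr hp c hc
  have := Fact.mk Hc
  obtain ⟨ζ, hζ⟩ := hζ
  have hne : (primitiveRoots p F).Nonempty := ⟨ζ, (mem_primitiveRoots hp.pos).mpr hζ⟩
  have := isSplittingField_AdjoinRoot_X_pow_sub_C hne Hc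
  have hgal := isGalois_of_isSplittingField_X_pow_sub_C hne Hc (AdjoinRoot (X ^ p - C (c : F)))
  have hfd : FiniteDimensional F (AdjoinRoot (X ^ p - C (c : F))) :=
    (AdjoinRoot.powerBasis (Pool.Agent.Y349.EP.ne0 hp.pos (c : F))).finite
  have hdeg : Module.finrank F (AdjoinRoot (X ^ p - C (c : F))) = p :=
    Pool.Agent.Y349.EP.finrank_eq hp.pos _
  obtain ⟨σ, ω, θ, c', h⟩ := exists_CE hp hdeg ⟨ζ, hζ⟩
  refine good_of_rigid_step h hneg ?_ hbig
  have h1 : (nu F (AdjoinRoot (X ^ p - C (c : F)))).range = nmG p c := rfl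
  rw [h1]
  refine hrig.trans (sup_le ?_ le_sup_right)
  rw [Subgroup.zpowers_le, ← iu_mem_pwG h hneg]
  have hr0 : AdjoinRoot.root (X ^ p - C (c : F)) ≠ 0 := by
    intro h0
    have h2 := Pool.Agent.Y349.EP.root_pow (p := p) (c : F)
    rw [h0, zero_pow hp.ne_zero] at h2
    exact (_root_.map_ne_zero _).2 c.ne_zero h2.symm
  refine ⟨Units.mk0 _ hr0, Units.ext ?_⟩
  exact Pool.Agent.Y349.EP.root_pow (p := p) (c : F)

/-- the growth in one step -/
theorem growth_step [Fact p.Prime] (hL : Module.finrank F L = p)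
    (hζ : ∃ ζ : F, IsPrimitiveRoot ζ p) (hneg : (-1 : Fˣ) ∈ pwG F p) (hbig : Big F p)
    (hfin : (pwG F p).index ≠ 0) :
    Good F p ∨ p ^ (p - 1) * (pwG F p).index ≤ (pwG L p).index := by
  have hp : p.Prime := Fact.out
  obtain ⟨σ, ω, θ, c, h⟩ := exists_CE hp hL hζ
  have hc := cyc_of_CE h hneg
  have := (card_VS hfin).2
  have := hc.fin
  by_cases hd : finrank (ZMod p) (LinearMap.range (vmap p (nu F L))) ≤ 1
  · left
    refine good_of_rigid_step h hneg ?_ hbig
    rintro _ ⟨x, rfl⟩
    rw [← mem_span_cls]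
    have h1 : Submodule.span (ZMod p) {cls p c} ≤ LinearMap.range (vmap p (nu F L)) := by
      rw [Submodule.span_le]
      rintro y hy
      rw [Set.mem_singleton_iff] at hy
      rw [hy]
      exact ⟨_, hc.nt⟩
    have h2 : Submodule.span (ZMod p) {cls p c} = LinearMap.range (vmap p (nu F L)) :=
      Submodule.eq_of_le_of_finrank_le h1 (by rw [finrank_span_singleton hc.ne]; exact hd)
    rw [h2]
    exact ⟨cls p x, vmap_cls _ _⟩
  · right
    have h1 := hc.growth hp.two_le
    rw [index_of_fin (K := F), index_of_fin (K := L), ← pow_add]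
    refine Nat.pow_le_pow_right hp.pos ?_
    have h2 : (p - 1) * 1 ≤ (p - 1) *
        (finrank (ZMod p) (LinearMap.range (vmap p (nu F L))) - 1) :=
      Nat.mul_le_mul_left _ (by omega)
    omega

theorem big_step [Fact p.Prime] (hL : Module.finrank F L = p)
    (hζ : ∃ ζ : F, IsPrimitiveRoot ζ p) (hneg : (-1 : Fˣ) ∈ pwG F p) (hbig : Big F p) :
    Big L p := by
  have hp : p.Prime := Fact.out
  obtain ⟨σ, ω, θ, c, h⟩ := exists_CE hp hL hζ
  have hc := cyc_of_CE h hneg
  by_cases hfin : (pwG F p).index = 0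
  · have h0 : (pwG L p).index = 0 := by
      by_contra hne
      have h1 := (card_VS hne).2
      have h2 : FiniteDimensional (ZMod p) (LinearMap.ker (vmap p (iu F L))) := by
        rw [hc.ker]
        infer_instance
      have h3 : FiniteDimensional (ZMod p) (VS F p ⧸ LinearMap.ker (vmap p (iu F L))) :=
        Module.Finite.equiv (LinearMap.quotKerEquivRange (vmap p (iu F L))).symm
      have h4 : FiniteDimensional (ZMod p) (VS F p) :=
        Module.Finite.of_submodule_quotient (LinearMap.ker (vmap p (iu F L)))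
      rw [index_of_fin] at hfin
      exact pow_ne_zero _ hp.ne_zero hfin
    rw [Big, h0]
    exact ⟨zero_ne_one, hp.ne_zero.symm⟩
  · have := (card_VS hfin).2
    have := hc.fin
    have h1 := hc.growth hp.two_le
    have h2 : 2 ≤ finrank (ZMod p) (VS F p) := by
      by_contra hlt
      have h3 : finrank (ZMod p) (VS F p) = 0 ∨ finrank (ZMod p) (VS F p) = 1 := by omega
      rcases h3 with h3 | h3
      · apply hbig.1
        rw [index_of_fin, h3, pow_zero]
      · apply hbig.2
        rw [index_of_fin, h3, pow_one]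
    have h3 : 2 ≤ finrank (ZMod p) (VS L p) := by omega
    rw [Big, index_of_fin]
    constructor
    · exact (Nat.one_lt_pow (by omega) hp.one_lt).ne'
    · have h4 : p ^ 1 < p ^ finrank (ZMod p) (VS L p) := Nat.pow_lt_pow_right hp.one_lt (by omega)
      rw [pow_one] at h4
      exact h4.ne'

theorem good_step [Fact p.Prime] (hL : Module.finrank F L = p)
    (hζ : ∃ ζ : F, IsPrimitiveRoot ζ p) (hgood : Good L p) : Good F p := by
  have hp : p.Prime := Fact.out
  obtain ⟨σ, ω, θ, c, h⟩ := exists_CE hp hL hζ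
  obtain ⟨O, hO⟩ := hgood
  exact desc hp h hO

end step

section tower

variable {p : ℕ} {F N : Type} [Field F] [Field N] [Algebra F N] [FiniteDimensional F N]
  [IsGalois F N]

open IntermediateField

/-- a subextension of degree `p` -/
theorem exists_below [Fact p.Prime] {k : ℕ} (hN : Module.finrank F N = p ^ k)
    (K : IntermediateField F N) (hK : K ≠ ⊥) :
    ∃ (K₁ : IntermediateField F N) (h : K₁ ≤ K), Module.finrank K₁ (extendScalars h) = p ∧
      IsGalois K₁ (extendScalars h) ∧ Module.finrank F K = p * Module.finrank F K₁ := by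
  have hp : p.Prime := Fact.out
  have hcard : Nat.card (N ≃ₐ[F] N) = p ^ k := by rw [IsGalois.card_aut_eq_finrank, hN]
  set H := K.fixingSubgroup with hH
  have hHK : fixedField H = K := IsGalois.fixedField_fixingSubgroup K
  obtain ⟨j, hjk, hj⟩ : ∃ j ≤ k, Nat.card H = p ^ j := by
    have h1 : Nat.card H ∣ p ^ k := hcard ▸ Subgroup.card_subgroup_dvd_card H
    exact (Nat.dvd_prime_pow hp).1 h1
  have hjlt : j < k := by
    refine lt_of_le_of_ne hjk fun e => hK ?_
    have h1 : H = ⊤ := by
      apply Subgroup.eq_top_of_card_eq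
      rw [hj, hcard, e]
    rw [← hHK, h1, IsGalois.fixedField_top]
  obtain ⟨H', hH', hle⟩ := Sylow.exists_subgroup_card_pow_succ (p := p) (n := j)
    (by rw [hcard]; exact pow_dvd_pow p hjlt) hj
  set K₁ := fixedField H' with hK₁
  have hKK : K₁ ≤ K := by
    rw [← hHK]
    intro x hx
    rw [mem_fixedField_iff] at hx ⊢
    exact fun f hf => hx f (hle hf)
  have hNK : finrank K N = p ^ j := by
    rw [← hj, ← finrank_fixedField_eq_card H, hHK]
  have hNK₁ : finrank K₁ N = p ^ (j + 1) := by
    rw [← hH', ← finrank_fixedField_eq_card H']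
  have hrel : finrank K₁ (extendScalars hKK) = p := by
    have h1 := relfinrank_mul_finrank_top hKK
    rw [relfinrank_eq_finrank_of_le hKK, hNK, hNK₁, pow_succ'] at h1
    exact Nat.eq_of_mul_eq_mul_right (pow_pos hp.pos j) h1
  refine ⟨K₁, hKK, hrel, ?_, ?_⟩
  · have hgal : IsGalois K₁ N := inferInstance
    refine (InfiniteGalois.normal_iff_isGalois (extendScalars hKK)).1 ?_
    apply Subgroup.normal_of_index_eq_minFac_card
    rw [← finrank_eq_fixingSubgroup_index, hrel, IsGalois.card_aut_eq_finrank, hNK₁,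
      hp.pow_minFac (Nat.succ_ne_zero j)]
  · have h1 := Module.finrank_mul_finrank F K N
    have h2 := Module.finrank_mul_finrank F K₁ N
    rw [hNK] at h1
    rw [hNK₁, ← h1] at h2
    have h3 : finrank F K₁ * p ^ (j + 1) = (p * finrank F K₁) * p ^ j := by ring
    rw [h3] at h2
    exact (Nat.eq_of_mul_eq_mul_right (pow_pos hp.pos j) h2).symm

/-- the tower -/
theorem tower [Fact p.Prime] {k : ℕ} (hN : Module.finrank F N = p ^ k)
    (hζ : ∃ ζ : F, IsPrimitiveRoot ζ p) (hneg : (-1 : Fˣ) ∈ pwG F p) :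
    ∀ (m : ℕ) (K : IntermediateField F N), Module.finrank F K = m →
      (Good K p → Good F p) ∧ (Big F p → Big K p) ∧
      (Big F p → (pwG F p).index ≠ 0 → Good F p ∨
        (pwG K p).index ≠ 0 ∧ m ^ (p - 1) * (pwG F p).index ≤ (pwG K p).index) := by
  have hp : p.Prime := Fact.out
  intro m
  induction m using Nat.strong_induction_on with
  | _ m ih =>
    intro K hKm
    by_cases hK : K = ⊥
    · subst hK
      let e : (⊥ : IntermediateField F N) ≃+* F := (botEquiv F N).toRingEquiv
      have hm : m = 1 := by rw [← hKm]; exact IntermediateField.finrank_bot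
      refine ⟨good_iso e, ?_, ?_⟩
      · rw [Big, Big, index_iso e]
        exact id
      · intro _ hf
        right
        rw [index_iso e, hm, one_pow, one_mul]
        exact ⟨hf, le_rfl⟩
    · obtain ⟨K₁, hle, hdeg, hgal, hm⟩ := exists_below hN K hK
      have hpos : 0 < finrank F K₁ := Module.finrank_pos
      have hlt : finrank F K₁ < m := by
        rw [← hKm, hm]
        exact lt_mul_left hpos hp.one_lt
      obtain ⟨ih1, ih2, ih3⟩ := ih _ hlt K₁ rfl
      let e : (extendScalars hle) ≃+* K :=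
        { toFun := fun x => ⟨x.1, x.2⟩
          invFun := fun x => ⟨x.1, x.2⟩
          left_inv := fun _ => rfl
          right_inv := fun _ => rfl
          map_mul' := fun _ _ => rfl
          map_add' := fun _ _ => rfl }
      have hζ₁ : ∃ ζ : K₁, IsPrimitiveRoot ζ p := by
        obtain ⟨ζ, hζ⟩ := hζ
        exact ⟨_, hζ.map_of_injective (algebraMap F K₁).injective⟩
      have hneg₁ : (-1 : K₁ˣ) ∈ pwG K₁ p := by
        obtain ⟨i, hi⟩ := hneg
        refine ⟨Units.map (algebraMap F K₁ : F →* K₁) i, ?_⟩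
        have hi' : i ^ p = -1 := hi
        change (Units.map (algebraMap F K₁ : F →* K₁) i) ^ p = -1
        rw [← map_pow, hi']
        ext
        simp
      refine ⟨fun h => ih1 (good_step hdeg hζ₁ (good_iso e.symm h)), fun h => ?_, fun h hf => ?_⟩
      · have h1 := big_step hdeg hζ₁ hneg₁ (ih2 h)
        rwa [Big, index_iso e] at h1
      · rcases ih3 h hf with h1 | ⟨h0, h1⟩
        · exact Or.inl h1
        · rcases growth_step hdeg hζ₁ hneg₁ (ih2 h) h0 with h2 | h2
          · exact Or.inl (ih1 h2)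
          · right
            rw [index_iso e] at h2
            have h3 : m ^ (p - 1) * (pwG F p).index ≤ (pwG K p).index := by
              calc m ^ (p - 1) * (pwG F p).index
                  = p ^ (p - 1) * (finrank F K₁ ^ (p - 1) * (pwG F p).index) := by
                    rw [← hKm, hm, mul_pow, mul_assoc]
                _ ≤ p ^ (p - 1) * (pwG K₁ p).index := Nat.mul_le_mul_left _ h1
                _ ≤ (pwG K p).index := h2
            refine ⟨fun h4 => ?_, h3⟩
            rw [h4] at h3
            have h5 : 0 < m ^ (p - 1) * (pwG F p).index :=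
              Nat.mul_pos (pow_pos (by omega) _) (Nat.pos_of_ne_zero hf)
            omega

end tower

end Pool.Agent.H403.Z
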