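import Mathlib
import Pool.Graph.R_seed8.R675.TP.Part
import Pool.Graph.R_pool_sql_team_seeded_b677cdb8.E8helper26.ETC.Tra
import Pool.Agent.H403.Z.Tow

set_option autoImplicit false
set_option linter.unusedSectionVars false

/-! The converse: ramified classes are norm-rigid, and their extensions have no more classes. -/

namespace Pool.Agent.H403.Z

open Module Pool.Agent.Y920.EP Polynomial

section conv

variable {p : ℕ} {F : Type} [Field F]

/-- norms for `p = 2` -/
lemma nmG_two {a b : Fˣ} (h : b ∈ nmG 2 a) : ∃ x y : F, (b : F) = x ^ 2 - a * y ^ 2 := by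
  obtain ⟨z, hz⟩ := h
  have hz' : Algebra.norm F (z : AdjoinRoot (X ^ 2 - C (a : F))) = b := congrArg Units.val hz
  obtain ⟨g, hg⟩ := AdjoinRoot.mk_surjective (z : AdjoinRoot (X ^ 2 - C (a : F)))
  have hm : (X ^ 2 - C (a : F)).Monic := monic_X_pow_sub_C _ two_ne_zero
  set r := g %ₘ (X ^ 2 - C (a : F)) with hr
  have hmk : AdjoinRoot.mk (X ^ 2 - C (a : F)) r = AdjoinRoot.mk (X ^ 2 - C (a : F)) g := by
    rw [AdjoinRoot.mk_eq_mk, hr, ← dvd_neg, neg_sub]
    refine ⟨g /ₘ (X ^ 2 - C (a : F)), ?_⟩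
    have := modByMonic_add_div g (X ^ 2 - C (a : F))
    linear_combination -this
  have hdeg : r.degree ≤ 1 := by
    have h1 := degree_modByMonic_lt g hm
    rw [degree_X_pow_sub_C two_pos] at h1
    exact Order.le_of_lt_succ h1
  have h2 := eq_X_add_C_of_degree_le_one hdeg
  set x := r.coeff 0
  set y := r.coeff 1
  have h3 : (z : AdjoinRoot (X ^ 2 - C (a : F))) =
      algebraMap F _ y * AdjoinRoot.root _ + algebraMap F _ x := by
    rw [← hg, ← hmk, h2, map_add, map_mul, AdjoinRoot.mk_X, AdjoinRoot.mk_C, AdjoinRoot.mk_C]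
    rfl
  refine ⟨x, y, ?_⟩
  by_cases hy : y = 0
  · rw [hy, map_zero, zero_mul, zero_add] at h3
    rw [h3, Pool.Agent.Y349.EP.norm_scalar two_pos] at hz'
    rw [← hz', hy]
    ring
  · have h4 : (z : AdjoinRoot (X ^ 2 - C (a : F))) = algebraMap F _ (-y) *
        (algebraMap F _ (-x / y) - AdjoinRoot.root _) := by
      rw [h3, mul_sub, ← map_mul]
      have : -y * (-x / y) = x := by field_simp
      rw [this, map_neg]
      ring
    rw [h4, map_mul, Pool.Agent.Y349.EP.norm_scalar two_pos,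
      Pool.Agent.Y349.EP.norm_sub_root two_pos] at hz'
    rw [← hz']
    field_simp

/-- ramified classes are norm-rigid -/
theorem rigid_of_good [Fact p.Prime] (hζ : ∃ ζ : F, IsPrimitiveRoot ζ p)
    (hneg : (-1 : Fˣ) ∈ pwG F p) (h : Good F p) :
    ∃ c : Fˣ, c ∉ pwG F p ∧ nmG p c ≤ Subgroup.zpowers c ⊔ pwG F p := by
  have hp : p.Prime := Fact.out
  obtain ⟨O, hO, hne⟩ := h
  obtain ⟨c, hc⟩ : ∃ c : Fˣ, c ∉ O.unitGroup ⊔ pwG F p := by
    by_contra hc
    push Not at hc
    exact hne (eq_top_iff.2 fun c _ => hc c)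
  refine ⟨c, fun h => hc (Subgroup.mem_sup_right h), ?_⟩
  by_cases hp2 : p = 2
  · subst hp2
    have hS : Pool.Agent.Y920.ETC.Sqr O := by
      refine ⟨by exact_mod_cast hO.1, by exact_mod_cast hO.2.1, fun x hx hx' => ?_⟩
      obtain ⟨y, hy⟩ := hO.2.2 x hx hx'
      exact ⟨y, by rw [← hy, pow_two]⟩
    have h1 := Pool.Agent.E8helper26.ETC.nG_ram hneg hS hc
    intro b hb
    have h2 : b ∈ Pool.Agent.Y920.ETC.nG c := nmG_two hb
    rw [h1] at h2
    exact h2
  · exact ((Pool.Agent.R675.TP.norms_of_val Pool.Agent.Y349.EP.t_NG Pool.Agent.Y349.EP.t_SYMM p hp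
      hp2 F hζ O hO).1 c hc).le

variable {L : Type} [Field L] [Algebra F L] [FiniteDimensional F L]

/-- the norm group of `F(c^(1/p))` -/
theorem range_nu' (hp : p.Prime) {θ : L} {c : Fˣ} (hc : c ∉ pwG F p)
    (hθ : θ ^ p = algebraMap F L c) (hdeg : Module.finrank F L = p) :
    (nu F L).range = nmG p c := by
  have Hc := Pool.Agent.Y349.EP.irr hp c hc
  have := Fact.mk Hc
  let j : AdjoinRoot (X ^ p - C (c : F)) →ₐ[F] L :=
    AdjoinRoot.liftAlgHom (X ^ p - C (c : F)) (Algebra.ofId F L) θ (by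
      change aeval _ _ = _
      rw [map_sub, map_pow, aeval_X, aeval_C, hθ, sub_self])
  have hinj : Function.Injective j := j.toRingHom.injective
  have hfin : FiniteDimensional F (AdjoinRoot (X ^ p - C (c : F))) :=
    (AdjoinRoot.powerBasis (Pool.Agent.Y349.EP.ne0 hp.pos (c : F))).finite
  have hdim : Module.finrank F (AdjoinRoot (X ^ p - C (c : F))) = Module.finrank F L := by
    rw [hdeg, Pool.Agent.Y349.EP.finrank_eq hp.pos]
  have hsurj : Function.Surjective j :=
    (LinearMap.injective_iff_surjective_of_finrank_eq_finrank (f := j.toLinearMap) hdim).1 hinj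
  let e : AdjoinRoot (X ^ p - C (c : F)) ≃ₐ[F] L := AlgEquiv.ofBijective j ⟨hinj, hsurj⟩
  apply le_antisymm
  · rintro _ ⟨z, rfl⟩
    refine mem_nmG_of hp.pos (z := e.symm z) ?_
    rw [nu_val, ← Algebra.norm_eq_of_algEquiv e, AlgEquiv.apply_symm_apply]
  · rintro _ ⟨z, rfl⟩
    refine ⟨Units.map e.toRingEquiv.toRingHom.toMonoidHom z, ?_⟩
    ext
    exact Algebra.norm_eq_of_algEquiv e (z : AdjoinRoot (X ^ p - C (c : F)))

/-- the extension of a norm-rigid class has no more classes -/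
theorem index_of_rigid [Fact p.Prime] [IsGalois F L] (hζ : ∃ ζ : F, IsPrimitiveRoot ζ p)
    (hneg : (-1 : Fˣ) ∈ pwG F p) (hfin : (pwG F p).index ≠ 0) {θ : L} {c : Fˣ}
    (hc : c ∉ pwG F p) (hrig : nmG p c ≤ Subgroup.zpowers c ⊔ pwG F p)
    (hθ : θ ^ p = algebraMap F L c) (hdeg : Module.finrank F L = p) :
    (pwG L p).index = (pwG F p).index := by
  have hp : p.Prime := Fact.out
  obtain ⟨σ, ω, θ', c', h⟩ := exists_CE hp hdeg hζ
  have hcy := cyc_of_CE h hneg
  have := (card_VS hfin).2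
  have := hcy.fin
  have hr : (nu F L).range ≤ Subgroup.zpowers c' ⊔ pwG F p := by
    rw [range_nu' hp hc hθ hdeg]
    refine hrig.trans (sup_le ?_ le_sup_right)
    rw [Subgroup.zpowers_le, ← iu_mem_pwG h hneg]
    have hθ0 : θ ≠ 0 := by
      rintro rfl
      rw [zero_pow hp.ne_zero] at hθ
      exact (_root_.map_ne_zero _).2 c.ne_zero hθ.symm
    exact ⟨Units.mk0 θ hθ0, Units.ext hθ⟩
  have hN : ∀ v, vmap p (nu F L) v ∈ Submodule.span (ZMod p) {cls p c'} := by
    intro v
    obtain ⟨z, rfl⟩ := cls_surj v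
    rw [vmap_cls, mem_span_cls]
    exact hr ⟨z, rfl⟩
  have htop := hcy.span hN
  have h1 : finrank (ZMod p) (VS L p) ≤ finrank (ZMod p) (VS F p) := by
    have h2 := LinearMap.finrank_range_add_finrank_ker (vmap p (iu F L))
    rw [hcy.ker, finrank_span_singleton hcy.ne] at h2
    have h3 := Submodule.finrank_add_le_finrank_add_finrank
      (Submodule.span (ZMod p) {cls p θ'}) (LinearMap.range (vmap p (iu F L)))
    rw [htop, finrank_top] at h3
    have h4 : finrank (ZMod p) (Submodule.span (ZMod p) {cls p θ'}) ≤ 1 :=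
      (finrank_span_le_card ({cls p θ'} : Set (VS L p))).trans (by simp)
    omega
  have h2 := hcy.growth hp.two_le
  have h3 : finrank (ZMod p) (VS L p) = finrank (ZMod p) (VS F p) := by omega
  rw [index_of_fin (K := L), index_of_fin (K := F), h3]

end conv

section fin

variable {p : ℕ} {F : Type} [Field F]

open IntermediateField

/-- the extension `F(c^(1/p))` in the algebraic closure -/
theorem exists_ext [Fact p.Prime] (hζ : ∃ ζ : F, IsPrimitiveRoot ζ p)
    (hneg : (-1 : Fˣ) ∈ pwG F p) (hfin : (pwG F p).index ≠ 0) {c : Fˣ}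
    (hc : c ∉ pwG F p) (hrig : nmG p c ≤ Subgroup.zpowers c ⊔ pwG F p) :
    ∃ K : IntermediateField F (AlgebraicClosure F), FiniteDimensional F K ∧ IsGalois F K ∧
      Module.finrank F K = p ∧ (pwG K p).index = (pwG F p).index := by
  have hp : p.Prime := Fact.out
  have Hc := Pool.Agent.Y349.EP.irr hp c hc
  obtain ⟨ζ, hζ⟩ := hζ
  have hne : (primitiveRoots p F).Nonempty := ⟨ζ, (mem_primitiveRoots hp.pos).mpr hζ⟩
  obtain ⟨θ, hθ⟩ := IsAlgClosed.exists_pow_nat_eq (algebraMap F (AlgebraicClosure F) c) hp.pos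
  have hint : IsIntegral F θ := Algebra.IsIntegral.isIntegral θ
  have hmin : minpoly F θ = X ^ p - C (c : F) := by
    refine (minpoly.eq_of_irreducible_of_monic Hc ?_ (monic_X_pow_sub_C _ hp.ne_zero)).symm
    rw [map_sub, map_pow, aeval_X, aeval_C, hθ, sub_self]
  have hdeg : Module.finrank F F⟮θ⟯ = p := by
    rw [adjoin.finrank hint, hmin, natDegree_X_pow_sub_C]
  have hfd : FiniteDimensional F F⟮θ⟯ := adjoin.finiteDimensional hint
  have hgal : IsGalois F F⟮θ⟯ := by
    have h2 : ∃ α : F⟮θ⟯, α ^ (Module.finrank F F⟮θ⟯) ∈ Set.range (algebraMap F F⟮θ⟯) ∧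
        F⟮α⟯ = ⊤ := by
      refine ⟨AdjoinSimple.gen F θ, ?_, ?_⟩
      · rw [hdeg]
        refine ⟨c, ?_⟩
        apply (algebraMap F⟮θ⟯ (AlgebraicClosure F)).injective
        rw [map_pow, AdjoinSimple.algebraMap_gen, hθ]
        rfl
      · have hint' : IsIntegral F (AdjoinSimple.gen F θ) := Algebra.IsIntegral.isIntegral _
        apply IntermediateField.eq_of_le_of_finrank_eq le_top
        rw [adjoin.finrank hint', minpoly_gen, hmin, natDegree_X_pow_sub_C,
          IntermediateField.finrank_top', hdeg]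
    have h3 := (isCyclic_tfae F F⟮θ⟯ (by rw [hdeg]; exact hne)).out 2 0
    exact (h3.1 h2).1
  refine ⟨F⟮θ⟯, hfd, hgal, hdeg, ?_⟩
  refine index_of_rigid ⟨ζ, hζ⟩ hneg hfin (θ := AdjoinSimple.gen F θ) hc hrig ?_ hdeg
  apply (algebraMap F⟮θ⟯ (AlgebraicClosure F)).injective
  rw [map_pow, AdjoinSimple.algebraMap_gen, hθ]
  rfl

end fin

end Pool.Agent.H403.Z
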