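import Mathlib
import Pool.Agent.H403.Z.Tow

set_option autoImplicit false
set_option linter.unusedSectionVars false

/-! Linear algebra and products for cyclic extensions of degree a power of `p`. -/

namespace Pool.Agent.H403.Z

open Module Pool.Agent.Y920.EP

section lin

variable {k M W : Type} [Field k] [AddCommGroup M] [Module k M] [AddCommGroup W] [Module k W]

/-- the growth inequality -/
theorem growth' {n : ℕ} {D : M →ₗ[k] M} {ι : W →ₗ[k] M} {N : M →ₗ[k] W} {c : W}
    (nil : D ^ n = 0) (nrm : D ^ (n - 1) = ι ∘ₗ N) (dι : D ∘ₗ ι = 0) (nι : N ∘ₗ ι = 0)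
    (nd : N ∘ₗ D = 0) (ker : LinearMap.ker ι = Submodule.span k {c}) (ne : c ≠ 0)
    (hcN : c ∈ LinearMap.range N) (hn : 2 ≤ n) [FiniteDimensional k M] [FiniteDimensional k W] :
    finrank k W + (n - 1) * (finrank k (LinearMap.range N) - 1) ≤ finrank k M := by
  set d := finrank k (LinearMap.range N) with hd
  have hspan : finrank k (Submodule.span k {c}) = 1 := finrank_span_singleton ne
  -- rank of ι
  have h1 : finrank k (LinearMap.range ι) + 1 = finrank k W := by
    have := LinearMap.finrank_range_add_finrank_ker ι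
    rwa [ker, hspan] at this
  -- rank of `D^(n-1)`
  have h2 : finrank k (LinearMap.range (D ^ (n - 1))) + 1 = d := by
    have h3 := LinearMap.finrank_range_add_finrank_ker (ι.domRestrict (LinearMap.range N))
    rw [LinearMap.range_domRestrict, ← LinearMap.range_comp, ← nrm, ← hd] at h3
    have h4 : finrank k (LinearMap.ker (ι.domRestrict (LinearMap.range N))) = 1 := by
      rw [← hspan, ← ker]
      have hle : LinearMap.ker ι ≤ LinearMap.range N := by
        rw [ker, Submodule.span_le]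
        rintro x hx
        rw [Set.mem_singleton_iff] at hx
        rw [hx]
        exact hcN
      have h5 : LinearMap.ker (ι.domRestrict (LinearMap.range N)) =
          (LinearMap.ker ι).comap (LinearMap.range N).subtype := by
        ext x
        simp [LinearMap.mem_ker]
      rw [h5]
      exact (Submodule.comapSubtypeEquivOfLe hle).finrank_eq
    omega
  have h3 := rank_pow D n (by omega) nil (n - 2) (by omega)
  have hpp : n - (n - 2) = 2 := by omega
  rw [hpp] at h3
  -- the kernel of the norm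
  set Q := LinearMap.range ι ⊔ LinearMap.range D with hQ
  have h4 : Q ≤ LinearMap.ker N := by
    refine sup_le ?_ ?_
    · rintro _ ⟨x, rfl⟩
      rw [LinearMap.mem_ker, ← LinearMap.comp_apply, nι]
      rfl
    · rintro _ ⟨x, rfl⟩
      rw [LinearMap.mem_ker, ← LinearMap.comp_apply, nd]
      rfl
  have h5 := LinearMap.finrank_range_add_finrank_ker N
  have h6 := Submodule.finrank_mono h4
  have h7 := LinearMap.finrank_range_add_finrank_ker (D.domRestrict Q)
  have h8 : LinearMap.range (D.domRestrict Q) = LinearMap.range (D ^ 2) := by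
    rw [LinearMap.range_domRestrict, hQ, Submodule.map_sup, ← LinearMap.range_comp, dι,
      LinearMap.range_zero, bot_sup_eq, ← LinearMap.range_comp, pow_two]
    rfl
  rw [h8] at h7
  have h9 : finrank k (LinearMap.range ι) ≤ finrank k (LinearMap.ker (D.domRestrict Q)) := by
    have h10 : LinearMap.range ι ≤ Q := le_sup_left
    let f : LinearMap.range ι →ₗ[k] LinearMap.ker (D.domRestrict Q) :=
      LinearMap.codRestrict _ (Submodule.inclusion h10) (fun x => by
        rw [LinearMap.mem_ker, LinearMap.domRestrict_apply]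
        obtain ⟨_, y, rfl⟩ := x
        exact congrArg (fun g : W →ₗ[k] M => g y) dι)
    refine LinearMap.finrank_le_finrank_of_injective (f := f) ?_
    intro x y hxy
    have := congrArg (fun z : LinearMap.ker (D.domRestrict Q) => ((z : Q) : M)) hxy
    exact Subtype.ext this
  set ρ := finrank k (LinearMap.range (D ^ (n - 1))) with hρ
  have h10 : d - 1 = ρ := by omega
  rw [h10]
  have h11 : (n - 1) * ρ = (n - 2) * ρ + ρ := by
    obtain ⟨q, rfl⟩ : ∃ q, n = q + 2 := ⟨n - 2, by omega⟩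
    simp only [Nat.add_sub_cancel]
    have : q + 2 - 1 = q + 1 := by omega
    rw [this]
    ring
  omega

end lin

section poly

variable {p : ℕ} [Fact p.Prime] {M : Type} [AddCommGroup M] [Module (ZMod p) M]

open Polynomial in
lemma sub_one_pow_pm (S : M →ₗ[ZMod p] M) (m : ℕ) : (S - 1) ^ p ^ m = S ^ p ^ m - 1 := by
  have h1 : (X - 1 : (ZMod p)[X]) ^ p ^ m = X ^ p ^ m - 1 := by
    rw [sub_pow_char_pow, one_pow]
  have h2 := congrArg (aeval S) h1
  simpa using h2

open Polynomial in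
lemma sub_one_pow_pm_pred (S : M →ₗ[ZMod p] M) (m : ℕ) :
    (S - 1) ^ (p ^ m - 1) = ∑ i ∈ Finset.range (p ^ m), S ^ i := by
  have hp : p.Prime := Fact.out
  have h1 : (X - 1 : (ZMod p)[X]) ^ (p ^ m - 1) = ∑ i ∈ Finset.range (p ^ m), X ^ i := by
    have h0 : (X - 1 : (ZMod p)[X]) ≠ 0 := by
      have := Polynomial.X_sub_C_ne_zero (1 : ZMod p)
      rwa [map_one] at this
    apply mul_left_cancel₀ h0
    rw [mul_geom_sum, ← pow_succ', Nat.sub_add_cancel (Nat.one_le_pow _ _ hp.pos),
      sub_pow_char_pow, one_pow]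
  have h2 := congrArg (aeval S) h1
  simpa using h2

end poly

section pq

variable {F E : Type} [Field F] [Field E] [Algebra F E]

/-- the product of the first `q` conjugates -/
noncomputable def Pq (σ : E ≃ₐ[F] E) (q : ℕ) : Eˣ →* Eˣ where
  toFun x := ∏ i ∈ Finset.range q, su (σ ^ i) x
  map_one' := by simp
  map_mul' x y := by simp [Finset.prod_mul_distrib]

lemma Pq_apply (σ : E ≃ₐ[F] E) (q : ℕ) (x : Eˣ) :
    Pq σ q x = ∏ i ∈ Finset.range q, su (σ ^ i) x := rfl

lemma su_mul (σ τ : E ≃ₐ[F] E) (x : Eˣ) : su (σ * τ) x = su σ (su τ x) := rfl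

lemma su_one (x : Eˣ) : su (1 : E ≃ₐ[F] E) x = x := rfl

lemma su_comm (σ : E ≃ₐ[F] E) (i j : ℕ) (x : Eˣ) :
    su (σ ^ i) (su (σ ^ j) x) = su (σ ^ j) (su (σ ^ i) x) := by
  rw [← su_mul, ← su_mul, ← pow_add, ← pow_add, add_comm]

lemma Pq_comm (σ : E ≃ₐ[F] E) (q j : ℕ) (x : Eˣ) :
    su (σ ^ j) (Pq σ q x) = Pq σ q (su (σ ^ j) x) := by
  rw [Pq_apply, Pq_apply, map_prod]
  exact Finset.prod_congr rfl fun i _ => su_comm σ j i x

lemma Pq_tel (σ : E ≃ₐ[F] E) (q : ℕ) (x : Eˣ) : Pq σ q (su σ x / x) = su (σ ^ q) x / x := by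
  rw [Pq_apply]
  have h1 : ∀ i ∈ Finset.range q, su (σ ^ i) (su σ x / x) =
      (fun i => su (σ ^ i) x) (i + 1) / (fun i => su (σ ^ i) x) i := by
    intro i _
    simp only [map_div]
    rw [pow_succ, su_mul]
  rw [Finset.prod_congr rfl h1]
  have h2 := Finset.prod_range_div (fun i => su (σ ^ i) x) q
  refine h2.trans ?_
  change su (σ ^ q) x / su (σ ^ 0) x = _
  rw [pow_zero, su_one]

lemma Pq_mul (σ : E ≃ₐ[F] E) (q r : ℕ) (x : Eˣ) :
    Pq σ (q * r) x = Pq σ q (Pq (σ ^ q) r x) := by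
  induction r with
  | zero => simp [Pq_apply]
  | succ r ih =>
    have h1 : Pq σ (q * (r + 1)) x = Pq σ (q * r) x * Pq σ q (su ((σ ^ q) ^ r) x) := by
      rw [Pq_apply, Pq_apply, Pq_apply, Nat.mul_succ, Finset.prod_range_add]
      congr 1
      refine Finset.prod_congr rfl fun i _ => ?_
      rw [← su_mul, ← pow_mul, ← pow_add, add_comm]
    rw [h1, ih, ← map_mul]
    congr 1
    rw [Pq_apply, Pq_apply, Finset.prod_range_succ]

lemma Pq_fix {σ : E ≃ₐ[F] E} {q : ℕ} {x : Eˣ} (h : su σ x = x) : Pq σ q x = x ^ q := by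
  have h1 : ∀ i : ℕ, su (σ ^ i) x = x := by
    intro i
    induction i with
    | zero => rfl
    | succ i ih => rw [pow_succ, su_mul, h, ih]
  rw [Pq_apply, Finset.prod_congr rfl fun i _ => h1 i, Finset.prod_const, Finset.card_range]

/-- the norm of a cyclic extension -/
lemma norm_Pq [FiniteDimensional F E] [IsGalois F E] {σ : E ≃ₐ[F] E}
    (gen : ∀ τ : E ≃ₐ[F] E, τ ∈ Subgroup.zpowers σ) {n : ℕ} (hn : Module.finrank F E = n)
    (x : Eˣ) : iu F E (nu F E x) = Pq σ n x := by
  classical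
  have ho : orderOf σ = n := by
    rw [orderOf_eq_card_of_forall_mem_zpowers gen, IsGalois.card_aut_eq_finrank, hn]
  ext
  rw [iu_val, nu_val, Pq_apply, Units.coe_prod, Algebra.norm_eq_prod_automorphisms]
  symm
  refine Finset.prod_bij (fun (i : ℕ) _ => σ ^ i) (fun _ _ => Finset.mem_univ _) ?_ ?_ ?_
  · intro i hi j hj hij
    rw [Finset.mem_range] at hi hj
    exact pow_injOn_Iio_orderOf (by rw [ho]; exact hi) (by rw [ho]; exact hj) hij
  · intro τ _
    have h1 := gen τ
    rw [mem_zpowers_iff_mem_range_orderOf, Finset.mem_image] at h1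
    obtain ⟨i, hi, hi1⟩ := h1
    rw [ho] at hi
    exact ⟨i, hi, hi1⟩
  · intro i _
    rfl

/-- Hilbert 90 for cyclic extensions -/
lemma h90' [FiniteDimensional F E] [IsGalois F E] {σ : E ≃ₐ[F] E}
    (gen : ∀ τ : E ≃ₐ[F] E, τ ∈ Subgroup.zpowers σ) {n : ℕ} (hn : Module.finrank F E = n)
    {x : Eˣ} (hx : Pq σ n x = 1) : ∃ y : Eˣ, x = su σ y / y := by
  have hcyc : IsCyclic (E ≃ₐ[F] E) := ⟨σ, gen⟩
  have h0 : nu F E x = 1 := by
    have h1 := norm_Pq gen hn x
    rw [hx] at h1
    have h2 : (algebraMap F E) (nu F E x : Fˣ) = algebraMap F E (1 : F) := by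
      rw [map_one, ← iu_val, h1, Units.val_one]
    exact Units.ext ((algebraMap F E).injective h2)
  have h1 : Algebra.norm F ((x⁻¹ : Eˣ) : E) = 1 := by
    rw [← nu_val, map_inv, h0, inv_one, Units.val_one]
  obtain ⟨y, hy⟩ := groupCohomology.exists_div_of_norm_eq_one gen h1
  refine ⟨y, ?_⟩
  have h2 : x⁻¹ = y / su σ y := by
    ext
    rw [← hy, Units.val_div_eq_div_val, su_val]
  rw [← inv_inj, h2, inv_div]

end pq

section ce

variable {p : ℕ} {F L : Type} [Field F] [Field L] [Algebra F L] [FiniteDimensional F L]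
  [IsGalois F L]

/-- the Kummer generator for a given generator of the group -/
theorem exists_CE_of (hp : p.Prime) (hL : Module.finrank F L = p)
    (hζ : ∃ ζ : F, IsPrimitiveRoot ζ p) {σ : L ≃ₐ[F] L}
    (hσ : ∀ τ : L ≃ₐ[F] L, τ ∈ Subgroup.zpowers σ) :
    ∃ (ω : F) (θ : Lˣ) (c : Fˣ), CE p σ ω θ c := by
  obtain ⟨ζ, hζ⟩ := hζ
  have : NeZero p := ⟨hp.ne_zero⟩
  have hcyc : IsCyclic (L ≃ₐ[F] L) := ⟨σ, hσ⟩
  have hK : (primitiveRoots (finrank F L) F).Nonempty := by
    rw [hL]
    exact ⟨ζ, (mem_primitiveRoots hp.pos).2 hζ⟩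
  obtain ⟨α, ⟨c, hc⟩, hα⟩ := exists_root_adjoin_eq_top_of_isCyclic F L hK
  rw [hL] at hc
  have hnot : ∀ g : F, algebraMap F L g ≠ α := by
    rintro g rfl
    have h1 : IntermediateField.adjoin F {algebraMap F L g} = ⊥ := by
      rw [IntermediateField.adjoin_simple_eq_bot_iff]
      exact IntermediateField.algebraMap_mem _ g
    rw [h1] at hα
    have h2 := IntermediateField.bot_eq_top_iff_finrank_eq_one.1 hα
    rw [hL] at h2
    exact hp.one_lt.ne' h2
  have hα0 : α ≠ 0 := fun h => hnot 0 (by rw [map_zero, h])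
  have hc0 : c ≠ 0 := by
    rintro rfl
    rw [map_zero] at hc
    exact pow_ne_zero p hα0 hc.symm
  have h1 : (σ α / α) ^ p = 1 := by
    rw [div_pow, ← map_pow, ← hc, AlgEquiv.commutes, div_self]
    rw [hc]
    exact pow_ne_zero p hα0
  have hζL : IsPrimitiveRoot (algebraMap F L ζ) p := hζ.map_of_injective (algebraMap F L).injective
  obtain ⟨i, hi, h2⟩ := hζL.eq_pow_of_pow_eq_one h1
  have h3 : σ α = algebraMap F L (ζ ^ i) * α := by
    rw [map_pow, h2, div_mul_cancel₀ _ hα0]
  refine ⟨ζ ^ i, Units.mk0 α hα0, Units.mk0 c hc0, hσ, ?_, h3, hc.symm, hL⟩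
  refine hζ.pow_of_coprime i ?_
  rw [Nat.coprime_comm]
  refine (Nat.Prime.coprime_iff_not_dvd hp).2 fun hd => ?_
  have hi0 : i = 0 := Nat.eq_zero_of_dvd_of_lt hd hi
  rw [hi0, pow_zero, map_one, one_mul] at h3
  obtain ⟨g, hg⟩ := mem_of_fix hσ h3
  exact hnot g hg

end ce

end Pool.Agent.H403.Z
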