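import Mathlib
import Pool.Agent.H403.Z.Cyc1

set_option autoImplicit false
set_option linter.unusedSectionVars false

/-! If the norms of a cyclic extension of degree `p^m` are `p`-th powers in it, then its top layer
has a norm-rigid class. -/

namespace Pool.Agent.H403.Z

open Module Pool.Agent.Y920.EP

section cy

variable {F E : Type} [Field F] [Field E] [Algebra F E]

/-- a cyclic extension `E/F` of degree `q p` with generator `σ`; `w` is a root of unity and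
`θ` is a Kummer generator of `E` over the fixed field of `σ^q` -/
structure CY (p q : ℕ) (σ : E ≃ₐ[F] E) (w θ : Eˣ) : Prop where
  one : ∀ x : Eˣ, su ((σ ^ q) ^ p) x = x
  w1 : w ≠ 1
  wp : w ^ p = 1
  wfix : su σ w = w
  roots : ∀ x : Eˣ, x ^ p = 1 → ∃ i : ℕ, x = w ^ i
  act : su (σ ^ q) θ = w * θ
  h90 : ∀ x : Eˣ, Pq σ (q * p) x = 1 → ∃ y : Eˣ, x = su σ y / y
  h90K : ∀ x : Eˣ, Pq (σ ^ q) p x = 1 → ∃ y : Eˣ, x = su (σ ^ q) y / y

variable {p q : ℕ} {σ : E ≃ₐ[F] E} {w θ : Eˣ}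

lemma su_T (r : ℕ) (x : Eˣ) : su σ (Pq (σ ^ q) r x) = Pq (σ ^ q) r (su σ x) := by
  rw [Pq_apply, Pq_apply, map_prod]
  refine Finset.prod_congr rfl fun i _ => ?_
  have h := su_comm σ 1 (q * i) x
  rw [pow_one] at h
  rw [← pow_mul]
  exact h

lemma fix_pow {x : Eˣ} (h : su σ x = x) (j : ℕ) : su (σ ^ j) x = x := by
  induction j with
  | zero => rfl
  | succ j ih => rw [pow_succ, su_mul, h, ih]

lemma CY.wK (h : CY p q σ w θ) : su (σ ^ q) w = w := fix_pow h.wfix q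

lemma CY.c_fix (h : CY p q σ w θ) : su (σ ^ q) (θ ^ p) = θ ^ p := by
  rw [map_pow, h.act, mul_pow, h.wp, one_mul]

lemma CY.alpha (h : CY p q σ w θ) : su σ (Pq σ q θ) = w * Pq σ q θ := by
  have h1 := Pq_tel σ q θ
  rw [map_div, h.act, mul_div_cancel_right] at h1
  have h2 := Pq_comm σ q 1 θ
  rw [pow_one] at h2
  rw [h2, ← h1, div_mul_cancel]

/-- (a) -/
lemma CY.stepA (h : CY p q σ w θ) {f y : Eˣ} (hf : su σ f = f) (hy : f = Pq (σ ^ q) p y) :
    ∃ g u : Eˣ, su σ g = g ∧ f = g ^ p * Pq σ (q * p) u := by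
  have h1 : Pq (σ ^ q) p (su σ y / y) = 1 := by
    rw [map_div, ← su_T, ← hy, hf, div_self']
  obtain ⟨u, hu⟩ := h.h90K _ h1
  have h2 : su σ (y / Pq σ q u) = y / Pq σ q u := by
    have h3 := Pq_tel σ q u
    rw [← hu, map_div] at h3
    have h4 := Pq_comm σ q 1 u
    rw [pow_one] at h4
    rw [← h4] at h3
    rw [map_div, div_eq_div_iff_mul_eq_mul]
    rw [div_eq_div_iff_mul_eq_mul] at h3
    rw [mul_comm y, h3]
  refine ⟨y / Pq σ q u, u, h2, ?_⟩
  rw [Pq_mul]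
  have h5 : Pq (σ ^ q) p (y / Pq σ q u) = (y / Pq σ q u) ^ p := Pq_fix (fix_pow h2 q)
  have h6 : Pq (σ ^ q) p (Pq σ q u) = Pq σ q (Pq (σ ^ q) p u) := by
    have h7 : ∀ z : Eˣ, Pq (σ ^ q) p z = ∏ i ∈ Finset.range p, su ((σ ^ q) ^ i) z := fun z => rfl
    rw [h7, h7, map_prod]
    refine Finset.prod_congr rfl fun i _ => ?_
    rw [← pow_mul, Pq_comm]
  rw [← h5, map_div, h6, hy, div_mul_cancel]

/-- (c) -/
lemma CY.stepC (h : CY p q σ w θ) (hp : p.Prime) {v k : Eˣ} {i : ℤ} (hv : su (σ ^ q) v = v)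
    (hk : su (σ ^ q) k = k) (he : su σ v / v = (θ ^ p) ^ i * k ^ p) : (p : ℤ) ∣ i := by
  have h1 := Pq_tel σ q v
  rw [hv, div_self', he, map_mul, map_zpow, map_pow, map_pow] at h1
  have h2 : ((Pq σ q θ) ^ i * Pq σ q k) ^ p = 1 := by
    rw [mul_pow, ← h1]
    congr 1
    rw [← zpow_natCast, ← zpow_natCast, ← zpow_mul, ← zpow_mul, mul_comm]
  obtain ⟨j, hj⟩ := h.roots _ h2
  have h3 : su σ (Pq σ q k) = Pq σ q k := by
    have h4 := Pq_tel σ q k
    rw [hk, div_self', map_div] at h4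
    have h5 := Pq_comm σ q 1 k
    rw [pow_one] at h5
    rw [h5]
    exact div_eq_one.1 h4
  have h6 := congrArg (su σ) hj
  rw [map_mul, map_zpow, h.alpha, h3, map_pow, h.wfix, mul_zpow, mul_assoc, hj] at h6
  have h7 : w ^ i = 1 := by
    have := mul_eq_right.1 h6
    exact this
  have : Fact p.Prime := ⟨hp⟩
  have h8 : orderOf w = p := orderOf_eq_prime h.wp h.w1
  rw [← h8]
  exact orderOf_dvd_iff_zpow_eq_one.2 h7

/-- (b) -/
lemma CY.stepB (h : CY p q σ w θ) {v k : Eˣ} (hv : su (σ ^ q) v = v)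
    (hk : su (σ ^ q) k = k) (he : su σ v / v = k ^ p) :
    ∃ (j : ℕ) (l : Eˣ), su (σ ^ q) l = l ∧ su σ (v / (θ ^ p) ^ j / l ^ p) = v / (θ ^ p) ^ j / l ^ p := by
  have h1 := Pq_tel σ q v
  rw [hv, div_self', he, map_pow] at h1
  obtain ⟨j, hj⟩ := h.roots _ h1
  -- `d = σθ/θ`
  have hd : su (σ ^ q) (su σ θ / θ) = su σ θ / θ := by
    have h2 := su_comm σ q 1 θ
    rw [pow_one] at h2
    rw [map_div, h2, h.act, map_mul, h.wfix]
    exact mul_div_mul_left_eq_div (su σ θ) θ w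
  have hPd : Pq σ q (su σ θ / θ) = w := by
    rw [Pq_tel, h.act, mul_div_cancel_right]
  have h3 : Pq σ q (k / (su σ θ / θ) ^ j) = 1 := by
    rw [map_div, map_pow, hPd, hj, div_self']
  have h4 : su (σ ^ q) (k / (su σ θ / θ) ^ j) = k / (su σ θ / θ) ^ j := by
    rw [map_div, map_pow, hd, hk]
  have h5 : Pq σ (q * p) (k / (su σ θ / θ) ^ j) = 1 := by
    rw [Pq_mul, Pq_fix h4, map_pow, h3, one_pow]
  obtain ⟨l, hl⟩ := h.h90 _ h5
  have h6 : su (σ ^ q) l = l := by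
    have h7 := Pq_tel σ q l
    rw [← hl, h3] at h7
    exact (div_eq_one.1 h7.symm)
  refine ⟨j, l, h6, ?_⟩
  rw [← div_eq_one]
  have h8 : su σ (v / (θ ^ p) ^ j / l ^ p) / (v / (θ ^ p) ^ j / l ^ p) =
      (su σ v / v) / ((su σ θ / θ) ^ j * (su σ l / l)) ^ p := by
    apply Units.ext
    simp only [map_div, map_pow, Units.val_div_eq_div_val, Units.val_pow_eq_pow_val, Units.val_mul,
      div_pow, mul_pow, ← pow_mul, mul_comm j p]
    field_simp
  rw [h8, he, ← hl, mul_div_cancel, div_self']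
/-- `T θ = θ^p` up to `p`-th powers -/
lemma CY.T_theta (h : CY p q σ w θ) (hneg : ∃ e : Eˣ, su σ e = e ∧ e ^ p = -1) :
    ∃ e : Eˣ, su σ e = e ∧ θ ^ p = Pq (σ ^ q) p (θ * e) := by
  have h1 : ∀ i : ℕ, su ((σ ^ q) ^ i) θ = w ^ i * θ := by
    intro i
    induction i with
    | zero => rw [pow_zero, pow_zero, su_one, one_mul]
    | succ i ih =>
      rw [pow_succ', su_mul, ih, map_mul, map_pow, h.wK, h.act, pow_succ]
      rw [mul_assoc]
  have h2 : Pq (σ ^ q) p θ = w ^ (∑ i ∈ Finset.range p, i) * θ ^ p := by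
    rw [Pq_apply, Finset.prod_congr rfl fun i _ => h1 i, Finset.prod_mul_distrib,
      Finset.prod_const, Finset.card_range, Finset.prod_pow_eq_pow_sum]
  have h3 : (w ^ (∑ i ∈ Finset.range p, i)) ^ 2 = 1 := by
    rw [← pow_mul, Finset.sum_range_id_mul_two, pow_mul, h.wp, one_pow]
  have h4 : w ^ (∑ i ∈ Finset.range p, i) = 1 ∨ w ^ (∑ i ∈ Finset.range p, i) = -1 := by
    have h5 := congrArg Units.val h3
    rw [Units.val_pow_eq_pow_val, Units.val_one] at h5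
    rcases sq_eq_one_iff_of_ne_neg_one' h5 with h6 | h6
    · left; exact Units.ext h6
    · right; exact Units.ext h6
  rcases h4 with h4 | h4
  · refine ⟨1, map_one _, ?_⟩
    rw [mul_one, h2, h4, one_mul]
  · obtain ⟨e, he, he'⟩ := hneg
    refine ⟨e, he, ?_⟩
    rw [map_mul, h2, h4, Pq_fix (fix_pow he q), he', neg_one_mul, mul_neg_one, neg_neg]
where
  sq_eq_one_iff_of_ne_neg_one' {x : E} (h : x ^ 2 = 1) : x = 1 ∨ x = -1 := by
    have : (x - 1) * (x + 1) = 0 := by linear_combination h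
    rcases mul_eq_zero.1 this with h | h
    · left; linear_combination h
    · right; linear_combination h

/-- the norms to the fixed field of `σ^q` which lie in `⟨θ^p⟩` up to `p`-th powers -/
def InA (p q : ℕ) (σ : E ≃ₐ[F] E) (θ y : Eˣ) : Prop :=
  ∃ (i : ℤ) (k : Eˣ), su (σ ^ q) k = k ∧ Pq (σ ^ q) p y = (θ ^ p) ^ i * k ^ p

lemma CY.T_fix (h : CY p q σ w θ) (y : Eˣ) : su (σ ^ q) (Pq (σ ^ q) p y) = Pq (σ ^ q) p y := by
  have h1 := Pq_tel (σ ^ q) p y
  rw [h.one, div_self', map_div] at h1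
  have h2 := Pq_comm (σ ^ q) p 1 y
  rw [pow_one] at h2
  rw [h2]
  exact div_eq_one.1 h1

/-- the descent step -/
lemma CY.step (h : CY p q σ w θ) (hp : p.Prime) (hq : q = 1 ∨ p ∣ q)
    (hneg : ∃ e : Eˣ, su σ e = e ∧ e ^ p = -1)
    (H : ∀ u : Eˣ, ∃ y : Eˣ, Pq σ (q * p) u = y ^ p) {y : Eˣ}
    (hy : InA p q σ θ (su σ y / y)) : InA p q σ θ y := by
  obtain ⟨i, k, hk, he⟩ := hy
  have hv := h.T_fix y
  set v := Pq (σ ^ q) p y with hvdef
  have he' : su σ v / v = (θ ^ p) ^ i * k ^ p := by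
    rw [← he, map_div, ← su_T]
  obtain ⟨i', rfl⟩ := h.stepC hp hv hk he'
  have he2 : su σ v / v = ((θ ^ p) ^ i' * k) ^ p := by
    rw [he', mul_pow, ← zpow_natCast ((θ ^ p) ^ i') p, ← zpow_mul, mul_comm i']
  have hk2 : su (σ ^ q) ((θ ^ p) ^ i' * k) = (θ ^ p) ^ i' * k := by
    rw [map_mul, map_zpow, h.c_fix, hk]
  obtain ⟨j, l, hl, hf⟩ := h.stepB hv hk2 he2
  obtain ⟨e, hefix, heT⟩ := h.T_theta hneg
  set f := v / (θ ^ p) ^ j / l ^ p with hfdef
  have hfT : f = Pq (σ ^ q) p (y / (θ * e) ^ j / l) := by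
    rw [map_div, map_div, map_pow, ← heT, Pq_fix hl]
  obtain ⟨g, u, hg, hgu⟩ := h.stepA hf hfT
  obtain ⟨z, hz⟩ := H u
  -- the element `z` is fixed up to a power of `w`
  have h1 : su σ (Pq σ (q * p) u) = Pq σ (q * p) u := by
    have h2 : Pq σ (q * p) u = f / g ^ p := by rw [hgu, mul_div_cancel_left]
    rw [h2, map_div, hf, map_pow, hg]
  have h3 : (su σ z / z) ^ p = 1 := by
    rw [div_pow, ← map_pow, ← hz, h1, div_self']
  obtain ⟨s, hs⟩ := h.roots _ h3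
  have h4 : su σ (z / (Pq σ q θ) ^ s) = z / (Pq σ q θ) ^ s := by
    rw [map_div, map_pow, h.alpha, mul_pow, ← hs]
    rw [div_eq_div_iff_mul_eq_mul, mul_comm (su σ z / z), ← mul_assoc, mul_comm z, mul_assoc,
      mul_div_cancel, mul_comm]
  set b := z / (Pq σ q θ) ^ s with hb
  have h5 : z = b * (Pq σ q θ) ^ s := by rw [hb, div_mul_cancel]
  have h6 : v = f * l ^ p * (θ ^ p) ^ j := by
    rw [hfdef, div_mul_cancel, div_mul_cancel]
  have h7 : f = (g * b) ^ p * ((Pq σ q θ) ^ s) ^ p := by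
    rw [hgu, hz, h5, mul_pow, mul_pow, mul_assoc]
  have hgb : su (σ ^ q) (g * b) = g * b := fix_pow (by rw [map_mul, hg, h4]) q
  rcases hq with rfl | hq
  · have h8 : Pq σ 1 θ = θ := by
      rw [Pq_apply, Finset.prod_range_one, pow_zero, su_one]
    refine ⟨((s + j : ℕ) : ℤ), g * b * l, by rw [map_mul, hgb, hl], ?_⟩
    change v = _
    rw [h6, h7, h8, zpow_natCast, pow_add, mul_pow (g * b) l, ← pow_mul θ s p, mul_comm s p,
      pow_mul θ p s]
    simp only [mul_assoc, mul_comm, mul_left_comm]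
  · have h8 : su (σ ^ q) (Pq σ q θ) = Pq σ q θ := by
      obtain ⟨q', rfl⟩ := hq
      rw [Pq_comm, h.act, map_mul, Pq_fix h.wfix, pow_mul, h.wp, one_pow, one_mul]
    refine ⟨(j : ℤ), g * b * (Pq σ q θ) ^ s * l, ?_, ?_⟩
    · rw [map_mul, map_mul, hgb, hl, map_pow, h8]
    · change v = _
      rw [h6, h7, zpow_natCast]
      simp only [mul_pow]
      simp only [mul_comm, mul_left_comm]

/-- the map `y ↦ σ(y)/y` -/
noncomputable def dm (σ : E ≃ₐ[F] E) : Eˣ →* Eˣ := su σ / MonoidHom.id Eˣ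

lemma dm_apply (σ : E ≃ₐ[F] E) (y : Eˣ) : dm σ y = su σ y / y := rfl

lemma cls_dm [Fact p.Prime] (σ : E ≃ₐ[F] E) (y : Eˣ) (j : ℕ) :
    cls p ((dm σ)^[j] y) = ((vmap p (su σ) - 1) ^ j) (cls p y) := by
  induction j with
  | zero => rfl
  | succ j ih =>
    rw [Function.iterate_succ_apply', dm_apply, cls_div, pow_succ', Module.End.mul_apply, ← ih]
    rfl

lemma vmap_su_pow (σ : E ≃ₐ[F] E) (y : Eˣ) (j : ℕ) :
    ((vmap p (su σ)) ^ j) (cls p y) = cls p (su (σ ^ j) y) := by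
  induction j with
  | zero => rfl
  | succ j ih => rw [pow_succ', Module.End.mul_apply, ih, vmap_cls, pow_succ', su_mul]

/-- all norms lie in `⟨θ^p⟩` up to `p`-th powers -/
theorem CY.main [Fact p.Prime] {r : ℕ} (h : CY p (p ^ r) σ w θ)
    (hneg : ∃ e : Eˣ, su σ e = e ∧ e ^ p = -1)
    (H : ∀ u : Eˣ, ∃ y : Eˣ, Pq σ (p ^ r * p) u = y ^ p) (y : Eˣ) : InA p (p ^ r) σ θ y := by
  have hp : p.Prime := Fact.out
  have hq : p ^ r = 1 ∨ p ∣ p ^ r := by
    rcases Nat.eq_zero_or_pos r with rfl | hr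
    · left; rfl
    · right; exact dvd_pow_self p hr.ne'
  have h1 : ∀ j : ℕ, InA p (p ^ r) σ θ ((dm σ)^[j] y) → InA p (p ^ r) σ θ y := by
    intro j
    induction j with
    | zero => exact id
    | succ j ih =>
      intro h2
      rw [Function.iterate_succ_apply', dm_apply] at h2
      exact ih (h.step hp hq hneg H h2)
  apply h1 (p ^ r)
  have h2 : cls p ((dm σ)^[p ^ r] y) = cls p (su (σ ^ (p ^ r)) y / y) := by
    rw [cls_dm, sub_one_pow_pm, LinearMap.sub_apply, vmap_su_pow, Module.End.one_apply, cls_div]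
  have h3 : cls p ((dm σ)^[p ^ r] y / (su (σ ^ (p ^ r)) y / y)) = 0 := by
    rw [cls_div, h2, sub_self]
  obtain ⟨z, hz⟩ := cls_eq_zero.1 h3
  have hz' : z ^ p = (dm σ)^[p ^ r] y / (su (σ ^ (p ^ r)) y / y) := hz
  refine ⟨0, Pq (σ ^ (p ^ r)) p z, h.T_fix z, ?_⟩
  have h4 : (dm σ)^[p ^ r] y = z ^ p * (su (σ ^ (p ^ r)) y / y) := by
    rw [hz', div_mul_cancel]
  rw [h4, map_mul, Pq_tel, h.one, div_self', mul_one, map_pow, zpow_zero, one_mul]

end cy

end Pool.Agent.H403.Z
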