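import Mathlib
import Pool.Agent.H403.Z.Cyc2

set_option autoImplicit false
set_option linter.unusedSectionVars false

/-! Growth in cyclic extensions of degree `p^m`. -/

namespace Pool.Agent.H403.Z

open Module Pool.Agent.Y920.EP IntermediateField

section ex

variable {p r : ℕ} {F E : Type} [Field F] [Field E] [Algebra F E] [FiniteDimensional F E]
  [IsGalois F E] {σ : E ≃ₐ[F] E}

theorem exists_CY [Fact p.Prime] (hζ : ∃ ζ : F, IsPrimitiveRoot ζ p)
    (gen : ∀ τ : E ≃ₐ[F] E, τ ∈ Subgroup.zpowers σ) (hdeg : finrank F E = p ^ r * p)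
    (K : IntermediateField F E) (hK : K = fixedField (Subgroup.zpowers (σ ^ (p ^ r)))) :
    ∃ (w θ : Eˣ) (τ : E ≃ₐ[K] E) (ω : K) (c : Kˣ), CY p (p ^ r) σ w θ ∧ CE p τ ω θ c ∧
      (∀ x : E, τ x = (σ ^ (p ^ r)) x) := by
  have hp : p.Prime := Fact.out
  have : NeZero p := ⟨hp.ne_zero⟩
  set q := p ^ r with hq
  have hqpos : 0 < q := pow_pos hp.pos r
  have ho : orderOf σ = q * p := by
    rw [orderOf_eq_card_of_forall_mem_zpowers gen, IsGalois.card_aut_eq_finrank, hdeg]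
  have ho' : orderOf (σ ^ q) = p := by
    rw [orderOf_pow_of_dvd hqpos.ne' (by rw [ho]; exact dvd_mul_right q p), ho,
      Nat.mul_div_cancel_left _ hqpos]
  have hfix : K.fixingSubgroup = Subgroup.zpowers (σ ^ q) := by
    rw [hK]; exact IntermediateField.fixingSubgroup_fixedField _
  have hmem : σ ^ q ∈ K.fixingSubgroup := by
    rw [hfix]; exact Subgroup.mem_zpowers _
  have hKE : finrank K E = p := by
    rw [hK, IntermediateField.finrank_fixedField_eq_card, Nat.card_zpowers, ho']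
  let τ : E ≃ₐ[K] E := IntermediateField.fixingSubgroupEquiv K ⟨σ ^ q, hmem⟩
  have hτ : ∀ x : E, τ x = (σ ^ q) x := fun x => rfl
  have genK : ∀ ρ : E ≃ₐ[K] E, ρ ∈ Subgroup.zpowers τ := by
    intro ρ
    obtain ⟨ρ', rfl⟩ := (IntermediateField.fixingSubgroupEquiv K).surjective ρ
    have h1 : (ρ' : E ≃ₐ[F] E) ∈ Subgroup.zpowers (σ ^ q) := by
      rw [← hfix]; exact ρ'.2
    obtain ⟨n, hn⟩ := Subgroup.mem_zpowers_iff.1 h1
    have h2 : ρ' = (⟨σ ^ q, hmem⟩ : K.fixingSubgroup) ^ n := by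
      apply Subtype.ext
      rw [← hn]
      rfl
    rw [h2, map_zpow]
    exact Subgroup.zpow_mem_zpowers _ _
  have hζK : ∃ ζ : K, IsPrimitiveRoot ζ p := by
    obtain ⟨ζ, hζ⟩ := hζ
    exact ⟨_, hζ.map_of_injective (algebraMap F K).injective⟩
  obtain ⟨ω, θ, c, hCE⟩ := exists_CE_of hp hKE hζK genK
  have hω0 : ω ≠ 0 := hCE.prim.ne_zero hp.ne_zero
  have hωE : IsPrimitiveRoot (algebraMap K E ω) p :=
    hCE.prim.map_of_injective (algebraMap K E).injective
  refine ⟨Units.mk0 (algebraMap K E ω) ((_root_.map_ne_zero _).2 hω0), θ, τ, ω, c, ?_, hCE, hτ⟩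
  refine ⟨?_, ?_, ?_, ?_, ?_, ?_, ?_, ?_⟩
  · intro x
    rw [← pow_mul, ← ho, pow_orderOf_eq_one, su_one]
  · intro h1
    have h2 := congrArg Units.val h1
    rw [Units.val_mk0, Units.val_one] at h2
    exact hωE.ne_one hp.one_lt h2
  · ext
    rw [Units.val_pow_eq_pow_val, Units.val_mk0, hωE.pow_eq_one, Units.val_one]
  · obtain ⟨ζ, hζ⟩ := hζ
    have h1 : IsPrimitiveRoot (algebraMap F E ζ) p := hζ.map_of_injective (algebraMap F E).injective
    obtain ⟨i, _, hi⟩ := h1.eq_pow_of_pow_eq_one hωE.pow_eq_one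
    ext
    rw [su_val, Units.val_mk0, ← hi, map_pow, AlgEquiv.commutes]
  · intro x hx
    have h1 : (x : E) ^ p = 1 := by
      rw [← Units.val_pow_eq_pow_val, hx, Units.val_one]
    obtain ⟨i, _, hi⟩ := hωE.eq_pow_of_pow_eq_one h1
    refine ⟨i, ?_⟩
    ext
    rw [Units.val_pow_eq_pow_val, Units.val_mk0, hi]
  · ext
    rw [su_val, Units.val_mul, Units.val_mk0]
    exact hCE.act
  · intro x hx
    exact h90' gen hdeg hx
  · intro x hx
    have h1 : Pq τ p x = 1 := by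
      rw [← hx, Pq_apply, Pq_apply]
      refine Finset.prod_congr rfl fun i _ => ?_
      apply Units.ext
      have h2 : ∀ (i : ℕ) (z : E), (τ ^ i) z = ((σ ^ q) ^ i) z := by
        intro i
        induction i with
        | zero => intro z; rfl
        | succ i ih => intro z; rw [pow_succ, pow_succ]; exact ih _
      exact h2 i x
    obtain ⟨y, hy⟩ := h90' genK hKE h1
    exact ⟨y, hy⟩

lemma bot_fix (gen : ∀ τ : E ≃ₐ[F] E, τ ∈ Subgroup.zpowers σ) {x : Eˣ} (hx : su σ x = x) :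
    ∃ g : Fˣ, iu F E g = x := by
  obtain ⟨g, hg⟩ := mem_of_fix gen (congrArg Units.val hx : σ (x : E) = x)
  have hg0 : g ≠ 0 := by
    rintro rfl
    rw [map_zero] at hg
    exact x.ne_zero hg.symm
  exact ⟨Units.mk0 g hg0, Units.ext hg⟩

lemma iu_inj : Function.Injective (iu F E) := by
  intro x y hxy
  exact Units.ext ((algebraMap F E).injective (congrArg Units.val hxy))

lemma neg_up {A B : Type} [Field A] [Field B] [Algebra A B] (hneg : (-1 : Aˣ) ∈ pwG A p) :
    (-1 : Bˣ) ∈ pwG B p := by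
  obtain ⟨i, hi⟩ := hneg
  refine ⟨Units.map (algebraMap A B : A →* B) i, ?_⟩
  have hi' : i ^ p = -1 := hi
  change (Units.map (algebraMap A B : A →* B) i) ^ p = -1
  rw [← map_pow, hi']
  ext
  simp

/-- **a cyclic extension whose norms are `p`-th powers in it gives a valuation** -/
theorem good_of_cyc [Fact p.Prime] (hζ : ∃ ζ : F, IsPrimitiveRoot ζ p)
    (hneg : (-1 : Fˣ) ∈ pwG F p) (hbig : Big F p)
    (gen : ∀ τ : E ≃ₐ[F] E, τ ∈ Subgroup.zpowers σ) (hdeg : finrank F E = p ^ r * p)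
    (H : ∀ u : Eˣ, ∃ y : Eˣ, iu F E (nu F E u) = y ^ p) : Good F p := by
  have hp : p.Prime := Fact.out
  set K := fixedField (Subgroup.zpowers (σ ^ (p ^ r))) with hK
  obtain ⟨w, θ, τ, ω, c, h, hCE, hτ⟩ := exists_CY hζ gen hdeg K hK
  have hnegE : ∃ e : Eˣ, su σ e = e ∧ e ^ p = -1 := by
    obtain ⟨i, hi⟩ := hneg
    have hi' : i ^ p = -1 := hi
    refine ⟨iu F E i, su_iu σ i, ?_⟩
    rw [← map_pow, hi']
    ext
    simp [iu]
  have H' : ∀ u : Eˣ, ∃ y : Eˣ, Pq σ (p ^ r * p) u = y ^ p := by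
    intro u
    obtain ⟨y, hy⟩ := H u
    exact ⟨y, by rw [← hy, norm_Pq gen hdeg]⟩
  have hN : finrank F E = p ^ (r + 1) := by rw [hdeg, pow_succ]
  obtain ⟨ht1, ht2, -⟩ := tower hN hζ hneg _ K rfl
  apply ht1
  have hτi : ∀ (i : ℕ) (z : E), (τ ^ i) z = ((σ ^ (p ^ r)) ^ i) z := by
    intro i
    induction i with
    | zero => intro z; rfl
    | succ i ih => intro z; rw [pow_succ, pow_succ]; exact (ih _).trans (congrArg (fun t => ((σ ^ (p ^ r)) ^ i) t) (hτ z))
  refine good_of_rigid_step hCE (neg_up hneg) ?_ (ht2 hbig)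
  rintro _ ⟨y, rfl⟩
  obtain ⟨i, k, hk, he⟩ := h.main hnegE H' y
  have hkK : (k : E) ∈ K := by
    rw [hK, mem_fixedField_iff]
    rintro f hf
    obtain ⟨n, rfl⟩ := Subgroup.mem_zpowers_iff.1 hf
    have h2 : σ ^ (p ^ r) ∈ MulAction.stabilizer (E ≃ₐ[F] E) (k : E) := congrArg Units.val hk
    exact zpow_mem h2 n
  have hk0 : (⟨k, hkK⟩ : K) ≠ 0 := by
    intro h0
    exact k.ne_zero (congrArg Subtype.val h0)
  have h1 : nu K E y = c ^ i * (Units.mk0 ⟨k, hkK⟩ hk0) ^ p := by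
    apply iu_inj (F := K) (E := E)
    rw [norm_Pq hCE.gen hCE.deg, map_mul, map_zpow, map_pow]
    have h2 : iu K E c = θ ^ p := by
      ext
      rw [iu_val, ← hCE.pow, Units.val_pow_eq_pow_val]
    have h3 : iu K E (Units.mk0 ⟨k, hkK⟩ hk0) = k := Units.ext rfl
    have h4 : Pq τ p y = Pq (σ ^ (p ^ r)) p y := by
      rw [Pq_apply, Pq_apply]
      refine Finset.prod_congr rfl fun i _ => ?_
      exact Units.ext (hτi i y)
    rw [h2, h3, h4, he]
  rw [h1]
  exact mul_mem (Subgroup.mem_sup_left (zpow_mem (Subgroup.mem_zpowers c) _))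
    (Subgroup.mem_sup_right ⟨_, rfl⟩)

/-- **linear growth in cyclic extensions** -/
theorem growth_cyc [Fact p.Prime] (hζ : ∃ ζ : F, IsPrimitiveRoot ζ p)
    (hneg : (-1 : Fˣ) ∈ pwG F p) (hbig : Big F p)
    (gen : ∀ τ : E ≃ₐ[F] E, τ ∈ Subgroup.zpowers σ) (hdeg : finrank F E = p ^ r * p)
    (hfin : (pwG F p).index ≠ 0) :
    Good F p ∨ p ^ (p ^ r * p - 1) * (pwG F p).index ≤ (pwG E p).index := by
  classical
  have hp : p.Prime := Fact.out
  by_cases hgood : Good F p
  · exact Or.inl hgood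
  have hN : finrank F E = p ^ (r + 1) := by rw [hdeg, pow_succ]
  obtain ⟨-, -, ht3⟩ := tower hN hζ hneg _ (⊤ : IntermediateField F E) rfl
  have hEfin : (pwG E p).index ≠ 0 := by
    rcases ht3 hbig hfin with h1 | ⟨h1, -⟩
    · exact absurd h1 hgood
    · rwa [index_iso (IntermediateField.topEquiv (F := F) (E := E)).toRingEquiv] at h1
  set K := fixedField (Subgroup.zpowers (σ ^ (p ^ r))) with hK
  obtain ⟨w, θ, τ, ω, c, h, hCE, hτ⟩ := exists_CY hζ gen hdeg K hK
  have hnegE : ∃ e : Eˣ, su σ e = e ∧ e ^ p = -1 := by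
    obtain ⟨i, hi⟩ := hneg
    have hi' : i ^ p = -1 := hi
    refine ⟨iu F E i, su_iu σ i, ?_⟩
    rw [← map_pow, hi']
    ext
    simp [iu]
  have hFd := (card_VS hfin).2
  have hEd := (card_VS hEfin).2
  -- the class `a`
  have hα : su σ ((Pq σ (p ^ r) θ) ^ p) = (Pq σ (p ^ r) θ) ^ p := by
    rw [map_pow, h.alpha, mul_pow, h.wp, one_mul]
  obtain ⟨a, ha⟩ := bot_fix gen hα
  obtain ⟨e, he, heT⟩ := h.T_theta hnegE
  have hcN : cls p a ∈ LinearMap.range (vmap p (nu F E)) := by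
    refine ⟨cls p (θ * e), ?_⟩
    rw [vmap_cls]
    congr 1
    apply iu_inj (F := F) (E := E)
    rw [norm_Pq gen hdeg, Pq_mul, ← heT, map_pow, ha]
  have hne : cls p a ≠ 0 := by
    intro h0
    obtain ⟨b, hb⟩ := cls_eq_zero.1 h0
    have hb' : b ^ p = a := hb
    rw [← hb', map_pow] at ha
    have h1 : (Pq σ (p ^ r) θ / iu F E b) ^ p = 1 := by
      rw [div_pow, ← ha, div_self']
    obtain ⟨j, hj⟩ := h.roots _ h1
    have h2 := congrArg (su σ) hj
    rw [map_div, h.alpha, su_iu, map_pow, h.wfix, mul_div_assoc, hj] at h2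
    exact h.w1 (mul_eq_right.1 h2)
  have hsum : ∀ (s : Finset ℕ) (f : ℕ → Eˣ), cls p (∏ i ∈ s, f i) = ∑ i ∈ s, cls p (f i) := by
    intro s f
    induction s using Finset.induction_on with
    | empty => rfl
    | insert a s ha ih => rw [Finset.prod_insert ha, Finset.sum_insert ha, cls_mul, ih]
  have hker : LinearMap.ker (vmap p (iu F E)) = Submodule.span (ZMod p) {cls p a} := by
    apply le_antisymm
    · intro v hv
      obtain ⟨g, rfl⟩ := cls_surj v
      rw [LinearMap.mem_ker, vmap_cls, cls_eq_zero] at hv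
      obtain ⟨y, hy⟩ := hv
      have hy' : y ^ p = iu F E g := hy
      have h1 : (su σ y / y) ^ p = 1 := by
        rw [div_pow, ← map_pow, hy', su_iu, div_self']
      obtain ⟨j, hj⟩ := h.roots _ h1
      have h2 : su σ (y / (Pq σ (p ^ r) θ) ^ j) = y / (Pq σ (p ^ r) θ) ^ j := by
        rw [map_div, map_pow, h.alpha, mul_pow, ← hj]
        rw [div_eq_div_iff_mul_eq_mul, mul_comm (su σ y / y), ← mul_assoc, mul_comm y, mul_assoc,
          mul_div_cancel, mul_comm]
      obtain ⟨b, hb⟩ := bot_fix gen h2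
      have h3 : g = a ^ j * b ^ p := by
        apply iu_inj (F := F) (E := E)
        rw [map_mul, map_pow, map_pow, ha, hb, ← hy', div_pow, ← pow_mul, ← pow_mul, mul_comm p j,
          mul_div_cancel]
      rw [h3, mem_span_cls]
      exact mul_mem (Subgroup.mem_sup_left (pow_mem (Subgroup.mem_zpowers a) _))
        (Subgroup.mem_sup_right ⟨b, rfl⟩)
    · rw [Submodule.span_le]
      rintro x hx
      rw [Set.mem_singleton_iff] at hx
      rw [hx, SetLike.mem_coe, LinearMap.mem_ker, vmap_cls, cls_eq_zero]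
      exact ⟨Pq σ (p ^ r) θ, ha.symm⟩
  have hσn : σ ^ (p ^ (r + 1)) = 1 := by
    have ho : orderOf σ = p ^ (r + 1) := by
      rw [orderOf_eq_card_of_forall_mem_zpowers gen, IsGalois.card_aut_eq_finrank, hN]
    rw [← ho, pow_orderOf_eq_one]
  have hnil : (vmap p (su σ) - 1) ^ (p ^ (r + 1)) = 0 := by
    rw [sub_one_pow_pm, sub_eq_zero]
    ext v
    obtain ⟨x, rfl⟩ := cls_surj v
    rw [vmap_su_pow, hσn, su_one, Module.End.one_apply]
  have hnrm : (vmap p (su σ) - 1) ^ (p ^ (r + 1) - 1) = vmap p (iu F E) ∘ₗ vmap p (nu F E) := by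
    rw [sub_one_pow_pm_pred]
    ext v
    obtain ⟨x, rfl⟩ := cls_surj v
    rw [LinearMap.comp_apply, vmap_cls, vmap_cls, norm_Pq gen hN, Pq_apply, hsum,
      LinearMap.sum_apply]
    exact Finset.sum_congr rfl fun i _ => vmap_su_pow σ x i
  have hDι : (vmap p (su σ) - 1) ∘ₗ vmap p (iu F E) = 0 := by
    ext v
    obtain ⟨x, rfl⟩ := cls_surj v
    rw [LinearMap.comp_apply, vmap_cls, LinearMap.sub_apply, vmap_cls, su_iu,
      Module.End.one_apply, sub_self]
    rfl
  have hNι : vmap p (nu F E) ∘ₗ vmap p (iu F E) = 0 := by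
    ext v
    obtain ⟨x, rfl⟩ := cls_surj v
    rw [LinearMap.comp_apply, vmap_cls, vmap_cls, nu_iu hdeg]
    refine cls_eq_zero.2 ⟨x ^ (p ^ r), ?_⟩
    change (x ^ (p ^ r)) ^ p = _
    rw [← pow_mul]
  have hND : vmap p (nu F E) ∘ₗ (vmap p (su σ) - 1) = 0 := by
    ext v
    obtain ⟨x, rfl⟩ := cls_surj v
    rw [LinearMap.comp_apply, LinearMap.sub_apply, map_sub, vmap_cls, vmap_cls, nu_su,
      Module.End.one_apply, vmap_cls, sub_self]
    rfl
  have hn2 : 2 ≤ p ^ (r + 1) := by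
    calc 2 ≤ p := hp.two_le
      _ = p ^ 1 := (pow_one p).symm
      _ ≤ p ^ (r + 1) := Nat.pow_le_pow_right hp.pos (by omega)
  have hgr := growth' hnil hnrm hDι hNι hND hker hne hcN hn2
  by_cases hd : finrank (ZMod p) (LinearMap.range (vmap p (nu F E))) ≤ 1
  · left
    refine good_of_cyc hζ hneg hbig gen hdeg ?_
    intro u
    have h1 : Submodule.span (ZMod p) {cls p a} ≤ LinearMap.range (vmap p (nu F E)) := by
      rw [Submodule.span_le]
      rintro y hy
      rw [Set.mem_singleton_iff] at hy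
      rw [hy]
      exact hcN
    have h2 : Submodule.span (ZMod p) {cls p a} = LinearMap.range (vmap p (nu F E)) :=
      Submodule.eq_of_le_of_finrank_le h1 (by rw [finrank_span_singleton hne]; exact hd)
    have h3 : cls p (nu F E u) ∈ LinearMap.ker (vmap p (iu F E)) := by
      rw [hker, h2]
      exact ⟨cls p u, vmap_cls _ _⟩
    rw [LinearMap.mem_ker, vmap_cls, cls_eq_zero] at h3
    obtain ⟨y, hy⟩ := h3
    exact ⟨y, hy.symm⟩
  · right
    rw [index_of_fin (K := F), index_of_fin (K := E), ← pow_add, ← pow_succ]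
    refine Nat.pow_le_pow_right hp.pos ?_
    have h2 : (p ^ (r + 1) - 1) * 1 ≤ (p ^ (r + 1) - 1) *
        (finrank (ZMod p) (LinearMap.range (vmap p (nu F E))) - 1) :=
      Nat.mul_le_mul_left _ (by omega)
    omega

end ex

end Pool.Agent.H403.Z
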