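import Mathlib
import Pool.Agent.H403.Z.Cyc3
import Pool.Agent.H403.Z.Conv

set_option autoImplicit false
set_option linter.unusedSectionVars false

/-! The extension of a norm-rigid class. -/

namespace Pool.Agent.H403.Z

open Module Pool.Agent.Y920.EP Polynomial

theorem exists_cyc {p : ℕ} {F : Type} [Field F] [Fact p.Prime]
    (hζ : ∃ ζ : F, IsPrimitiveRoot ζ p) (hneg : (-1 : Fˣ) ∈ pwG F p) {c : Fˣ}
    (hc : c ∉ pwG F p) (hrig : nmG p c ≤ Subgroup.zpowers c ⊔ pwG F p) :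
    ∃ (E : Type) (_ : Field E) (_ : Algebra F E), FiniteDimensional F E ∧ IsGalois F E ∧
      IsCyclic (E ≃ₐ[F] E) ∧ finrank F E = p ∧
      (∀ u : Eˣ, ∃ y : Eˣ, iu F E (nu F E u) = y ^ p) ∧
      ((pwG F p).index ≠ 0 → (pwG E p).index = (pwG F p).index) := by
  have hp : p.Prime := Fact.out
  have Hc := Pool.Agent.Y349.EP.irr hp c hc
  have := Fact.mk Hc
  obtain ⟨ζ, hζ⟩ := hζ
  have hne : (primitiveRoots p F).Nonempty := ⟨ζ, (mem_primitiveRoots hp.pos).mpr hζ⟩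
  have := isSplittingField_AdjoinRoot_X_pow_sub_C hne Hc
  have hgal := isGalois_of_isSplittingField_X_pow_sub_C hne Hc (AdjoinRoot (X ^ p - C (c : F)))
  have hfd : FiniteDimensional F (AdjoinRoot (X ^ p - C (c : F))) :=
    (AdjoinRoot.powerBasis (Pool.Agent.Y349.EP.ne0 hp.pos (c : F))).finite
  have hdeg : Module.finrank F (AdjoinRoot (X ^ p - C (c : F))) = p :=
    Pool.Agent.Y349.EP.finrank_eq hp.pos _
  have hcard : Nat.card (AdjoinRoot (X ^ p - C (c : F)) ≃ₐ[F] AdjoinRoot (X ^ p - C (c : F))) = p := by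
    rw [IsGalois.card_aut_eq_finrank, hdeg]
  have hroot : (AdjoinRoot.root (X ^ p - C (c : F))) ^ p =
      algebraMap F (AdjoinRoot (X ^ p - C (c : F))) c := Pool.Agent.Y349.EP.root_pow (p := p) (c : F)
  have hr0 : AdjoinRoot.root (X ^ p - C (c : F)) ≠ 0 := by
    intro h0
    rw [h0, zero_pow hp.ne_zero] at hroot
    exact (_root_.map_ne_zero _).2 c.ne_zero hroot.symm
  refine ⟨AdjoinRoot (X ^ p - C (c : F)), inferInstance, inferInstance, hfd, hgal,
    isCyclic_of_prime_card hcard, hdeg, ?_, fun hfin =>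
      index_of_rigid ⟨ζ, hζ⟩ hneg hfin hc hrig hroot hdeg⟩
  intro u
  have h1 : nu F (AdjoinRoot (X ^ p - C (c : F))) u ∈ Subgroup.zpowers c ⊔ pwG F p :=
    hrig ⟨u, rfl⟩
  obtain ⟨y, hy, t, ht, hyt⟩ := Subgroup.mem_sup.1 h1
  obtain ⟨n, rfl⟩ := Subgroup.mem_zpowers_iff.1 hy
  obtain ⟨t, rfl⟩ := ht
  refine ⟨(Units.mk0 _ hr0) ^ n * iu F _ t, ?_⟩
  have h2 : iu F (AdjoinRoot (X ^ p - C (c : F))) c = (Units.mk0 _ hr0) ^ p := by
    ext
    rw [iu_val, Units.val_pow_eq_pow_val, Units.val_mk0, hroot]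
  rw [← hyt, map_mul, map_zpow, h2, mul_pow]
  congr 1
  · rw [← zpow_natCast, ← zpow_natCast, ← zpow_mul, ← zpow_mul, mul_comm]
  · exact map_pow (iu F (AdjoinRoot (X ^ p - C (c : F)))) t p

end Pool.Agent.H403.Z
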