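import Mathlib
import Pool.Agent.H403.Z.Conv

set_option autoImplicit false
set_option linter.unusedSectionVars false

/-! Norm groups and field extensions; the relation `w ∈ N(v)` for classes. -/

namespace Pool.Agent.H403.Z

open Module Pool.Agent.Y920.EP Polynomial

section bc

variable {p : ℕ} {F E : Type} [Field F] [Field E] [Algebra F E]

/-- base change for norm groups -/
theorem base_change (hp : p.Prime) {ζ : F} (hζ : IsPrimitiveRoot ζ p) {x z : Fˣ}
    (hx : x ∉ pwG F p) (hx' : iu F E x ∉ pwG E p) (h : z ∈ nmG p x) :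
    iu F E z ∈ nmG p (iu F E x) := by
  obtain ⟨y, hy⟩ := h
  have hy' : Algebra.norm F (y : AdjoinRoot (X ^ p - C (x : F))) = z := congrArg Units.val hy
  obtain ⟨g, hg⟩ := Pool.Agent.Y349.EP.aeval_surj (p := p) (x : F)
    (y : AdjoinRoot (X ^ p - C (x : F)))
  have Hx := Pool.Agent.Y349.EP.irr hp x hx
  have Hx' := Pool.Agent.Y349.EP.irr hp (iu F E x) hx'
  let A := AdjoinRoot (X ^ p - C (x : F))
  let B := AdjoinRoot (X ^ p - C ((iu F E x : Eˣ) : E))
  let j : A →ₐ[F] B :=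
    AdjoinRoot.liftAlgHom (X ^ p - C (x : F)) (Algebra.ofId F B) (AdjoinRoot.root _) (by
      change aeval _ _ = _
      rw [map_sub, map_pow, aeval_X, aeval_C, Pool.Agent.Y349.EP.root_pow, sub_eq_zero]
      rfl)
  have hj : j (AdjoinRoot.root _) = AdjoinRoot.root _ := AdjoinRoot.liftAlgHom_root _ _ _ _
  have hζE : IsPrimitiveRoot (algebraMap F E ζ) p := hζ.map_of_injective (algebraMap F E).injective
  have h1 := Pool.Agent.Y349.EP.norm_prod hp (x : F) ζ hζ Hx g
  have h2 := Pool.Agent.Y349.EP.norm_prod hp ((iu F E x : Eˣ) : E) (algebraMap F E ζ) hζE Hx'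
    (g.map (algebraMap F E))
  have h3 := congrArg j h1
  rw [hg, hy', map_prod] at h3
  have h4 : ∀ i : ℕ, j (aeval (ζ ^ i • AdjoinRoot.root (X ^ p - C (x : F))) g) =
      aeval (algebraMap F E ζ ^ i • AdjoinRoot.root (X ^ p - C ((iu F E x : Eˣ) : E)))
        (g.map (algebraMap F E)) := by
    intro i
    rw [aeval_map_algebraMap, ← Polynomial.aeval_algHom_apply, map_smul, hj, ← map_pow,
      algebraMap_smul]
  have h5 : j (algebraMap F A z) = algebraMap E B (algebraMap F E z) := by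
    rw [j.commutes]
    exact IsScalarTower.algebraMap_apply F E B z
  rw [Finset.prod_congr rfl fun i _ => h4 i, ← h2] at h3
  have h6 : Algebra.norm E (aeval (AdjoinRoot.root (X ^ p - C ((iu F E x : Eˣ) : E)))
      (g.map (algebraMap F E))) = algebraMap F E z := by
    have : Fact (Irreducible (X ^ p - C ((iu F E x : Eˣ) : E))) := ⟨Hx'⟩
    exact (algebraMap E B).injective (h3.symm.trans h5)
  exact mem_nmG_of hp.pos h6

/-- the norm group depends only on the class -/
lemma nmG_congr {x y : Fˣ} (h : cls p x = cls p y) : nmG p x = nmG p y := by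
  have key : ∀ x y : Fˣ, cls p x = cls p y → nmG p x ≤ nmG p y := by
    intro x y h
    have h1 : cls p (x / y) = 0 := by rw [cls_div, h, sub_self]
    rw [cls_eq_zero] at h1
    obtain ⟨b, hb⟩ := h1
    refine Pool.Agent.Y349.EP.nmG_le y b x ?_
    have hb' : b ^ p = x / y := hb
    rw [← Units.val_pow_eq_pow_val, hb', ← Units.val_mul, mul_div_cancel]
  exact le_antisymm (key x y h) (key y x h.symm)

/-- the relation `w ∈ N(v)` for classes `v, w` -/
def Nr (v w : VS F p) : Prop := ∃ x y : Fˣ, cls p x = v ∧ cls p y = w ∧ y ∈ nmG p x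

lemma nr_cls (hp : 0 < p) {x y : Fˣ} : Nr (cls p x) (cls p y) ↔ y ∈ nmG p x := by
  constructor
  · rintro ⟨x', y', hx, hy, h⟩
    rw [nmG_congr hx] at h
    have h1 : cls p (y / y') = 0 := by rw [cls_div, hy, sub_self]
    rw [cls_eq_zero] at h1
    have h2 := mul_mem (pwG_le_nmG hp x h1) h
    rwa [div_mul_cancel] at h2
  · intro h
    exact ⟨x, y, rfl, rfl, h⟩

lemma nr_add [Fact p.Prime] {v w w' : VS F p} (h : Nr v w) (h' : Nr v w') : Nr v (w + w') := by
  have hp : p.Prime := Fact.out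
  obtain ⟨x, rfl⟩ := cls_surj v
  obtain ⟨y, rfl⟩ := cls_surj w
  obtain ⟨y', rfl⟩ := cls_surj w'
  rw [nr_cls hp.pos] at h h'
  rw [← cls_mul, nr_cls hp.pos]
  exact mul_mem h h'

lemma nr_smul [Fact p.Prime] {v w : VS F p} (a : ZMod p) (h : Nr v w) : Nr v (a • w) := by
  have hp : p.Prime := Fact.out
  obtain ⟨x, rfl⟩ := cls_surj v
  obtain ⟨y, rfl⟩ := cls_surj w
  rw [nr_cls hp.pos] at h
  rw [zmod_smul_cls, nr_cls hp.pos]
  exact pow_mem h _

lemma nr_sub [Fact p.Prime] {v w w' : VS F p} (h : Nr v w) (h' : Nr v w') : Nr v (w - w') := by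
  have h1 := nr_add h (nr_smul (-1) h')
  rwa [neg_one_smul, ← sub_eq_add_neg] at h1

lemma nr_self [Fact p.Prime] (hneg : (-1 : Fˣ) ∈ pwG F p) (v : VS F p) : Nr v v := by
  have hp : p.Prime := Fact.out
  obtain ⟨x, rfl⟩ := cls_surj v
  rw [nr_cls hp.pos]
  exact self_mem_nmG hp.pos hneg x

lemma nr_symm [Fact p.Prime] (hζ : ∃ ζ : F, IsPrimitiveRoot ζ p) {v w : VS F p} (hv : v ≠ 0)
    (hw : w ≠ 0) (h : Nr v w) : Nr w v := by
  have hp : p.Prime := Fact.out
  obtain ⟨x, rfl⟩ := cls_surj v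
  obtain ⟨y, rfl⟩ := cls_surj w
  rw [nr_cls hp.pos] at h ⊢
  exact symm_nmG hp hζ (fun h => hv (cls_eq_zero.2 h)) (fun h => hw (cls_eq_zero.2 h)) h

end bc

section ker

variable {p : ℕ} {F K : Type} [Field F] [Field K] [Algebra F K]

/-- the classes of `F` which vanish in `K` -/
noncomputable def AA (p : ℕ) (F K : Type) [Field F] [Field K] [Algebra F K] :
    Submodule (ZMod p) (VS F p) := LinearMap.ker (vmap p (iu F K))

lemma mem_AA {x : Fˣ} : cls p x ∈ AA p F K ↔ iu F K x ∈ pwG K p := by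
  rw [AA, LinearMap.mem_ker, vmap_cls, cls_eq_zero]

open IntermediateField

/-- the subextension `F(θ)`, `θ^p = x` -/
theorem exists_sub (hp : p.Prime) (hζ : ∃ ζ : F, IsPrimitiveRoot ζ p) {x : Fˣ}
    (hx : x ∉ pwG F p) (hxK : iu F K x ∈ pwG K p) :
    ∃ (E : IntermediateField F K) (θ : E), FiniteDimensional F E ∧ IsGalois F E ∧
      Module.finrank F E = p ∧ θ ^ p = algebraMap F E x := by
  have Hc := Pool.Agent.Y349.EP.irr hp x hx
  obtain ⟨ζ, hζ⟩ := hζ
  have hne : (primitiveRoots p F).Nonempty := ⟨ζ, (mem_primitiveRoots hp.pos).mpr hζ⟩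
  obtain ⟨θ, hθ⟩ := hxK
  have hθ : (θ : K) ^ p = algebraMap F K x := by
    rw [← Units.val_pow_eq_pow_val]
    exact congrArg Units.val hθ
  have hint : IsIntegral F (θ : K) := by
    refine ⟨X ^ p - C (x : F), monic_X_pow_sub_C _ hp.ne_zero, ?_⟩
    rw [← aeval_def, map_sub, map_pow, aeval_X, aeval_C, hθ, sub_self]
  have hmin : minpoly F (θ : K) = X ^ p - C (x : F) := by
    refine (minpoly.eq_of_irreducible_of_monic Hc ?_ (monic_X_pow_sub_C _ hp.ne_zero)).symm
    rw [map_sub, map_pow, aeval_X, aeval_C, hθ, sub_self]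
  have hdeg : Module.finrank F F⟮(θ : K)⟯ = p := by
    rw [adjoin.finrank hint, hmin, natDegree_X_pow_sub_C]
  have hfd : FiniteDimensional F F⟮(θ : K)⟯ := adjoin.finiteDimensional hint
  have hpow : (AdjoinSimple.gen F (θ : K)) ^ p = algebraMap F F⟮(θ : K)⟯ x := by
    apply (algebraMap F⟮(θ : K)⟯ K).injective
    rw [map_pow, AdjoinSimple.algebraMap_gen, hθ]
    rfl
  have hgal : IsGalois F F⟮(θ : K)⟯ := by
    have h2 : ∃ α : F⟮(θ : K)⟯, α ^ (Module.finrank F F⟮(θ : K)⟯) ∈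
        Set.range (algebraMap F F⟮(θ : K)⟯) ∧ F⟮α⟯ = ⊤ := by
      refine ⟨AdjoinSimple.gen F (θ : K), ?_, ?_⟩
      · rw [hdeg]
        exact ⟨x, hpow.symm⟩
      · have hint' : IsIntegral F (AdjoinSimple.gen F (θ : K)) := Algebra.IsIntegral.isIntegral _
        apply IntermediateField.eq_of_le_of_finrank_eq le_top
        rw [adjoin.finrank hint', minpoly_gen, hmin, natDegree_X_pow_sub_C,
          IntermediateField.finrank_top', hdeg]
    have h3 := (isCyclic_tfae F F⟮(θ : K)⟯ (by rw [hdeg]; exact hne)).out 2 0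
    exact (h3.1 h2).1
  exact ⟨F⟮(θ : K)⟯, AdjoinSimple.gen F (θ : K), hfd, hgal, hdeg, hpow⟩

/-- `V_F → V_K` is surjective -/
def Srj (p : ℕ) (F K : Type) [Field F] [Field K] [Algebra F K] : Prop :=
  ∀ y : Kˣ, ∃ (f : Fˣ) (k : Kˣ), y = iu F K f * k ^ p

variable [IsGalois F K]

/-- if `e` vanishes in `K`, then so do all elements of `N(e)` -/
theorem nr_AA [Fact p.Prime] (hζ : ∃ ζ : F, IsPrimitiveRoot ζ p) (hs : Srj p F K)
    {v w : VS F p} (hv : v ≠ 0) (hvA : v ∈ AA p F K) (h : Nr v w) : w ∈ AA p F K := by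
  have hp : p.Prime := Fact.out
  obtain ⟨e, rfl⟩ := cls_surj v
  obtain ⟨b, rfl⟩ := cls_surj w
  rw [nr_cls hp.pos] at h
  rw [mem_AA] at hvA ⊢
  have he : e ∉ pwG F p := fun h => hv (cls_eq_zero.2 h)
  obtain ⟨E, θ, hfd, hgal, hdeg, hθ⟩ := exists_sub hp hζ he hvA
  rw [← range_nu' hp he hθ hdeg] at h
  obtain ⟨y, rfl⟩ := h
  obtain ⟨f, k, hk⟩ := hs (iu E K y)
  have hk' : (algebraMap E K y) = algebraMap F K f * (k : K) ^ p := congrArg Units.val hk
  -- conjugates
  have hconj : ∀ τ : E ≃ₐ[F] E, ∃ m : Kˣ, algebraMap E K (τ y) = algebraMap F K f * (m : K) ^ p := by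
    intro τ
    obtain ⟨τ', hτ'⟩ := AlgEquiv.restrictNormalHom_surjective (F := F) (K₁ := E) K τ
    refine ⟨su τ' k, ?_⟩
    rw [← hτ']
    have h1 := AlgEquiv.restrictNormal_commutes τ' E (y : E)
    change algebraMap E K ((τ'.restrictNormal E) y) = _
    rw [h1, hk', map_mul, AlgEquiv.commutes, map_pow, su_val]
  choose m hm using hconj
  have hprod : algebraMap F K (Algebra.norm F (y : E)) =
      (algebraMap F K f) ^ p * ((∏ τ : E ≃ₐ[F] E, m τ : Kˣ) : K) ^ p := by
    rw [IsScalarTower.algebraMap_apply F E K, Algebra.norm_eq_prod_automorphisms, map_prod,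
      Finset.prod_congr rfl fun τ _ => hm τ, Finset.prod_mul_distrib, Finset.prod_const,
      Finset.prod_pow, Units.coe_prod, Finset.card_univ, ← Nat.card_eq_fintype_card,
      IsGalois.card_aut_eq_finrank, hdeg]
  refine ⟨iu F K f * ∏ τ : E ≃ₐ[F] E, m τ, Units.ext ?_⟩
  rw [iu_val, nu_val, hprod, ← mul_pow]
  rfl

/-- if `v` does not vanish in `K`, then `N(v)` meets the kernel trivially -/
theorem nr_notMem [Fact p.Prime] (hζ : ∃ ζ : F, IsPrimitiveRoot ζ p) (hs : Srj p F K)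
    {v w : VS F p} (hvA : v ∉ AA p F K) (hw : w ∈ AA p F K) (h : Nr v w) : w = 0 := by
  by_contra hw0
  have hv0 : v ≠ 0 := by
    rintro rfl
    exact hvA (zero_mem _)
  exact hvA (nr_AA hζ hs hw0 hw (nr_symm hζ hv0 hw0 h))

end ker

end Pool.Agent.H403.Z
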