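import Mathlib
import Pool.Agent.H403.Z.Nor1

set_option autoImplicit false
set_option linter.unusedSectionVars false

/-! Finitely generated normal subgroups: rigid classes or few classes vanishing in `K`. -/

namespace Pool.Agent.H403.Z

open Module Pool.Agent.Y920.EP Polynomial

section two

variable {p : ℕ} {F K : Type} [Field F] [Field K] [Algebra F K]

lemma iu_iu (E : IntermediateField F K) (x : Fˣ) : iu E K (iu F E x) = iu F K x := by
  ext
  rw [iu_val, iu_val, iu_val, ← IsScalarTower.algebraMap_apply]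

lemma AA_up (E : IntermediateField F K) {v : VS F p} :
    vmap p (iu F E) v ∈ AA p E K ↔ v ∈ AA p F K := by
  obtain ⟨x, rfl⟩ := cls_surj v
  rw [vmap_cls, mem_AA, mem_AA, iu_iu]

lemma srj_up (E : IntermediateField F K) (hs : Srj p F K) : Srj p E K := by
  intro y
  obtain ⟨f, k, hk⟩ := hs y
  exact ⟨iu F E f, k, by rw [iu_iu, hk]⟩

lemma nr_up [Fact p.Prime] (hζ : ∃ ζ : F, IsPrimitiveRoot ζ p) (E : IntermediateField F K)
    {v w : VS F p} (hv : v ∉ AA p F K) (h : Nr v w) :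
    Nr (vmap p (iu F E) v) (vmap p (iu F E) w) := by
  have hp : p.Prime := Fact.out
  obtain ⟨ζ, hζ⟩ := hζ
  obtain ⟨x, rfl⟩ := cls_surj v
  obtain ⟨z, rfl⟩ := cls_surj w
  rw [nr_cls hp.pos] at h
  rw [vmap_cls, vmap_cls, nr_cls hp.pos]
  rw [← AA_up E, vmap_cls] at hv
  refine base_change hp hζ ?_ ?_ h
  · intro hx
    apply hv
    rw [← vmap_cls, cls_eq_zero.2 hx, map_zero]
    exact zero_mem _
  · intro hx
    apply hv
    rw [cls_eq_zero.2 hx]
    exact zero_mem _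

variable [IsGalois F K]

/-- pairs -/
theorem pair [Fact p.Prime] (hζ : ∃ ζ : F, IsPrimitiveRoot ζ p) (hneg : (-1 : Fˣ) ∈ pwG F p)
    (hs : Srj p F K)
    {v₁ v₂ w₁ w₂ : VS F p} (h₁ : v₁ ∉ AA p F K) (h₂ : v₂ ∉ AA p F K) (h12 : v₁ - v₂ ∈ AA p F K)
    (hne : v₁ ≠ v₂) (hr₁ : Nr v₁ w₁) (hr₂ : Nr v₂ w₂) (hw : w₁ - w₂ ∈ AA p F K) :
    ∃ a : ZMod p, w₁ - w₂ = a • (v₁ - v₂) := by
  have hp : p.Prime := Fact.out
  obtain ⟨e, he⟩ := cls_surj (v₁ - v₂)
  have he0 : e ∉ pwG F p := by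
    intro h
    rw [← cls_eq_zero, he, sub_eq_zero] at h
    exact hne h
  rw [← he, mem_AA] at h12
  obtain ⟨E, θ, hfd, hgal, hdeg, hθ⟩ := exists_sub hp hζ he0 h12
  obtain ⟨σ, ω, θ', c', hce⟩ := exists_CE hp hdeg hζ
  have hcy := cyc_of_CE hce hneg
  have hζE : ∃ ζ : E, IsPrimitiveRoot ζ p := by
    obtain ⟨ζ, hζ⟩ := hζ
    exact ⟨_, hζ.map_of_injective (algebraMap F E).injective⟩
  have hθ0 : θ ≠ 0 := by
    rintro rfl
    rw [zero_pow hp.ne_zero] at hθ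
    exact (_root_.map_ne_zero _).2 e.ne_zero hθ.symm
  have hker : cls p e ∈ LinearMap.ker (vmap p (iu F E)) := by
    rw [LinearMap.mem_ker, vmap_cls, cls_eq_zero]
    exact ⟨Units.mk0 θ hθ0, Units.ext hθ⟩
  have heq : vmap p (iu F E) v₁ = vmap p (iu F E) v₂ := by
    rw [← sub_eq_zero, ← map_sub, ← he]
    exact hker
  have hr₁' := nr_up hζ E h₁ hr₁
  have hr₂' := nr_up hζ E h₂ hr₂
  rw [← heq] at hr₂'
  have h3 := nr_sub hr₁' hr₂'
  rw [← map_sub] at h3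
  have h4 := nr_notMem hζE (srj_up E hs) (fun h => h₁ ((AA_up E).1 h)) ((AA_up E).2 hw) h3
  have h5 : w₁ - w₂ ∈ LinearMap.ker (vmap p (iu F E)) := h4
  rw [hcy.ker] at h5 hker
  obtain ⟨s, hs'⟩ := Submodule.mem_span_singleton.1 hker
  obtain ⟨t, ht⟩ := Submodule.mem_span_singleton.1 h5
  have hs0 : s ≠ 0 := by
    rintro rfl
    rw [zero_smul] at hs'
    exact he0 (cls_eq_zero.1 hs'.symm)
  refine ⟨t * s⁻¹, ?_⟩
  rw [← he, ← hs', smul_smul, mul_assoc, inv_mul_cancel₀ hs0, mul_one, ht]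

/-- if no class of `F` is norm-rigid, then few classes vanish in `K` -/
theorem small_of_no_rigid [Fact p.Prime] (hζ : ∃ ζ : F, IsPrimitiveRoot ζ p)
    (hneg : (-1 : Fˣ) ∈ pwG F p) (hs : Srj p F K) (hne : ∃ y : Kˣ, y ∉ pwG K p)
    (hnr : ∀ c : Fˣ, c ∉ pwG F p → ¬ nmG p c ≤ Subgroup.zpowers c ⊔ pwG F p) :
    ∃ g : AA p F K → VS K p, Function.Injective g := by
  have hp : p.Prime := Fact.out
  obtain ⟨y, hy⟩ := hne
  obtain ⟨f, k, rfl⟩ := hs y
  have hf : cls p f ∉ AA p F K := by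
    rw [mem_AA]
    intro h
    exact hy (mul_mem h ⟨k, rfl⟩)
  set v₀ := cls p f with hv₀
  have hadd : ∀ a : AA p F K, v₀ + (a : VS F p) ∉ AA p F K := by
    intro a h
    apply hf
    have := Submodule.sub_mem _ h a.2
    rwa [add_sub_cancel_right] at this
  have hex : ∀ a : AA p F K, ∃ w : VS F p, Nr (v₀ + (a : VS F p)) w ∧
      w ∉ Submodule.span (ZMod p) {v₀ + (a : VS F p)} := by
    intro a
    obtain ⟨c, hc⟩ := cls_surj (v₀ + (a : VS F p))
    have hc0 : c ∉ pwG F p := by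
      intro h
      rw [← cls_eq_zero, hc] at h
      apply hadd a
      rw [h]
      exact zero_mem _
    obtain ⟨b, hb, hb'⟩ := SetLike.not_le_iff_exists.1 (hnr c hc0)
    refine ⟨cls p b, ?_, ?_⟩
    · rw [← hc, nr_cls hp.pos]
      exact hb
    · rw [← hc, mem_span_cls]
      exact hb'
  choose w hw1 hw2 using hex
  refine ⟨fun a => vmap p (iu F K) (w a), ?_⟩
  intro a₁ a₂ h12
  by_contra hne
  have hwA : w a₁ - w a₂ ∈ AA p F K := by
    rw [AA, LinearMap.mem_ker, map_sub, sub_eq_zero]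
    exact h12
  have hvA : (v₀ + (a₁ : VS F p)) - (v₀ + (a₂ : VS F p)) ∈ AA p F K := by
    rw [add_sub_add_left_eq_sub]
    exact Submodule.sub_mem _ a₁.2 a₂.2
  have hvne : v₀ + (a₁ : VS F p) ≠ v₀ + (a₂ : VS F p) := by
    intro h
    exact hne (Subtype.ext (add_left_cancel h))
  obtain ⟨l, hl⟩ := pair hζ hneg hs (hadd a₁) (hadd a₂) hvA hvne (hw1 a₁) (hw1 a₂) hwA
  -- the common element
  have hW : w a₁ - l • (v₀ + (a₁ : VS F p)) = w a₂ - l • (v₀ + (a₂ : VS F p)) := by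
    rw [smul_sub] at hl
    rw [sub_eq_sub_iff_add_eq_add]
    have h3 : w a₁ = w a₂ + (l • (v₀ + (a₁ : VS F p)) - l • (v₀ + (a₂ : VS F p))) := by
      rw [← hl]; abel
    rw [h3]
    abel
  set W := w a₁ - l • (v₀ + (a₁ : VS F p)) with hWdef
  have hN1 : Nr (v₀ + (a₁ : VS F p)) W := nr_sub (hw1 a₁) (nr_smul l (nr_self hneg _))
  have hN2 : Nr (v₀ + (a₂ : VS F p)) W := by
    rw [hW]
    exact nr_sub (hw1 a₂) (nr_smul l (nr_self hneg _))
  have hWA : W ∉ AA p F K := by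
    intro h
    have h3 := nr_notMem hζ hs (hadd a₁) h hN1
    apply hw2 a₁
    rw [Submodule.mem_span_singleton]
    exact ⟨l, (sub_eq_zero.1 h3).symm⟩
  have hne0 : ∀ a : AA p F K, v₀ + (a : VS F p) ≠ 0 := by
    intro a h
    apply hadd a
    rw [h]
    exact zero_mem _
  have hW0 : W ≠ 0 := by
    intro h
    apply hWA
    rw [h]
    exact zero_mem _
  have h5 := nr_sub (nr_symm hζ (hne0 a₁) hW0 hN1) (nr_symm hζ (hne0 a₂) hW0 hN2)
  have h6 := nr_notMem hζ hs hWA hvA h5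
  exact hvne (sub_eq_zero.1 h6)

end two

end Pool.Agent.H403.Z
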