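import Mathlib
import Pool.Agent.H403.Z.Nor2

set_option autoImplicit false
set_option linter.unusedSectionVars false

/-! Infinite Galois `p`-extensions `K` of `F` with finite `K*/K*^p ≠ 1`. -/

namespace Pool.Agent.H403.Z

open Module Pool.Agent.Y920.EP Polynomial IntermediateField

section px

/-- `K` is a Galois `p`-extension of `F` -/
structure PX (p : ℕ) (F K : Type) [Field F] [Field K] [Algebra F K] : Prop where
  gal : IsGalois F K
  deg : ∀ E : IntermediateField F K, FiniteDimensional F E → IsGalois F E →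
    ∃ k : ℕ, Module.finrank F E = p ^ k

variable {p : ℕ} {F K : Type} [Field F] [Field K] [Algebra F K]

/-- every finite subextension lies in a finite Galois subextension of `p`-power degree -/
lemma PX.closure (h : PX p F K) (E : IntermediateField F K) [FiniteDimensional F E] :
    ∃ N : IntermediateField F K, E ≤ N ∧ FiniteDimensional F N ∧ IsGalois F N ∧
      ∃ k : ℕ, Module.finrank F N = p ^ k := by
  have := h.gal
  let N := normalClosure F E K
  have hle : E ≤ N := by simpa only [fieldRange_val] using E.val.fieldRange_le_normalClosure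
  have hgal : IsGalois F N := ⟨⟩
  exact ⟨N, hle, inferInstance, hgal, h.deg N inferInstance hgal⟩

lemma PX.up (h : PX p F K) (hp : p.Prime) (E : IntermediateField F K) [FiniteDimensional F E] :
    PX p E K := by
  have := h.gal
  refine ⟨inferInstance, fun E₂ hfd hgal => ?_⟩
  have hfd' : FiniteDimensional F (E₂.restrictScalars F) := by
    have : FiniteDimensional F E₂ := FiniteDimensional.trans F E E₂
    exact this
  obtain ⟨N, hN, hfdN, hgalN, k, hk⟩ := h.closure (E₂.restrictScalars F)
  have h1 : Module.finrank F E * Module.finrank E E₂ = Module.finrank F (E₂.restrictScalars F) :=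
    Module.finrank_mul_finrank F E E₂
  have h2 : Module.finrank F (E₂.restrictScalars F) ∣ Module.finrank F N := by
    have h3 := relfinrank_mul_relfinrank (A := (⊥ : IntermediateField F K))
      (B := E₂.restrictScalars F) (C := N) bot_le hN
    rw [relfinrank_bot_left, relfinrank_bot_left] at h3
    exact ⟨_, h3.symm⟩
  have h3 : Module.finrank E E₂ ∣ p ^ k := by
    rw [← hk]
    exact (Dvd.intro_left _ h1).trans h2
  obtain ⟨j, -, hj⟩ := (Nat.dvd_prime_pow hp).1 h3
  exact ⟨j, hj⟩

/-- the tower theorem for subextensions of `K` -/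
lemma PX.tow [Fact p.Prime] (h : PX p F K) (hζ : ∃ ζ : F, IsPrimitiveRoot ζ p)
    (hneg : (-1 : Fˣ) ∈ pwG F p) (E : IntermediateField F K) [FiniteDimensional F E] :
    (Good E p → Good F p) ∧ (Big F p → Big E p) ∧
      (Big F p → (pwG F p).index ≠ 0 → Good F p ∨
        (pwG E p).index ≠ 0 ∧
          Module.finrank F E ^ (p - 1) * (pwG F p).index ≤ (pwG E p).index) := by
  obtain ⟨N, hN, hfdN, hgalN, k, hk⟩ := h.closure E
  let e := restrictAlgEquiv hN
  obtain ⟨h2, h3, h4⟩ := tower hk hζ hneg _ (restrict hN) rfl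
  have he : Module.finrank F (restrict hN) = Module.finrank F E := e.toLinearEquiv.finrank_eq.symm
  have hi : (pwG (restrict hN) p).index = (pwG E p).index := (index_iso e.toRingEquiv).symm
  rw [he, hi] at h4
  refine ⟨fun h => h2 (good_iso e.toRingEquiv h), fun h => ?_, h4⟩
  have h5 := h3 h
  rwa [Big, hi] at h5

/-- an infinite Galois `p`-extension has a subextension of degree `p` -/
lemma PX.exists_cls [Fact p.Prime] (h : PX p F K) (hζ : ∃ ζ : F, IsPrimitiveRoot ζ p)
    (hinf : ¬ FiniteDimensional F K) : ∃ c : Fˣ, c ∉ pwG F p ∧ iu F K c ∈ pwG K p := by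
  have hp : p.Prime := Fact.out
  have := h.gal
  obtain ⟨L, hLfd, hL⟩ := exists_lt_finrank_of_infinite_dimensional hinf 1
  obtain ⟨N, hN, hfdN, hgalN, k, hk⟩ := h.closure L
  have hk0 : k ≠ 0 := by
    rintro rfl
    rw [pow_zero] at hk
    have h1 : Module.finrank F L ≤ Module.finrank F N :=
      LinearMap.finrank_le_finrank_of_injective (f := (inclusion hN).toLinearMap)
        (inclusion hN).injective
    omega
  have hcard : Nat.card (N ≃ₐ[F] N) = p ^ k := by rw [IsGalois.card_aut_eq_finrank, hk]
  obtain ⟨H, hH⟩ := Sylow.exists_subgroup_card_pow_prime (G := N ≃ₐ[F] N) p (n := k - 1)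
    (by rw [hcard]; exact pow_dvd_pow p (Nat.sub_le k 1))
  have hidx : H.index = p := by
    have h1 := H.card_mul_index
    rw [hH, hcard] at h1
    have h2 : p ^ k = p ^ (k - 1) * p := by rw [← pow_succ, Nat.sub_add_cancel (by omega)]
    rw [h2] at h1
    exact Nat.eq_of_mul_eq_mul_left (pow_pos hp.pos _) h1
  have hnorm : H.Normal := by
    apply Subgroup.normal_of_index_eq_minFac_card
    rw [hidx, hcard, hp.pow_minFac hk0]
  have hgal : IsGalois F (fixedField H) := IsGalois.of_fixedField_normal_subgroup H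
  have hdeg : Module.finrank F (fixedField H) = p := by
    rw [finrank_eq_fixingSubgroup_index, fixingSubgroup_fixedField, hidx]
  obtain ⟨σ, ω, θ, c, hce⟩ := exists_CE hp hdeg hζ
  refine ⟨c, c_notMem hp hce, iu N K (iu (fixedField H) N θ), ?_⟩
  ext
  change ((iu N K (iu (fixedField H) N θ) ^ p : Kˣ) : K) = _
  rw [← map_pow, ← map_pow, iu_val, iu_val, iu_val, Units.val_pow_eq_pow_val, hce.pow,
    ← IsScalarTower.algebraMap_apply, ← IsScalarTower.algebraMap_apply]

/-- Theorem A -/
theorem good_of_srj [Fact p.Prime] (h : PX p F K) (hinf : ¬ FiniteDimensional F K)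
    (hζ : ∃ ζ : F, IsPrimitiveRoot ζ p) (hneg : (-1 : Fˣ) ∈ pwG F p) (hs : Srj p F K)
    (hfin : (pwG K p).index ≠ 0) (hne : (pwG K p).index ≠ 1) : Good F p := by
  have hp : p.Prime := Fact.out
  have := h.gal
  by_contra hG
  obtain ⟨hcardK, hfdK⟩ := card_VS hfin
  set r := finrank (ZMod p) (VS K p) with hr
  have hneK : ∃ y : Kˣ, y ∉ pwG K p := by
    by_contra hcon
    push Not at hcon
    exact hne (Subgroup.index_eq_one.2 (eq_top_iff.2 fun y _ => hcon y))
  have hsurj : ∀ E : IntermediateField F K, Function.Surjective (vmap p (iu E K)) := by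
    intro E v
    obtain ⟨y, rfl⟩ := cls_surj v
    obtain ⟨f, k, rfl⟩ := srj_up E hs y
    refine ⟨cls p f, ?_⟩
    rw [vmap_cls, cls_mul, cls_eq_zero.2 (show k ^ p ∈ pwG K p from ⟨k, rfl⟩), add_zero]
  -- `Big F`
  have hbig : Big F p := by
    obtain ⟨c, hc, hcK⟩ := h.exists_cls hζ hinf
    obtain ⟨y, hy⟩ := hneK
    obtain ⟨f, k, rfl⟩ := hs y
    have hf : iu F K f ∉ pwG K p := fun h => hy (mul_mem h ⟨k, rfl⟩)
    have hind : f ∉ Subgroup.zpowers c ⊔ pwG F p := by
      intro h1
      apply hf
      obtain ⟨z, hz, t, ⟨s, rfl⟩, rfl⟩ := Subgroup.mem_sup.1 h1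
      obtain ⟨n, rfl⟩ := Subgroup.mem_zpowers_iff.1 hz
      rw [map_mul, map_zpow]
      refine mul_mem (zpow_mem hcK n) ⟨iu F K s, ?_⟩
      exact (map_pow (iu F K) s p).symm
    have h0 : cls p c ≠ 0 := fun h => hc (cls_eq_zero.1 h)
    constructor
    · intro h1
      rw [Subgroup.index_eq_one] at h1
      exact hc (by rw [h1]; trivial)
    · intro h1
      obtain ⟨h2, h3⟩ := card_VS (K := F) (p := p) (by rw [h1]; exact hp.ne_zero)
      rw [h1] at h2
      have h4 : finrank (ZMod p) (VS F p) = 1 := by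
        have h5 : p ^ 1 = p ^ finrank (ZMod p) (VS F p) := by rw [pow_one]; exact h2
        exact (Nat.pow_right_injective hp.two_le h5).symm
      have h5 : Submodule.span (ZMod p) {cls p c} = ⊤ := by
        apply Submodule.eq_top_of_finrank_eq
        rw [finrank_span_singleton h0, h4]
      apply hind
      rw [← mem_span_cls, h5]
      trivial
  -- the bound
  have hbound : ∀ E : IntermediateField F K, FiniteDimensional F E →
      (pwG E p).index ≠ 0 ∧ (pwG E p).index ≤ p ^ (2 * r) := by
    intro E hE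
    obtain ⟨t1, t2, -⟩ := h.tow hζ hneg E
    have hζE : ∃ ζ : E, IsPrimitiveRoot ζ p := by
      obtain ⟨ζ, hζ⟩ := hζ
      exact ⟨_, hζ.map_of_injective (algebraMap F E).injective⟩
    have hnegE : (-1 : Eˣ) ∈ pwG E p := by
      obtain ⟨i, hi⟩ := hneg
      refine ⟨iu F E i, ?_⟩
      have hi' : i ^ p = -1 := hi
      change (iu F E i) ^ p = -1
      rw [← map_pow, hi']
      ext
      rw [iu_val, Units.val_neg, Units.val_one, map_neg, map_one, Units.val_neg, Units.val_one]
    have hnr : ∀ c : Eˣ, c ∉ pwG E p → ¬ nmG p c ≤ Subgroup.zpowers c ⊔ pwG E p := by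
      intro c hc hc'
      exact hG (t1 (good_of_rigid hζE hnegE (t2 hbig) hc hc'))
    obtain ⟨g, hg⟩ := small_of_no_rigid (F := E) (K := K) hζE hnegE (srj_up E hs) hneK hnr
    have hfinK : Finite (VS K p) := Module.finite_of_finite (ZMod p)
    have hfinA : Finite (AA p E K) := Finite.of_injective g hg
    have hfdA : FiniteDimensional (ZMod p) (AA p E K) := Module.Finite.of_finite
    have h1 : Nat.card (AA p E K) ≤ Nat.card (VS K p) := Nat.card_le_card_of_injective g hg
    rw [Module.natCard_eq_pow_finrank (K := ZMod p), Module.natCard_eq_pow_finrank (K := ZMod p)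
      (V := VS K p), Nat.card_zmod] at h1
    have h2 : finrank (ZMod p) (AA p E K) ≤ r := (Nat.pow_le_pow_iff_right hp.one_lt).1 h1
    have h3 : FiniteDimensional (ZMod p) (VS E p ⧸ AA p E K) :=
      Module.Finite.equiv (LinearMap.quotKerEquivOfSurjective _ (hsurj E)).symm
    have h4 : FiniteDimensional (ZMod p) (VS E p) := Module.Finite.of_submodule_quotient (AA p E K)
    have h5 := LinearMap.finrank_range_add_finrank_ker (vmap p (iu E K))
    rw [LinearMap.range_eq_top.2 (hsurj E), finrank_top] at h5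
    have h6 : finrank (ZMod p) (LinearMap.ker (vmap p (iu E K))) ≤ r := h2
    rw [index_of_fin]
    exact ⟨pow_ne_zero _ hp.ne_zero, Nat.pow_le_pow_right hp.pos (by omega)⟩
  -- large subextensions
  have hF0 : (pwG F p).index ≠ 0 := by
    have h1 := (hbound ⊥ inferInstance).1
    rwa [index_iso (botEquiv F K).toRingEquiv] at h1
  obtain ⟨L, hLfd, hL⟩ := exists_lt_finrank_of_infinite_dimensional hinf (p ^ (2 * r))
  obtain ⟨-, -, t3⟩ := h.tow hζ hneg L
  rcases t3 hbig hF0 with h1 | ⟨-, h1⟩
  · exact hG h1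
  · have h2 := (hbound L hLfd).2
    have h3 : Module.finrank F L ≤ Module.finrank F L ^ (p - 1) :=
      Nat.le_self_pow (by have := hp.two_le; omega) _
    have h4 : Module.finrank F L ^ (p - 1) * 1 ≤ Module.finrank F L ^ (p - 1) * (pwG F p).index :=
      Nat.mul_le_mul_left _ (Nat.pos_of_ne_zero hF0)
    omega

/-- **infinite Galois `p`-extensions with few classes** -/
theorem good_of_normal [Fact p.Prime] (h : PX p F K) (hinf : ¬ FiniteDimensional F K)
    (hζ : ∃ ζ : F, IsPrimitiveRoot ζ p) (hneg : (-1 : Fˣ) ∈ pwG F p)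
    (hfin : (pwG K p).index ≠ 0) (hne : (pwG K p).index ≠ 1) : Good F p := by
  have hp : p.Prime := Fact.out
  have := h.gal
  obtain ⟨hcardK, hfdK⟩ := card_VS hfin
  have hfinK : Finite (VS K p) := Module.finite_of_finite (ZMod p)
  choose x hx using (cls_surj : ∀ v : VS K p, ∃ x : Kˣ, cls p x = v)
  let S : Set K := Set.range fun v : VS K p => (x v : K)
  have hSfin : S.Finite := Set.finite_range _
  let E : IntermediateField F K := adjoin F S
  have hEfd : FiniteDimensional F E := by
    have : Finite S := hSfin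
    exact finiteDimensional_adjoin fun y _ => Algebra.IsIntegral.isIntegral y
  have hs : Srj p E K := by
    intro y
    have h1 : (x (cls p y) : K) ∈ E := subset_adjoin F S ⟨cls p y, rfl⟩
    have h2 : cls p (y / x (cls p y)) = 0 := by rw [cls_div, hx, sub_self]
    rw [cls_eq_zero] at h2
    obtain ⟨k, hk⟩ := h2
    have hk' : k ^ p = y / x (cls p y) := hk
    refine ⟨Units.mk0 ⟨x (cls p y), h1⟩ (fun h0 => (x (cls p y)).ne_zero
      (congrArg Subtype.val h0)), k, ?_⟩
    rw [hk']
    ext
    rw [Units.val_mul, iu_val, Units.val_div_eq_div_val, Units.val_mk0]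
    change (y : K) = (x (cls p y) : K) * (y / x (cls p y))
    have := (x (cls p y)).ne_zero
    field_simp
  have hζE : ∃ ζ : E, IsPrimitiveRoot ζ p := by
    obtain ⟨ζ, hζ⟩ := hζ
    exact ⟨_, hζ.map_of_injective (algebraMap F E).injective⟩
  have hnegE : (-1 : Eˣ) ∈ pwG E p := by
    obtain ⟨i, hi⟩ := hneg
    refine ⟨iu F E i, ?_⟩
    have hi' : i ^ p = -1 := hi
    change (iu F E i) ^ p = -1
    rw [← map_pow, hi']
    ext
    rw [iu_val, Units.val_neg, Units.val_one, map_neg, map_one, Units.val_neg, Units.val_one]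
  have hinfE : ¬ FiniteDimensional E K := by
    intro h1
    exact hinf (FiniteDimensional.trans F E K)
  exact (h.tow hζ hneg E).1 (good_of_srj (h.up hp E) hinfE hζE hnegE hs hfin hne)

end px

end Pool.Agent.H403.Z
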