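import Mathlib
import Pool.Agent.H403.Z.Nor3

set_option autoImplicit false
set_option linter.unusedSectionVars false

/-! `p = 2` and `-1` not a square. -/

namespace Pool.Agent.H403.Z

open Module Pool.Agent.Y920.EP Polynomial IntermediateField

section quad

variable {F L : Type} [Field F] [Field L] [Algebra F L] [FiniteDimensional F L] [IsGalois F L]

/-- finiteness in cyclic extensions of degree `p` -/
lemma fin_step {p : ℕ} [Fact p.Prime] {σ : L ≃ₐ[F] L} {ω : F} {θ : Lˣ} {c : Fˣ}
    (h : CE p σ ω θ c) (hf : (pwG F p).index ≠ 0) : (pwG L p).index ≠ 0 := by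
  have hp : p.Prime := Fact.out
  have := (card_VS hf).2
  have hS : ∀ (i : ℕ) (x : Lˣ), ((vmap p (su σ)) ^ i) (cls p x) = cls p ((su σ)^[i] x) := by
    intro i x
    induction i with
    | zero => rfl
    | succ i ih =>
      rw [pow_succ', Module.End.mul_apply, ih, vmap_cls, Function.iterate_succ_apply']
  have hnil : (vmap p (su σ) - 1) ^ p = 0 := by
    rw [sub_one_pow_p, sub_eq_zero]
    ext v
    obtain ⟨x, rfl⟩ := cls_surj v
    rw [hS, Module.End.one_apply]
    congr 1
    ext
    rw [su_pow_val, ← order_p h, pow_orderOf_eq_one]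
    rfl
  have hh : ∀ v, vmap p (nu F L) v = 0 →
      v ∈ LinearMap.range (vmap p (iu F L)) ⊔ LinearMap.range (vmap p (su σ) - 1) := by
    intro v hv
    obtain ⟨x, rfl⟩ := cls_surj v
    rw [vmap_cls, cls_eq_zero] at hv
    obtain ⟨g, hg⟩ := hv
    have hg' : nu F L x = g ^ p := hg.symm
    have h1 : nu F L (x / iu F L g) = 1 := by
      rw [_root_.map_div, nu_iu h.deg, hg', div_self']
    obtain ⟨y, hy⟩ := h90 h h1
    have h2 : cls p x = vmap p (iu F L) (cls p g) + (vmap p (su σ) - 1) (cls p y) := by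
      rw [LinearMap.sub_apply, vmap_cls, vmap_cls, Module.End.one_apply, ← cls_div, ← hy,
        ← cls_mul, mul_div_cancel]
    rw [h2]
    exact Submodule.add_mem _ (Submodule.mem_sup_left ⟨_, rfl⟩) (Submodule.mem_sup_right ⟨_, rfl⟩)
  obtain ⟨s, hs⟩ := (LinearMap.rangeRestrict (vmap p (nu F L))).exists_rightInverse_of_surjective
    (LinearMap.range_rangeRestrict (vmap p (nu F L)))
  have hfd : FiniteDimensional (ZMod p) (VS L p) := by
    refine fin_of_nil (vmap p (su σ) - 1) p hnil
      (LinearMap.range (vmap p (iu F L)) ⊔ LinearMap.range s) ?_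
    rw [eq_top_iff]
    intro x _
    have h1 : vmap p (nu F L) (x - s (LinearMap.rangeRestrict (vmap p (nu F L)) x)) = 0 := by
      have h2 := congrArg (fun f => ((f (LinearMap.rangeRestrict (vmap p (nu F L)) x) :
        LinearMap.range (vmap p (nu F L))) : VS F p)) hs
      simp only [LinearMap.comp_apply, LinearMap.id_apply] at h2
      rw [map_sub, sub_eq_zero]
      exact h2.symm
    have h3 := hh _ h1
    have h4 : x = (x - s (LinearMap.rangeRestrict (vmap p (nu F L)) x)) +
        s (LinearMap.rangeRestrict (vmap p (nu F L)) x) := by rw [sub_add_cancel]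
    rw [h4]
    refine Submodule.add_mem _ ?_ (Submodule.mem_sup_left (Submodule.mem_sup_right ⟨_, rfl⟩))
    exact SetLike.le_def.1 (sup_le_sup_right le_sup_left _) h3
  rw [index_of_fin]
  exact pow_ne_zero _ hp.ne_zero

end quad

section eucl

/-- automorphisms of finite orbits of euclidean fields are trivial -/
lemma eucl {K : Type} [Field K] (h1 : ¬ IsSquare (-1 : K)) (h2 : ∀ x : K, IsSquare x ∨ IsSquare (-x))
    (h3 : ∀ a b : K, ∃ c : K, a ^ 2 + b ^ 2 = c ^ 2) (σ : K ≃+* K) (x : K) (m : ℕ) (hm : 0 < m)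
    (hx : σ^[m] x = x) : σ x = x := by
  by_contra hne
  obtain ⟨ε, hε, d, hd⟩ : ∃ ε : K, (ε = 1 ∨ ε = -1) ∧ ∃ d : K, ε * (σ x - x) = d ^ 2 := by
    rcases h2 (σ x - x) with ⟨d, hd⟩ | ⟨d, hd⟩
    · exact ⟨1, Or.inl rfl, d, by rw [one_mul, hd, pow_two]⟩
    · exact ⟨-1, Or.inr rfl, d, by rw [neg_one_mul, hd, pow_two]⟩
  have hε0 : ε ≠ 0 := by
    rcases hε with h | h
    · rw [h]; exact one_ne_zero
    · rw [h]; exact neg_ne_zero.2 one_ne_zero
  have hσε : ∀ i : ℕ, σ^[i] ε = ε := by
    intro i
    induction i with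
    | zero => rfl
    | succ i ih =>
      rw [Function.iterate_succ_apply', ih]
      rcases hε with h | h
      · rw [h, map_one]
      · rw [h, map_neg, map_one]
  have hd0 : d ≠ 0 := by
    intro h0
    rw [h0, zero_pow two_ne_zero] at hd
    exact hne (sub_eq_zero.1 ((mul_eq_zero.1 hd).resolve_left hε0))
  have hit : ∀ i : ℕ, ε * (σ^[i + 1] x - σ^[i] x) = (σ^[i] d) ^ 2 := by
    intro i
    induction i with
    | zero => exact hd
    | succ i ih =>
      have h4 := congrArg σ ih
      rw [map_mul, map_sub, map_pow, ← Function.iterate_succ_apply' σ (i + 1),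
        ← Function.iterate_succ_apply' σ i, ← Function.iterate_succ_apply' σ i] at h4
      have h5 : σ ε = ε := hσε 1
      rwa [h5] at h4
  have hdi : ∀ i : ℕ, σ^[i] d ≠ 0 := by
    intro i
    induction i with
    | zero => exact hd0
    | succ i ih =>
      rw [Function.iterate_succ_apply']
      exact (map_ne_zero_iff σ σ.injective).2 ih
  have key : ∀ n : ℕ, ∃ e : K, e ≠ 0 ∧ ε * (σ^[n + 1] x - x) = e ^ 2 := by
    intro n
    induction n with
    | zero => exact ⟨d, hd0, hd⟩
    | succ n ih =>
      obtain ⟨e, he, h4⟩ := ih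
      obtain ⟨c, hc⟩ := h3 e (σ^[n + 1] d)
      refine ⟨c, ?_, ?_⟩
      · rintro rfl
        apply h1
        refine ⟨e / σ^[n + 1] d, ?_⟩
        have := hdi (n + 1)
        field_simp
        linear_combination (-1 : K) * hc
      · rw [← hc, ← h4, ← hit (n + 1)]
        ring
  obtain ⟨e, he, h4⟩ := key (m - 1)
  rw [Nat.sub_add_cancel hm, hx, sub_self, mul_zero] at h4
  exact he (pow_eq_zero_iff two_ne_zero |>.1 h4.symm)

/-- the quadratic extension by `√-1` of an infinite Galois extension has nontrivial classes -/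
theorem ne_of_quad {F K E : Type} [Field F] [Field K] [Field E] [Algebra F K] [Algebra K E]
    [IsGalois F K] [FiniteDimensional K E] [IsGalois K E] (hinf : ¬ FiniteDimensional F K)
    (hζ : ∃ ζ : K, IsPrimitiveRoot ζ 2) (hdeg : Module.finrank K E = 2) {θ : E} (hθ : θ ^ 2 = -1)
    (hneg : (-1 : Kˣ) ∉ pwG K 2) : (pwG E 2).index ≠ 1 := by
  intro hidx
  have : Fact (Nat.Prime 2) := ⟨Nat.prime_two⟩
  have hall : ∀ z : E, z ≠ 0 → ∃ w : E, w ^ 2 = z := by
    intro z hz
    have h1 : Units.mk0 z hz ∈ pwG E 2 := by rw [Subgroup.index_eq_one.1 hidx]; trivial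
    obtain ⟨w, hw⟩ := h1
    exact ⟨w, congrArg Units.val hw⟩
  have hsq : ¬ IsSquare (-1 : K) := by
    rintro ⟨r, hr⟩
    apply hneg
    have hr0 : r ≠ 0 := by
      rintro rfl
      rw [mul_zero] at hr
      exact neg_ne_zero.2 one_ne_zero hr
    refine ⟨Units.mk0 r hr0, Units.ext ?_⟩
    change ((Units.mk0 r hr0 ^ 2 : Kˣ) : K) = _
    rw [Units.val_pow_eq_pow_val, Units.val_mk0, Units.val_neg, Units.val_one, hr, pow_two]
  obtain ⟨σ, ω, θ', c', hce⟩ := exists_CE Nat.prime_two hdeg hζ
  have hθ0 : θ ≠ 0 := by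
    rintro rfl
    rw [zero_pow two_ne_zero] at hθ
    exact neg_ne_zero.2 one_ne_zero hθ.symm
  have hσθ : σ θ = -θ := by
    have h3 : (σ θ - θ) * (σ θ + θ) = 0 := by
      have : (σ θ) ^ 2 = -1 := by rw [← map_pow, hθ, map_neg, map_one]
      linear_combination this - hθ
    rcases mul_eq_zero.1 h3 with h4 | h4
    · exfalso
      obtain ⟨g, hg⟩ := mem_of_fix hce.gen (sub_eq_zero.1 h4)
      apply hsq
      refine ⟨g, (algebraMap K E).injective ?_⟩
      rw [map_neg, map_one, map_mul, hg, ← hθ, pow_two]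
    · exact eq_neg_of_add_eq_zero_left h4
  have hA : ∀ x : K, IsSquare x ∨ IsSquare (-x) := by
    intro x
    by_cases hx : x = 0
    · left; rw [hx]; exact ⟨0, by ring⟩
    obtain ⟨y, hy⟩ := hall (algebraMap K E x) ((_root_.map_ne_zero _).2 hx)
    have h3 : (σ y - y) * (σ y + y) = 0 := by
      have : (σ y) ^ 2 = algebraMap K E x := by rw [← map_pow, hy, AlgEquiv.commutes]
      linear_combination this - hy
    rcases mul_eq_zero.1 h3 with h4 | h4
    · left
      obtain ⟨g, hg⟩ := mem_of_fix hce.gen (sub_eq_zero.1 h4)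
      refine ⟨g, (algebraMap K E).injective ?_⟩
      rw [map_mul, hg, ← hy, pow_two]
    · right
      have h5 : σ (y * θ) = y * θ := by
        rw [map_mul, hσθ, eq_neg_of_add_eq_zero_left h4]
        ring
      obtain ⟨g, hg⟩ := mem_of_fix hce.gen h5
      refine ⟨g, (algebraMap K E).injective ?_⟩
      rw [map_mul, hg, map_neg, ← hy]
      linear_combination -y ^ 2 * hθ
  have hB : ∀ a b : K, ∃ c : K, a ^ 2 + b ^ 2 = c ^ 2 := by
    intro a b
    by_cases hz : algebraMap K E a + algebraMap K E b * θ = 0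
    · have h3 := congrArg σ hz
      rw [map_add, map_mul, AlgEquiv.commutes, AlgEquiv.commutes, hσθ, map_zero] at h3
      refine ⟨0, (algebraMap K E).injective ?_⟩
      rw [map_add, map_pow, map_pow, map_pow, map_zero]
      linear_combination (algebraMap K E a - algebraMap K E b * θ) * hz +
        (algebraMap K E b) ^ 2 * hθ
    · obtain ⟨w, hw⟩ := hall _ hz
      have h5 : σ (w * σ w) = w * σ w := by
        have hσσ : σ (σ w) = w := by
          have h6 : σ ^ 2 = 1 := by
            have := pow_orderOf_eq_one σ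
            rwa [order_p hce] at this
          have h7 := congrArg (fun τ : E ≃ₐ[K] E => τ w) h6
          rwa [pow_two] at h7
        rw [map_mul, hσσ, mul_comm]
      obtain ⟨g, hg⟩ := mem_of_fix hce.gen h5
      refine ⟨g, (algebraMap K E).injective ?_⟩
      have h6 := congrArg σ hw
      rw [map_pow, map_add, map_mul, AlgEquiv.commutes, AlgEquiv.commutes, hσθ] at h6
      rw [map_add, map_pow, map_pow, map_pow, hg, mul_pow, hw, h6]
      linear_combination (algebraMap K E b) ^ 2 * hθ
  -- all automorphisms of `K` over `F` are trivial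
  apply hinf
  have htriv : ∀ x : K, x ∈ (⊥ : IntermediateField F K) := by
    intro x
    rw [InfiniteGalois.mem_bot_iff_fixed]
    intro τ
    -- finite orbits
    have hfin : (Set.range fun n : ℕ => τ^[n] x).Finite := by
      refine ((minpoly F x).rootSet_finite K).subset ?_
      rintro _ ⟨n, rfl⟩
      rw [mem_rootSet]
      refine ⟨minpoly.ne_zero (Algebra.IsIntegral.isIntegral x), ?_⟩
      have h3 : ∀ n : ℕ, aeval (τ^[n] x) (minpoly F x) = 0 := by
        intro n
        induction n with
        | zero => exact minpoly.aeval F x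
        | succ n ih =>
          rw [Function.iterate_succ_apply']
          have h4 : aeval (τ (τ^[n] x)) (minpoly F x) = τ (aeval (τ^[n] x) (minpoly F x)) :=
            Polynomial.aeval_algHom_apply (τ : K →ₐ[F] K) _ _
          rw [h4, ih, map_zero]
      exact h3 n
    obtain ⟨i, j, hij, h4⟩ : ∃ i j : ℕ, i < j ∧ τ^[i] x = τ^[j] x := by
      have := hfin.to_subtype
      obtain ⟨i, j, hne, h5⟩ := Finite.exists_ne_map_eq_of_infinite
        (fun n : ℕ => (⟨τ^[n] x, ⟨n, rfl⟩⟩ : Set.range fun n : ℕ => τ^[n] x))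
      have h6 : τ^[i] x = τ^[j] x := congrArg Subtype.val h5
      rcases lt_or_gt_of_ne hne with h | h
      · exact ⟨i, j, h, h6⟩
      · exact ⟨j, i, h, h6.symm⟩
    have h5 : τ^[j - i] x = x := by
      have h6 : τ^[i] (τ^[j - i] x) = τ^[i] x := by
        rw [← Function.iterate_add_apply, Nat.add_sub_cancel' hij.le, h4]
      exact (τ.injective.iterate i) h6
    exact eucl hsq hA hB τ.toRingEquiv x (j - i) (by omega) h5
  have hbot : (⊥ : IntermediateField F K) = ⊤ := eq_top_iff.2 fun x _ => htriv x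
  have h3 : FiniteDimensional F (⊤ : IntermediateField F K) := by
    rw [← hbot]
    infer_instance
  exact Module.Finite.equiv (IntermediateField.topEquiv (F := F) (E := K)).toLinearEquiv

end eucl

end Pool.Agent.H403.Z
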