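import Mathlib
import Pool.Agent.H403.Z.Cyc3
import Pool.Agent.H403.Z.Nor4

set_option autoImplicit false
set_option linter.unusedSectionVars false

/-! Towers without a condition on `-1`. -/

namespace Pool.Agent.H403.Z

open Module Pool.Agent.Y920.EP IntermediateField

variable {p : ℕ} {F N : Type} [Field F] [Field N] [Algebra F N] [FiniteDimensional F N]
  [IsGalois F N]

/-- descent of valuations and finiteness in towers -/
theorem tower0 [Fact p.Prime] {k : ℕ} (hN : Module.finrank F N = p ^ k)
    (hζ : ∃ ζ : F, IsPrimitiveRoot ζ p) :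
    ∀ (m : ℕ) (K : IntermediateField F N), Module.finrank F K = m →
      (Good K p → Good F p) ∧ ((pwG F p).index ≠ 0 → (pwG K p).index ≠ 0) := by
  have hp : p.Prime := Fact.out
  intro m
  induction m using Nat.strong_induction_on with
  | _ m ih =>
    intro K hKm
    by_cases hK : K = ⊥
    · subst hK
      let e : (⊥ : IntermediateField F N) ≃+* F := (botEquiv F N).toRingEquiv
      refine ⟨good_iso e, ?_⟩
      rw [index_iso e]
      exact id
    · obtain ⟨K₁, hle, hdeg, hgal, hm⟩ := exists_below hN K hK
      have hpos : 0 < finrank F K₁ := Module.finrank_pos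
      have hlt : finrank F K₁ < m := by
        rw [← hKm, hm]
        exact lt_mul_left hpos hp.one_lt
      obtain ⟨ih1, ih2⟩ := ih _ hlt K₁ rfl
      let e : (extendScalars hle) ≃+* K :=
        { toFun := fun x => ⟨x.1, x.2⟩
          invFun := fun x => ⟨x.1, x.2⟩
          left_inv := fun _ => rfl
          right_inv := fun _ => rfl
          map_mul' := fun _ _ => rfl
          map_add' := fun _ _ => rfl }
      have hζ₁ : ∃ ζ : K₁, IsPrimitiveRoot ζ p := by
        obtain ⟨ζ, hζ⟩ := hζ
        exact ⟨_, hζ.map_of_injective (algebraMap F K₁).injective⟩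
      refine ⟨fun h => ih1 (good_step hdeg hζ₁ (good_iso e.symm h)), fun h => ?_⟩
      rw [← index_iso e]
      obtain ⟨σ, ω, θ, c, hCE⟩ := exists_CE hp hdeg hζ₁
      exact fin_step hCE (ih2 h)

end Pool.Agent.H403.Z
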