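import Mathlib
import Pool.Agent.H403.W.W3

/-! # Maximal `p`-extensions: finite subextensions, closed subfields (copied from `W/X5.lean`) -/

set_option autoImplicit false
set_option linter.all false

namespace Pool.Agent.H403.Z
open Polynomial IntermediateField Pool.Agent.H403.W

section
variable {p : ℕ} {F Ω : Type} [Field F] [Field Ω] [Algebra F Ω]

theorem PS_of_maxP (hM : MaxP p F Ω) (N : IntermediateField F Ω) [FiniteDimensional F N] [IsGalois F N] : PS p N := by
  refine ⟨inferInstance, inferInstance, ?_⟩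
  obtain ⟨α, hα⟩ := Field.exists_primitive_element F N
  rw [Field.primitive_element_iff_minpoly_natDegree_eq] at hα
  obtain ⟨k, hk⟩ := hM.deg α
  exact ⟨k, by rw [← hα, IntermediateField.minpoly_eq, hk]⟩

/-- a cyclic layer of degree `p` above the part of `K` in `R` -/
theorem le_of_closed (hp : p.Prime) {ζ : F} (hζ : IsPrimitiveRoot ζ p) (R K : IntermediateField F Ω) (hK : PS p K)
    (hR : ∀ x ∈ R, ∃ y ∈ R, y ^ p = x) : K ≤ R := by
  classical
  haveI : Fact p.Prime := ⟨hp⟩
  obtain ⟨h1, h2, k, hk⟩ := hK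
  let D : IntermediateField F K := IntermediateField.comap K.val R
  have hD : ∀ x : K, x ∈ D ↔ (x : Ω) ∈ R := fun x => Iff.rfl
  by_contra hcon
  have hDtop : D ≠ ⊤ := by
    intro h
    apply hcon
    intro x hx
    have : (⟨x, hx⟩ : K) ∈ D := by rw [h]; exact IntermediateField.mem_top
    exact this
  have hfr : Module.finrank D K ∣ p ^ k := by
    rw [← hk]
    exact Dvd.intro_left _ (Module.finrank_mul_finrank F D K)
  obtain ⟨m, _, hm⟩ := (Nat.dvd_prime_pow hp).1 hfr
  have hm0 : m ≠ 0 := by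
    rintro rfl
    rw [pow_zero] at hm
    apply hDtop
    exact IntermediateField.finrank_eq_one_iff_eq_top.1 hm
  obtain ⟨m, rfl⟩ := Nat.exists_eq_succ_of_ne_zero hm0
  have hcard : Nat.card (K ≃ₐ[D] K) = p ^ (m + 1) := by rw [IsGalois.card_aut_eq_finrank, hm]
  obtain ⟨H, hH⟩ := Sylow.exists_subgroup_card_pow_prime (G := K ≃ₐ[D] K) p (n := m) (by rw [hcard]; exact pow_dvd_pow p (Nat.le_succ m))
  have hidx : H.index = p := by
    have h3 := H.card_mul_index
    rw [hH, hcard, pow_succ] at h3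
    exact Nat.eq_of_mul_eq_mul_left (pow_pos hp.pos m) h3
  haveI hnorm : H.Normal := by
    apply Subgroup.normal_of_index_eq_minFac_card
    rw [hidx, hcard, Nat.Prime.pow_minFac hp (Nat.succ_ne_zero m)]
  let E := IntermediateField.fixedField H
  have hEK : Module.finrank E K = p ^ m := by rw [IntermediateField.finrank_fixedField_eq_card, hH]
  have hDE : Module.finrank D E = p := by
    have h3 := Module.finrank_mul_finrank D E K
    rw [hEK, hm, pow_succ, mul_comm] at h3
    exact Nat.eq_of_mul_eq_mul_left (pow_pos hp.pos m) h3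
  haveI hgal : IsGalois D E := IsGalois.of_fixedField_normal_subgroup H
  haveI hcyc : IsCyclic (E ≃ₐ[D] E) := isCyclic_of_prime_card (p := p) (by rw [IsGalois.card_aut_eq_finrank, hDE])
  have hζD : IsPrimitiveRoot (algebraMap F D ζ) p := hζ.map_of_injective (algebraMap F D).injective
  obtain ⟨α, ⟨d, hd⟩, hα⟩ := exists_root_adjoin_eq_top_of_isCyclic (K := D) (L := E)
    ⟨algebraMap F D ζ, by rw [hDE]; exact (mem_primitiveRoots hp.pos).2 hζD⟩
  rw [hDE] at hd
  have hαD : (α : K) ∈ D := by
    rw [hD]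
    have h4 : (((α : K) : Ω)) ^ p ∈ R := by
      have h5 : ((algebraMap D E d : E) : K) = (α : K) ^ p := congrArg Subtype.val hd
      have h6 : (((algebraMap D E d : E) : K) : Ω) = ((α : K) : Ω) ^ p := by rw [h5]; rfl
      rw [← h6]
      exact d.2
    obtain ⟨y, hyR, hy⟩ := hR _ h4
    by_cases ha0 : ((α : K) : Ω) = 0
    · rw [ha0]; exact R.zero_mem
    have hy0 : y ≠ 0 := by
      rintro rfl
      rw [zero_pow hp.ne_zero] at hy
      exact ha0 ((pow_eq_zero_iff hp.ne_zero).1 hy.symm)
    have h5 : (((α : K) : Ω) / y) ^ p = 1 := by rw [div_pow, hy, div_self (pow_ne_zero _ ha0)]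
    haveI : NeZero p := ⟨hp.ne_zero⟩
    have hζ' : IsPrimitiveRoot (algebraMap F Ω ζ) p := hζ.map_of_injective (algebraMap F Ω).injective
    obtain ⟨i, _, hi⟩ := hζ'.eq_pow_of_pow_eq_one h5
    have : ((α : K) : Ω) = (algebraMap F Ω ζ) ^ i * y := by rw [hi, div_mul_cancel₀ _ hy0]
    rw [this]
    exact R.mul_mem (pow_mem (R.algebraMap_mem ζ) i) hyR
  have hbot : α ∈ (⊥ : IntermediateField D E) := by
    rw [IntermediateField.mem_bot]
    exact ⟨⟨(α : K), hαD⟩, Subtype.ext rfl⟩
  have h7 : (⊥ : IntermediateField D E) = ⊤ := by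
    rw [← hα]
    exact (IntermediateField.adjoin_simple_eq_bot_iff.2 hbot).symm
  have h8 : Module.finrank D E = 1 := by
    rw [← IntermediateField.finrank_top', ← h7, IntermediateField.finrank_bot]
  rw [hDE] at h8
  exact hp.one_lt.ne' h8

end


end Pool.Agent.H403.Z
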