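import Mathlib
import Pool.Agent.H403.Z.Nor4
import Pool.Agent.H403.Z.Max

set_option autoImplicit false
set_option linter.unusedSectionVars false

/-! Finitely generated closed normal subgroups of `G_F(p)`. -/

namespace Pool.Agent.H403.Z

open Module Pool.Agent.Y920.EP Polynomial IntermediateField Pool.Agent.H403.W

section five

variable {p : ℕ} {F Ω : Type} [Field F] [Field Ω] [Algebra F Ω]

/-- Galois subextensions of a maximal `p`-extension -/
lemma PX_of_max (hM : MaxP p F Ω) (K : IntermediateField F Ω) (hK : IsGalois F K) :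
    PX p F K := by
  refine ⟨hK, fun E hfd hgal => ?_⟩
  let e := liftAlgEquiv E
  have h1 : FiniteDimensional F (lift E) := Module.Finite.equiv e.toLinearEquiv
  have h2 : IsGalois F (lift E) := IsGalois.of_algEquiv e
  obtain ⟨-, -, k, hk⟩ := PS_of_maxP hM (lift E)
  exact ⟨k, by rw [← hk, e.toLinearEquiv.finrank_eq]⟩

/-- the extension by one `p`-th root -/
theorem sub_adjoin {F K : Type} [Field F] [Field K] [Algebra F K] (hp : p.Prime)
    (hζ : ∃ ζ : F, IsPrimitiveRoot ζ p) {x : Fˣ} (hx : x ∉ pwG F p) {θ : K}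
    (hθ : θ ^ p = algebraMap F K x) :
    FiniteDimensional F F⟮θ⟯ ∧ IsGalois F F⟮θ⟯ ∧ Module.finrank F F⟮θ⟯ = p ∧
      (AdjoinSimple.gen F θ) ^ p = algebraMap F F⟮θ⟯ x := by
  have Hc := Pool.Agent.Y349.EP.irr hp x hx
  obtain ⟨ζ, hζ⟩ := hζ
  have hne : (primitiveRoots p F).Nonempty := ⟨ζ, (mem_primitiveRoots hp.pos).mpr hζ⟩
  have hint : IsIntegral F θ := by
    refine ⟨X ^ p - C (x : F), monic_X_pow_sub_C _ hp.ne_zero, ?_⟩
    rw [← aeval_def, map_sub, map_pow, aeval_X, aeval_C, hθ, sub_self]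
  have hmin : minpoly F θ = X ^ p - C (x : F) := by
    refine (minpoly.eq_of_irreducible_of_monic Hc ?_ (monic_X_pow_sub_C _ hp.ne_zero)).symm
    rw [map_sub, map_pow, aeval_X, aeval_C, hθ, sub_self]
  have hdeg : Module.finrank F F⟮θ⟯ = p := by
    rw [adjoin.finrank hint, hmin, natDegree_X_pow_sub_C]
  have hfd : FiniteDimensional F F⟮θ⟯ := adjoin.finiteDimensional hint
  have hpow : (AdjoinSimple.gen F θ) ^ p = algebraMap F F⟮θ⟯ x := by
    apply (algebraMap F⟮θ⟯ K).injective
    rw [map_pow, AdjoinSimple.algebraMap_gen, hθ]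
    rfl
  refine ⟨hfd, ?_, hdeg, hpow⟩
  have h2 : ∃ α : F⟮θ⟯, α ^ (Module.finrank F F⟮θ⟯) ∈
      Set.range (algebraMap F F⟮θ⟯) ∧ F⟮α⟯ = ⊤ := by
    refine ⟨AdjoinSimple.gen F θ, ?_, ?_⟩
    · rw [hdeg]
      exact ⟨x, hpow.symm⟩
    · have hint' : IsIntegral F (AdjoinSimple.gen F θ) := Algebra.IsIntegral.isIntegral _
      apply IntermediateField.eq_of_le_of_finrank_eq le_top
      rw [adjoin.finrank hint', minpoly_gen, hmin, natDegree_X_pow_sub_C,
        IntermediateField.finrank_top', hdeg]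
  have h3 := (isCyclic_tfae F F⟮θ⟯ (by rw [hdeg]; exact hne)).out 2 0
  exact (h3.1 h2).1

/-- a `p`-th root of `-1` in `K` suffices -/
theorem good_of_neg [Fact p.Prime] (hζ : ∃ ζ : F, IsPrimitiveRoot ζ p) {K : Type} [Field K]
    [Algebra F K] (h : PX p F K) (hinf : ¬ FiniteDimensional F K) (hneg : (-1 : Kˣ) ∈ pwG K p)
    (hfin : (pwG K p).index ≠ 0) (hne : (pwG K p).index ≠ 1) : Good F p := by
  have hp : p.Prime := Fact.out
  have := h.gal
  by_cases hF : (-1 : Fˣ) ∈ pwG F p
  · exact good_of_normal h hinf hζ hF hfin hne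
  · have hK : iu F K (-1) ∈ pwG K p := by
      have : iu F K (-1) = -1 := by
        ext
        rw [iu_val, Units.val_neg, Units.val_one, map_neg, map_one, Units.val_neg, Units.val_one]
      rw [this]
      exact hneg
    obtain ⟨E, θ, hfd, hgal, hdeg, hθ⟩ := exists_sub hp hζ hF hK
    have hζE : ∃ ζ : E, IsPrimitiveRoot ζ p := by
      obtain ⟨ζ, hζ⟩ := hζ
      exact ⟨_, hζ.map_of_injective (algebraMap F E).injective⟩
    have hθ' : θ ^ p = -1 := by
      rw [hθ, Units.val_neg, Units.val_one, map_neg, map_one]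
    have hθ0 : θ ≠ 0 := by
      rintro rfl
      rw [zero_pow hp.ne_zero] at hθ'
      exact neg_ne_zero.2 one_ne_zero hθ'.symm
    have hnegE : (-1 : Eˣ) ∈ pwG E p := by
      refine ⟨Units.mk0 θ hθ0, Units.ext ?_⟩
      change ((Units.mk0 θ hθ0 ^ p : Eˣ) : E) = _
      rw [Units.val_pow_eq_pow_val, Units.val_mk0, hθ', Units.val_neg, Units.val_one]
    have hinfE : ¬ FiniteDimensional E K := by
      intro h1
      exact hinf (FiniteDimensional.trans F E K)
    exact good_step hdeg hζ (good_of_normal (h.up hp E) hinfE hζE hnegE hfin hne)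

/-- **infinite Galois subextensions of the maximal `p`-extension with few classes** -/
theorem good_of_infinite [Fact p.Prime] (hM : MaxP p F Ω) (hζ : ∃ ζ : F, IsPrimitiveRoot ζ p)
    (K : IntermediateField F Ω) (hK : IsGalois F K) (hinf : ¬ FiniteDimensional F K)
    (hfin : (pwG K p).index ≠ 0) (hne : (pwG K p).index ≠ 1) : Good F p := by
  have hp : p.Prime := Fact.out
  by_cases hneg : (-1 : Kˣ) ∈ pwG K p
  · exact good_of_neg hζ (PX_of_max hM K hK) hinf hneg hfin hne
  -- `p = 2`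
  have hp2 : p = 2 := by
    by_contra hp2
    apply hneg
    refine ⟨-1, ?_⟩
    exact (hp.odd_of_ne_two hp2).neg_one_pow
  subst hp2
  have hζK : ∃ ζ : K, IsPrimitiveRoot ζ 2 := by
    obtain ⟨ζ, hζ⟩ := hζ
    exact ⟨_, hζ.map_of_injective (algebraMap F K).injective⟩
  obtain ⟨θ, hθ⟩ := hM.root (-1)
  have hθK : θ ^ 2 = algebraMap K Ω ((-1 : Kˣ) : K) := by
    rw [hθ, Units.val_neg, Units.val_one, map_neg, map_one]
  have hθF : θ ^ 2 = algebraMap F Ω ((-1 : Fˣ) : F) := by
    rw [hθ, Units.val_neg, Units.val_one, map_neg, map_one]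
  have hnegF : (-1 : Fˣ) ∉ pwG F 2 := by
    rintro ⟨i, hi⟩
    apply hneg
    refine ⟨iu F K i, ?_⟩
    have hi' : i ^ 2 = -1 := hi
    change (iu F K i) ^ 2 = -1
    rw [← map_pow, hi']
    ext
    rw [iu_val, Units.val_neg, Units.val_one, map_neg, map_one, Units.val_neg, Units.val_one]
  obtain ⟨h1, h2, h3, h4⟩ := sub_adjoin (F := K) (K := Ω) hp hζK hneg hθK
  obtain ⟨g1, g2, g3, g4⟩ := sub_adjoin (F := F) (K := Ω) hp hζ hnegF hθF
  set E : IntermediateField K Ω := K⟮θ⟯ with hE
  let K₂ : IntermediateField F Ω := E.restrictScalars F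
  have hK₂ : K₂ = K ⊔ F⟮θ⟯ := restrictScalars_adjoin_eq_sup F K {θ}
  have hgal₂ : IsGalois F K₂ := by
    rw [hK₂]
    infer_instance
  let e : E ≃+* K₂ :=
    { toFun := fun x => ⟨x.1, x.2⟩
      invFun := fun x => ⟨x.1, x.2⟩
      left_inv := fun _ => rfl
      right_inv := fun _ => rfl
      map_mul' := fun _ _ => rfl
      map_add' := fun _ _ => rfl }
  have hinf₂ : ¬ FiniteDimensional F K₂ := by
    intro h5
    have hle : K ≤ K₂ := by rw [hK₂]; exact le_sup_left
    exact hinf (Module.Finite.of_injective (inclusion hle).toLinearMap (inclusion hle).injective)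
  obtain ⟨σ, ω, θ', c', hce⟩ := exists_CE hp h3 hζK
  have hfin₂ : (pwG K₂ 2).index ≠ 0 := by
    rw [← index_iso e]
    exact fin_step hce hfin
  have hne₂ : (pwG K₂ 2).index ≠ 1 := by
    rw [← index_iso e]
    refine ne_of_quad (F := F) (K := K) (E := E) hinf hζK h3 (θ := AdjoinSimple.gen K θ) ?_ hneg
    rw [h4, Units.val_neg, Units.val_one, map_neg, map_one]
  have hneg₂ : (-1 : K₂ˣ) ∈ pwG K₂ 2 := by
    have hθ0 : (⟨θ, mem_adjoin_simple_self K θ⟩ : K₂) ≠ 0 := by
      intro h0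
      have h5 : θ = 0 := congrArg Subtype.val h0
      rw [h5, zero_pow two_ne_zero] at hθ
      exact neg_ne_zero.2 one_ne_zero hθ.symm
    refine ⟨Units.mk0 _ hθ0, Units.ext (Subtype.ext ?_)⟩
    exact hθ
  exact good_of_neg hζ (PX_of_max hM K₂ hgal₂) hinf₂ hneg₂ hfin₂ hne₂

/-- the classes of the fixed field of a topologically finitely generated group -/
theorem index_of_fg [Fact p.Prime] (hM : MaxP p F Ω) (K : IntermediateField F Ω)
    (S : Set (Ω ≃ₐ[F] Ω)) (hS : S.Finite)
    (hK : ∀ x : Ω, (∀ s ∈ S, s x = x) → x ∈ K) (hSK : ∀ s ∈ S, ∀ x ∈ K, s x = x) :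
    (pwG K p).index ≠ 0 := by
  have hp : p.Prime := Fact.out
  have : NeZero p := ⟨hp.ne_zero⟩
  have hfinS : Finite S := hS.to_subtype
  have hroot : ∀ y : Kˣ, ∃ r : Ωˣ, r ^ p = Units.map (algebraMap K Ω : K →* Ω) y := by
    intro y
    obtain ⟨r, hr⟩ := hM.root (algebraMap K Ω y)
    have hr0 : r ≠ 0 := by
      rintro rfl
      rw [zero_pow hp.ne_zero] at hr
      exact (_root_.map_ne_zero _).2 y.ne_zero hr.symm
    exact ⟨Units.mk0 r hr0, Units.ext hr⟩
  choose ρ hρ using hroot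
  have hact : ∀ (s : S) (y : Kˣ), su s.1 (ρ y) / ρ y ∈ rootsOfUnity p Ω := by
    intro s y
    rw [mem_rootsOfUnity, div_pow, ← _root_.map_pow, hρ]
    have : su s.1 (Units.map (algebraMap K Ω : K →* Ω) y) = Units.map (algebraMap K Ω : K →* Ω) y := by
      ext
      exact hSK s.1 s.2 _ (y : K).2
    rw [this, div_self']
  have hfinR : Finite (rootsOfUnity p Ω) := inferInstance
  choose x hx using (cls_surj : ∀ v : VS K p, ∃ x : Kˣ, cls p x = v)
  let f : VS K p → (S → rootsOfUnity p Ω) := fun v s => ⟨_, hact s (x v)⟩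
  have hinj : Function.Injective f := by
    intro v v' hvv
    rw [← hx v, ← hx v', ← sub_eq_zero, ← cls_div, cls_eq_zero]
    set r : Ωˣ := ρ (x v) / ρ (x v') with hr
    have hfix : ∀ s ∈ S, s (r : Ω) = r := by
      intro s hs
      have h1 : su s (ρ (x v)) / ρ (x v) = su s (ρ (x v')) / ρ (x v') :=
        congrArg Subtype.val (congrFun hvv ⟨s, hs⟩)
      have h2 : su s r = r := by
        rw [hr, _root_.map_div]
        rw [div_eq_div_iff_mul_eq_mul] at h1 ⊢
        rw [h1, mul_comm]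
      exact congrArg Units.val h2
    have hrK : (r : Ω) ∈ K := hK _ hfix
    have hr0 : (⟨(r : Ω), hrK⟩ : K) ≠ 0 := fun h0 => r.ne_zero (congrArg Subtype.val h0)
    refine ⟨Units.mk0 _ hr0, Units.ext (Subtype.ext ?_)⟩
    change (r : Ω) ^ p = ((x v / x v' : Kˣ) : K)
    rw [← Units.val_pow_eq_pow_val, hr, div_pow, hρ, hρ, ← _root_.map_div]
    rfl
  have hfinV : Finite (VS K p) := Finite.of_injective f hinj
  have h1 : Nat.card (VS K p) = (pwG K p).index := rfl
  rw [← h1]
  exact Nat.card_pos.ne'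

/-- fields without classes -/
theorem top_of_index_one [Fact p.Prime] (hM : MaxP p F Ω) (hζ : ∃ ζ : F, IsPrimitiveRoot ζ p)
    (K : IntermediateField F Ω) (h1 : (pwG K p).index = 1) : K = ⊤ := by
  have hp : p.Prime := Fact.out
  have := hM.gal
  obtain ⟨ζ, hζ⟩ := hζ
  rw [eq_top_iff]
  intro x _
  have hclosed : ∀ y ∈ K, ∃ z ∈ K, z ^ p = y := by
    intro y hy
    by_cases hy0 : y = 0
    · exact ⟨0, zero_mem K, by rw [hy0, zero_pow hp.ne_zero]⟩
    · have hy1 : (⟨y, hy⟩ : K) ≠ 0 := fun h => hy0 (congrArg Subtype.val h)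
      have h2 : Units.mk0 _ hy1 ∈ pwG K p := by rw [Subgroup.index_eq_one.1 h1]; trivial
      obtain ⟨z, hz⟩ := h2
      exact ⟨(z : K), (z : K).2, congrArg (fun u : Kˣ => ((u : K) : Ω)) hz⟩
  -- `x` lies in a finite Galois extension
  let N := normalClosure F F⟮x⟯ Ω
  have : FiniteDimensional F F⟮x⟯ := adjoin.finiteDimensional (Algebra.IsIntegral.isIntegral x)
  have hle : F⟮x⟯ ≤ N := by simpa only [fieldRange_val] using F⟮x⟯.val.fieldRange_le_normalClosure
  have hgal : IsGalois F N := ⟨⟩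
  have hfdN : FiniteDimensional F N := inferInstance
  exact le_of_closed hp hζ K N (PS_of_maxP hM N) hclosed (hle (mem_adjoin_simple_self F x))

/-- **finitely generated normal subgroups** -/
theorem good_of_group [Fact p.Prime] (hM : MaxP p F Ω) (hζ : ∃ ζ : F, IsPrimitiveRoot ζ p)
    (H : Subgroup (Ω ≃ₐ[F] Ω)) (hnorm : H.Normal) (hclosed : IsClosed (H : Set (Ω ≃ₐ[F] Ω)))
    (hidx : H.index = 0) (hne : H ≠ ⊥)
    (hfg : ∃ S : Set (Ω ≃ₐ[F] Ω), S.Finite ∧ (Subgroup.closure S).topologicalClosure = H) :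
    Good F p := by
  have hp : p.Prime := Fact.out
  have := hM.gal
  let K : IntermediateField F Ω := fixedField H
  have hHK : K.fixingSubgroup = H := InfiniteGalois.fixingSubgroup_fixedField ⟨H, hclosed⟩
  have hgal : IsGalois F K := by
    rw [← InfiniteGalois.normal_iff_isGalois, hHK]
    exact hnorm
  have hinf : ¬ FiniteDimensional F K := by
    intro hfd
    have h1 : Module.finrank F K = 0 := by rw [finrank_eq_fixingSubgroup_index, hHK, hidx]
    exact Module.finrank_pos.ne' h1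
  obtain ⟨S, hS, hSH⟩ := hfg
  refine good_of_infinite hM hζ K hgal hinf (index_of_fg hM K S hS ?_ ?_) ?_
  · intro x hx
    rw [mem_fixedField_iff]
    intro τ hτ
    have h1 : (Subgroup.closure S).topologicalClosure ≤ F⟮x⟯.fixingSubgroup := by
      have : FiniteDimensional F F⟮x⟯ :=
        adjoin.finiteDimensional (Algebra.IsIntegral.isIntegral x)
      refine Subgroup.topologicalClosure_minimal _ ?_ (fixingSubgroup_isClosed F⟮x⟯)
      rw [Subgroup.closure_le]
      intro s hs
      rw [SetLike.mem_coe, IntermediateField.mem_fixingSubgroup_iff]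
      have h2 : F⟮x⟯ ≤ fixedField (Subgroup.zpowers s) := by
        rw [adjoin_simple_le_iff, mem_fixedField_iff]
        intro f hf
        have h3 : Subgroup.zpowers s ≤ MulAction.stabilizer _ x := (Subgroup.zpowers_le).2 (hx s hs)
        exact h3 hf
      intro y hy
      exact (mem_fixedField_iff _ _).1 (h2 hy) s (Subgroup.mem_zpowers s)
    have h2 := h1 (by rw [hSH]; exact hτ)
    rw [IntermediateField.mem_fixingSubgroup_iff] at h2
    exact h2 x (mem_adjoin_simple_self F x)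
  · intro s hs x hx
    rw [mem_fixedField_iff] at hx
    apply hx
    rw [← hSH]
    exact Subgroup.le_topologicalClosure _ (Subgroup.subset_closure hs)
  · intro h1
    apply hne
    have h2 := top_of_index_one hM hζ K h1
    rw [← hHK, h2, fixingSubgroup_top]

end five

end Pool.Agent.H403.Z
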