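import Mathlib
import Pool.Graph.R_seed8.Y86.EP.Kum
import Pool.Graph.R_seed8.Y279.EP.Up
import Pool.Graph.R_seed8.Y925.EP.Tower
import Pool.Graph.R_seed8.Y888.ET.Quad
import Pool.Graph.R_seed8.Y210.ET.Tower
import Pool.Graph.R_seed8.Y620.ET.Extv
import Pool.Agent.H403.Z.Nor5

set_option autoImplicit false
set_option linter.unusedSectionVars false

/-! Valuation rings in infinite Galois `p`-extensions. -/

namespace Pool.Agent.H403.Z

open Module Pool.Agent.Y920.EP Polynomial IntermediateField Pool.Agent.H403.W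

section inv

variable {p : ℕ} {F K : Type} [Field F] [Field K] [Algebra F K]

/-- stability under the Galois group -/
def Inv (F : Type) {K : Type} [Field F] [Field K] [Algebra F K] (O : ValuationSubring K) : Prop :=
  ∀ (σ : K ≃ₐ[F] K) (x : K), σ x ∈ O ↔ x ∈ O

lemma exists_pow_fix [Algebra.IsAlgebraic F K] (σ : K ≃ₐ[F] K) (y : K) :
    ∃ n : ℕ, 0 < n ∧ (σ ^ n) y = y := by
  have hy : IsIntegral F y := Algebra.IsIntegral.isIntegral y
  let f : ℕ → (minpoly F y).rootSet K := fun i => ⟨(σ ^ i) y, by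
    rw [Polynomial.mem_rootSet]
    refine ⟨minpoly.ne_zero hy, ?_⟩
    have h2 : aeval ((σ ^ i) y) (minpoly F y) = (σ ^ i) (aeval y (minpoly F y)) := by
      rw [← AlgEquiv.coe_toAlgHom, Polynomial.aeval_algHom_apply]
    rw [h2, minpoly.aeval, map_zero]⟩
  have hfin : Finite ((minpoly F y).rootSet K) := (minpoly F y).rootSet_finite K
  obtain ⟨i, j, hij, hf⟩ := Finite.exists_ne_map_eq_of_infinite f
  have hf' : (σ ^ i) y = (σ ^ j) y := congrArg Subtype.val hf
  have key : ∀ a b : ℕ, a < b → (σ ^ a) y = (σ ^ b) y → ∃ n : ℕ, 0 < n ∧ (σ ^ n) y = y := by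
    intro a b hab h
    refine ⟨b - a, by omega, (σ ^ a).injective ?_⟩
    rw [← AlgEquiv.mul_apply, ← pow_add, h]
    congr 2
    omega
  rcases lt_or_gt_of_ne hij with h | h
  · exact key i j h hf'
  · exact key j i h hf'.symm

lemma Inv.val_lt {O : ValuationSubring K} (h : Inv F O) (σ : K ≃ₐ[F] K) {x : K}
    (hx : O.valuation x < 1) : O.valuation (σ x) < 1 := by
  rw [lt_one_iff] at hx ⊢
  rcases hx with h1 | h1
  · left; rw [h1, map_zero]
  · right
    intro h2
    apply h1
    rw [← h σ, map_inv₀]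
    exact h2

/-- the valuation is stable -/
lemma Inv.val_eq [Algebra.IsAlgebraic F K] {O : ValuationSubring K} (h : Inv F O)
    (σ : K ≃ₐ[F] K) (x : K) : O.valuation (σ x) = O.valuation x := by
  by_cases hx : x = 0
  · rw [hx, map_zero]
  have hx0 : O.valuation x ≠ 0 := (Valuation.ne_zero_iff _).2 hx
  have key : ∀ τ : K ≃ₐ[F] K, ¬ O.valuation (τ x) < O.valuation x := by
    intro τ hlt
    have h1 : ∀ n : ℕ, O.valuation ((τ ^ (n + 1)) x) < O.valuation x := by
      intro n
      induction n with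
      | zero => rw [zero_add, pow_one]; exact hlt
      | succ n ih =>
        have h2 : O.valuation ((τ ^ (n + 1)) x / x) < 1 := by
          rw [map_div₀]
          exact (div_lt_one₀ (zero_lt_iff.2 hx0)).2 ih
        have h3 := h.val_lt τ h2
        rw [map_div₀, ← AlgEquiv.mul_apply, ← pow_succ', map_div₀] at h3
        have h4 : O.valuation (τ x) ≠ 0 := by
          rw [Valuation.ne_zero_iff]
          exact (map_ne_zero_iff τ τ.injective).2 hx
        exact ((div_lt_one₀ (zero_lt_iff.2 h4)).1 h3).trans hlt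
    obtain ⟨n, hn, hn'⟩ := exists_pow_fix τ x
    obtain ⟨m, rfl⟩ : ∃ m, n = m + 1 := ⟨n - 1, by omega⟩
    have := h1 m
    rw [hn'] at this
    exact lt_irrefl _ this
  apply le_antisymm
  · by_contra hc
    push Not at hc
    -- use the inverse
    have h1 : O.valuation (x / σ x) < 1 := by
      rw [map_div₀]
      exact (div_lt_one₀ ((zero_lt_iff.2 hx0).trans hc)).2 hc
    have h2 := h.val_lt σ⁻¹ h1
    have h3 : σ⁻¹ (x / σ x) = σ⁻¹ x / x := by
      rw [map_div₀]
      congr 1
      exact σ.symm_apply_apply x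
    rw [h3, map_div₀] at h2
    exact key σ⁻¹ ((div_lt_one₀ (zero_lt_iff.2 hx0)).1 h2)
  · exact not_lt.1 (key σ)

/-- descent of `1 + m ⊆ K*^p` -/
theorem desc_pw [IsGalois F K] (hp : p.Prime) (hζ : ∃ ζ : F, IsPrimitiveRoot ζ p)
    {O : ValuationSubring K} (hinv : Inv F O) (hO : Pw p O) :
    Pw p (O.comap (algebraMap F K)) := by
  obtain ⟨ω, hω⟩ := hζ
  have hpF : (p : F) ≠ 0 := by
    intro h0
    apply hO.2.1
    rw [← map_natCast (algebraMap F K), h0, map_zero]
  have : NeZero p := ⟨hp.ne_zero⟩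
  have hωL : IsPrimitiveRoot (algebraMap F K ω) p := hω.map_of_injective (algebraMap F K).injective
  refine ⟨?_, hpF, ?_⟩
  · rw [ValuationSubring.mem_comap, map_inv₀, map_natCast]
    exact hO.1
  · intro x hx hx'
    rw [ValuationSubring.mem_comap] at hx hx'
    rw [map_inv₀] at hx'
    have hvx : O.valuation (algebraMap F K x) < 1 := lt_one_iff.2 (Or.inr hx')
    obtain ⟨y, hy⟩ := hO.2.2 _ hx hx'
    have h1 : O.valuation (1 + algebraMap F K x) = 1 := by
      have := Valuation.map_add_eq_of_lt_right O.valuation (x := algebraMap F K x) (y := 1)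
        (by rwa [map_one])
      rwa [map_one, add_comm] at this
    have h2 : ∃ ζ : K, ζ ^ p = 1 ∧ O.valuation (y - ζ) < 1 := by
      by_contra hc
      push Not at hc
      have h3 := hωL.pow_sub_pow_eq_prod_sub_mul y 1 hp.pos
      rw [hy, one_pow, add_sub_cancel_left] at h3
      have h4 : 1 ≤ O.valuation (∏ ζ ∈ Polynomial.nthRootsFinset p (1 : K), (y - ζ * 1)) := by
        rw [map_prod]
        refine Finset.one_le_prod' fun ζ hζ => ?_
        rw [mul_one]
        exact hc ζ ((Polynomial.mem_nthRootsFinset hp.pos (1 : K)).1 hζ)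
      rw [← h3] at h4
      exact absurd hvx (not_lt.2 h4)
    obtain ⟨ζ, hζ1, hζ2⟩ := h2
    have hζ0 : ζ ≠ 0 := by
      rintro rfl
      rw [zero_pow hp.ne_zero] at hζ1
      exact zero_ne_one hζ1
    have hζv : O.valuation ζ = 1 := by
      have h3 : O.valuation ζ ^ p = 1 := by rw [← map_pow, hζ1, map_one]
      exact eq_one_of_pow hp.ne_zero h3
    set z := y / ζ with hz
    have hz1 : O.valuation (z - 1) < 1 := by
      have : z - 1 = (y - ζ) / ζ := by rw [hz]; field_simp
      rw [this, map_div₀, hζv, div_one]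
      exact hζ2
    have hzp : z ^ p = 1 + algebraMap F K x := by rw [hz, div_pow, hζ1, div_one, hy]
    have hz0 : z ≠ 0 := by
      intro h0
      rw [h0, zero_pow hp.ne_zero] at hzp
      rw [← hzp, map_zero] at h1
      exact zero_ne_one h1
    have hzv : O.valuation z = 1 := by
      have := Valuation.map_add_eq_of_lt_right O.valuation (x := z - 1) (y := 1)
        (by rwa [map_one])
      rwa [sub_add_cancel, map_one] at this
    have hfix : ∀ σ : K ≃ₐ[F] K, σ z = z := by
      intro σ
      have hμ : σ z / z = 1 := by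
        refine root_eq_one hp hO ?_ ?_
        · rw [div_pow, ← map_pow, hzp, map_add, map_one, AlgEquiv.commutes, div_self]
          rw [← hzp]
          exact pow_ne_zero _ hz0
        · have h3 : σ z / z - 1 = ((σ (z - 1)) - (z - 1)) / z := by
            rw [map_sub, map_one]
            field_simp
            ring
          rw [h3, map_div₀, hzv, div_one]
          exact Valuation.map_sub_lt _ (hinv.val_lt σ hz1) hz1
      field_simp at hμ
      exact hμ
    obtain ⟨g, hg⟩ := IntermediateField.mem_bot.1 ((InfiniteGalois.mem_bot_iff_fixed z).2 hfix)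
    refine ⟨g, (algebraMap F K).injective ?_⟩
    rw [map_pow, hg, hzp, map_add, map_one]

/-- each element is contained in a finite Galois extension of `p`-power degree -/
lemma PX.exists_fin (h : PX p F K) (x : K) : ∃ L : IntermediateField F K, x ∈ L ∧
    FiniteDimensional F L ∧ IsGalois F L ∧ ∃ k, Module.finrank F L = p ^ k := by
  have := h.gal
  have : FiniteDimensional F F⟮x⟯ := adjoin.finiteDimensional (Algebra.IsIntegral.isIntegral x)
  obtain ⟨N, h1, h2, h3, k, h4⟩ := h.closure F⟮x⟯
  exact ⟨N, h1 (mem_adjoin_simple_self F x), h2, h3, k, h4⟩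

/-- uniqueness in finite `p`-extensions -/
lemma uniq_fin {L : Type} [Field L] [Algebra F L] [FiniteDimensional F L] [IsGalois F L]
    (hp : p.Prime) (hζ : ∃ ζ : F, IsPrimitiveRoot ζ p) {k : ℕ} (hk : Module.finrank F L = p ^ k)
    {O : ValuationSubring F} (hO : Pw p O) {O₁ O₂ : ValuationSubring L}
    (h1 : O₁.comap (algebraMap F L) = O) (h2 : O₂.comap (algebraMap F L) = O) : O₁ = O₂ := by
  by_cases hp2 : p = 2
  · subst hp2
    have hS : Pool.Agent.Y920.ETC.Sqr O := by
      refine ⟨by exact_mod_cast hO.1, by exact_mod_cast hO.2.1, fun x hx hx' => ?_⟩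
      obtain ⟨y, hy⟩ := hO.2.2 x hx hx'
      exact ⟨y, by rw [← hy, pow_two]⟩
    exact Pool.Agent.Y210.ET.t_TOWER Pool.Agent.Y888.ET.t_QUAD k F L hk O hS O₁ O₂ h1 h2
  · exact Pool.Agent.Y925.EP.t_TOWER' Pool.Agent.Y86.EP.t_KUM Pool.Agent.Y279.EP.t_UP p hp hp2 k
      F L hζ hk O hO O₁ O₂ h1 h2

/-- extensions to Galois `p`-extensions are stable -/
theorem inv_of_comap (h : PX p F K) (hp : p.Prime) (hζ : ∃ ζ : F, IsPrimitiveRoot ζ p)
    {O : ValuationSubring F} (hO : Pw p O) {O₁ : ValuationSubring K}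
    (h1 : O₁.comap (algebraMap F K) = O) : Inv F O₁ := by
  intro σ x
  obtain ⟨L, hxL, hfd, hgal, k, hk⟩ := h.exists_fin x
  let O₂ : ValuationSubring K := O₁.comap (σ : K →+* K)
  have h3 : (O₁.comap (algebraMap L K)).comap (algebraMap F L) = O := by
    rw [← h1]
    ext f
    rw [ValuationSubring.mem_comap, ValuationSubring.mem_comap, ValuationSubring.mem_comap]
    rfl
  have h4 : (O₂.comap (algebraMap L K)).comap (algebraMap F L) = O := by
    rw [← h1]
    ext f
    rw [ValuationSubring.mem_comap, ValuationSubring.mem_comap, ValuationSubring.mem_comap,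
      ValuationSubring.mem_comap]
    have : (σ : K →+* K) (algebraMap L K (algebraMap F L f)) = algebraMap F K f := σ.commutes f
    rw [this]
  have h5 := uniq_fin hp hζ hk hO h3 h4
  have h6 : (⟨x, hxL⟩ : L) ∈ O₁.comap (algebraMap L K) ↔
      (⟨x, hxL⟩ : L) ∈ O₂.comap (algebraMap L K) := by rw [h5]
  rw [ValuationSubring.mem_comap, ValuationSubring.mem_comap, ValuationSubring.mem_comap] at h6
  exact h6.symm

end inv

end Pool.Agent.H403.Z
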