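import Mathlib
import Pool.Agent.H403.Z.Inf1

set_option autoImplicit false
set_option linter.unusedSectionVars false
set_option linter.unusedVariables false
set_option linter.deprecated false

/-! Residue fields of stable valuation rings. -/

namespace Pool.Agent.H403.Z

open Module Pool.Agent.Y920.EP Polynomial IntermediateField Pool.Agent.H403.W

section res

variable {p : ℕ} {F K : Type} [Field F] [Field K] [Algebra F K]

/-- the residue field -/
abbrev RF {F : Type} [Field F] (O : ValuationSubring F) : Type := IsLocalRing.ResidueField O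

/-- the valuation ring below -/
abbrev dn (F : Type) {K : Type} [Field F] [Field K] [Algebra F K] (O : ValuationSubring K) :
    ValuationSubring F := O.comap (algebraMap F K)

/-- the inclusion -/
def incl (O : ValuationSubring K) : (dn F O) →+* O where
  toFun x := ⟨algebraMap F K x, x.2⟩
  map_one' := Subtype.ext (map_one _)
  map_mul' x y := Subtype.ext (map_mul _ _ _)
  map_zero' := Subtype.ext (map_zero _)
  map_add' x y := Subtype.ext (map_add _ _ _)

lemma isUnit_iff {O : ValuationSubring K} {x : O} : IsUnit x ↔ (x : K) ≠ 0 ∧ (x : K)⁻¹ ∈ O := by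
  constructor
  · rintro ⟨u, rfl⟩
    have h1 : ((u : O) : K) * (((u⁻¹ : Oˣ) : O) : K) = 1 := by
      rw [← MulMemClass.coe_mul, Units.mul_inv, OneMemClass.coe_one]
    refine ⟨left_ne_zero_of_mul_eq_one h1, ?_⟩
    rw [inv_eq_of_mul_eq_one_right h1]
    exact ((u⁻¹ : Oˣ) : O).2
  · rintro ⟨h0, h1⟩
    refine ⟨⟨x, ⟨_, h1⟩, Subtype.ext (mul_inv_cancel₀ h0), Subtype.ext (inv_mul_cancel₀ h0)⟩, rfl⟩

instance incl_local (O : ValuationSubring K) : IsLocalHom (incl (F := F) O) := by
  refine ⟨fun a ha => ?_⟩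
  rw [isUnit_iff] at ha ⊢
  refine ⟨fun h => ha.1 ?_, ?_⟩
  · change algebraMap F K a = 0
    rw [h, map_zero]
  · rw [ValuationSubring.mem_comap, map_inv₀]
    exact ha.2

/-- the extension of residue fields -/
noncomputable instance resAlg (O : ValuationSubring K) : Algebra (RF (dn F O)) (RF O) :=
  (IsLocalRing.ResidueField.map (incl (F := F) O)).toAlgebra

/-- residue classes -/
noncomputable def rs (O : ValuationSubring K) : O →+* RF O := IsLocalRing.residue O

lemma rs_surj (O : ValuationSubring K) : Function.Surjective (rs O) :=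
  IsLocalRing.residue_surjective

lemma rs_eq_zero {O : ValuationSubring K} {x : O} : rs O x = 0 ↔ O.valuation (x : K) < 1 := by
  rw [rs, IsLocalRing.residue_eq_zero_iff, ← ValuationSubring.valuation_lt_one_iff]

lemma rs_eq {O : ValuationSubring K} {x y : O} :
    rs O x = rs O y ↔ O.valuation ((x : K) - y) < 1 := by
  rw [← sub_eq_zero, ← map_sub, rs_eq_zero]
  rfl

lemma algebraMap_rs (O : ValuationSubring K) (x : dn F O) :
    algebraMap (RF (dn F O)) (RF O) (rs _ x) = rs O (incl O x) :=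
  IsLocalRing.ResidueField.map_residue _ _

/-- the action on the valuation ring -/
def autO {O : ValuationSubring K} (h : Inv F O) (σ : K ≃ₐ[F] K) : O ≃+* O where
  toFun x := ⟨σ x, (h σ x).2 x.2⟩
  invFun x := ⟨σ⁻¹ x, (h σ⁻¹ x).2 x.2⟩
  left_inv x := Subtype.ext (σ.symm_apply_apply x)
  right_inv x := Subtype.ext (σ.apply_symm_apply x)
  map_mul' x y := Subtype.ext (map_mul _ _ _)
  map_add' x y := Subtype.ext (map_add _ _ _)

/-- the action on the residue field -/
noncomputable def resAut {O : ValuationSubring K} (h : Inv F O) (σ : K ≃ₐ[F] K) :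
    RF O ≃ₐ[RF (dn F O)] RF O :=
  AlgEquiv.ofRingEquiv (f := IsLocalRing.ResidueField.mapEquiv (autO h σ)) (by
    intro x
    obtain ⟨x, rfl⟩ := rs_surj _ x
    rw [algebraMap_rs]
    change IsLocalRing.ResidueField.map ((autO h σ : O ≃+* O) : O →+* O) (rs O (incl O x)) = _
    rw [rs, IsLocalRing.ResidueField.map_residue]
    congr 1
    exact Subtype.ext (σ.commutes _))

lemma resAut_rs {O : ValuationSubring K} (h : Inv F O) (σ : K ≃ₐ[F] K) (x : O) :
    resAut h σ (rs O x) = rs O (autO h σ x) :=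
  IsLocalRing.ResidueField.map_residue _ _

/-- the homomorphism to the group of the residue field extension -/
noncomputable def resHom {O : ValuationSubring K} (h : Inv F O) :
    (K ≃ₐ[F] K) →* (RF O ≃ₐ[RF (dn F O)] RF O) where
  toFun := resAut h
  map_one' := by
    ext x
    obtain ⟨x, rfl⟩ := rs_surj _ x
    rw [resAut_rs]
    rfl
  map_mul' σ τ := by
    ext x
    obtain ⟨x, rfl⟩ := rs_surj _ x
    rw [AlgEquiv.mul_apply, resAut_rs, resAut_rs, resAut_rs]
    rfl

lemma resHom_rs {O : ValuationSubring K} (h : Inv F O) (σ : K ≃ₐ[F] K) (x : O) :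
    resHom h σ (rs O x) = rs O (autO h σ x) := resAut_rs h σ x

/-- the kernel is the inertia group -/
lemma resHom_eq_one {O : ValuationSubring K} (h : Inv F O) {σ : K ≃ₐ[F] K} :
    resHom h σ = 1 ↔ ∀ x : K, x ∈ O → O.valuation (σ x - x) < 1 := by
  constructor
  · intro h1 x hx
    have h2 := congrArg (fun f : RF O ≃ₐ[RF (dn F O)] RF O => f (rs O ⟨x, hx⟩)) h1
    simp only [AlgEquiv.one_apply] at h2
    rw [resHom_rs, rs_eq] at h2
    exact h2
  · intro h1
    ext x
    obtain ⟨x, rfl⟩ := rs_surj _ x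
    rw [resHom_rs, AlgEquiv.one_apply, rs_eq]
    exact h1 x x.2

lemma val_p {O : ValuationSubring K} (hp0 : (p : K) ≠ 0) (hp : (p : K)⁻¹ ∈ O) :
    O.valuation (p : K) = 1 := by
  apply le_antisymm
  · rw [ValuationSubring.valuation_le_one_iff]
    exact natCast_mem O p
  · have h3 := (O.valuation_le_one_iff _).2 hp
    rw [map_inv₀] at h3
    exact (inv_le_one₀ (zero_lt_iff.2 ((Valuation.ne_zero_iff _).2 hp0))).1 h3

lemma p_ne {O : ValuationSubring K} (hp0 : (p : K) ≠ 0) (hp : (p : K)⁻¹ ∈ O) :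
    (p : RF O) ≠ 0 := by
  rw [← map_natCast (rs O) p, Ne, rs_eq_zero]
  rw [show (((p : ℕ) : O) : K) = (p : K) from by simp, val_p hp0 hp]
  exact lt_irrefl _

/-- the fixed field of the residue field -/
theorem fixed_res (h : PX p F K) {O : ValuationSubring K} (hinv : Inv F O)
    (hp0 : (p : K) ≠ 0) (hp : (p : K)⁻¹ ∈ O) (z : RF O)
    (hz : ∀ g ∈ (resHom hinv).range, g z = z) :
    ∃ y : RF (dn F O), algebraMap (RF (dn F O)) (RF O) y = z := by
  classical
  have := h.gal
  obtain ⟨x, rfl⟩ := rs_surj _ z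
  obtain ⟨L, hxL, hfd, hgal, k, hk⟩ := h.exists_fin (x : K)
  set t : F := Algebra.trace F L ⟨x, hxL⟩ with ht
  have h1 : algebraMap F K t = ∑ σ : L ≃ₐ[F] L, (σ.liftNormal K) (x : K) := by
    have h2 : algebraMap F L t = ∑ σ : L ≃ₐ[F] L, σ (⟨x, hxL⟩ : L) :=
      trace_eq_sum_automorphisms (K := F) (⟨x, hxL⟩ : L)
    rw [IsScalarTower.algebraMap_apply F L K, h2, map_sum]
    refine Finset.sum_congr rfl fun σ _ => ?_
    exact (AlgEquiv.liftNormal_commutes σ K ⟨x, hxL⟩).symm
  have hcard : Fintype.card (L ≃ₐ[F] L) = p ^ k := by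
    rw [← hk, ← Nat.card_eq_fintype_card]
    exact IsGalois.card_aut_eq_finrank F L
  have hn0 : ((p : K) ^ k) ≠ 0 := pow_ne_zero _ hp0
  have hmem : algebraMap F K (t / (p : F) ^ k) ∈ O := by
    rw [map_div₀, map_pow, map_natCast, h1, div_eq_mul_inv, ← inv_pow]
    refine mul_mem (sum_mem fun σ _ => ?_) (pow_mem hp k)
    exact (hinv _ _).2 x.2
  refine ⟨rs _ ⟨t / (p : F) ^ k, hmem⟩, ?_⟩
  rw [algebraMap_rs]
  have hpr : ((p : RF O) ^ k) ≠ 0 := pow_ne_zero _ (p_ne hp0 hp)
  apply mul_left_cancel₀ hpr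
  have h2 : ∑ σ : L ≃ₐ[F] L, rs O (autO hinv (σ.liftNormal K) x) = (p : RF O) ^ k * rs O x := by
    rw [Finset.sum_congr rfl (fun σ _ => show rs O (autO hinv (σ.liftNormal K) x) = rs O x from ?_),
      Finset.sum_const, Finset.card_univ, hcard, nsmul_eq_mul, Nat.cast_pow]
    have := hz _ ⟨σ.liftNormal K, rfl⟩
    rwa [resHom_rs] at this
  rw [← h2, ← map_sum, ← map_natCast (rs O) p, ← map_pow, ← map_mul]
  congr 1
  apply Subtype.ext
  have h3 : ((∑ σ : L ≃ₐ[F] L, autO hinv (σ.liftNormal K) x : O) : K) =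
      ∑ σ : L ≃ₐ[F] L, (σ.liftNormal K) (x : K) := by
    rw [AddSubmonoidClass.coe_finset_sum]
    rfl
  rw [h3, ← h1, MulMemClass.coe_mul, SubmonoidClass.coe_pow]
  change ((p : O) : K) ^ k * algebraMap F K (t / (p : F) ^ k) = _
  rw [map_div₀, map_pow, map_natCast, show (((p : ℕ) : O) : K) = (p : K) from by simp]
  field_simp

end res

end Pool.Agent.H403.Z
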