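import Mathlib
import Pool.Agent.H403.Z.Res1

set_option autoImplicit false
set_option linter.unusedSectionVars false
set_option linter.unusedVariables false
set_option linter.deprecated false

/-! Residue fields of stable valuation rings, II. -/

namespace Pool.Agent.H403.Z

open Module Pool.Agent.Y920.EP Polynomial IntermediateField Pool.Agent.H403.W

section orb

theorem integral_of_orb' {F Ω : Type} [Field F] [Field Ω] [Algebra F Ω] (H : Subgroup (Ω ≃ₐ[F] Ω))
    (hH : ∀ x : Ω, (∀ g ∈ H, g x = x) → ∃ y : F, algebraMap F Ω y = x) (x : Ω)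
    (hfin : {y | ∃ g ∈ H, g x = y}.Finite) : IsIntegral F x := by
  classical
  set O : Finset Ω := hfin.toFinset with hO
  have hmem : ∀ y, y ∈ O ↔ ∃ g ∈ H, g x = y := fun y => by rw [hO, Set.Finite.mem_toFinset]; rfl
  set P : Polynomial Ω := ∏ o ∈ O, (X - C o) with hP
  have hPm : P.Monic := monic_prod_of_monic _ _ fun o _ => monic_X_sub_C o
  have hfix : ∀ g ∈ H, P.map (g : Ω ≃ₐ[F] Ω).toAlgHom.toRingHom = P := by
    intro g hg
    rw [hP, Polynomial.map_prod]
    refine Finset.prod_bij' (fun o _ => g o) (fun o _ => g⁻¹ o) ?_ ?_ ?_ ?_ ?_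
    · intro o ho
      obtain ⟨k, hk, rfl⟩ := (hmem o).1 ho
      exact (hmem _).2 ⟨g * k, H.mul_mem hg hk, rfl⟩
    · intro o ho
      obtain ⟨k, hk, rfl⟩ := (hmem o).1 ho
      exact (hmem _).2 ⟨g⁻¹ * k, H.mul_mem (H.inv_mem hg) hk, rfl⟩
    · intro o _
      change (g⁻¹ * g) o = o
      rw [inv_mul_cancel]; rfl
    · intro o _
      change (g * g⁻¹) o = o
      rw [mul_inv_cancel]; rfl
    · intro o _
      rw [Polynomial.map_sub, Polynomial.map_X, Polynomial.map_C]
      rfl
  have hcoef : ∀ i, ∃ y : F, algebraMap F Ω y = P.coeff i := by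
    intro i
    refine hH _ fun g hg => ?_
    conv_rhs => rw [← hfix g hg]
    rw [Polynomial.coeff_map]
    rfl
  obtain ⟨Q, hQ, hQm⟩ : ∃ Q : Polynomial F, Q.map (algebraMap F Ω) = P ∧ Q.Monic := by
    have : P ∈ Polynomial.lifts (algebraMap F Ω) := by
      rw [Polynomial.lifts_iff_coeff_lifts]
      intro i
      obtain ⟨y, hy⟩ := hcoef i
      exact ⟨y, hy⟩
    obtain ⟨Q, hQ, _, hQm⟩ := Polynomial.lifts_and_degree_eq_and_monic this hPm
    exact ⟨Q, hQ, hQm⟩
  have hxO : x ∈ O := (hmem x).2 ⟨1, H.one_mem, rfl⟩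
  refine ⟨Q, hQm, ?_⟩
  have : eval₂ (algebraMap F Ω) x Q = eval x (Q.map (algebraMap F Ω)) := by rw [eval_map]
  rw [this, hQ, hP, Polynomial.eval_prod]
  exact Finset.prod_eq_zero hxO (by simp)

end orb

section res2

variable {p : ℕ} {F K : Type} [Field F] [Field K] [Algebra F K]

/-- orbits in the residue field -/
lemma res_orbit [Fact p.Prime] (h : PX p F K) {O : ValuationSubring K} (hinv : Inv F O) (z : RF O) :
    ∃ k, Set.ncard {y | ∃ g ∈ (resHom hinv).range, g z = y} = p ^ k := by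
  have hp : p.Prime := Fact.out
  have := h.gal
  obtain ⟨x, rfl⟩ := rs_surj _ z
  obtain ⟨L, hxL, hfd, hgal, k, hk⟩ := h.exists_fin (x : K)
  let _ : MulAction (K ≃ₐ[F] K) (RF O) := MulAction.compHom (RF O) (resHom hinv)
  have h1 : L.fixingSubgroup ≤ MulAction.stabilizer (K ≃ₐ[F] K) (rs O x) := by
    intro σ hσ
    rw [MulAction.mem_stabilizer_iff]
    change resHom hinv σ (rs O x) = rs O x
    rw [resHom_rs]
    congr 1
    apply Subtype.ext
    exact (IntermediateField.mem_fixingSubgroup_iff _ _).1 hσ x hxL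
  have h2 := Subgroup.index_dvd_of_le h1
  rw [← finrank_eq_fixingSubgroup_index, hk, MulAction.index_stabilizer,
    Nat.dvd_prime_pow hp] at h2
  obtain ⟨j, -, hj⟩ := h2
  refine ⟨j, ?_⟩
  rw [← hj]
  congr 1
  ext y
  constructor
  · rintro ⟨_, ⟨σ, rfl⟩, rfl⟩
    exact ⟨σ, rfl⟩
  · rintro ⟨σ, rfl⟩
    exact ⟨_, ⟨σ, rfl⟩, rfl⟩

lemma res_integral [Fact p.Prime] (h : PX p F K) {O : ValuationSubring K} (hinv : Inv F O)
    (hp0 : (p : K) ≠ 0) (hp : (p : K)⁻¹ ∈ O) (z : RF O) : IsIntegral (RF (dn F O)) z := by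
  obtain ⟨k, hk⟩ := res_orbit h hinv z
  refine integral_of_orb' (resHom hinv).range (fixed_res h hinv hp0 hp) z ?_
  exact Set.finite_of_ncard_ne_zero (by rw [hk]; exact pow_ne_zero _ (Fact.out : p.Prime).ne_zero)

lemma res_deg [Fact p.Prime] (h : PX p F K) {O : ValuationSubring K} (hinv : Inv F O)
    (hp0 : (p : K) ≠ 0) (hp : (p : K)⁻¹ ∈ O) (z : RF O) :
    ∃ k, (minpoly (RF (dn F O)) z).natDegree = p ^ k := by
  obtain ⟨k, hk⟩ := res_orbit h hinv z
  obtain ⟨S, hS, hm⟩ := orb (resHom hinv).range (fixed_res h hinv hp0 hp) z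
    (res_integral h hinv hp0 hp z)
  refine ⟨k, ?_⟩
  rw [orb_natDegree hm, ← hk, ← Set.ncard_coe_finset]
  congr 1
  ext y
  exact hS y

/-- **the residue field extension is a Galois `p`-extension** -/
theorem res_PX [Fact p.Prime] (h : PX p F K) {O : ValuationSubring K} (hinv : Inv F O)
    (hp0 : (p : K) ≠ 0) (hp : (p : K)⁻¹ ∈ O) : PX p (RF (dn F O)) (RF O) := by
  have h1 : IsGalois (RF (dn F O)) (⊤ : IntermediateField (RF (dn F O)) (RF O)) :=
    isGalois_of_fixed ⊤ (fun x _ => res_integral h hinv hp0 hp x) (fun x _ => trivial)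
      (resHom hinv).range (fixed_res h hinv hp0 hp)
  have h2 : IsGalois (RF (dn F O)) (RF O) := IsGalois.of_algEquiv IntermediateField.topEquiv
  refine ⟨h2, fun E hfd hgal => ?_⟩
  obtain ⟨α, hα⟩ := Field.exists_primitive_element (RF (dn F O)) E
  obtain ⟨k, hk⟩ := res_deg h hinv hp0 hp (α : RF O)
  refine ⟨k, ?_⟩
  rw [← hk, ← IntermediateField.minpoly_eq, ← IntermediateField.adjoin.finrank
    (Algebra.IsIntegral.isIntegral α), hα, IntermediateField.finrank_top']

/-- units and residue classes -/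
lemma comap_pwG (hp : p.Prime) {O : ValuationSubring K} (hO : Pw p O) :
    (pwG (RF O) p).comap O.unitGroupToResidueFieldUnits = (pwG K p).subgroupOf O.unitGroup := by
  have hval : ∀ x : O.unitGroup, ((O.unitGroupToResidueFieldUnits x : (RF O)ˣ) : RF O) =
      rs O (O.unitGroupMulEquiv x : O) := fun x => rfl
  ext x
  rw [Subgroup.mem_comap, Subgroup.mem_subgroupOf]
  constructor
  · rintro ⟨y, hy⟩
    obtain ⟨y, rfl⟩ := O.surjective_unitGroupToResidueFieldUnits y
    have h1 : O.unitGroupToResidueFieldUnits (y ^ p) = O.unitGroupToResidueFieldUnits x := by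
      rw [map_pow]
      exact hy
    have h2 := congrArg (Units.val) h1
    rw [hval, hval, rs_eq] at h2
    have h3 : O.valuation (((y : Kˣ) : K) ^ p - ((x : Kˣ) : K)) < 1 := h2
    have hxv : O.valuation ((x : Kˣ) : K) = 1 := x.2
    have hyv : O.valuation ((y : Kˣ) : K) = 1 := y.2
    have h4 : O.valuation (((x : Kˣ) : K) / ((y : Kˣ) : K) ^ p - 1) < 1 := by
      have h5 : ((x : Kˣ) : K) / ((y : Kˣ) : K) ^ p - 1 =
          -((((y : Kˣ) : K) ^ p - ((x : Kˣ) : K)) / ((y : Kˣ) : K) ^ p) := by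
        have := (y : Kˣ).ne_zero
        field_simp
        ring
      rw [h5, Valuation.map_neg, map_div₀, map_pow, hyv, one_pow, div_one]
      exact h3
    obtain ⟨z, hz⟩ := pw_val hO h4
    rw [add_sub_cancel] at hz
    have hz0 : z ≠ 0 := by
      rintro rfl
      rw [zero_pow hp.ne_zero] at hz
      exact div_ne_zero (x : Kˣ).ne_zero (pow_ne_zero _ (y : Kˣ).ne_zero) hz.symm
    refine ⟨Units.mk0 z hz0 * y, ?_⟩
    ext
    change (((Units.mk0 z hz0 * y) ^ p : Kˣ) : K) = _
    rw [Units.val_pow_eq_pow_val, Units.val_mul, Units.val_mk0, mul_pow, hz]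
    have := (y : Kˣ).ne_zero
    field_simp
  · rintro ⟨y, hy⟩
    have hy' : y ^ p = (x : Kˣ) := hy
    have hyv : y ∈ O.unitGroup := by
      change O.valuation (y : K) = 1
      have h1 : O.valuation (y : K) ^ p = 1 := by
        rw [← map_pow, ← Units.val_pow_eq_pow_val, hy']
        exact x.2
      exact eq_one_of_pow hp.ne_zero h1
    refine ⟨O.unitGroupToResidueFieldUnits ⟨y, hyv⟩, ?_⟩
    change (O.unitGroupToResidueFieldUnits ⟨y, hyv⟩) ^ p = _
    rw [← map_pow]
    congr 1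
    exact Subtype.ext hy'

lemma index_res (hp : p.Prime) {O : ValuationSubring K} (hO : Pw p O) :
    (pwG (RF O) p).index = (pwG K p).relIndex O.unitGroup := by
  rw [Subgroup.relIndex, ← comap_pwG hp hO,
    Subgroup.index_comap_of_surjective _ O.surjective_unitGroupToResidueFieldUnits]

lemma index_res_ne (hp : p.Prime) {O : ValuationSubring K} (hO : Pw p O)
    (h : (pwG K p).index ≠ 0) : (pwG (RF O) p).index ≠ 0 := by
  rw [index_res hp hO]
  have h1 := Subgroup.relIndex_dvd_index_of_normal (pwG K p) O.unitGroup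
  intro h2
  rw [h2] at h1
  exact h (zero_dvd_iff.1 h1)

lemma units_of_index_one (hp : p.Prime) {O : ValuationSubring K} (hO : Pw p O)
    (h : (pwG (RF O) p).index = 1) : O.unitGroup ≤ pwG K p := by
  rw [index_res hp hO, Subgroup.relIndex_eq_one] at h
  exact h

end res2

end Pool.Agent.H403.Z
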