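import Mathlib
import Pool.Agent.H403.Z.Res2

set_option autoImplicit false
set_option linter.unusedSectionVars false
set_option linter.unusedVariables false
set_option linter.deprecated false

/-! Composite valuation rings and minimal compatible valuation rings. -/

namespace Pool.Agent.H403.Z

open Module Pool.Agent.Y920.EP Polynomial IntermediateField Pool.Agent.H403.W

section comp

variable {p : ℕ} {F : Type} [Field F]

lemma rs_zero_of {O : ValuationSubring F} {x : F} (hx : x ∈ O) (hx' : x⁻¹ ∉ O) :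
    rs O ⟨x, hx⟩ = 0 := by
  rw [rs_eq_zero]
  exact lt_one_iff.2 (Or.inr hx')

lemma rs_inv {O : ValuationSubring F} {x : F} (hx : x ∈ O) (hx' : x⁻¹ ∈ O) :
    rs O ⟨x⁻¹, hx'⟩ = (rs O ⟨x, hx⟩)⁻¹ := by
  by_cases h0 : x = 0
  · subst h0
    have h1 : (⟨0⁻¹, hx'⟩ : O) = 0 := Subtype.ext inv_zero
    have h2 : (⟨0, hx⟩ : O) = 0 := rfl
    rw [h1, h2, map_zero, inv_zero]
  · refine eq_inv_of_mul_eq_one_left ?_
    rw [← map_mul, ← map_one (rs O)]
    congr 1
    exact Subtype.ext (inv_mul_cancel₀ h0)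

/-- the composite of a valuation ring with a valuation ring of the residue field -/
def cmp (O : ValuationSubring F) (R : ValuationSubring (RF O)) : ValuationSubring F where
  carrier := {x | ∃ h : x ∈ O, rs O ⟨x, h⟩ ∈ R}
  mul_mem' := by
    rintro x y ⟨h1, h2⟩ ⟨h3, h4⟩
    refine ⟨mul_mem h1 h3, ?_⟩
    have := mul_mem h2 h4
    rwa [← map_mul] at this
  one_mem' := ⟨one_mem O, by
    have : rs O ⟨1, one_mem O⟩ = 1 := map_one _
    rw [this]; exact one_mem R⟩
  add_mem' := by
    rintro x y ⟨h1, h2⟩ ⟨h3, h4⟩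
    refine ⟨add_mem h1 h3, ?_⟩
    have := add_mem h2 h4
    rwa [← map_add] at this
  zero_mem' := ⟨zero_mem O, by
    have : rs O ⟨0, zero_mem O⟩ = 0 := map_zero _
    rw [this]; exact zero_mem R⟩
  neg_mem' := by
    rintro x ⟨h1, h2⟩
    refine ⟨neg_mem h1, ?_⟩
    have := neg_mem h2
    rwa [← map_neg] at this
  mem_or_inv_mem' := by
    intro x
    by_cases hx : x ∈ O
    · by_cases hx' : x⁻¹ ∈ O
      · rcases R.mem_or_inv_mem (rs O ⟨x, hx⟩) with h | h
        · exact Or.inl ⟨hx, h⟩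
        · exact Or.inr ⟨hx', by rw [rs_inv hx hx']; exact h⟩
      · exact Or.inl ⟨hx, by rw [rs_zero_of hx hx']; exact zero_mem R⟩
    · have h1 := (O.mem_or_inv_mem x).resolve_left hx
      refine Or.inr ⟨h1, ?_⟩
      rw [rs_zero_of h1 (by rwa [inv_inv])]
      exact zero_mem R

lemma mem_cmp {O : ValuationSubring F} {R : ValuationSubring (RF O)} {x : F} :
    x ∈ cmp O R ↔ ∃ h : x ∈ O, rs O ⟨x, h⟩ ∈ R := Iff.rfl

lemma cmp_le (O : ValuationSubring F) (R : ValuationSubring (RF O)) : cmp O R ≤ O := by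
  rintro x ⟨h, -⟩
  exact h

lemma cmp_pw (hp : p.Prime) {O : ValuationSubring F} {R : ValuationSubring (RF O)} (hO : Pw p O)
    (hR : Pw p R) : Pw p (cmp O R) := by
  refine ⟨⟨hO.1, ?_⟩, hO.2.1, ?_⟩
  · have h1 : (p : F) ∈ O := natCast_mem O p
    have h2 : rs O ⟨(p : F)⁻¹, hO.1⟩ = (p : RF O)⁻¹ := by
      rw [rs_inv h1 hO.1]
      rfl
    rw [h2]
    exact hR.1
  · rintro x ⟨hx, hxR⟩ hx'
    by_cases hxi : x⁻¹ ∈ O
    · have h1 : (rs O ⟨x, hx⟩)⁻¹ ∉ R := by
        intro h
        apply hx'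
        exact ⟨hxi, by rw [rs_inv hx hxi]; exact h⟩
      obtain ⟨y, hy⟩ := hR.2.2 _ hxR h1
      obtain ⟨y, rfl⟩ := rs_surj _ y
      have h2 : rs O (y ^ p) = rs O (1 + ⟨x, hx⟩) := by rw [map_pow, hy, map_add, map_one]
      rw [rs_eq] at h2
      have h2' : O.valuation ((y : F) ^ p - (1 + x)) < 1 := h2
      have hy0 : rs O y ≠ 0 := by
        intro h0
        rw [h0, zero_pow hp.ne_zero] at hy
        apply h1
        have h3 : rs O ⟨x, hx⟩ = -1 := by
          rw [eq_neg_iff_add_eq_zero, add_comm]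
          exact hy.symm
        rw [h3, inv_neg, inv_one]
        exact neg_mem (one_mem R)
      have hyv : O.valuation (y : F) = 1 := by
        apply le_antisymm
        · exact (O.valuation_le_one_iff _).2 y.2
        · by_contra hc
          push Not at hc
          exact hy0 (rs_eq_zero.2 hc)
      have hyn : (y : F) ≠ 0 := by
        intro h0
        rw [h0, map_zero] at hyv
        exact zero_ne_one hyv
      have h4 : O.valuation ((1 + x) / (y : F) ^ p - 1) < 1 := by
        have h5 : (1 + x) / (y : F) ^ p - 1 = -(((y : F) ^ p - (1 + x)) / (y : F) ^ p) := by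
          field_simp
          ring
        rw [h5, Valuation.map_neg, map_div₀, map_pow, hyv, one_pow, div_one]
        exact h2'
      obtain ⟨z, hz⟩ := pw_val hO h4
      rw [add_sub_cancel] at hz
      refine ⟨z * y, ?_⟩
      rw [mul_pow, hz]
      field_simp
    · exact hO.2.2 x hx hxi

/-- a strictly finer ring -/
lemma cmp_ne {O : ValuationSubring F} {R : ValuationSubring (RF O)}
    (hR : R.unitGroup ⊔ pwG (RF O) p ≠ ⊤) : cmp O R ≠ O := by
  intro h
  apply hR
  have htop : ∀ z : RF O, z ∈ R := by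
    intro z
    obtain ⟨x, rfl⟩ := rs_surj _ z
    have hx : (x : F) ∈ cmp O R := by rw [h]; exact x.2
    obtain ⟨h1, h2⟩ := hx
    exact h2
  rw [eq_top_iff]
  intro u _
  refine Subgroup.mem_sup_left ?_
  change R.valuation (u : RF O) = 1
  have h1 : R.valuation (u : RF O) ≤ 1 := (R.valuation_le_one_iff _).2 (htop _)
  have h2 : R.valuation (u : RF O)⁻¹ ≤ 1 := (R.valuation_le_one_iff _).2 (htop _)
  rw [map_inv₀] at h2
  exact le_antisymm h1 ((inv_le_one₀ (zero_lt_iff.2 ((Valuation.ne_zero_iff _).2 u.ne_zero))).1 h2)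

lemma unitGroup_mono {A B : ValuationSubring F} (h : A ≤ B) : A.unitGroup ≤ B.unitGroup := by
  intro u hu
  have h1 : A.valuation (u : F) = 1 := hu
  have h2 : (u : F) ∈ B := h ((A.valuation_le_one_iff _).1 h1.le)
  have h3 : (u : F)⁻¹ ∈ B := h ((A.valuation_le_one_iff _).1 (by rw [map_inv₀, h1, inv_one]))
  have h4 : B.valuation (u : F) ≤ 1 := (B.valuation_le_one_iff _).2 h2
  have h5 : B.valuation (u : F)⁻¹ ≤ 1 := (B.valuation_le_one_iff _).2 h3
  rw [map_inv₀] at h5
  change B.valuation (u : F) = 1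
  exact le_antisymm h4 ((inv_le_one₀ (zero_lt_iff.2 ((Valuation.ne_zero_iff _).2 u.ne_zero))).1 h5)

lemma gd_of_le {A B : ValuationSubring F} (h : A ≤ B) (hA : Pw p A) (hB : Gd p B) : Gd p A := by
  refine ⟨hA, fun e => hB.2 ?_⟩
  rw [eq_top_iff, ← e]
  exact sup_le_sup_right (unitGroup_mono h) _

/-- the intersection of a chain -/
def chI (c : Set (ValuationSubring F)) (hc : IsChain (· ≤ ·) c) : ValuationSubring F where
  carrier := {x | ∀ O ∈ c, x ∈ O}
  mul_mem' := fun h1 h2 O hO => mul_mem (h1 O hO) (h2 O hO)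
  one_mem' := fun O _ => one_mem O
  add_mem' := fun h1 h2 O hO => add_mem (h1 O hO) (h2 O hO)
  zero_mem' := fun O _ => zero_mem O
  neg_mem' := fun h1 O hO => neg_mem (h1 O hO)
  mem_or_inv_mem' := by
    intro x
    by_contra hcon
    push Not at hcon
    obtain ⟨h1, h2⟩ := hcon
    change ¬ (∀ O ∈ c, x ∈ O) at h1
    change ¬ (∀ O ∈ c, x⁻¹ ∈ O) at h2
    push Not at h1 h2
    obtain ⟨A, hA, hxA⟩ := h1
    obtain ⟨B, hB, hxB⟩ := h2
    rcases hc.total hA hB with h | h
    · exact hxB (h ((A.mem_or_inv_mem x).resolve_left hxA))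
    · exact hxA (h ((B.mem_or_inv_mem x).resolve_right hxB))

/-- **a minimal compatible valuation ring** -/
theorem exists_min {O₀ : ValuationSubring F} (h : Gd p O₀) : ∃ O : ValuationSubring F, Gd p O ∧
    O ≤ O₀ ∧ ∀ O' : ValuationSubring F, Pw p O' → O' ≤ O → O' = O := by
  let s : Set (ValuationSubring F)ᵒᵈ := {O | Pw p (OrderDual.ofDual O)}
  obtain ⟨m, hm, hmax⟩ := zorn_le_nonempty₀ s (by
    intro c hcs hc y hy
    let c' : Set (ValuationSubring F) := {O | OrderDual.toDual O ∈ c}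
    have hc' : IsChain (· ≤ ·) c' := by
      intro A hA B hB hne
      exact (hc hA hB (fun e => hne (OrderDual.toDual.injective e))).symm
    refine ⟨OrderDual.toDual (chI c' hc'), ?_, ?_⟩
    · have hy' : Pw p (OrderDual.ofDual y) := hcs hy
      refine ⟨fun O hO => (hcs (show OrderDual.toDual O ∈ c from hO)).1, hy'.2.1, ?_⟩
      intro x hx hx'
      change ¬ (∀ O ∈ c', x⁻¹ ∈ O) at hx'
      push Not at hx'
      obtain ⟨O, hO, hxO⟩ := hx'
      exact (hcs (show OrderDual.toDual O ∈ c from hO)).2.2 x (hx O hO) hxO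
    · intro z hz
      change chI c' hc' ≤ OrderDual.ofDual z
      intro x hx
      exact hx _ hz) (OrderDual.toDual O₀) h.1
  refine ⟨OrderDual.ofDual m, gd_of_le hm hmax.prop h, hm, fun O' hO' hle => ?_⟩
  exact le_antisymm hle (hmax.le_of_ge (show (OrderDual.toDual O') ∈ s from hO') hle)

/-- the residue field of a minimal compatible ring -/
theorem not_good_res (hp : p.Prime) {O : ValuationSubring F} (hO : Pw p O)
    (hmin : ∀ O' : ValuationSubring F, Pw p O' → O' ≤ O → O' = O) : ¬ Good (RF O) p := by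
  rintro ⟨R, hR, hne⟩
  exact cmp_ne hne (hmin _ (cmp_pw hp hO hR) (cmp_le O R))

end comp

section px

variable {p : ℕ} {F K : Type} [Field F] [Field K] [Algebra F K]

/-- infinite Galois `p`-extensions with few classes -/
theorem good_of_PX [Fact p.Prime] (h : PX p F K) (hζ : ∃ ζ : F, IsPrimitiveRoot ζ p)
    (hinf : ¬ FiniteDimensional F K) (hfin : (pwG K p).index ≠ 0) (hne : (pwG K p).index ≠ 1) :
    Good F p := by
  have hp : p.Prime := Fact.out
  have := h.gal
  obtain ⟨ζ, hζ'⟩ := hζ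
  have hM := maxPExt_maxP p F hp hζ'
  let f : K →ₐ[F] AlgebraicClosure F := IsAlgClosed.lift
  have hf : ∀ x : K, f x ∈ maxPExt p F := by
    intro x
    obtain ⟨L, hxL, hfd, hgal, k, hk⟩ := h.exists_fin x
    let e : L ≃ₐ[F] L.map f := L.equivMap f
    have h1 : FiniteDimensional F (L.map f) := Module.Finite.equiv e.toLinearEquiv
    have h2 : IsGalois F (L.map f) := IsGalois.of_algEquiv e
    have h3 : L.map f ≤ maxPExt p F := le_sSup ⟨h1, h2, k, by rw [← hk, e.toLinearEquiv.finrank_eq]⟩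
    exact h3 ⟨x, hxL, rfl⟩
  let g : K →ₐ[F] maxPExt p F := f.codRestrict (maxPExt p F).toSubalgebra hf
  let e : K ≃ₐ[F] g.fieldRange := AlgEquiv.ofInjectiveField g
  have h1 : IsGalois F g.fieldRange := IsGalois.of_algEquiv e
  have h2 : (pwG g.fieldRange p).index = (pwG K p).index := (index_iso e.toRingEquiv).symm
  refine good_of_infinite hM ⟨ζ, hζ'⟩ g.fieldRange h1 (fun hfd => hinf ?_) (by rwa [h2])
    (by rwa [h2])
  exact Module.Finite.equiv e.symm.toLinearEquiv

end px

end Pool.Agent.H403.Z
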