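import Mathlib
import Pool.Agent.H403.Z.Res3

set_option autoImplicit false
set_option linter.unusedSectionVars false
set_option linter.unusedVariables false
set_option linter.deprecated false

/-! Inertia groups are abelian. -/

namespace Pool.Agent.H403.Z

open Module Pool.Agent.Y920.EP Polynomial IntermediateField Pool.Agent.H403.W

section eig

lemma exists_eig {E V : Type} [Field E] [AddCommGroup V] [Module E V] (T : Module.End E V)
    (S : Finset E) (w : V) (hw : w ≠ 0) (h : (aeval T (∏ a ∈ S, (X - C a))) w = 0) :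
    ∃ a ∈ S, ∃ v : V, v ≠ 0 ∧ T v = a • v := by
  classical
  induction S using Finset.induction_on with
  | empty =>
    rw [Finset.prod_empty, map_one, Module.End.one_apply] at h
    exact absurd h hw
  | insert a S ha ih =>
    by_cases h1 : (aeval T (∏ a ∈ S, (X - C a))) w = 0
    · obtain ⟨b, hb, v, hv⟩ := ih h1
      exact ⟨b, Finset.mem_insert_of_mem hb, v, hv⟩
    · refine ⟨a, Finset.mem_insert_self a S, _, h1, ?_⟩
      rw [Finset.prod_insert ha, map_mul, Module.End.mul_apply, map_sub, aeval_X, aeval_C,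
        LinearMap.sub_apply, Module.algebraMap_end_apply, sub_eq_zero] at h
      exact h

end eig

section wild

variable {p : ℕ} {E M : Type} [Field E] [Field M] [Algebra E M]

/-- `ρ(y)/y ∈ 1 + m` for all `y` -/
def Wd (O : ValuationSubring M) (ρ : M ≃ₐ[E] M) : Prop :=
  ∀ y : M, y ≠ 0 → O.valuation (ρ y / y - 1) < 1

lemma val_of_near {O : ValuationSubring M} {x : M} (h : O.valuation (x - 1) < 1) :
    O.valuation x = 1 := by
  have := Valuation.map_add_eq_of_lt_right O.valuation (x := x - 1) (y := 1) (by rwa [map_one])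
  rwa [sub_add_cancel, map_one] at this

lemma near_mul {O : ValuationSubring M} {x y : M} (hx : O.valuation (x - 1) < 1)
    (hy : O.valuation (y - 1) < 1) : O.valuation (x * y - 1) < 1 := by
  have h1 : x * y - 1 = x * (y - 1) + (x - 1) := by ring
  rw [h1]
  refine Valuation.map_add_lt _ ?_ hx
  rw [map_mul, val_of_near hx, one_mul]
  exact hy

lemma Wd.pow {O : ValuationSubring M} {ρ : M ≃ₐ[E] M} (h : Wd O ρ) (n : ℕ) : Wd O (ρ ^ n) := by
  induction n with
  | zero =>
    intro y hy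
    rw [pow_zero, AlgEquiv.one_apply, div_self hy, sub_self, map_zero]
    exact zero_lt_one
  | succ n ih =>
    intro y hy
    have h0 : (ρ ^ n) y ≠ 0 := (map_ne_zero_iff _ (ρ ^ n).injective).2 hy
    have h1 : (ρ ^ (n + 1)) y / y = (ρ ((ρ ^ n) y) / (ρ ^ n) y) * ((ρ ^ n) y / y) := by
      rw [pow_succ', AlgEquiv.mul_apply, div_mul_div_cancel₀ h0]
    rw [h1]
    exact near_mul (h _ h0) (ih y hy)

/-- the ramification group is trivial -/
theorem eq_one_of_wild [Fact p.Prime] (h : PX p E M) (hζ : ∃ ζ : E, IsPrimitiveRoot ζ p)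
    {O : ValuationSubring M} (hO : Pw p O) {ρ : M ≃ₐ[E] M} (hρ : Wd O ρ) : ρ = 1 := by
  classical
  have hp : p.Prime := Fact.out
  have := h.gal
  by_contra hne
  obtain ⟨y₀, hy₀⟩ : ∃ y₀, ρ y₀ ≠ y₀ := by
    by_contra hc
    push Not at hc
    exact hne (AlgEquiv.ext hc)
  obtain ⟨L, hyL, hfd, hgal, k, hk⟩ := h.exists_fin y₀
  let r : (M ≃ₐ[E] M) →* (L ≃ₐ[E] L) := AlgEquiv.restrictNormalHom L
  have hr : ∀ (σ : M ≃ₐ[E] M) (x : L), ((r σ x : L) : M) = σ x :=
    fun σ x => AlgEquiv.restrictNormal_commutes σ L x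
  have hr1 : r ρ ≠ 1 := by
    intro h1
    apply hy₀
    have h2 := hr ρ ⟨y₀, hyL⟩
    rw [h1] at h2
    exact h2.symm
  have hcard : Nat.card (L ≃ₐ[E] L) = p ^ k := by rw [IsGalois.card_aut_eq_finrank, hk]
  have hord : orderOf (r ρ) ∣ p ^ k := by rw [← hcard]; exact orderOf_dvd_natCard _
  obtain ⟨m, -, hm⟩ := (Nat.dvd_prime_pow hp).1 hord
  have hm0 : m ≠ 0 := by
    rintro rfl
    rw [pow_zero, orderOf_eq_one_iff] at hm
    exact hr1 hm
  obtain ⟨j, rfl⟩ : ∃ j, m = j + 1 := ⟨m - 1, by omega⟩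
  set ρ' := ρ ^ (p ^ j) with hρ'
  have hW : Wd O ρ' := hρ.pow _
  have h1 : r ρ' ≠ 1 := by
    rw [hρ', map_pow]
    intro h2
    have h3 := orderOf_dvd_of_pow_eq_one h2
    rw [hm] at h3
    have h4 := Nat.le_of_dvd (pow_pos hp.pos j) h3
    exact absurd h4 (not_le.2 (Nat.pow_lt_pow_right hp.one_lt (Nat.lt_succ_self j)))
  have h2 : (r ρ') ^ p = 1 := by
    rw [hρ', map_pow, ← pow_mul, ← pow_succ, ← hm, pow_orderOf_eq_one]
  obtain ⟨y, hy⟩ : ∃ y : L, r ρ' y ≠ y := by
    by_contra hc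
    push Not at hc
    exact h1 (AlgEquiv.ext hc)
  obtain ⟨ζ, hζ⟩ := hζ
  -- an eigenvector
  let T : Module.End E L := (r ρ').toLinearMap
  have hT : ∀ x : L, T x = r ρ' x := fun x => rfl
  have hTn : ∀ (n : ℕ) (x : L), (T ^ n) x = ((r ρ') ^ n) x := by
    intro n
    induction n with
    | zero => intro x; rfl
    | succ n ih =>
      intro x
      rw [pow_succ, pow_succ, Module.End.mul_apply, AlgEquiv.mul_apply, ih, hT]
  have hprod : (X - C (1 : E)) * ∏ a ∈ (nthRootsFinset p (1 : E)).erase 1, (X - C a) =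
      X ^ p - 1 := by
    rw [X_pow_sub_one_eq_prod hp.pos hζ]
    refine Finset.mul_prod_erase _ (fun a => X - C a) ?_
    rw [mem_nthRootsFinset hp.pos, one_pow]
  obtain ⟨a, ha, v, hv0, hv⟩ := exists_eig T ((nthRootsFinset p (1 : E)).erase 1) (T y - y)
    (sub_ne_zero.2 hy) (by
      have h3 : T y - y = (aeval T (X - C (1 : E))) y := by
        rw [map_sub, aeval_X, aeval_C, LinearMap.sub_apply, map_one, Module.End.one_apply]
      rw [h3, ← Module.End.mul_apply, ← map_mul, mul_comm, hprod, map_sub, map_pow, aeval_X,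
        map_one, LinearMap.sub_apply, Module.End.one_apply, hTn, h2]
      exact sub_self y)
  rw [Finset.mem_erase, mem_nthRootsFinset hp.pos] at ha
  have hv1 : ρ' (v : M) = algebraMap E M a * v := by
    rw [← hr, ← hT, hv, IntermediateField.coe_smul, Algebra.smul_def]
  have hvM : (v : M) ≠ 0 := fun h => hv0 (Subtype.ext h)
  have h3 := hW _ hvM
  rw [hv1, mul_div_cancel_right₀ _ hvM] at h3
  have h4 := root_eq_one hp hO (by rw [← map_pow, ha.2, map_one]) h3
  apply ha.1
  apply (algebraMap E M).injective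
  rw [h4, map_one]

/-- **inertia groups are abelian** -/
theorem comm_of_inertia [Fact p.Prime] (h : PX p E M) (hζ : ∃ ζ : E, IsPrimitiveRoot ζ p)
    {O : ValuationSubring M} (hO : Pw p O) (hinv : Inv E O) {σ τ : M ≃ₐ[E] M}
    (hσ : ∀ x : M, x ∈ O → O.valuation (σ x - x) < 1)
    (hτ : ∀ x : M, x ∈ O → O.valuation (τ x - x) < 1) : σ * τ = τ * σ := by
  have := h.gal
  have hunit : ∀ (g : M ≃ₐ[E] M) (y : M), y ≠ 0 → O.valuation (g y / y) = 1 := by
    intro g y hy
    rw [map_div₀, hinv.val_eq g, div_self]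
    exact (Valuation.ne_zero_iff _).2 hy
  have hW : Wd O ((τ * σ)⁻¹ * (σ * τ)) := by
    intro y hy
    have hσy : σ y ≠ 0 := (map_ne_zero_iff σ σ.injective).2 hy
    have hτy : τ y ≠ 0 := (map_ne_zero_iff τ τ.injective).2 hy
    set u := τ y / y with hu
    set v := σ y / y with hv
    have huv : O.valuation u = 1 := hunit τ y hy
    have hvv : O.valuation v = 1 := hunit σ y hy
    have h1 : σ (τ y) / y = σ u * v := by
      rw [hu, hv, map_div₀]
      field_simp
    have h2 : τ (σ y) / y = τ v * u := by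
      rw [hu, hv, map_div₀]
      field_simp
    have h3 : O.valuation (σ (τ y) / y - τ (σ y) / y) < 1 := by
      have e : σ (τ y) / y - τ (σ y) / y = (σ u - u) * v - (τ v - v) * u := by
        rw [h1, h2]; ring
      rw [e]
      refine Valuation.map_sub_lt _ ?_ ?_
      · rw [map_mul, hvv, mul_one]
        exact hσ u ((O.valuation_le_one_iff _).1 huv.le)
      · rw [map_mul, huv, mul_one]
        exact hτ v ((O.valuation_le_one_iff _).1 hvv.le)
    have h4 : O.valuation (τ (σ y) / y) = 1 := hunit (τ * σ) y hy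
    have hτσy : τ (σ y) ≠ 0 := (map_ne_zero_iff τ τ.injective).2 hσy
    have h5 : O.valuation (σ (τ y) / τ (σ y) - 1) < 1 := by
      have e : σ (τ y) / τ (σ y) - 1 = (σ (τ y) / y - τ (σ y) / y) / (τ (σ y) / y) := by
        field_simp
      rw [e, map_div₀, h4, div_one]
      exact h3
    have h6 := hinv.val_lt (τ * σ)⁻¹ h5
    have h7 : (τ * σ)⁻¹ (σ (τ y) / τ (σ y) - 1) = ((τ * σ)⁻¹ * (σ * τ)) y / y - 1 := by
      rw [map_sub, map_div₀, map_one]
      congr 2
      exact (τ * σ).symm_apply_apply y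
    rwa [h7] at h6
  have h1 := eq_one_of_wild h hζ hO hW
  have h2 : (τ * σ) * ((τ * σ)⁻¹ * (σ * τ)) = τ * σ := by rw [h1, mul_one]
  rwa [mul_inv_cancel_left] at h2

end wild

end Pool.Agent.H403.Z
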