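import Mathlib
import Pool.Agent.H403.Z.Res4

set_option autoImplicit false
set_option linter.unusedSectionVars false
set_option linter.unusedVariables false
set_option linter.deprecated false

/-! Finitely generated normal subgroups: the dichotomy. -/

namespace Pool.Agent.H403.Z

open Module Pool.Agent.Y920.EP Polynomial IntermediateField Pool.Agent.H403.W

section inf

variable {p : ℕ} {F Ω : Type} [Field F] [Field Ω] [Algebra F Ω]

/-- intermediate fields of infinite degree -/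
theorem PX.upInf [Fact p.Prime] (h : PX p F Ω) (K : IntermediateField F Ω) : PX p K Ω := by
  have hp : p.Prime := Fact.out
  have := h.gal
  have hgalK : IsGalois K Ω := inferInstance
  refine ⟨hgalK, fun E hfd hgal => ?_⟩
  obtain ⟨α, hα⟩ := Field.exists_primitive_element K E
  obtain ⟨L, hxL, hfdL, hgalL, k, hk⟩ := h.exists_fin (α : Ω)
  let r : (Ω ≃ₐ[F] Ω) →* (L ≃ₐ[F] L) := AlgEquiv.restrictNormalHom L
  let s : (Ω ≃ₐ[K] Ω) →* (Ω ≃ₐ[F] Ω) :=
    { toFun := fun σ => σ.restrictScalars F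
      map_one' := rfl
      map_mul' := fun _ _ => rfl }
  have hr : ∀ (σ : Ω ≃ₐ[F] Ω) (x : L), ((r σ x : L) : Ω) = σ x :=
    fun σ x => AlgEquiv.restrictNormal_commutes σ L x
  have hcard : Nat.card (L ≃ₐ[F] L) = p ^ k := by rw [IsGalois.card_aut_eq_finrank, hk]
  have h1 : (r.comp s).ker ≤ MulAction.stabilizer (Ω ≃ₐ[K] Ω) (α : Ω) := by
    intro σ hσ
    rw [MulAction.mem_stabilizer_iff]
    change σ (α : Ω) = α
    have h2 : r (s σ) = 1 := hσ
    have h3 := hr (s σ) ⟨α, hxL⟩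
    rw [h2] at h3
    exact h3.symm
  have h2 := Subgroup.index_dvd_of_le h1
  have h3 : (r.comp s).ker.index ∣ p ^ k := by
    rw [Subgroup.index_ker, ← hcard]
    exact Subgroup.card_subgroup_dvd_card _
  have h4 := h2.trans h3
  rw [MulAction.index_stabilizer, Nat.dvd_prime_pow hp] at h4
  obtain ⟨j, -, hj⟩ := h4
  refine ⟨j, ?_⟩
  have hfix : ∀ x : Ω, (∀ g ∈ (⊤ : Subgroup (Ω ≃ₐ[K] Ω)), g x = x) →
      ∃ y : K, algebraMap K Ω y = x := by
    intro x hx
    exact IntermediateField.mem_bot.1 ((InfiniteGalois.mem_bot_iff_fixed x).2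
      fun g => hx g trivial)
  obtain ⟨S, hS, hm⟩ := orb ⊤ hfix (α : Ω) (Algebra.IsIntegral.isIntegral _)
  have h5 := orb_natDegree hm
  have h6 : Module.finrank K E = (minpoly K α).natDegree := by
    rw [← IntermediateField.adjoin.finrank (Algebra.IsIntegral.isIntegral α), hα,
      IntermediateField.finrank_top']
  rw [h6, IntermediateField.minpoly_eq, h5, ← hj, ← Set.ncard_coe_finset]
  congr 1
  ext y
  rw [Finset.mem_coe, hS]
  constructor
  · rintro ⟨g, -, rfl⟩
    exact ⟨g, rfl⟩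
  · rintro ⟨g, rfl⟩
    exact ⟨g, trivial, rfl⟩

end inf

section closed

variable {p : ℕ} {F K : Type} [Field F] [Field K] [Algebra F K]

/-- `p`-closed fields have no Galois `p`-extensions -/
lemma top_of_closed [Fact p.Prime] (h : PX p F K) (hζ : ∃ ζ : F, IsPrimitiveRoot ζ p)
    (h1 : (pwG F p).index = 1) (z : K) : ∃ y : F, algebraMap F K y = z := by
  have hp : p.Prime := Fact.out
  obtain ⟨ζ, hζ⟩ := hζ
  obtain ⟨L, hxL, hfdL, hgalL, hk⟩ := h.exists_fin z
  have h2 : L ≤ ⊥ := by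
    refine le_of_closed hp hζ ⊥ L ⟨hfdL, hgalL, hk⟩ ?_
    intro x hx
    obtain ⟨y, rfl⟩ := IntermediateField.mem_bot.1 hx
    by_cases hy : y = 0
    · refine ⟨0, zero_mem _, ?_⟩
      rw [hy, map_zero, zero_pow hp.ne_zero]
    · have h3 : Units.mk0 y hy ∈ pwG F p := by rw [Subgroup.index_eq_one.1 h1]; trivial
      obtain ⟨w, hw⟩ := h3
      have hw' : (w : F) ^ p = y := congrArg Units.val hw
      exact ⟨algebraMap F K w, IntermediateField.algebraMap_mem _ _, by rw [← map_pow, hw']⟩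
  exact IntermediateField.mem_bot.1 (h2 hxL)

lemma prim_res (hp : p.Prime) (hζ : ∃ ζ : F, IsPrimitiveRoot ζ p) {O : ValuationSubring F}
    (hO : Pw p O) : ∃ ζ : RF O, IsPrimitiveRoot ζ p := by
  obtain ⟨ζ, hζ⟩ := hζ
  have hζO : ζ ∈ O := by
    have h2 : O.valuation ζ ^ p = 1 := by rw [← map_pow, hζ.pow_eq_one, map_one]
    exact (O.valuation_le_one_iff _).1 (eq_one_of_pow hp.ne_zero h2).le
  refine ⟨rs _ ⟨ζ, hζO⟩, ?_⟩
  rw [IsPrimitiveRoot.iff_orderOf]
  have : Fact p.Prime := ⟨hp⟩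
  apply orderOf_eq_prime
  · rw [← map_pow, ← map_one (rs _)]
    congr 1
    exact Subtype.ext hζ.pow_eq_one
  · intro h2
    rw [← map_one (rs _), rs_eq] at h2
    have h3 := root_eq_one hp hO hζ.pow_eq_one h2
    exact hζ.ne_one hp.one_lt h3

/-- if the residue field is `p`-closed, then the Galois group is abelian -/
theorem abelian_of_closed [Fact p.Prime] (h : PX p F K) (hζ : ∃ ζ : F, IsPrimitiveRoot ζ p)
    {O : ValuationSubring K} (hO : Pw p O) (hinv : Inv F O)
    (h1 : (pwG (RF (dn F O)) p).index = 1) (σ τ : K ≃ₐ[F] K) : σ * τ = τ * σ := by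
  have hp : p.Prime := Fact.out
  have hX := res_PX h hinv hO.2.1 hO.1
  have hζ' : ∃ ζ : RF (dn F O), IsPrimitiveRoot ζ p := by
    have := h.gal
    exact prim_res hp hζ (desc_pw hp hζ hinv hO)
  have key : ∀ g : K ≃ₐ[F] K, ∀ x : K, x ∈ O → O.valuation (g x - x) < 1 := by
    intro g
    rw [← resHom_eq_one hinv]
    ext z
    obtain ⟨y, rfl⟩ := top_of_closed hX hζ' h1 z
    rw [AlgEquiv.commutes, AlgEquiv.commutes]
  exact comm_of_inertia h hζ hO hinv (key σ) (key τ)

/-- if the residue extension is finite, then the Galois group is virtually abelian -/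
theorem virt_of_finite [Fact p.Prime] (h : PX p F K) (hζ : ∃ ζ : F, IsPrimitiveRoot ζ p)
    {O : ValuationSubring K} (hO : Pw p O) (hinv : Inv F O)
    (hfd : FiniteDimensional (RF (dn F O)) (RF O)) :
    ∃ T : Subgroup (K ≃ₐ[F] K), T.index ≠ 0 ∧ ∀ σ ∈ T, ∀ τ ∈ T, σ * τ = τ * σ := by
  refine ⟨(resHom hinv).ker, ?_, ?_⟩
  · rw [Subgroup.index_ker]
    have : Finite (RF O ≃ₐ[RF (dn F O)] RF O) := Finite.of_fintype _
    exact Nat.card_pos.ne'
  · intro σ hσ τ hτ
    exact comm_of_inertia h hζ hO hinv ((resHom_eq_one hinv).1 hσ) ((resHom_eq_one hinv).1 hτ)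

end closed

section dich

variable {p : ℕ} {F Ω : Type} [Field F] [Field Ω] [Algebra F Ω]

/-- **the dichotomy** -/
theorem dich [Fact p.Prime] (hM : MaxP p F Ω) (hζ : ∃ ζ : F, IsPrimitiveRoot ζ p)
    (K : IntermediateField F Ω) (hK : IsGalois F K) (hinf : ¬ FiniteDimensional F K)
    (hfin : (pwG K p).index ≠ 0) (hne : (pwG K p).index ≠ 1) :
    (∀ σ τ : Ω ≃ₐ[K] Ω, σ * τ = τ * σ) ∨
    ∃ T : Subgroup (K ≃ₐ[F] K), T.index ≠ 0 ∧ ∀ σ ∈ T, ∀ τ ∈ T, σ * τ = τ * σ := by
  have hp : p.Prime := Fact.out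
  have := hM.gal
  have hXΩ : PX p F Ω := by
    refine ⟨hM.gal, fun E hfd hgal => ?_⟩
    exact (PS_of_maxP hM E).2.2
  have hXK : PX p F K := PX_of_max hM K hK
  have hXKΩ : PX p K Ω := hXΩ.upInf K
  have hζK : ∃ ζ : K, IsPrimitiveRoot ζ p := by
    obtain ⟨ζ, hζ⟩ := hζ
    exact ⟨_, hζ.map_of_injective (algebraMap F K).injective⟩
  obtain ⟨O₀, hO₀⟩ := good_of_infinite hM hζ K hK hinf hfin hne
  obtain ⟨O, hO, -, hmin⟩ := exists_min hO₀
  have hng := not_good_res hp hO.1 hmin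
  obtain ⟨V, hV⟩ := Pool.Agent.Y620.ET.t_EXTV F Ω O
  have hinvΩ : Inv F V := inv_of_comap hXΩ hp hζ hO.1 hV
  have hinvKΩ : Inv K V := fun σ x => hinvΩ (σ.restrictScalars F) x
  have hVpw : Pw p V := by
    refine ⟨?_, ?_, ?_⟩
    · have h1 : (p : F)⁻¹ ∈ V.comap (algebraMap F Ω) := by rw [hV]; exact hO.1.1
      rwa [ValuationSubring.mem_comap, map_inv₀, map_natCast] at h1
    · intro h0
      apply hO.1.2.1
      apply (algebraMap F Ω).injective
      rw [map_natCast, h0, map_zero]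
    · intro x _ _
      exact hM.root (1 + x)
  have hVK : Pw p (dn K V) := desc_pw hp hζK hinvKΩ hVpw
  have hdn : dn F (dn K V) = O := by
    rw [← hV]
    ext x
    rw [ValuationSubring.mem_comap, ValuationSubring.mem_comap, ValuationSubring.mem_comap]
    rfl
  have hinvK : Inv F (dn K V) := inv_of_comap hXK hp hζ hO.1 hdn
  by_cases h1 : (pwG (RF (dn K V)) p).index = 1
  · left
    exact abelian_of_closed hXKΩ hζK hVpw hinvKΩ h1
  · right
    refine virt_of_finite hXK hζ hVK hinvK ?_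
    by_contra hfd
    have hng' : ¬ Good (RF (dn F (dn K V))) p := by rw [hdn]; exact hng
    apply hng'
    exact good_of_PX (res_PX hXK hinvK hVK.2.1 hVK.1) (prim_res hp hζ (desc_pw hp hζ hinvK hVK))
      hfd (index_res_ne hp hVK hfin) h1

end dich

end Pool.Agent.H403.Z
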