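import Mathlib
import Pool.Agent.H403.Z.Res5

set_option autoImplicit false
set_option linter.unusedSectionVars false
set_option linter.unusedVariables false
set_option linter.deprecated false

/-! Descent of compatible valuation rings in infinite Galois extensions. -/

namespace Pool.Agent.H403.Z

open Module Pool.Agent.Y920.EP Polynomial IntermediateField Pool.Agent.H403.W

section canon

variable {p : ℕ} {K : Type} [Field K]

/-- incomparable rings: all units of the compositum are `p`-th powers -/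
lemma units_sup (hp : p.Prime) {A B : ValuationSubring K} (hA : Pw p A) (hB : Pw p B)
    (h1 : ¬ A ≤ B) (h2 : ¬ B ≤ A) : (A ⊔ B).unitGroup ≤ pwG K p := by
  intro y hy
  have h3 : (y : K) ∈ A ⊔ B := ((A ⊔ B).valuation_le_one_iff _).1 (le_of_eq hy)
  have h4 : (y : K)⁻¹ ∈ A ⊔ B := by
    rw [← ValuationSubring.valuation_le_one_iff, map_inv₀, show (A ⊔ B).valuation (y : K) = 1
      from hy, inv_one]
  obtain ⟨z, hz1, hz2⟩ := approx h1 h2 y.ne_zero h3 h4
  obtain ⟨a, ha⟩ := pw_val hA hz1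
  obtain ⟨b, hb⟩ := pw_val hB hz2
  rw [add_sub_cancel] at ha hb
  have hz0 : z ≠ 0 := by
    rintro rfl
    rw [zero_sub, Valuation.map_neg, map_one] at hz1
    exact lt_irrefl _ hz1
  have ha0 : a ≠ 0 := by
    rintro rfl
    rw [zero_pow hp.ne_zero] at ha
    exact hz0 ha.symm
  have hb0 : b ≠ 0 := by
    rintro rfl
    rw [zero_pow hp.ne_zero] at hb
    exact mul_ne_zero hz0 (inv_ne_zero y.ne_zero) hb.symm
  refine ⟨Units.mk0 (a / b) (div_ne_zero ha0 hb0), ?_⟩
  ext
  change ((Units.mk0 (a / b) _ ^ p : Kˣ) : K) = y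
  rw [Units.val_pow_eq_pow_val, Units.val_mk0, div_pow, ha, hb]
  have := y.ne_zero
  field_simp

/-- a compatible ring is mapped to a compatible ring -/
lemma gd_comap (e : K ≃+* K) {O : ValuationSubring K} (hO : Gd p O) :
    Gd p (O.comap (e : K →+* K)) := by
  obtain ⟨hO, hne⟩ := hO
  have hpw : Pw p (O.comap (e : K →+* K)) := by
    refine ⟨?_, hO.2.1, ?_⟩
    · rw [ValuationSubring.mem_comap, map_inv₀, map_natCast]
      exact hO.1
    · intro x hx hx'
      rw [ValuationSubring.mem_comap] at hx hx'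
      rw [map_inv₀] at hx'
      obtain ⟨y, hy⟩ := hO.2.2 _ hx hx'
      refine ⟨e.symm y, ?_⟩
      rw [← map_pow, hy, map_add, map_one]
      simp
  refine ⟨hpw, ?_⟩
  intro htop
  apply hne
  rw [eq_top_iff]
  intro x _
  have h1 : (Units.mapEquiv e.toMulEquiv).symm x ∈
      (O.comap (e : K →+* K)).unitGroup ⊔ pwG K p := by rw [htop]; trivial
  obtain ⟨u, hu, t, ⟨w, rfl⟩, hut⟩ := Subgroup.mem_sup.1 h1
  have h2 : x = (Units.mapEquiv e.toMulEquiv) u * ((Units.mapEquiv e.toMulEquiv) w) ^ p := by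
    rw [← map_pow, ← map_mul]
    apply (Units.mapEquiv e.toMulEquiv).symm.injective
    rw [MulEquiv.symm_apply_apply]
    exact hut.symm
  rw [h2]
  refine mul_mem (Subgroup.mem_sup_left ?_) (Subgroup.mem_sup_right ⟨_, rfl⟩)
  have hu1 : (u : K) ∈ O.comap (e : K →+* K) :=
    ((O.comap (e : K →+* K)).valuation_le_one_iff _).1 (le_of_eq hu)
  have hu2 : (u : K)⁻¹ ∈ O.comap (e : K →+* K) := by
    rw [← ValuationSubring.valuation_le_one_iff, map_inv₀,
      show (O.comap (e : K →+* K)).valuation (u : K) = 1 from hu, inv_one]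
  rw [ValuationSubring.mem_comap] at hu1 hu2
  rw [map_inv₀, ← ValuationSubring.valuation_le_one_iff, map_inv₀] at hu2
  rw [← ValuationSubring.valuation_le_one_iff] at hu1
  have h3 : O.valuation ((e : K →+* K) (u : K)) ≠ 0 :=
    (Valuation.ne_zero_iff _).2 ((_root_.map_ne_zero _).2 u.ne_zero)
  exact le_antisymm hu1 ((inv_le_one₀ (zero_lt_iff.2 h3)).1 hu2)

/-- all units are `p`-th powers -/
def Uu (p : ℕ) (O : ValuationSubring K) : Prop :=
  (p : K)⁻¹ ∈ O ∧ (p : K) ≠ 0 ∧ O.unitGroup ≤ pwG K p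

lemma Uu.pw {O : ValuationSubring K} (h : Uu p O) : Pw p O := by
  refine ⟨h.1, h.2.1, fun x hx hx' => ?_⟩
  have h1 : O.valuation x < 1 := lt_one_iff.2 (Or.inr hx')
  have h2 : O.valuation (1 + x) = 1 := by
    have := Valuation.map_add_eq_of_lt_right O.valuation (x := x) (y := 1) (by rwa [map_one])
    rwa [map_one, add_comm] at this
  have h3 : 1 + x ≠ 0 := by
    intro h0
    rw [h0, map_zero] at h2
    exact zero_ne_one h2
  have h4 : Units.mk0 (1 + x) h3 ∈ O.unitGroup := h2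
  obtain ⟨y, hy⟩ := h.2.2 h4
  exact ⟨y, congrArg Units.val hy⟩

lemma Uu.sup (hp : p.Prime) {A B : ValuationSubring K} (hA : Uu p A) (hB : Uu p B) :
    Uu p (A ⊔ B) := by
  refine ⟨(le_sup_left : A ≤ A ⊔ B) hA.1, hA.2.1, ?_⟩
  by_cases h1 : A ≤ B
  · rw [sup_eq_right.2 h1]; exact hB.2.2
  by_cases h2 : B ≤ A
  · rw [sup_eq_left.2 h2]; exact hA.2.2
  exact units_sup hp hA.pw hB.pw h1 h2

lemma Uu.comap (e : K ≃+* K) {O : ValuationSubring K} (hO : Uu p O) :
    Uu p (O.comap (e : K →+* K)) := by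
  refine ⟨?_, hO.2.1, ?_⟩
  · rw [ValuationSubring.mem_comap, map_inv₀, map_natCast]
    exact hO.1
  · intro u hu
    have hu1 : (u : K) ∈ O.comap (e : K →+* K) :=
      ((O.comap (e : K →+* K)).valuation_le_one_iff _).1 (le_of_eq hu)
    have hu2 : (u : K)⁻¹ ∈ O.comap (e : K →+* K) := by
      rw [← ValuationSubring.valuation_le_one_iff, map_inv₀,
        show (O.comap (e : K →+* K)).valuation (u : K) = 1 from hu, inv_one]
    rw [ValuationSubring.mem_comap] at hu1 hu2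
    rw [map_inv₀, ← ValuationSubring.valuation_le_one_iff, map_inv₀] at hu2
    rw [← ValuationSubring.valuation_le_one_iff] at hu1
    have h3 : O.valuation ((e : K →+* K) (u : K)) ≠ 0 :=
      (Valuation.ne_zero_iff _).2 ((_root_.map_ne_zero _).2 u.ne_zero)
    have h4 : (Units.mapEquiv e.toMulEquiv) u ∈ O.unitGroup :=
      le_antisymm hu1 ((inv_le_one₀ (zero_lt_iff.2 h3)).1 hu2)
    obtain ⟨w, hw⟩ := hO.2.2 h4
    refine ⟨(Units.mapEquiv e.toMulEquiv).symm w, ?_⟩
    have hw' : w ^ p = (Units.mapEquiv e.toMulEquiv) u := hw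
    change ((Units.mapEquiv e.toMulEquiv).symm w) ^ p = u
    rw [← map_pow, hw', MulEquiv.symm_apply_apply]

/-- the union of the rings whose units are `p`-th powers -/
def mxU (hp : p.Prime) {O₀ : ValuationSubring K} (h0 : Uu p O₀) : ValuationSubring K where
  carrier := {x | ∃ O : ValuationSubring K, Uu p O ∧ x ∈ O}
  mul_mem' := by
    rintro x y ⟨A, hA, hx⟩ ⟨B, hB, hy⟩
    exact ⟨A ⊔ B, hA.sup hp hB, mul_mem ((le_sup_left : A ≤ A ⊔ B) hx)
      ((le_sup_right : B ≤ A ⊔ B) hy)⟩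
  one_mem' := ⟨O₀, h0, one_mem _⟩
  add_mem' := by
    rintro x y ⟨A, hA, hx⟩ ⟨B, hB, hy⟩
    exact ⟨A ⊔ B, hA.sup hp hB, add_mem ((le_sup_left : A ≤ A ⊔ B) hx)
      ((le_sup_right : B ≤ A ⊔ B) hy)⟩
  zero_mem' := ⟨O₀, h0, zero_mem _⟩
  neg_mem' := by
    rintro x ⟨A, hA, hx⟩
    exact ⟨A, hA, neg_mem hx⟩
  mem_or_inv_mem' := fun x => (O₀.mem_or_inv_mem x).imp (fun h => ⟨O₀, h0, h⟩)
    (fun h => ⟨O₀, h0, h⟩)

/-- **a canonical compatible valuation ring** -/
theorem canon (hp : p.Prime) (h : Good K p) : ∃ O : ValuationSubring K, Gd p O ∧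
    ∀ (e : K ≃+* K) (x : K), e x ∈ O ↔ x ∈ O := by
  -- it suffices that `O` is mapped into itself
  have hred : ∀ O : ValuationSubring K, (∀ (e : K ≃+* K) (x : K), x ∈ O → e x ∈ O) →
      ∀ (e : K ≃+* K) (x : K), e x ∈ O ↔ x ∈ O := by
    intro O hO e x
    refine ⟨fun h1 => ?_, hO e x⟩
    have h2 := hO e.symm _ h1
    rwa [RingEquiv.symm_apply_apply] at h2
  obtain ⟨O₀, hO₀⟩ := h
  by_cases hcomp : ∀ A B : ValuationSubring K, Gd p A → Gd p B → A ≤ B ∨ B ≤ A
  · have hch : IsChain (· ≤ ·) {O : ValuationSubring K | Gd p O} :=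
      fun A hA B hB _ => hcomp A B hA hB
    have hle : chI _ hch ≤ O₀ := fun x hx => hx O₀ hO₀
    refine ⟨chI _ hch, gd_of_le hle ?_ hO₀, hred _ ?_⟩
    · refine ⟨fun O hO => hO.1.1, hO₀.1.2.1, ?_⟩
      intro x hx hx'
      change ¬ (∀ O ∈ {O : ValuationSubring K | Gd p O}, x⁻¹ ∈ O) at hx'
      push Not at hx'
      obtain ⟨O, hO, hxO⟩ := hx'
      exact hO.1.2.2 x (hx O hO) hxO
    · intro e x hx O hO
      exact hx (O.comap (e : K →+* K)) (gd_comap e hO)
  · push Not at hcomp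
    obtain ⟨A, B, hA, hB, hAB, hBA⟩ := hcomp
    have h0 : Uu p (A ⊔ B) := ⟨(le_sup_left : A ≤ A ⊔ B) hA.1.1, hA.1.2.1,
      units_sup hp hA.1 hB.1 hAB hBA⟩
    have hU : Uu p (mxU hp h0) := by
      refine ⟨⟨A ⊔ B, h0, h0.1⟩, h0.2.1, ?_⟩
      intro u hu
      have hu1 : (u : K) ∈ mxU hp h0 := ((mxU hp h0).valuation_le_one_iff _).1 (le_of_eq hu)
      have hu2 : (u : K)⁻¹ ∈ mxU hp h0 := by
        rw [← ValuationSubring.valuation_le_one_iff, map_inv₀,
          show (mxU hp h0).valuation (u : K) = 1 from hu, inv_one]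
      obtain ⟨C, hC, hC'⟩ := hu1
      obtain ⟨D, hD, hD'⟩ := hu2
      have hCD := hC.sup hp hD
      refine hCD.2.2 ?_
      have h1 : (C ⊔ D).valuation (u : K) ≤ 1 :=
        ((C ⊔ D).valuation_le_one_iff _).2 ((le_sup_left : C ≤ C ⊔ D) hC')
      have h2 : (C ⊔ D).valuation (u : K)⁻¹ ≤ 1 :=
        ((C ⊔ D).valuation_le_one_iff _).2 ((le_sup_right : D ≤ C ⊔ D) hD')
      rw [map_inv₀] at h2
      have h3 : (C ⊔ D).valuation (u : K) ≠ 0 := (Valuation.ne_zero_iff _).2 u.ne_zero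
      exact le_antisymm h1 ((inv_le_one₀ (zero_lt_iff.2 h3)).1 h2)
    refine ⟨mxU hp h0, ⟨hU.pw, ?_⟩, hred _ ?_⟩
    · rw [sup_eq_right.2 hU.2.2]
      intro e
      exact hO₀.2 (by rw [e, sup_top_eq])
    · rintro e x ⟨O, hO, hx⟩
      refine ⟨O.comap (e.symm : K →+* K), hO.comap e.symm, ?_⟩
      rw [ValuationSubring.mem_comap]
      change e.symm (e x) ∈ O
      rwa [RingEquiv.symm_apply_apply]

end canon

section desc

variable {p : ℕ} {F K : Type} [Field F] [Field K] [Algebra F K]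

/-- **descent in infinite Galois `p`-extensions** -/
theorem desc_inf (h : PX p F K) (hp : p.Prime) (hζ : ∃ ζ : F, IsPrimitiveRoot ζ p)
    (hG : Good K p) : Good F p := by
  have := h.gal
  obtain ⟨O, hO, hcan⟩ := canon hp hG
  have hinv : Inv F O := fun σ x => hcan (σ : K ≃+* K) x
  refine ⟨dn F O, desc_pw hp hζ hinv hO.1, ?_⟩
  intro htop
  apply hO.2
  rw [eq_top_iff]
  intro x _
  have hval : ∀ g : Fˣ, ∃ t : Fˣ,
      O.valuation (algebraMap F K g) = O.valuation (algebraMap F K t) ^ p := by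
    intro g
    have hg : g ∈ (dn F O).unitGroup ⊔ pwG F p := by rw [htop]; trivial
    obtain ⟨u, hu, _, ⟨t, rfl⟩, rfl⟩ := Subgroup.mem_sup.1 hg
    refine ⟨t, ?_⟩
    have hu1 : (u : F) ∈ dn F O := ((dn F O).valuation_le_one_iff _).1 (le_of_eq hu)
    have hu2 : (u : F)⁻¹ ∈ dn F O := by
      rw [← ValuationSubring.valuation_le_one_iff, map_inv₀,
        show (dn F O).valuation (u : F) = 1 from hu, inv_one]
    rw [ValuationSubring.mem_comap] at hu1 hu2
    rw [map_inv₀, ← ValuationSubring.valuation_le_one_iff, map_inv₀] at hu2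
    rw [← ValuationSubring.valuation_le_one_iff] at hu1
    have h3 : O.valuation (algebraMap F K u) ≠ 0 :=
      (Valuation.ne_zero_iff _).2 ((_root_.map_ne_zero _).2 u.ne_zero)
    have h4 : O.valuation (algebraMap F K u) = 1 :=
      le_antisymm hu1 ((inv_le_one₀ (zero_lt_iff.2 h3)).1 hu2)
    change O.valuation (algebraMap F K ((u * t ^ p : Fˣ) : F)) = _
    rw [Units.val_mul, Units.val_pow_eq_pow_val, map_mul, map_mul, h4, one_mul, map_pow, map_pow]
  have hval' : ∀ (m : ℕ) (g : Fˣ), ∃ t : Fˣ,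
      O.valuation (algebraMap F K g) = O.valuation (algebraMap F K t) ^ p ^ m := by
    intro m
    induction m with
    | zero => intro g; exact ⟨g, by rw [pow_zero, pow_one]⟩
    | succ m ih =>
      intro g
      obtain ⟨t, ht⟩ := ih g
      obtain ⟨s, hs⟩ := hval t
      exact ⟨s, by rw [ht, hs, ← pow_mul, pow_succ']⟩
  obtain ⟨L, hxL, hfd, hgal, k, hk⟩ := h.exists_fin (x : K)
  set f : F := Algebra.norm F (⟨x, hxL⟩ : L) with hf
  have hf0 : f ≠ 0 := by
    rw [hf, Algebra.norm_ne_zero_iff]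
    intro h0
    exact x.ne_zero (congrArg Subtype.val h0)
  have h1 : O.valuation (algebraMap F K f) = O.valuation (x : K) ^ p ^ k := by
    have h2 : algebraMap F L f = ∏ σ : L ≃ₐ[F] L, σ (⟨x, hxL⟩ : L) :=
      Algebra.norm_eq_prod_automorphisms F (⟨x, hxL⟩ : L)
    rw [IsScalarTower.algebraMap_apply F L K, h2, map_prod, map_prod,
      Finset.prod_congr rfl (fun σ _ => show O.valuation (algebraMap L K (σ ⟨x, hxL⟩)) =
        O.valuation (x : K) from ?_), Finset.prod_const, Finset.card_univ,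
      ← Nat.card_eq_fintype_card, IsGalois.card_aut_eq_finrank, hk]
    have h3 := AlgEquiv.liftNormal_commutes σ K ⟨x, hxL⟩
    rw [← h3]
    exact hinv.val_eq _ _
  obtain ⟨t, ht⟩ := hval' (k + 1) (Units.mk0 f hf0)
  rw [Units.val_mk0, h1, pow_succ', pow_mul] at ht
  have h2 : O.valuation ((x / (iu F K t) ^ p : Kˣ) : K) = 1 := by
    rw [Units.val_div_eq_div_val, Units.val_pow_eq_pow_val, iu_val, map_div₀, map_pow]
    refine eq_one_of_pow (pow_ne_zero k hp.ne_zero) ?_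
    rw [div_pow, ← ht, div_self]
    exact pow_ne_zero _ ((Valuation.ne_zero_iff _).2 x.ne_zero)
  have h3 : x = (x / (iu F K t) ^ p) * (iu F K t) ^ p := by rw [div_mul_cancel]
  rw [h3]
  exact mul_mem (Subgroup.mem_sup_left h2) (Subgroup.mem_sup_right ⟨_, rfl⟩)

end desc

end Pool.Agent.H403.Z
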