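import Mathlib
import Pool.Agent.H403.Z.Sub1

set_option autoImplicit false
set_option linter.unusedSectionVars false
set_option linter.unusedVariables false
set_option linter.deprecated false

/-! Restriction of valuation rings to subfields over which the field is algebraic: value groups. -/

namespace Pool.Agent.H403.Z

open Module Pool.Agent.Y920.EP Polynomial Pool.Agent.H403.W

section grp

variable {p : ℕ}

/-- groups which are cyclic modulo `p`-th powers -/
lemma index_cyc {G : Type} [CommGroup G] (hp : p.Prime) (α : G)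
    (h : ∀ x : G, ∃ (y : G) (i : ℤ), x = y ^ p * α ^ i) :
    (powMonoidHom p : G →* G).range.index = 1 ∨ (powMonoidHom p : G →* G).range.index = p := by
  have : Fact p.Prime := ⟨hp⟩
  have : NeZero p := ⟨hp.ne_zero⟩
  set R := (powMonoidHom p : G →* G).range with hR
  let f : Fin p → G ⧸ R := fun i => ((α ^ (i : ℕ) : G) : G ⧸ R)
  have hf : Function.Surjective f := by
    intro q
    obtain ⟨x, rfl⟩ := QuotientGroup.mk_surjective q
    obtain ⟨y, i, rfl⟩ := h x
    have hp0 : (p : ℤ) ≠ 0 := by exact_mod_cast hp.ne_zero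
    have h1 : 0 ≤ i % p := Int.emod_nonneg _ hp0
    have h2 : i % p < p := Int.emod_lt_of_pos _ (by exact_mod_cast hp.pos)
    refine ⟨⟨(i % p).toNat, by omega⟩, ?_⟩
    change ((α ^ (i % p).toNat : G) : G ⧸ R) = ((y ^ p * α ^ i : G) : G ⧸ R)
    rw [QuotientGroup.eq]
    refine ⟨y * α ^ (i / p), ?_⟩
    rw [powMonoidHom_apply, mul_pow, ← zpow_natCast (α ^ (i / (p : ℤ))) p, ← zpow_mul,
      ← zpow_natCast α (i % p).toNat, Int.toNat_of_nonneg h1]
    have h3 : α ^ i = α ^ (i % p) * α ^ (i / p * p) := by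
      rw [← zpow_add]
      congr 1
      have := Int.emod_add_mul_ediv i p
      rw [mul_comm (i / (p : ℤ))]
      exact this.symm
    rw [h3]
    have h4 : y ^ p * (α ^ (i % p) * α ^ (i / p * p)) = α ^ (i % p) * (y ^ p * α ^ (i / p * p)) := by
      rw [mul_left_comm]
    rw [h4, inv_mul_cancel_left]
  have hfin : Finite (G ⧸ R) := Finite.of_surjective f hf
  have hcard : Nat.card (G ⧸ R) ≤ p := by
    have := Nat.card_le_card_of_surjective f hf
    rwa [Nat.card_fin] at this
  have hpg : IsPGroup p (G ⧸ R) := by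
    intro q
    refine ⟨1, ?_⟩
    obtain ⟨x, rfl⟩ := QuotientGroup.mk_surjective q
    rw [pow_one, ← QuotientGroup.mk_pow, QuotientGroup.eq_one_iff]
    exact ⟨x, rfl⟩
  obtain ⟨k, hk⟩ := IsPGroup.iff_card.1 hpg
  rw [Subgroup.index]
  have h3 : k ≤ 1 := by
    by_contra hk1
    push Not at hk1
    have h4 : p ^ 1 < p ^ k := Nat.pow_lt_pow_right hp.one_lt hk1
    rw [pow_one, ← hk] at h4
    omega
  interval_cases k
  · left; rw [hk, pow_zero]
  · right; rw [hk, pow_one]

/-- the index of the `p`-th powers in commensurable torsion-free groups -/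
lemma rel_pow {G : Type} [CommGroup G] (hinj : Function.Injective (powMonoidHom p : G →* G))
    (B A : Subgroup G) (hBA : B ≤ A) (hfin : B.relIndex A ≠ 0) :
    (A.map (powMonoidHom p : G →* G)).relIndex A =
      (B.map (powMonoidHom p : G →* G)).relIndex B := by
  set f := (powMonoidHom p : G →* G) with hf
  have hle : ∀ C : Subgroup G, C.map f ≤ C := by
    rintro C _ ⟨c, hc, rfl⟩
    exact pow_mem hc p
  have h1 := Subgroup.relIndex_mul_relIndex (B.map f) B A (hle B) hBA
  have h2 := Subgroup.relIndex_mul_relIndex (B.map f) (A.map f) A (Subgroup.map_mono hBA) (hle A)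
  rw [Subgroup.relIndex_map_map_of_injective _ _ hinj] at h2
  have h3 : B.relIndex A * (A.map f).relIndex A = B.relIndex A * (B.map f).relIndex B := by
    rw [h2, ← h1, mul_comm]
  exact Nat.eq_of_mul_eq_mul_left (Nat.pos_of_ne_zero hfin) h3

lemma rel_eq {G : Type} [CommGroup G] (B : Subgroup G) :
    (B.map (powMonoidHom p : G →* G)).relIndex B = (powMonoidHom p : B →* B).range.index := by
  rw [Subgroup.relIndex]
  congr 1
  ext x
  rw [Subgroup.mem_subgroupOf]
  constructor
  · rintro ⟨y, hy, hyx⟩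
    exact ⟨⟨y, hy⟩, Subtype.ext hyx⟩
  · rintro ⟨y, rfl⟩
    exact ⟨y, y.2, rfl⟩

lemma rel_zp {G : Type} [CommGroup G] (B : Subgroup G) (x : G) {n : ℕ} (hn : 0 < n)
    (hx : x ^ n ∈ B) : B.relIndex (B ⊔ Subgroup.zpowers x) ≠ 0 := by
  rw [Subgroup.relIndex_sup_left]
  intro h0
  have h1 : (Subgroup.zpowers (x ^ n)).relIndex (Subgroup.zpowers x) = 0 := by
    have h2 := Subgroup.relIndex_dvd_of_le_left (Subgroup.zpowers x)
      ((Subgroup.zpowers_le).2 hx)
    rw [h0] at h2
    exact zero_dvd_iff.1 h2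
  -- the quotient is finite
  have : NeZero n := ⟨hn.ne'⟩
  let Q := (Subgroup.zpowers x) ⧸ ((Subgroup.zpowers (x ^ n)).subgroupOf (Subgroup.zpowers x))
  let f : Fin n → Q := fun i =>
    ((⟨x ^ (i : ℕ), pow_mem (Subgroup.mem_zpowers x) _⟩ : Subgroup.zpowers x) : Q)
  have hf : Function.Surjective f := by
    intro q
    obtain ⟨⟨y, i, rfl⟩, rfl⟩ := QuotientGroup.mk_surjective q
    have hn0 : (n : ℤ) ≠ 0 := by exact_mod_cast hn.ne'
    have h1 : 0 ≤ i % n := Int.emod_nonneg _ hn0
    have h2 : i % n < n := Int.emod_lt_of_pos _ (by exact_mod_cast hn)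
    refine ⟨⟨(i % n).toNat, by omega⟩, ?_⟩
    change QuotientGroup.mk _ = QuotientGroup.mk _
    rw [QuotientGroup.eq, Subgroup.mem_subgroupOf]
    refine ⟨i / n, ?_⟩
    change (x ^ n) ^ (i / (n : ℤ)) = (x ^ (i % n).toNat)⁻¹ * x ^ i
    rw [← zpow_natCast x (i % n).toNat, Int.toNat_of_nonneg h1, ← zpow_natCast x n, ← zpow_mul,
      ← zpow_neg, ← zpow_add]
    congr 1
    have := Int.emod_add_mul_ediv i n
    omega
  have hfin : Finite Q := Finite.of_surjective f hf
  have h3 : Nat.card Q ≠ 0 := Nat.card_pos.ne'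
  exact h3 h1

/-- if the subgroup `B` is cyclic modulo `p`-th powers, so is the group -/
lemma cyc_up {G : Type} [CommGroup G] (hp : p.Prime)
    (hinj : Function.Injective (powMonoidHom p : G →* G)) (B : Subgroup G)
    (htor : ∀ x : G, ∃ n : ℕ, 0 < n ∧ x ^ n ∈ B) (α : G) (hα : α ∈ B)
    (hB : ∀ b ∈ B, ∃ c ∈ B, ∃ i : ℕ, b = c ^ p * α ^ i) (a : G)
    (ha : a ∉ (powMonoidHom p : G →* G).range) (x : G) :
    ∃ (y : G) (i : ℤ), x = y ^ p * a ^ i := by
  set f := (powMonoidHom p : G →* G) with hf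
  obtain ⟨n, hn, hxn⟩ := htor x
  obtain ⟨m, hm, ham⟩ := htor a
  set A₁ := B ⊔ Subgroup.zpowers x with hA₁
  set A := A₁ ⊔ Subgroup.zpowers a with hA
  have h1 : B.relIndex A₁ ≠ 0 := rel_zp B x hn hxn
  have h2 : A₁.relIndex A ≠ 0 := rel_zp A₁ a hm ((le_sup_left : B ≤ A₁) ham)
  have hBA : B ≤ A := le_sup_left.trans le_sup_left
  have h3 : B.relIndex A ≠ 0 := Subgroup.relIndex_ne_zero_trans h1 h2
  have h4 := rel_pow hinj B A hBA h3
  rw [rel_eq B] at h4
  have h5 := index_cyc (G := B) hp ⟨α, hα⟩ (by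
    rintro ⟨b, hb⟩
    obtain ⟨c, hc, i, h⟩ := hB b hb
    refine ⟨⟨c, hc⟩, i, Subtype.ext ?_⟩
    rw [zpow_natCast]
    exact h)
  rw [← h4] at h5
  have haA : a ∈ A := (le_sup_right : Subgroup.zpowers a ≤ A) (Subgroup.mem_zpowers a)
  have hxA : x ∈ A := (le_sup_left : A₁ ≤ A) ((le_sup_right : Subgroup.zpowers x ≤ A₁)
    (Subgroup.mem_zpowers x))
  have hle : A.map f ≤ A := by
    rintro _ ⟨c, hc, rfl⟩
    exact pow_mem hc p
  have hna : a ∉ A.map f := by
    rintro ⟨c, hc, rfl⟩
    exact ha ⟨c, rfl⟩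
  set C := A.map f ⊔ Subgroup.zpowers a with hC
  have hCA : C ≤ A := sup_le hle ((Subgroup.zpowers_le).2 haA)
  have h6 := Subgroup.relIndex_mul_relIndex (A.map f) C A le_sup_left hCA
  have h7 : x ∈ C := by
    rcases h5 with h5 | h5
    · exact absurd (Subgroup.relIndex_eq_one.1 h5 haA) hna
    · rw [h5] at h6
      rcases (Nat.dvd_prime hp).1 (Dvd.intro _ h6) with h8 | h8
      · exact absurd (Subgroup.relIndex_eq_one.1 h8 (show a ∈ C from
          (le_sup_right : Subgroup.zpowers a ≤ C) (Subgroup.mem_zpowers a))) hna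
      · rw [h8] at h6
        have h9 : C.relIndex A = 1 := Nat.eq_of_mul_eq_mul_left hp.pos (by rw [h6, mul_one])
        exact Subgroup.relIndex_eq_one.1 h9 hxA
  obtain ⟨_, ⟨y, hy, rfl⟩, _, ⟨i, rfl⟩, hyx⟩ := Subgroup.mem_sup.1 h7
  exact ⟨y, i, hyx.symm⟩

end grp

section val

variable {p : ℕ} {K M : Type} [Field K] [Field M] [Algebra K M]

lemma dn_le {O : ValuationSubring M} (a b : K) :
    (O.comap (algebraMap K M)).valuation a ≤ (O.comap (algebraMap K M)).valuation b ↔
      O.valuation (algebraMap K M a) ≤ O.valuation (algebraMap K M b) := by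
  by_cases hb : b = 0
  · subst hb
    rw [map_zero, map_zero, map_zero, le_zero_iff, le_zero_iff, Valuation.zero_iff,
      Valuation.zero_iff, map_eq_zero]
  · have h1 : (O.comap (algebraMap K M)).valuation b ≠ 0 := (Valuation.ne_zero_iff _).2 hb
    have hb' : algebraMap K M b ≠ 0 := (_root_.map_ne_zero _).2 hb
    have h2 : O.valuation (algebraMap K M b) ≠ 0 := (Valuation.ne_zero_iff _).2 hb'
    rw [← div_le_one₀ (zero_lt_iff.2 h1), ← div_le_one₀ (zero_lt_iff.2 h2), ← map_div₀, ← map_div₀,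
      ValuationSubring.valuation_le_one_iff, ← map_div₀, ValuationSubring.valuation_le_one_iff,
      ValuationSubring.mem_comap]

lemma dn_eq {O : ValuationSubring M} (a b : K) :
    (O.comap (algebraMap K M)).valuation a = (O.comap (algebraMap K M)).valuation b ↔
      O.valuation (algebraMap K M a) = O.valuation (algebraMap K M b) := by
  rw [le_antisymm_iff, dn_le, dn_le, ← le_antisymm_iff]

/-- the value group is a torsion group modulo the one of the subfield -/
lemma torsion [Algebra.IsAlgebraic K M] (O : ValuationSubring M) {x : M} (hx : x ≠ 0) :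
    ∃ n : ℕ, 0 < n ∧ ∃ c : K, c ≠ 0 ∧ O.valuation x ^ n = O.valuation (algebraMap K M c) := by
  classical
  have hxi : IsIntegral K x := Algebra.IsIntegral.isIntegral x
  set P := minpoly K x with hP
  have hP0 : P ≠ 0 := minpoly.ne_zero hxi
  have hsum : ∑ i ∈ P.support, algebraMap K M (P.coeff i) * x ^ i = 0 := by
    have := minpoly.aeval K x
    rwa [Polynomial.aeval_def, Polynomial.eval₂_eq_sum, Polynomial.sum_def] at this
  have hne : P.support.Nonempty := Polynomial.support_nonempty.2 hP0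
  obtain ⟨j, hj, hmax⟩ := Finset.exists_max_image P.support
    (fun i => O.valuation (algebraMap K M (P.coeff i) * x ^ i)) hne
  have hv0 : ∀ i ∈ P.support, O.valuation (algebraMap K M (P.coeff i) * x ^ i) ≠ 0 := by
    intro i hi
    rw [Valuation.ne_zero_iff]
    exact mul_ne_zero ((_root_.map_ne_zero _).2 (Polynomial.mem_support_iff.1 hi)) (pow_ne_zero _ hx)
  obtain ⟨i, hi, hij, hval⟩ : ∃ i ∈ P.support, i ≠ j ∧
      O.valuation (algebraMap K M (P.coeff i) * x ^ i) =
        O.valuation (algebraMap K M (P.coeff j) * x ^ j) := by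
    by_contra hcon
    push Not at hcon
    have h1 := Valuation.map_sum_eq_of_lt O.valuation (s := P.support)
      (f := fun i => algebraMap K M (P.coeff i) * x ^ i) hj (by
        intro i hi
        rw [Finset.mem_sdiff, Finset.mem_singleton] at hi
        exact lt_of_le_of_ne (hmax i hi.1) (hcon i hi.1 hi.2))
    rw [hsum, map_zero] at h1
    exact hv0 j hj h1.symm
  have key : ∀ a b : ℕ, a < b → P.coeff a ≠ 0 → P.coeff b ≠ 0 →
      O.valuation (algebraMap K M (P.coeff a) * x ^ a) =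
        O.valuation (algebraMap K M (P.coeff b) * x ^ b) →
      ∃ n : ℕ, 0 < n ∧ ∃ c : K, c ≠ 0 ∧ O.valuation x ^ n = O.valuation (algebraMap K M c) := by
    intro a b hab ha hb h
    refine ⟨b - a, by omega, P.coeff a / P.coeff b, div_ne_zero ha hb, ?_⟩
    have hb' : O.valuation (algebraMap K M (P.coeff b)) ≠ 0 := by
      rw [Valuation.ne_zero_iff]; exact (_root_.map_ne_zero _).2 hb
    have hx' : O.valuation x ≠ 0 := (Valuation.ne_zero_iff _).2 hx
    rw [map_div₀, map_div₀, eq_div_iff hb']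
    rw [map_mul, map_mul, map_pow, map_pow] at h
    have h2 : O.valuation x ^ b = O.valuation x ^ (b - a) * O.valuation x ^ a := by
      rw [← pow_add]; congr 1; omega
    rw [h2, ← mul_assoc] at h
    have h3 := mul_right_cancel₀ (pow_ne_zero a hx') h
    rw [h3, mul_comm]
  have hi0 := Polynomial.mem_support_iff.1 hi
  have hj0 := Polynomial.mem_support_iff.1 hj
  rcases lt_or_gt_of_ne hij with h | h
  · exact key i j h hi0 hj0 hval
  · exact key j i h hj0 hi0 hval.symm

/-- the value group -/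
def VG (O : ValuationSubring M) : Type := Mˣ ⧸ O.unitGroup

noncomputable instance (O : ValuationSubring M) : CommGroup (VG O) :=
  inferInstanceAs (CommGroup (Mˣ ⧸ O.unitGroup))

/-- the valuation on the units -/
noncomputable def vm (O : ValuationSubring M) : Mˣ →* VG O := QuotientGroup.mk' O.unitGroup

lemma vm_surj (O : ValuationSubring M) : Function.Surjective (vm O) :=
  QuotientGroup.mk'_surjective _

lemma vm_one {O : ValuationSubring M} {x : Mˣ} : vm O x = 1 ↔ x ∈ O.unitGroup :=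
  QuotientGroup.eq_one_iff x

lemma vm_eq {O : ValuationSubring M} {x y : Mˣ} :
    vm O x = vm O y ↔ O.valuation (x : M) = O.valuation (y : M) := by
  rw [← inv_mul_eq_one, ← map_inv, ← map_mul, vm_one]
  have h1 : x⁻¹ * y ∈ O.unitGroup ↔ O.valuation (((x⁻¹ * y : Mˣ) : M)) = 1 := Iff.rfl
  have hx : O.valuation (x : M) ≠ 0 := (Valuation.ne_zero_iff _).2 x.ne_zero
  rw [h1, Units.val_mul, Units.val_inv_eq_inv_val, map_mul, map_inv₀, inv_mul_eq_one₀ hx]

lemma vg_inj (hp : p.Prime) (O : ValuationSubring M) :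
    Function.Injective (powMonoidHom p : VG O →* VG O) := by
  rw [injective_iff_map_eq_one]
  intro x hx
  obtain ⟨x, rfl⟩ := vm_surj O x
  rw [powMonoidHom_apply, ← map_pow, vm_one] at hx
  rw [vm_one]
  have h1 : O.valuation ((x : M)) ^ p = 1 := by
    have h2 : O.valuation (((x ^ p : Mˣ) : M)) = 1 := hx
    rwa [Units.val_pow_eq_pow_val, map_pow] at h2
  exact eq_one_of_pow hp.ne_zero h1

/-- the value group of the subfield -/
noncomputable def vgB (K : Type) {M : Type} [Field K] [Field M] [Algebra K M]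
    (O : ValuationSubring M) : Subgroup (VG O) :=
  ((vm O).comp (Units.map (algebraMap K M : K →* M))).range

lemma vg_tor [Algebra.IsAlgebraic K M] (O : ValuationSubring M) (x : VG O) :
    ∃ n : ℕ, 0 < n ∧ x ^ n ∈ vgB K O := by
  obtain ⟨x, rfl⟩ := vm_surj O x
  obtain ⟨n, hn, c, hc, h⟩ := torsion (K := K) O x.ne_zero
  refine ⟨n, hn, Units.mk0 c hc, ?_⟩
  rw [← map_pow, MonoidHom.comp_apply, vm_eq, Units.val_pow_eq_pow_val, map_pow, h]
  rfl

/-- an element of the subfield whose value is not divisible by `p` -/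
lemma exists_ndiv [Algebra.IsAlgebraic K M] (hp : p.Prime) {O : ValuationSubring M}
    (ha : O.unitGroup ⊔ pwG M p ≠ ⊤) :
    ∃ t : K, ∀ y : K, (O.comap (algebraMap K M)).valuation t ≠
      (O.comap (algebraMap K M)).valuation y ^ p := by
  by_contra hcon
  push Not at hcon
  apply ha
  rw [eq_top_iff]
  intro a _
  have hB : ∀ b ∈ vgB K O, ∃ c ∈ vgB K O, b = c ^ p := by
    rintro _ ⟨b, rfl⟩
    obtain ⟨y, hy⟩ := hcon b
    have hy0 : y ≠ 0 := by
      rintro rfl
      rw [map_zero, zero_pow hp.ne_zero] at hy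
      exact (Valuation.ne_zero_iff _).2 b.ne_zero hy
    refine ⟨_, ⟨Units.mk0 y hy0, rfl⟩, ?_⟩
    rw [← map_pow]
    rw [← map_pow, dn_eq] at hy
    rw [MonoidHom.comp_apply, MonoidHom.comp_apply, vm_eq]
    exact hy
  have hBm : ∀ (s : ℕ), ∀ b ∈ vgB K O, ∃ c ∈ vgB K O, b = c ^ p ^ s := by
    intro s
    induction s with
    | zero => intro b hb; exact ⟨b, hb, by rw [pow_zero, pow_one]⟩
    | succ s ih =>
      intro b hb
      obtain ⟨c, hc, rfl⟩ := ih b hb
      obtain ⟨d, hd, rfl⟩ := hB c hc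
      exact ⟨d, hd, by rw [← pow_mul, pow_succ']⟩
  obtain ⟨n, hn, hna⟩ := vg_tor (K := K) O (vm O a)
  obtain ⟨s, m, hm, rfl⟩ := Nat.exists_eq_pow_mul_and_not_dvd hn.ne' p hp.ne_one
  obtain ⟨c, hc, hca⟩ := hBm s _ hna
  have hinj : ∀ s : ℕ, ∀ x y : VG O, x ^ p ^ s = y ^ p ^ s → x = y := by
    intro s
    induction s with
    | zero => intro x y h; simpa using h
    | succ s ih =>
      intro x y h
      apply vg_inj hp O
      apply ih
      rw [powMonoidHom_apply, powMonoidHom_apply, ← pow_mul, ← pow_mul, ← pow_succ']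
      exact h
  have h1 : (vm O a) ^ m = c := by
    apply hinj s
    rw [← hca, ← pow_mul, mul_comm]
  obtain ⟨d, hd, hcd⟩ := hB c hc
  obtain ⟨d, rfl⟩ := vm_surj O d
  have hcop : Nat.Coprime p m := (Nat.Prime.coprime_iff_not_dvd hp).2 hm
  have hbez := Nat.gcd_eq_gcd_ab p m
  rw [hcop] at hbez
  set u := Nat.gcdA p m with hu
  set w := Nat.gcdB p m with hw
  have h2 : vm O a = vm O ((a ^ u * d ^ w) ^ p) := by
    have h3 : vm O a = (vm O a) ^ ((p : ℤ) * u + (m : ℤ) * w) := by
      rw [← hbez, Nat.cast_one, zpow_one]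
    rw [h3, zpow_add, zpow_mul, zpow_mul, zpow_natCast, zpow_natCast, h1, hcd, map_pow, map_mul,
      map_zpow, map_zpow, mul_pow, ← zpow_natCast (vm O a) p, ← zpow_natCast (vm O d) p,
      ← zpow_natCast (vm O a ^ u) p, ← zpow_natCast (vm O d ^ w) p, ← zpow_mul, ← zpow_mul,
      ← zpow_mul, ← zpow_mul, mul_comm (p : ℤ) u, mul_comm (p : ℤ) w]
  have h3 : a * ((a ^ u * d ^ w) ^ p)⁻¹ ∈ O.unitGroup := by
    rw [← vm_one, map_mul, map_inv, ← h2, mul_inv_cancel]
  have h4 : a = (a * ((a ^ u * d ^ w) ^ p)⁻¹) * (a ^ u * d ^ w) ^ p := by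
    rw [inv_mul_cancel_right]
  rw [h4]
  exact mul_mem (Subgroup.mem_sup_left h3) (Subgroup.mem_sup_right ⟨_, rfl⟩)

/-- if the value group of the subfield is cyclic modulo `p` and the units are `p`-th powers -/
lemma index_of_cyclic [Algebra.IsAlgebraic K M] (hp : p.Prime) {O : ValuationSubring M}
    (ha : O.unitGroup ⊔ pwG M p ≠ ⊤) (hu : O.unitGroup ≤ pwG M p) {t : K} (ht : t ≠ 0)
    (hcyc : ∀ b : K, ∃ (c : K) (i : ℕ), (O.comap (algebraMap K M)).valuation b =
      (O.comap (algebraMap K M)).valuation c ^ p * (O.comap (algebraMap K M)).valuation t ^ i) :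
    (pwG M p).index = p := by
  obtain ⟨a, ha⟩ : ∃ a : Mˣ, a ∉ O.unitGroup ⊔ pwG M p := by
    by_contra hcon
    push Not at hcon
    exact ha (eq_top_iff.2 fun a _ => hcon a)
  have ha' : vm O a ∉ (powMonoidHom p : VG O →* VG O).range := by
    rintro ⟨y, hy⟩
    obtain ⟨y, rfl⟩ := vm_surj O y
    rw [powMonoidHom_apply, ← map_pow] at hy
    apply ha
    have h3 : a * (y ^ p)⁻¹ ∈ O.unitGroup := by
      rw [← vm_one, map_mul, map_inv, ← hy, mul_inv_cancel]
    have h4 : a = (a * (y ^ p)⁻¹) * y ^ p := by rw [inv_mul_cancel_right]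
    rw [h4]
    exact mul_mem (Subgroup.mem_sup_left h3) (Subgroup.mem_sup_right ⟨_, rfl⟩)
  have h1 := cyc_up (G := VG O) hp (vg_inj hp O) (vgB K O) (vg_tor O)
    (vm O (Units.map (algebraMap K M : K →* M) (Units.mk0 t ht))) ⟨Units.mk0 t ht, rfl⟩ (by
      rintro _ ⟨b, rfl⟩
      obtain ⟨c, i, h⟩ := hcyc b
      have hc0 : c ≠ 0 := by
        rintro rfl
        rw [map_zero, zero_pow hp.ne_zero, zero_mul] at h
        exact (Valuation.ne_zero_iff _).2 b.ne_zero h
      refine ⟨_, ⟨Units.mk0 c hc0, rfl⟩, i, ?_⟩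
      rw [← map_pow, ← map_pow, ← map_mul, dn_eq] at h
      have h5 : vm O (Units.map (algebraMap K M : K →* M) (Units.mk0 c hc0)) ^ p *
          vm O (Units.map (algebraMap K M : K →* M) (Units.mk0 t ht)) ^ i =
          vm O (Units.map (algebraMap K M : K →* M) (Units.mk0 c hc0 ^ p * Units.mk0 t ht ^ i)) := by
        rw [map_mul, map_mul, map_pow, map_pow, map_pow, map_pow]
      rw [MonoidHom.comp_apply, MonoidHom.comp_apply, h5, vm_eq]
      exact h) (vm O a) ha'
  have h2 := index_cyc (G := Mˣ) hp a (by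
    intro x
    obtain ⟨y, i, h⟩ := h1 (vm O x)
    obtain ⟨y, rfl⟩ := vm_surj O y
    rw [← map_pow, ← map_zpow, ← map_mul] at h
    have h3 : x * (y ^ p * a ^ i)⁻¹ ∈ O.unitGroup := by
      rw [← vm_one, map_mul, map_inv, ← h, mul_inv_cancel]
    obtain ⟨z, hz⟩ := hu h3
    have hz' : z ^ p = x * (y ^ p * a ^ i)⁻¹ := hz
    refine ⟨z * y, i, ?_⟩
    rw [mul_pow, hz', mul_assoc, inv_mul_cancel_right])
  rcases h2 with h2 | h2
  · exfalso
    apply ha
    rw [Subgroup.index_eq_one] at h2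
    exact Subgroup.mem_sup_right (show a ∈ (powMonoidHom p : Mˣ →* Mˣ).range by rw [h2]; trivial)
  · exact h2

end val

end Pool.Agent.H403.Z
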