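import Mathlib
import Pool.Agent.H403.Z.Nip1
import Pool.Agent.H403.Z.Res1
import Pool.Graph.R_pool_sql_team_seeded_c8625f6e.K4H89.NV.Final

set_option autoImplicit false
set_option linter.unusedSectionVars false
set_option linter.unusedVariables false
set_option linter.deprecated false

/-! Restriction of valuation rings to subfields over which the field is algebraic: branching. -/

namespace Pool.Agent.H403.Z

open Module Pool.Agent.Y920.EP Polynomial Pool.Agent.H403.W Pool.Agent.K4H89.NV IntermediateField

section sep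

variable {p : ℕ}

/-- a finite extension of degree divisible by `p` contains a separable one -/
lemma sepext (hp : p.Prime) {κ L : Type} [Field κ] [Field L] [Algebra κ L] [FiniteDimensional κ L]
    (hpκ : (p : κ) ≠ 0) (hd : p ∣ finrank κ L) : ∃ d, d ≠ 0 ∧ p ∣ d ∧ HasSepExt κ d := by
  set E := separableClosure κ L with hE
  refine ⟨finrank κ E, finrank_pos.ne', ?_, E, inferInstance, inferInstance, inferInstance, rfl⟩
  obtain ⟨q, hq⟩ := ExpChar.exists κ
  have hq' : ExpChar E q := expChar_of_injective_algebraMap (algebraMap κ E).injective q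
  obtain ⟨n, hn⟩ := IsPurelyInseparable.finrank_eq_pow E L q
  have h1 := finrank_mul_finrank κ E L
  rw [hn] at h1
  rw [← h1] at hd
  rcases (Nat.Prime.dvd_mul hp).1 hd with h | h
  · exact h
  · exfalso
    have h2 := hp.dvd_of_dvd_pow h
    rcases hq with _ | ⟨hq1⟩
    · exact hp.one_lt.ne' (Nat.dvd_one.1 h2)
    · have h3 := (Nat.prime_dvd_prime_iff_eq hp hq1).1 h2
      subst h3
      exact hpκ (CharP.cast_eq_zero κ p)

end sep

section res

variable {p : ℕ} {K M : Type} [Field K] [Field M] [Algebra K M]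

/-- the residue field extension is algebraic -/
lemma res_alg [Algebra.IsAlgebraic K M] (O : ValuationSubring M) :
    Algebra.IsAlgebraic (RF (dn K O)) (RF O) := by
  classical
  refine ⟨fun z => ?_⟩
  obtain ⟨x, rfl⟩ := rs_surj O z
  have hxi : IsIntegral K (x : M) := Algebra.IsIntegral.isIntegral _
  set P := minpoly K (x : M) with hP
  have hP0 : P ≠ 0 := minpoly.ne_zero hxi
  obtain ⟨j, hj, hmax⟩ := Finset.exists_max_image P.support
    (fun i => (dn K O).valuation (P.coeff i)) (Polynomial.support_nonempty.2 hP0)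
  have hj0 : P.coeff j ≠ 0 := Polynomial.mem_support_iff.1 hj
  have hle : ∀ i, P.coeff i / P.coeff j ∈ dn K O := by
    intro i
    by_cases hi : i ∈ P.support
    · rw [← ValuationSubring.valuation_le_one_iff, map_div₀]
      exact div_le_one_of_le₀ (hmax i hi) zero_le'
    · rw [Polynomial.notMem_support_iff.1 hi, zero_div]
      exact zero_mem _
  let d : ℕ → dn K O := fun i => ⟨P.coeff i / P.coeff j, hle i⟩
  refine ⟨∑ i ∈ P.support, C (rs _ (d i)) * X ^ i, ?_, ?_⟩
  · intro h0
    have h1 := congrArg (fun Q : (RF (dn K O))[X] => Q.coeff j) h0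
    simp only [Polynomial.finset_sum_coeff, Polynomial.coeff_C_mul, Polynomial.coeff_X_pow,
      Polynomial.coeff_zero] at h1
    rw [Finset.sum_eq_single j] at h1
    · rw [if_pos rfl, mul_one, rs_eq_zero] at h1
      have h2 : ((d j : dn K O) : K) = 1 := div_self hj0
      rw [h2, map_one] at h1
      exact lt_irrefl _ h1
    · intro b _ hb
      rw [if_neg hb.symm, mul_zero]
    · intro h; exact absurd hj h
  · rw [map_sum]
    have h1 : ∀ i ∈ P.support, aeval (rs O x) (C (rs _ (d i)) * X ^ i : (RF (dn K O))[X]) =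
        rs O (incl O (d i) * x ^ i) := by
      intro i _
      rw [map_mul, aeval_C, map_pow, aeval_X, algebraMap_rs, map_mul, map_pow]
    rw [Finset.sum_congr rfl h1, ← map_sum]
    have h2 : ∑ i ∈ P.support, incl O (d i) * x ^ i = 0 := by
      apply Subtype.ext
      rw [AddSubmonoidClass.coe_finset_sum]
      have h3 : ∀ i ∈ P.support, ((incl O (d i) * x ^ i : O) : M) =
          (algebraMap K M (P.coeff j))⁻¹ * (algebraMap K M (P.coeff i) * (x : M) ^ i) := by
        intro i _
        change algebraMap K M (P.coeff i / P.coeff j) * (x : M) ^ i = _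
        rw [map_div₀]
        ring
      rw [Finset.sum_congr rfl h3, ← Finset.mul_sum]
      have := minpoly.aeval K (x : M)
      rw [Polynomial.aeval_def, Polynomial.eval₂_eq_sum, Polynomial.sum_def] at this
      rw [hP, this, mul_zero]
      rfl
    rw [h2, map_zero]

/-- units are `p`-th powers if the residue field below has no extension of degree divisible
by `p` -/
lemma units_pow [Algebra.IsAlgebraic K M] (hp : p.Prime) {O : ValuationSubring M} (hO : Pw p O)
    (hres : ¬ ∃ d, d ≠ 0 ∧ p ∣ d ∧ HasSepExt (IsLocalRing.ResidueField (dn K O)) d) :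
    O.unitGroup ≤ pwG M p := by
  intro u hu
  have halg := res_alg (K := K) O
  have huO : (u : M) ∈ O := (O.valuation_le_one_iff _).1 (le_of_eq hu)
  have huv : O.valuation (u : M) = 1 := hu
  set z : RF O := rs O ⟨u, huO⟩ with hz
  by_cases hpow : ∃ b : RF O, b ^ p = z
  · obtain ⟨b, hb⟩ := hpow
    obtain ⟨w, rfl⟩ := rs_surj O b
    rw [hz, ← map_pow, rs_eq] at hb
    have hb' : O.valuation ((w : M) ^ p - u) < 1 := hb
    have hw : O.valuation ((w : M) ^ p) = 1 := by
      have h1 : (w : M) ^ p = ((w : M) ^ p - u) + u := by ring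
      rw [h1, Valuation.map_add_eq_of_lt_right _ (by rwa [huv]), huv]
    have hw0 : (w : M) ≠ 0 := by
      intro h0
      rw [h0, zero_pow hp.ne_zero, map_zero] at hw
      exact zero_ne_one hw
    have h2 : O.valuation ((u : M) / (w : M) ^ p - 1) < 1 := by
      have h3 : (u : M) / (w : M) ^ p - 1 = -(((w : M) ^ p - u) / (w : M) ^ p) := by
        field_simp
        ring
      rw [h3, Valuation.map_neg, map_div₀, hw, div_one]
      exact hb'
    obtain ⟨y, hy⟩ : ∃ y : M, y ^ p = (u : M) / (w : M) ^ p := by
      by_cases h0 : (u : M) / (w : M) ^ p - 1 = 0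
      · exact ⟨1, by rw [one_pow]; exact (sub_eq_zero.1 h0).symm⟩
      · have h4 := lt_one_iff.1 h2
        obtain ⟨y, hy⟩ := hO.2.2 _ ((O.valuation_le_one_iff _).1 h2.le) (h4.resolve_left h0)
        exact ⟨y, by rw [hy]; ring⟩
    have h5 : (y * w) ^ p = (u : M) := by
      rw [mul_pow, hy, div_mul_cancel₀ _ (pow_ne_zero _ hw0)]
    have h6 : y * w ≠ 0 := by
      intro h0
      rw [h0, zero_pow hp.ne_zero] at h5
      exact u.ne_zero h5.symm
    exact ⟨Units.mk0 _ h6, Units.ext h5⟩
  · exfalso
    push Not at hpow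
    apply hres
    have hzi : IsIntegral (RF (dn K O)) z := (halg.isAlgebraic z).isIntegral
    have hfd : FiniteDimensional (RF (dn K O)) (RF (dn K O))⟮z⟯ := adjoin.finiteDimensional hzi
    let z' : (RF (dn K O))⟮z⟯ := ⟨z, mem_adjoin_simple_self _ z⟩
    have hirr : Irreducible (X ^ p - C z' : ((RF (dn K O))⟮z⟯)[X]) :=
      X_pow_sub_C_irreducible_of_prime hp (fun b hb => hpow b (by
        have := congrArg (fun t : (RF (dn K O))⟮z⟯ => (t : RF O)) hb
        exact this))
    have : Fact (Irreducible (X ^ p - C z' : ((RF (dn K O))⟮z⟯)[X])) := ⟨hirr⟩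
    let L := AdjoinRoot (X ^ p - C z' : ((RF (dn K O))⟮z⟯)[X])
    have hL : finrank ((RF (dn K O))⟮z⟯) L = p := by
      have h1 := (AdjoinRoot.powerBasis hirr.ne_zero).finrank
      rw [AdjoinRoot.powerBasis_dim, natDegree_X_pow_sub_C] at h1
      exact h1
    have hfdL : FiniteDimensional ((RF (dn K O))⟮z⟯) L :=
      Module.finite_of_finrank_pos (by rw [hL]; exact hp.pos)
    have tow : IsScalarTower (RF (dn K O)) ((RF (dn K O))⟮z⟯) L := inferInstance
    have hfdt : FiniteDimensional (RF (dn K O)) L := Module.Finite.trans ((RF (dn K O))⟮z⟯) L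
    have hdeg : p ∣ finrank (RF (dn K O)) L := by
      rw [← finrank_mul_finrank (RF (dn K O)) ((RF (dn K O))⟮z⟯) L, hL]
      exact dvd_mul_left _ _
    refine sepext hp ?_ hdeg
    have h1 : (p : K) ≠ 0 := by
      intro h0
      apply hO.2.1
      have := congrArg (algebraMap K M) h0
      rwa [map_natCast, map_zero] at this
    refine p_ne h1 ?_
    rw [ValuationSubring.mem_comap, map_inv₀, map_natCast]
    exact hO.1

/-- **branching valuation rings below a compatible one** -/
theorem branching_of_gd [Algebra.IsAlgebraic K M] (hp : p.Prime) {O : ValuationSubring M}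
    (hO : Gd p O) (hidx : (pwG M p).index ≠ p) : Branching (O.comap (algebraMap K M)) p := by
  refine ⟨exists_ndiv hp hO.2, ?_⟩
  by_contra hcon
  push Not at hcon
  obtain ⟨h1, a, ha, hcyc⟩ := hcon
  refine hidx (index_of_cyclic (K := K) hp hO.2 (units_pow (K := K) hp hO.1 ?_) ha hcyc)
  rintro ⟨d, hd, hpd, hsep⟩
  exact h1 d hd hpd hsep

end res

end Pool.Agent.H403.Z
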