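import Mathlib
import Pool.Agent.H403.Z.Sub1

set_option autoImplicit false
set_option linter.unusedSectionVars false
set_option linter.unusedVariables false
set_option linter.deprecated false

/-! Finitely generated subnormal subgroups. -/

namespace Pool.Agent.H403.Z

open Module Pool.Agent.Y920.EP Polynomial IntermediateField Pool.Agent.H403.W

section sub

variable {p : ℕ} {F Ω : Type} [Field F] [Field Ω] [Algebra F Ω]

/-- Galois subextensions -/
lemma PX.sub (h : PX p F Ω) (K : IntermediateField F Ω) (hK : IsGalois F K) : PX p F K := by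
  refine ⟨hK, fun E hfd hgal => ?_⟩
  let e := liftAlgEquiv E
  have h1 : FiniteDimensional F (lift E) := Module.Finite.equiv e.toLinearEquiv
  have h2 : IsGalois F (lift E) := IsGalois.of_algEquiv e
  obtain ⟨k, hk⟩ := h.deg (lift E) h1 h2
  exact ⟨k, by rw [← hk, e.toLinearEquiv.finrank_eq]⟩

/-- topologically finitely generated -/
def TFG {G : Type} [Group G] [TopologicalSpace G] [IsTopologicalGroup G] (H : Subgroup G) : Prop :=
  ∃ S : Set G, S.Finite ∧ (Subgroup.closure S).topologicalClosure = H

lemma fg_index [Fact p.Prime] (hM : MaxP p F Ω) (H : Subgroup (Ω ≃ₐ[F] Ω)) (hfg : TFG H) :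
    (pwG (fixedField H) p).index ≠ 0 := by
  have := hM.gal
  obtain ⟨S, hS, hSH⟩ := hfg
  refine index_of_fg hM _ S hS ?_ ?_
  · intro x hx
    rw [mem_fixedField_iff]
    intro τ hτ
    have h1 : (Subgroup.closure S).topologicalClosure ≤ F⟮x⟯.fixingSubgroup := by
      have : FiniteDimensional F F⟮x⟯ :=
        adjoin.finiteDimensional (Algebra.IsIntegral.isIntegral x)
      refine Subgroup.topologicalClosure_minimal _ ?_ (fixingSubgroup_isClosed F⟮x⟯)
      rw [Subgroup.closure_le]
      intro s hs
      rw [SetLike.mem_coe, IntermediateField.mem_fixingSubgroup_iff]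
      have h2 : F⟮x⟯ ≤ fixedField (Subgroup.zpowers s) := by
        rw [adjoin_simple_le_iff, mem_fixedField_iff]
        intro f hf
        have h3 : Subgroup.zpowers s ≤ MulAction.stabilizer _ x := (Subgroup.zpowers_le).2 (hx s hs)
        exact h3 hf
      intro y hy
      exact (mem_fixedField_iff _ _).1 (h2 hy) s (Subgroup.mem_zpowers s)
    have h2 := h1 (by rw [hSH]; exact hτ)
    rw [IntermediateField.mem_fixingSubgroup_iff] at h2
    exact h2 x (mem_adjoin_simple_self F x)
  · intro s hs x hx
    rw [mem_fixedField_iff] at hx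
    apply hx
    rw [← hSH]
    exact Subgroup.le_topologicalClosure _ (Subgroup.subset_closure hs)

lemma fg_ne_one [Fact p.Prime] (hM : MaxP p F Ω) (hζ : ∃ ζ : F, IsPrimitiveRoot ζ p)
    (H : Subgroup (Ω ≃ₐ[F] Ω)) (hcl : IsClosed (H : Set (Ω ≃ₐ[F] Ω))) (hne : H ≠ ⊥) :
    (pwG (fixedField H) p).index ≠ 1 := by
  have := hM.gal
  have hH : (fixedField H).fixingSubgroup = H := InfiniteGalois.fixingSubgroup_fixedField ⟨H, hcl⟩
  intro h1
  apply hne
  have h2 := top_of_index_one hM hζ (fixedField H) h1
  rw [← hH, h2, fixingSubgroup_top]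

/-- closures of a normal pair -/
lemma normal_closure {G : Type} [Group G] [TopologicalSpace G] [IsTopologicalGroup G]
    {H K : Subgroup G} (hN : ∀ b ∈ K, ∀ a ∈ H, b * a * b⁻¹ ∈ H) :
    ∀ b ∈ K.topologicalClosure, ∀ a ∈ H.topologicalClosure, b * a * b⁻¹ ∈ H.topologicalClosure := by
  have h1 : ∀ b ∈ K, ∀ a ∈ H.topologicalClosure, b * a * b⁻¹ ∈ H.topologicalClosure := by
    intro b hb a ha
    have hc : Continuous fun x : G => b * x * b⁻¹ := by fun_prop
    exact map_mem_closure (f := fun x : G => b * x * b⁻¹) hc ha fun x hx => hN b hb x hx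
  intro b hb a ha
  have hc : Continuous fun x : G => x * a * x⁻¹ := by fun_prop
  have h2 := map_mem_closure (f := fun x : G => x * a * x⁻¹) hc hb
    (t := (H.topologicalClosure : Set G)) fun x hx => h1 x hx a ha
  rwa [H.isClosed_topologicalClosure.closure_eq] at h2

/-- finite extensions of finitely generated subgroups -/
lemma tfg_up {G : Type} [Group G] [TopologicalSpace G] [IsTopologicalGroup G]
    {A B : Subgroup G} (hAB : A ≤ B) (hB : IsClosed (B : Set G)) (hA : TFG A)
    (hidx : A.relIndex B ≠ 0) : TFG B := by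
  obtain ⟨S, hS, hSA⟩ := hA
  have hfi : (A.subgroupOf B).FiniteIndex := ⟨hidx⟩
  have : Finite (B ⧸ A.subgroupOf B) := Subgroup.finite_quotient_of_finiteIndex
  let R : Set G := Set.range fun q : B ⧸ A.subgroupOf B => ((q.out : B) : G)
  refine ⟨S ∪ R, hS.union (Set.finite_range _), le_antisymm ?_ ?_⟩
  · refine Subgroup.topologicalClosure_minimal _ ?_ hB
    rw [Subgroup.closure_le]
    rintro x (hx | ⟨q, rfl⟩)
    · apply hAB
      rw [← hSA]
      exact Subgroup.le_topologicalClosure _ (Subgroup.subset_closure hx)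
    · exact (q.out : B).2
  · intro b hb
    have h1 : A ≤ (Subgroup.closure (S ∪ R)).topologicalClosure := by
      rw [← hSA]
      exact Subgroup.topologicalClosure_mono (Subgroup.closure_mono Set.subset_union_left)
    let q : B ⧸ A.subgroupOf B := QuotientGroup.mk ⟨b, hb⟩
    have h2 : (q.out)⁻¹ * ⟨b, hb⟩ ∈ A.subgroupOf B := by
      rw [← QuotientGroup.eq]
      exact Quotient.out_eq' q
    rw [Subgroup.mem_subgroupOf] at h2
    have h3 : b = ((q.out : B) : G) * (((q.out)⁻¹ * ⟨b, hb⟩ : B) : G) := by
      rw [Subgroup.coe_mul, Subgroup.coe_inv, mul_inv_cancel_left]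
    rw [h3]
    refine mul_mem ?_ (h1 h2)
    exact Subgroup.le_topologicalClosure _ (Subgroup.subset_closure (Or.inr ⟨q, rfl⟩))

/-- the induction along a subnormal series -/
theorem sub_chain [Fact p.Prime] (hM : MaxP p F Ω) (hζ : ∃ ζ : F, IsPrimitiveRoot ζ p)
    (H : Subgroup (Ω ≃ₐ[F] Ω)) (hs : H.IsSubnormal) :
    (Good (fixedField H.topologicalClosure) p → Good F p) ∧
    (TFG H.topologicalClosure → H.topologicalClosure ≠ ⊥ → H.topologicalClosure.index = 0 →
      Good F p) := by
  have hp : p.Prime := Fact.out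
  have := hM.gal
  have hXΩ : PX p F Ω := ⟨hM.gal, fun E hfd hgal => (PS_of_maxP hM E).2.2⟩
  induction hs with
  | top =>
    have htop : (⊤ : Subgroup (Ω ≃ₐ[F] Ω)).topologicalClosure = ⊤ :=
      top_le_iff.1 (Subgroup.le_topologicalClosure _)
    rw [htop]
    refine ⟨fun h => ?_, fun _ _ h => ?_⟩
    · have h1 : fixedField (⊤ : Subgroup (Ω ≃ₐ[F] Ω)) = ⊥ := by
        rw [← InfiniteGalois.fixedField_bot]
      rw [h1] at h
      exact good_iso (botEquiv F Ω).toRingEquiv h
    · rw [Subgroup.index_top] at h
      exact absurd h one_ne_zero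
  | step H K h_le hSubn hN ih =>
    obtain ⟨ih1, ih2⟩ := ih
    set A := H.topologicalClosure with hA
    set B := K.topologicalClosure with hB
    have hAB : A ≤ B := Subgroup.topologicalClosure_mono h_le
    have hAcl : IsClosed (A : Set (Ω ≃ₐ[F] Ω)) := H.isClosed_topologicalClosure
    have hBcl : IsClosed (B : Set (Ω ≃ₐ[F] Ω)) := K.isClosed_topologicalClosure
    have hnor : ∀ b ∈ B, ∀ a ∈ A, b * a * b⁻¹ ∈ A := by
      refine normal_closure fun b hb a ha => ?_
      have h1 := hN.conj_mem ⟨a, h_le ha⟩ (by rwa [Subgroup.mem_subgroupOf]) ⟨b, hb⟩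
      rw [Subgroup.mem_subgroupOf] at h1
      exact h1
    have hfA : (fixedField A).fixingSubgroup = A :=
      InfiniteGalois.fixingSubgroup_fixedField ⟨A, hAcl⟩
    have hfB : (fixedField B).fixingSubgroup = B :=
      InfiniteGalois.fixingSubgroup_fixedField ⟨B, hBcl⟩
    have hle : fixedField B ≤ fixedField A := by
      intro x hx
      rw [mem_fixedField_iff] at hx ⊢
      exact fun f hf => hx f (hAB hf)
    have hζB : ∃ ζ : fixedField B, IsPrimitiveRoot ζ p := by
      obtain ⟨ζ, hζ⟩ := hζ
      exact ⟨_, hζ.map_of_injective (algebraMap F (fixedField B)).injective⟩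
    let E : IntermediateField (fixedField B) Ω := extendScalars hle
    have hmem : ∀ τ : Ω ≃ₐ[fixedField B] Ω, τ.restrictScalars F ∈ B := by
      intro τ
      refine hfB.le ?_
      rw [IntermediateField.mem_fixingSubgroup_iff]
      intro x hx
      exact τ.commutes ⟨x, hx⟩
    have hE : ∀ τ : Ω ≃ₐ[fixedField B] Ω, τ ∈ E.fixingSubgroup ↔ τ.restrictScalars F ∈ A := by
      intro τ
      rw [IntermediateField.mem_fixingSubgroup_iff]
      conv_rhs => rw [← hfA, IntermediateField.mem_fixingSubgroup_iff]
      rfl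
    have hgalE : IsGalois (fixedField B) E := by
      refine (InfiniteGalois.normal_iff_isGalois E).1 ⟨fun σ hσ τ => ?_⟩
      rw [hE] at hσ ⊢
      exact hnor _ (hmem τ) _ hσ
    have hXE : PX p (fixedField B) E := (hXΩ.upInf (fixedField B)).sub E hgalE
    let e : E ≃+* fixedField A :=
      { toFun := fun x => ⟨x.1, x.2⟩
        invFun := fun x => ⟨x.1, x.2⟩
        left_inv := fun _ => rfl
        right_inv := fun _ => rfl
        map_mul' := fun _ _ => rfl
        map_add' := fun _ _ => rfl }
    refine ⟨fun h => ih1 (desc_inf hXE hp hζB (good_iso e.symm h)), fun hfg hne hidx => ?_⟩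
    by_cases hrel : A.relIndex B = 0
    · refine ih1 (good_of_PX hXE hζB ?_ ?_ ?_)
      · intro hfd
        have h1 : Module.finrank (fixedField B) E = E.fixingSubgroup.index := by
          rw [finrank_eq_fixingSubgroup_index]
        have h2 : E.fixingSubgroup.index = 0 := by
          let f : (Ω ≃ₐ[fixedField B] Ω) →* B :=
            { toFun := fun τ => ⟨τ.restrictScalars F, hmem τ⟩
              map_one' := rfl
              map_mul' := fun _ _ => rfl }
          have hf : Function.Surjective f := by
            rintro ⟨σ, hσ⟩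
            rw [← hfB] at hσ
            refine ⟨(fixingSubgroupEquiv (fixedField B)) ⟨σ, hσ⟩, ?_⟩
            rfl
          have h3 : E.fixingSubgroup = (A.subgroupOf B).comap f := by
            ext τ
            rw [hE, Subgroup.mem_comap, Subgroup.mem_subgroupOf]
            exact Iff.rfl
          rw [h3, Subgroup.index_comap_of_surjective _ hf]
          exact hrel
        rw [h2] at h1
        exact Module.finrank_pos.ne' h1
      · rw [index_iso e]
        exact fg_index hM A hfg
      · rw [index_iso e]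
        exact fg_ne_one hM hζ A hAcl hne
    · refine ih2 (tfg_up hAB hBcl hfg hrel) (fun h => hne ?_) ?_
      · rw [eq_bot_iff, ← h]
        exact hAB
      · have h1 := Subgroup.relIndex_mul_index hAB
        rw [hidx] at h1
        exact (mul_eq_zero.1 h1).resolve_left hrel

/-- **finitely generated subnormal subgroups** -/
theorem good_of_subnormal [Fact p.Prime] (hM : MaxP p F Ω) (hζ : ∃ ζ : F, IsPrimitiveRoot ζ p)
    (H : Subgroup (Ω ≃ₐ[F] Ω)) (hs : H.IsSubnormal) (hcl : IsClosed (H : Set (Ω ≃ₐ[F] Ω)))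
    (hidx : H.index = 0) (hne : H ≠ ⊥) (hfg : TFG H) : Good F p := by
  have h1 : H.topologicalClosure = H := by
    apply SetLike.coe_injective
    exact hcl.closure_eq
  have h2 := (sub_chain hM hζ H hs).2
  rw [h1] at h2
  exact h2 hfg hne hidx

end sub

end Pool.Agent.H403.Z
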