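import Mathlib
import Pool.Agent.H403.Z.Sub2
import Pool.Agent.H403.Z.Nip1

set_option autoImplicit false
set_option linter.unusedSectionVars false
set_option linter.unusedVariables false
set_option linter.deprecated false

/-! Fields with one extension of degree `p`. -/

namespace Pool.Agent.H403.Z

open Module Pool.Agent.Y920.EP Polynomial IntermediateField Pool.Agent.H403.W

section cyc

variable {p : ℕ}

/-- the subgroups of a cyclic `p`-group form a chain -/
lemma cyc_sub {P : Type} [Group P] (hp : p.Prime) {k : ℕ} (g : P) (hg : ∀ x : P, ∃ n : ℕ, x = g ^ n)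
    (hk : g ^ p ^ k = 1) (A B : Subgroup P) : A ≤ B ∨ B ≤ A := by
  have key : ∀ (i j s t : ℕ), ¬ p ∣ i → s ≤ t → ∀ C : Subgroup P, g ^ (p ^ s * i) ∈ C →
      g ^ (p ^ t * j) ∈ C := by
    intro i j s t hi hst C hC
    have hcop : Nat.Coprime i (p ^ k) := by
      rw [Nat.coprime_comm]
      exact Nat.Coprime.pow_left k ((Nat.Prime.coprime_iff_not_dvd hp).2 hi)
    have hbez := Nat.gcd_eq_gcd_ab i (p ^ k)
    rw [hcop] at hbez
    set u := Nat.gcdA i (p ^ k)
    set w := Nat.gcdB i (p ^ k)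
    have h1 : (g ^ (p ^ s * i)) ^ u = g ^ (p ^ s) := by
      have h2 : ((p ^ s * i : ℕ) : ℤ) * u = ((p ^ s : ℕ) : ℤ) + ((p ^ k : ℕ) : ℤ) * (-((p ^ s : ℕ) : ℤ) * w) := by
        have h3 : ((i : ℕ) : ℤ) * u = 1 - ((p ^ k : ℕ) : ℤ) * w := by
          rw [Nat.cast_one] at hbez
          linarith
        rw [Nat.cast_mul, mul_assoc, h3]
        ring
      rw [← zpow_natCast g (p ^ s * i), ← zpow_mul, h2, zpow_add, zpow_mul, zpow_natCast g (p ^ k),
        hk, one_zpow, mul_one, zpow_natCast]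
    have h2 : g ^ (p ^ s) ∈ C := by
      rw [← h1]
      exact zpow_mem hC u
    have h3 : p ^ t * j = p ^ s * (p ^ (t - s) * j) := by
      rw [← mul_assoc, ← pow_add, Nat.add_sub_cancel' hst]
    rw [h3, pow_mul]
    exact pow_mem h2 _
  by_contra hcon
  rw [not_or] at hcon
  obtain ⟨h1, h2⟩ := hcon
  obtain ⟨a, ha, haB⟩ := SetLike.not_le_iff_exists.1 h1
  obtain ⟨b, hb, hbA⟩ := SetLike.not_le_iff_exists.1 h2
  obtain ⟨i, rfl⟩ := hg a
  obtain ⟨j, rfl⟩ := hg b
  have hi : i ≠ 0 := by rintro rfl; exact haB (by rw [pow_zero]; exact one_mem _)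
  have hj : j ≠ 0 := by rintro rfl; exact hbA (by rw [pow_zero]; exact one_mem _)
  obtain ⟨s, i', hi', rfl⟩ := Nat.exists_eq_pow_mul_and_not_dvd hi p hp.ne_one
  obtain ⟨t, j', hj', rfl⟩ := Nat.exists_eq_pow_mul_and_not_dvd hj p hp.ne_one
  rcases le_total s t with h | h
  · exact hbA (key i' j' s t hi' h A ha)
  · exact haB (key j' i' t s hj' h B hb)

end cyc

section fin

variable {p : ℕ} {F N : Type} [Field F] [Field N] [Algebra F N] [FiniteDimensional F N]
  [IsGalois F N]

lemma gal_deg_p [Fact p.Prime] {k : ℕ} (hN : Module.finrank F N = p ^ k)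
    (E : IntermediateField F N) (hE : finrank F E = p) : IsGalois F E := by
  have hp : p.Prime := Fact.out
  have hk : k ≠ 0 := by
    rintro rfl
    have h1 := Module.finrank_mul_finrank F E N
    rw [hE, hN, pow_zero] at h1
    have := Nat.eq_one_of_mul_eq_one_right h1
    exact hp.one_lt.ne' this
  refine (InfiniteGalois.normal_iff_isGalois E).1 ?_
  apply Subgroup.normal_of_index_eq_minFac_card
  rw [← finrank_eq_fixingSubgroup_index, hE, IsGalois.card_aut_eq_finrank, hN, hp.pow_minFac hk]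

/-- if `F*/F*^p` is cyclic, then all extensions contain the root of the generator -/
lemma root_mem [Fact p.Prime] {k : ℕ} (hN : Module.finrank F N = p ^ k)
    (hζ : ∃ ζ : F, IsPrimitiveRoot ζ p) {a : Fˣ}
    (hcyc : ∀ x : Fˣ, ∃ (y : Fˣ) (i : ℤ), x = y ^ p * a ^ i) :
    ∀ (m : ℕ) (E : IntermediateField F N), finrank F E = m → E ≠ ⊥ →
      ∃ t : N, t ∈ E ∧ t ^ p = algebraMap F N a := by
  have hp : p.Prime := Fact.out
  intro m
  induction m using Nat.strong_induction_on with
  | _ m ih =>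
    intro E hE hne
    obtain ⟨K₁, hle, -, -, hdeg⟩ := exists_below hN E hne
    by_cases hK : K₁ = ⊥
    · subst hK
      rw [IntermediateField.finrank_bot, mul_one] at hdeg
      have hgal := gal_deg_p hN E hdeg
      obtain ⟨σ, ω, θ, c, hce⟩ := exists_CE hp hdeg hζ
      have hc := c_notMem hp hce
      obtain ⟨y, i, hci⟩ := hcyc c
      have hi : ¬ (p : ℤ) ∣ i := by
        rintro ⟨j, rfl⟩
        apply hc
        refine ⟨y * a ^ j, ?_⟩
        rw [powMonoidHom_apply, mul_pow, hci, ← zpow_natCast (a ^ j) p, ← zpow_mul, mul_comm j]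
      have hcop : IsCoprime (p : ℤ) i := (Int.prime_iff_natAbs_prime.2 (by simpa using hp)).coprime_iff_not_dvd.2 hi
      obtain ⟨w, u, hwu⟩ := hcop
      -- `a = (c / y^p)^u a^(w p)`
      have ha : a = (c ^ u * (y ^ u)⁻¹ ^ p) * (a ^ w) ^ p := by
        have h1 : a = a ^ (w * p + u * i) := by rw [hwu, zpow_one]
        have h2 : c ^ u = (y ^ u) ^ p * a ^ (i * u) := by
          rw [hci, mul_zpow, zpow_mul]
          congr 1
          rw [← zpow_natCast y p, ← zpow_mul, ← zpow_natCast (y ^ u) p, ← zpow_mul, mul_comm u]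
        rw [h2, inv_pow, mul_comm ((y ^ u) ^ p), mul_inv_cancel_right, ← zpow_natCast (a ^ w) p,
          ← zpow_mul, ← zpow_add]
        conv_lhs => rw [h1]
        congr 1
        ring
      have hθ0 : (θ : E) ≠ 0 := θ.ne_zero
      refine ⟨(((θ ^ u * iu F E ((y ^ u)⁻¹) * iu F E (a ^ w) : Eˣ) : E) : N), ((_ : E)).2, ?_⟩
      have h3 : (θ ^ u * iu F E ((y ^ u)⁻¹) * iu F E (a ^ w) : Eˣ) ^ p = iu F E a := by
        have h4 : θ ^ p = iu F E c := by
          ext
          rw [Units.val_pow_eq_pow_val, hce.pow, iu_val]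
        rw [mul_pow, mul_pow, ← zpow_natCast (θ ^ u) p, ← zpow_mul, mul_comm u, zpow_mul,
          zpow_natCast, h4, ← map_zpow, ← map_pow, ← map_pow, ← map_mul, ← map_mul, ← ha]
      have h4 := congrArg (fun z : Eˣ => ((z : E) : N)) h3
      simp only [Units.val_pow_eq_pow_val] at h4
      exact h4
    · have hlt : finrank F K₁ < m := by
        rw [← hE, hdeg]
        exact lt_mul_left Module.finrank_pos hp.one_lt
      obtain ⟨t, ht, h⟩ := ih _ hlt K₁ rfl hK
      exact ⟨t, hle ht, h⟩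

end fin

section inf

variable {p : ℕ} {F Ω : Type} [Field F] [Field Ω] [Algebra F Ω]

/-- **procyclic groups**: closed nontrivial subgroups have finite index -/
theorem index_of_procyclic [Fact p.Prime] (hM : MaxP p F Ω) (hζ : ∃ ζ : F, IsPrimitiveRoot ζ p)
    (hidx : (pwG F p).index = p) (N : Subgroup (Ω ≃ₐ[F] Ω))
    (hcl : IsClosed (N : Set (Ω ≃ₐ[F] Ω))) (hne : N ≠ ⊥) : N.index ≠ 0 := by
  have hp : p.Prime := Fact.out
  have := hM.gal
  have hX : PX p F Ω := ⟨hM.gal, fun E hfd hgal => (PS_of_maxP hM E).2.2⟩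
  intro h0
  -- a generator
  obtain ⟨a, ha⟩ : ∃ a : Fˣ, a ∉ pwG F p := by
    by_contra hcon
    push Not at hcon
    have h1 : pwG F p = ⊤ := eq_top_iff.2 fun a _ => hcon a
    rw [h1, Subgroup.index_top] at hidx
    exact hp.one_lt.ne hidx
  have hcyc : ∀ x : Fˣ, ∃ (y : Fˣ) (i : ℤ), x = y ^ p * a ^ i := by
    intro x
    have h1 := Subgroup.relIndex_mul_index (le_sup_left : pwG F p ≤ pwG F p ⊔ Subgroup.zpowers a)
    rw [hidx] at h1
    have h2 : (pwG F p ⊔ Subgroup.zpowers a).index = 1 := by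
      rcases (Nat.dvd_prime hp).1 (Dvd.intro _ h1) with h3 | h3
      · exfalso
        exact ha (Subgroup.relIndex_eq_one.1 h3 ((le_sup_right : Subgroup.zpowers a ≤ _)
          (Subgroup.mem_zpowers a)))
      · rw [h3] at h1
        exact Nat.eq_of_mul_eq_mul_left hp.pos (by rw [h1, mul_one])
    have h3 : x ∈ pwG F p ⊔ Subgroup.zpowers a := by
      rw [Subgroup.index_eq_one.1 h2]; trivial
    obtain ⟨_, ⟨y, rfl⟩, _, ⟨i, rfl⟩, h⟩ := Subgroup.mem_sup.1 h3
    exact ⟨y, i, h.symm⟩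
  obtain ⟨θ, hθ⟩ := hM.root (algebraMap F Ω a)
  have hθF : θ ∉ (⊥ : IntermediateField F Ω) := by
    rintro ⟨t, ht⟩
    have ht' : algebraMap F Ω t = θ := ht
    apply ha
    have h1 : t ^ p = a := (algebraMap F Ω).injective (by rw [map_pow, ht', hθ])
    have ht0 : t ≠ 0 := by
      rintro rfl
      rw [zero_pow hp.ne_zero] at h1
      exact a.ne_zero h1.symm
    exact ⟨Units.mk0 t ht0, Units.ext h1⟩
  -- every extension contains `θ`
  have hall : ∀ E : IntermediateField F Ω, FiniteDimensional F E → E ≠ ⊥ → θ ∈ E := by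
    intro E hfd hE
    obtain ⟨N₀, hle, hfdN, hgalN, k, hk⟩ := hX.closure E
    have hE' : restrict hle ≠ ⊥ := by
      intro h1
      apply hE
      rw [eq_bot_iff]
      intro x hx
      have h2 : (⟨x, hle hx⟩ : N₀) ∈ restrict hle := by rw [mem_restrict]; exact hx
      rw [h1] at h2
      obtain ⟨y, hy⟩ := h2
      exact ⟨y, congrArg Subtype.val hy⟩
    obtain ⟨t, ht, hta⟩ := root_mem hk hζ hcyc _ (restrict hle) rfl hE'
    rw [mem_restrict] at ht
    have hta' : (t : Ω) ^ p = algebraMap F Ω a := congrArg Subtype.val hta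
    obtain ⟨ζ, hζ⟩ := hζ
    have ht0 : (t : Ω) ≠ 0 := by
      intro h1
      rw [h1, zero_pow hp.ne_zero] at hta'
      exact (_root_.map_ne_zero _).2 a.ne_zero hta'.symm
    have hζΩ : IsPrimitiveRoot (algebraMap F Ω ζ) p := hζ.map_of_injective (algebraMap F Ω).injective
    have h1 : (θ / (t : Ω)) ^ p = 1 := by
      rw [div_pow, hθ, hta', div_self]
      exact (_root_.map_ne_zero _).2 a.ne_zero
    have : NeZero p := ⟨hp.ne_zero⟩
    obtain ⟨i, -, hi⟩ := hζΩ.eq_pow_of_pow_eq_one h1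
    have h2 : θ = (algebraMap F Ω ζ) ^ i * t := by rw [hi, div_mul_cancel₀ _ ht0]
    rw [h2, ← map_pow]
    exact mul_mem (E.algebraMap_mem _) ht
  -- an automorphism without fixed elements
  obtain ⟨σ, hσ⟩ : ∃ σ : Ω ≃ₐ[F] Ω, σ θ ≠ θ := by
    by_contra hcon
    push Not at hcon
    apply hθF
    have h1 := (InfiniteGalois.mem_bot_iff_fixed θ).2 hcon
    exact h1
  have hfix : ∀ x : Ω, σ x = x → x ∈ (⊥ : IntermediateField F Ω) := by
    intro x hx
    by_contra hxb
    have hfd : FiniteDimensional F F⟮x⟯ := adjoin.finiteDimensional (Algebra.IsIntegral.isIntegral x)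
    have h1 : F⟮x⟯ ≠ ⊥ := fun h => hxb (adjoin_simple_eq_bot_iff.1 h)
    have h2 := hall _ hfd h1
    have h3 : F⟮x⟯ ≤ fixedField (Subgroup.zpowers σ) := by
      rw [adjoin_simple_le_iff, mem_fixedField_iff]
      intro f hf
      have h3 : Subgroup.zpowers σ ≤ MulAction.stabilizer _ x := (Subgroup.zpowers_le).2 hx
      exact h3 hf
    exact hσ ((mem_fixedField_iff _ _).1 (h3 h2) σ (Subgroup.mem_zpowers σ))
  -- the fixed field of `N`
  have hNfix : (fixedField N).fixingSubgroup = N := InfiniteGalois.fixingSubgroup_fixedField ⟨N, hcl⟩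
  have hinf : ¬ FiniteDimensional F (fixedField N) := by
    intro hfd
    have h1 := Module.finrank_pos (R := F) (M := fixedField N)
    rw [finrank_eq_fixingSubgroup_index, hNfix, h0] at h1
    exact lt_irrefl _ h1
  obtain ⟨n, hn, x, hx⟩ : ∃ n ∈ N, ∃ x : Ω, n x ≠ x := by
    by_contra hcon
    push Not at hcon
    apply hne
    rw [eq_bot_iff]
    intro n hn
    rw [Subgroup.mem_bot]
    ext x
    exact hcon n hn x
  have hfdx : FiniteDimensional F F⟮x⟯ := adjoin.finiteDimensional (Algebra.IsIntegral.isIntegral x)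
  obtain ⟨L₀, hL₀fd, hL₀⟩ := exists_lt_finrank_of_infinite_dimensional hinf (finrank F F⟮x⟯)
  set L := lift L₀ with hL
  have hLfd : FiniteDimensional F L := Module.Finite.equiv (liftAlgEquiv L₀).toLinearEquiv
  have hLle : L ≤ fixedField N := lift_le L₀
  have hLr : finrank F F⟮x⟯ < finrank F L := by
    rw [← (liftAlgEquiv L₀).toLinearEquiv.finrank_eq]
    exact hL₀
  obtain ⟨N₀, hle, hfdN, hgalN, k, hk⟩ := hX.closure (L ⊔ F⟮x⟯)
  have hLN : L ≤ N₀ := le_sup_left.trans hle
  have hxN : F⟮x⟯ ≤ N₀ := le_sup_right.trans hle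
  set σ₀ := AlgEquiv.restrictNormalHom N₀ σ with hσ₀
  have hσ₀x : ∀ y : N₀, ((σ₀ y : N₀) : Ω) = σ (y : Ω) := fun y =>
    AlgEquiv.restrictNormal_commutes σ N₀ y
  have htop : Subgroup.zpowers σ₀ = ⊤ := by
    have h1 : fixedField (Subgroup.zpowers σ₀) = ⊥ := by
      rw [eq_bot_iff]
      intro y hy
      have h2 : σ₀ y = y := (mem_fixedField_iff _ _).1 hy σ₀ (Subgroup.mem_zpowers σ₀)
      obtain ⟨z, hz⟩ := hfix (y : Ω) (by rw [← hσ₀x, h2])
      exact ⟨z, Subtype.ext hz⟩
    rw [← fixingSubgroup_fixedField (Subgroup.zpowers σ₀), h1, fixingSubgroup_bot]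
  have hgen : ∀ τ : N₀ ≃ₐ[F] N₀, ∃ m : ℕ, τ = σ₀ ^ m := by
    intro τ
    have h1 : τ ∈ Subgroup.zpowers σ₀ := by rw [htop]; trivial
    obtain ⟨m, hm⟩ := (mem_powers_iff_mem_zpowers.2 h1 : τ ∈ Submonoid.powers σ₀)
    exact ⟨m, hm.symm⟩
  have hpk : σ₀ ^ p ^ k = 1 := by
    rw [← hk, ← IsGalois.card_aut_eq_finrank]
    exact pow_card_eq_one'
  rcases cyc_sub hp σ₀ hgen hpk (restrict hLN).fixingSubgroup (restrict hxN).fixingSubgroup with h | h
  · -- `x ∈ L`
    have h1 : restrict hxN ≤ restrict hLN := by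
      have h2 := fixedField_antitone h
      rwa [IsGalois.fixedField_fixingSubgroup, IsGalois.fixedField_fixingSubgroup] at h2
    have h2 : (⟨x, hxN (mem_adjoin_simple_self F x)⟩ : N₀) ∈ restrict hxN := by
      rw [mem_restrict]
      exact mem_adjoin_simple_self F x
    have h3 := h1 h2
    rw [mem_restrict] at h3
    exact hx ((mem_fixedField_iff _ _).1 (hLle h3) n hn)
  · have h1 : restrict hLN ≤ restrict hxN := by
      have h2 := fixedField_antitone h
      rwa [IsGalois.fixedField_fixingSubgroup, IsGalois.fixedField_fixingSubgroup] at h2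
    have h2 : finrank F (restrict hLN) ≤ finrank F (restrict hxN) :=
      LinearMap.finrank_le_finrank_of_injective (f := (inclusion h1).toLinearMap)
        (inclusion h1).injective
    rw [← (restrictAlgEquiv hLN).toLinearEquiv.finrank_eq,
      ← (restrictAlgEquiv hxN).toLinearEquiv.finrank_eq] at h2
    exact absurd hLr (not_lt.2 h2)

end inf

end Pool.Agent.H403.Z
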