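import Mathlib
import Pool.Agent.H403.Z.Nip2
import Pool.Agent.H403.Z.Nip3

set_option autoImplicit false
set_option linter.unusedSectionVars false
set_option linter.unusedVariables false
set_option linter.deprecated false

/-! Closed pro-`p` subgroups of absolute Galois groups. -/

namespace Pool.Agent.H403.Z

open Module Pool.Agent.Y920.EP Polynomial IntermediateField Pool.Agent.H403.W
open Pool.Agent.K4H89.NV

section top

/-- transport of finite generation -/
lemma tfg_comap {A B : Type} [Group A] [TopologicalSpace A] [IsTopologicalGroup A] [Group B]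
    [TopologicalSpace B] [IsTopologicalGroup B] (e : A ≃ₜ B) (f : A ≃* B) (hef : ∀ x, e x = f x)
    {N : Subgroup B} (hN : TFG N) : TFG (N.comap (f : A →* B)) := by
  obtain ⟨S, hS, hSN⟩ := hN
  refine ⟨f ⁻¹' S, hS.preimage f.injective.injOn, ?_⟩
  apply SetLike.coe_injective
  rw [Subgroup.topologicalClosure_coe]
  have h1 : ((Subgroup.closure (f ⁻¹' S) : Subgroup A) : Set A) =
      e ⁻¹' ((Subgroup.closure S : Subgroup B) : Set B) := by
    have h2 : (Subgroup.closure S).comap (f : A →* B) = Subgroup.closure (f ⁻¹' S) := by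
      apply le_antisymm
      · intro x hx
        rw [Subgroup.mem_comap] at hx
        have h3 : f x ∈ (Subgroup.closure (f ⁻¹' S)).map (f : A →* B) := by
          rw [MonoidHom.map_closure]
          have h4 : (f : A →* B) '' (f ⁻¹' S) = S := Set.image_preimage_eq S f.surjective
          rw [h4]
          exact hx
        obtain ⟨y, hy, hyx⟩ := h3
        have h5 : y = x := f.injective hyx
        rwa [← h5]
      · rw [Subgroup.closure_le]
        intro x hx
        exact Subgroup.subset_closure hx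
    rw [← h2]
    ext x
    simp only [Subgroup.coe_comap, Set.mem_preimage, hef]
    rfl
  rw [h1, ← e.preimage_closure, ← Subgroup.topologicalClosure_coe, hSN]
  ext x
  simp only [Subgroup.coe_comap, Set.mem_preimage, hef]
  rfl

end top

section grp

variable {p : ℕ} {K Ω : Type} [Field K] [Field Ω] [Algebra K Ω]

lemma fix_simple' (σ : Ω ≃ₐ[K] Ω) (x : Ω) : σ ∈ K⟮x⟯.fixingSubgroup ↔ σ x = x := by
  rw [IntermediateField.mem_fixingSubgroup_iff]
  constructor
  · exact fun h => h x (mem_adjoin_simple_self K x)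
  · intro h y hy
    have h2 : K⟮x⟯ ≤ fixedField (Subgroup.zpowers σ) := by
      rw [adjoin_simple_le_iff, mem_fixedField_iff]
      intro f hf
      have h3 : Subgroup.zpowers σ ≤ MulAction.stabilizer _ x := (Subgroup.zpowers_le).2 h
      exact h3 hf
    exact (mem_fixedField_iff _ _).1 (h2 hy) σ (Subgroup.mem_zpowers σ)

variable [IsGalois K Ω]

/-- restriction of scalars is continuous -/
lemma restr_cont (M : IntermediateField K Ω) :
    Continuous (fun τ : Ω ≃ₐ[M] Ω => (τ.restrictScalars K : Ω ≃ₐ[K] Ω)) := by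
  let f : (Ω ≃ₐ[M] Ω) →* (Ω ≃ₐ[K] Ω) :=
    { toFun := fun τ => τ.restrictScalars K
      map_one' := rfl
      map_mul' := fun _ _ => rfl }
  have hf : Continuous f := by
    refine continuous_of_continuousAt_one f ?_
    rw [ContinuousAt, map_one, Filter.tendsto_def]
    intro U hU
    rw [krullTopology_mem_nhds_one_iff] at hU
    obtain ⟨E, hE, hEU⟩ := hU
    rw [krullTopology_mem_nhds_one_iff]
    let b := Module.finBasis K E
    have hfd : FiniteDimensional M (adjoin M (Set.range fun i => ((b i : E) : Ω))) := by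
      have : Finite (Set.range fun i => ((b i : E) : Ω)) := (Set.finite_range _).to_subtype
      exact finiteDimensional_adjoin fun x _ => Algebra.IsIntegral.isIntegral x
    refine ⟨_, hfd, ?_⟩
    intro τ hτ
    apply hEU
    rw [SetLike.mem_coe, IntermediateField.mem_fixingSubgroup_iff] at hτ ⊢
    have h1 : ((τ.restrictScalars K : Ω ≃ₐ[K] Ω).toLinearMap ∘ₗ E.val.toLinearMap : E →ₗ[K] Ω) =
        E.val.toLinearMap := by
      refine b.ext fun i => ?_
      exact hτ _ (subset_adjoin M _ ⟨i, rfl⟩)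
    intro x hx
    exact congrArg (fun g : E →ₗ[K] Ω => g ⟨x, hx⟩) h1
  exact hf

/-- the group of the fixed field -/
noncomputable def toH (H : Subgroup (Ω ≃ₐ[K] Ω)) (hcl : IsClosed (H : Set (Ω ≃ₐ[K] Ω))) :
    (Ω ≃ₐ[fixedField H] Ω) ≃* H :=
  MulEquiv.ofBijective
    ({ toFun := fun τ => ⟨τ.restrictScalars K, by
        have h1 : (fixedField H).fixingSubgroup = H :=
          InfiniteGalois.fixingSubgroup_fixedField ⟨H, hcl⟩
        refine h1.le ?_
        rw [IntermediateField.mem_fixingSubgroup_iff]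
        intro x hx
        exact τ.commutes ⟨x, hx⟩⟩
       map_one' := rfl
       map_mul' := fun _ _ => rfl } : (Ω ≃ₐ[fixedField H] Ω) →* H)
    (by
      constructor
      · intro τ τ' h
        have h1 := congrArg Subtype.val h
        exact AlgEquiv.restrictScalars_injective K h1
      · rintro ⟨σ, hσ⟩
        have h1 : (fixedField H).fixingSubgroup = H :=
          InfiniteGalois.fixingSubgroup_fixedField ⟨H, hcl⟩
        have hσ' := hσ
        rw [← h1] at hσ'
        exact ⟨(fixingSubgroupEquiv (fixedField H)) ⟨σ, hσ'⟩, rfl⟩)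

lemma toH_apply (H : Subgroup (Ω ≃ₐ[K] Ω)) (hcl : IsClosed (H : Set (Ω ≃ₐ[K] Ω)))
    (τ : Ω ≃ₐ[fixedField H] Ω) (x : Ω) : ((toH H hcl τ : H) : Ω ≃ₐ[K] Ω) x = τ x := rfl

/-- **closed pro-`p` subgroups** -/
theorem branching_of_group [Fact p.Prime] (hroot : ∀ x : Ω, ∃ y, y ^ p = x)
    (hζ : ∃ ζ : Ω, IsPrimitiveRoot ζ p) (H : Subgroup (Ω ≃ₐ[K] Ω))
    (hcl : IsClosed (H : Set (Ω ≃ₐ[K] Ω)))
    (hpro : ∀ U : Subgroup H, IsOpen (U : Set H) → ∃ k : ℕ, U.index = p ^ k)
    (N : Subgroup H) (hs : N.IsSubnormal) (hNcl : IsClosed (N : Set H)) (hfg : TFG N)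
    (hne : N ≠ ⊥) (hidx : N.index = 0) :
    ∃ O : ValuationSubring K, Branching O p := by
  have hp : p.Prime := Fact.out
  set M := fixedField H with hM
  have hcont : Continuous (toH H hcl) := (restr_cont M).subtype_mk _
  let e : (Ω ≃ₐ[M] Ω) ≃ₜ H := Continuous.homeoOfEquivCompactToT2 (f := (toH H hcl).toEquiv) hcont
  have hfixH : M.fixingSubgroup = H := InfiniteGalois.fixingSubgroup_fixedField ⟨H, hcl⟩
  -- degrees
  have hdeg : ∀ x : Ω, ∃ k, (minpoly M x).natDegree = p ^ k := by
    intro x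
    have hx : IsIntegral M x := Algebra.IsIntegral.isIntegral x
    let U : Subgroup H := (M⟮x⟯.fixingSubgroup).comap ((toH H hcl).symm : H →* (Ω ≃ₐ[M] Ω))
    have hU : (U : Set H) = Subtype.val ⁻¹' (K⟮x⟯.fixingSubgroup : Set (Ω ≃ₐ[K] Ω)) := by
      ext h
      rw [SetLike.mem_coe, Subgroup.mem_comap, Set.mem_preimage, SetLike.mem_coe, fix_simple']
      rw [fix_simple']
      change ((toH H hcl ((toH H hcl).symm h) : H) : Ω ≃ₐ[K] Ω) x = x ↔ _
      rw [MulEquiv.apply_symm_apply]
    have hfd : FiniteDimensional K K⟮x⟯ := adjoin.finiteDimensional (Algebra.IsIntegral.isIntegral x)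
    obtain ⟨k, hk⟩ := hpro U (by
      rw [hU]
      exact (fixingSubgroup_isOpen K⟮x⟯).preimage continuous_subtype_val)
    refine ⟨k, ?_⟩
    rw [← adjoin.finrank hx, finrank_eq_fixingSubgroup_index, ← hk]
    exact (Subgroup.index_comap_of_surjective _ (toH H hcl).symm.surjective).symm
  have hMax : MaxP p M Ω := ⟨inferInstance, hdeg, hroot⟩
  -- roots of unity
  have hζM : ∃ ζ : M, IsPrimitiveRoot ζ p := by
    obtain ⟨ζ, hζ⟩ := hζ
    obtain ⟨k, hk⟩ := hdeg ζ
    have h1 : (minpoly M ζ).natDegree ≤ p - 1 := by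
      rw [← Nat.totient_prime hp, ← natDegree_cyclotomic p M]
      refine natDegree_le_of_dvd (minpoly.dvd M ζ ?_) (cyclotomic_ne_zero p M)
      rw [aeval_def, eval₂_eq_eval_map, map_cyclotomic]
      exact hζ.isRoot_cyclotomic hp.pos
    have hk0 : k = 0 := by
      by_contra hk0
      have h2 : p ^ 1 ≤ p ^ k := Nat.pow_le_pow_right hp.pos (by omega)
      rw [pow_one, ← hk] at h2
      have := hp.two_le
      omega
    rw [hk0, pow_zero] at hk
    obtain ⟨z, hz⟩ := minpoly.mem_range_of_degree_eq_one M ζ (by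
      rw [degree_eq_natDegree (minpoly.ne_zero (Algebra.IsIntegral.isIntegral ζ)), hk, Nat.cast_one])
    refine ⟨z, ?_⟩
    rw [← hz] at hζ
    exact hζ.of_map_of_injective (algebraMap M Ω).injective
  -- transport of the subgroup
  let N' : Subgroup (Ω ≃ₐ[M] Ω) := N.comap (toH H hcl : (Ω ≃ₐ[M] Ω) →* H)
  have hs' : N'.IsSubnormal := hs.comap _
  have hcl' : IsClosed (N' : Set (Ω ≃ₐ[M] Ω)) := hNcl.preimage hcont
  have hidx' : N'.index = 0 := by
    rw [Subgroup.index_comap_of_surjective _ (toH H hcl).surjective, hidx]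
  have hne' : N' ≠ ⊥ := by
    intro h
    apply hne
    rw [eq_bot_iff]
    intro n hn
    obtain ⟨τ, rfl⟩ := (toH H hcl).surjective n
    have h1 : τ ∈ N' := hn
    rw [h, Subgroup.mem_bot] at h1
    rw [Subgroup.mem_bot, h1, map_one]
  have hfg' : TFG N' := tfg_comap e (toH H hcl) (fun _ => rfl) hfg
  obtain ⟨O, hO⟩ := good_of_subnormal hMax hζM N' hs' hcl' hidx' hne' hfg'
  refine ⟨_, branching_of_gd (K := K) hp hO fun h => ?_⟩
  exact index_of_procyclic hMax hζM h N' hcl' hne' hidx'

end grp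

end Pool.Agent.H403.Z
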