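import Mathlib
import Pool.Agent.H403.Z.Cyc5
import Pool.Agent.H403.Z.Conv
import Pool.Agent.H403.Z.Nor1
import Pool.Agent.H403.Z.Nor3
import Pool.Graph.R_pool_sql_team_seeded_b677cdb8.Results.MP_600e55_nt.QuadraticBoundH26
import Pool.Graph.R_pool_sql_team_seeded_3997aac3.Results.MP_600e55_nt.FewValues

set_option autoImplicit false
set_option linter.unusedSectionVars false

/-! Power law growth: classes with large norm groups and the first step. -/

namespace Pool.Agent.H403.Z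

open Module Pool.Agent.Y920.EP

section dd

variable {p : ℕ}

/-- the dimension of `F*/F*^p` -/
noncomputable def dd (p : ℕ) (F : Type) [Field F] : ℕ := Nat.log p (pwG F p).index

lemma dd_eq [Fact p.Prime] {F : Type} [Field F] (h : (pwG F p).index ≠ 0) :
    dd p F = finrank (ZMod p) (VS F p) := by
  have hp : p.Prime := Fact.out
  rw [dd, (card_VS h).1, Nat.log_pow hp.one_lt]

lemma index_dd [Fact p.Prime] {F : Type} [Field F] (h : (pwG F p).index ≠ 0) :
    (pwG F p).index = p ^ dd p F := by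
  rw [dd_eq h, (card_VS h).1]

/-- the classes of norms -/
lemma relIndex_range [Fact p.Prime] {F L : Type} [Field F] [Field L] [Algebra F L]
    [FiniteDimensional F L] (hf : (pwG F p).index ≠ 0) {θ : L} {c : Fˣ} (hc : c ∉ pwG F p)
    (hθ : θ ^ p = algebraMap F L c) (hdeg : Module.finrank F L = p) :
    (pwG F p).relIndex (nmG p c) = p ^ finrank (ZMod p) (LinearMap.range (vmap p (nu F L))) := by
  have hp : p.Prime := Fact.out
  have := (card_VS hf).2
  have h1 := Subgroup.relIndex_ker (nmG p c) (QuotientGroup.mk' (pwG F p))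
  rw [QuotientGroup.ker_mk'] at h1
  rw [h1]
  have h2 : Nat.card (LinearMap.range (vmap p (nu F L))) =
      p ^ finrank (ZMod p) (LinearMap.range (vmap p (nu F L))) := by
    rw [Module.natCard_eq_pow_finrank (K := ZMod p), Nat.card_zmod]
  rw [← h2]
  refine Nat.card_congr
    { toFun := fun g => ⟨Additive.ofMul g.1, ?_⟩
      invFun := fun v => ⟨Additive.toMul v.1, ?_⟩
      left_inv := fun _ => rfl
      right_inv := fun _ => rfl }
  · obtain ⟨_, x, hx, rfl⟩ := g
    rw [SetLike.mem_coe, ← range_nu' hp hc hθ hdeg] at hx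
    obtain ⟨y, rfl⟩ := hx
    exact ⟨cls p y, vmap_cls _ _⟩
  · obtain ⟨_, v, rfl⟩ := v
    obtain ⟨y, rfl⟩ := cls_surj v
    refine ⟨nu F L y, ?_, rfl⟩
    rw [SetLike.mem_coe, ← range_nu' hp hc hθ hdeg]
    exact ⟨y, rfl⟩

end dd

section two

variable {F : Type} [Field F]

lemma val_mem_two {a c : Fˣ} {x y : F} (h : (c : F) = x ^ 2 - a * y ^ 2) : c ∈ nmG 2 a := by
  by_cases hx : x = 0
  · have hy : y ≠ 0 := by
      rintro rfl
      apply c.ne_zero
      rw [h, hx]
      ring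
    have h1 : c = -a * (Units.mk0 y hy) ^ 2 := by
      ext
      rw [h, hx]
      push_cast
      rw [Units.val_mk0]
      ring
    rw [h1]
    exact mul_mem (neg_mem_nmG two_pos a) (pow_mem_nmG two_pos a _)
  by_cases hy : y = 0
  · have h1 : c = (Units.mk0 x hx) ^ 2 := by
      ext
      rw [h, hy]
      push_cast
      rw [Units.val_mk0]
      ring
    rw [h1]
    exact pow_mem_nmG two_pos a _
  have h1 : a * (Units.mk0 y hy / Units.mk0 x hx) ^ 2 ∈ (⊤ : Subgroup Fˣ) := trivial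
  have h2 : c / (Units.mk0 x hx) ^ 2 ∈ nmG 2 (a * (Units.mk0 y hy / Units.mk0 x hx) ^ 2) := by
    refine one_sub_mem two_pos ?_
    rw [Units.val_div_eq_div_val, h]
    push_cast
    rw [Units.val_mk0, Units.val_mk0]
    field_simp
  have h3 : nmG 2 (a * (Units.mk0 y hy / Units.mk0 x hx) ^ 2) = nmG 2 a := by
    refine nmG_congr ?_
    have h4 : cls 2 ((Units.mk0 y hy / Units.mk0 x hx) ^ 2) = 0 := cls_eq_zero.2 ⟨_, rfl⟩
    rw [cls_mul, h4, add_zero]
  rw [h3] at h2
  have h4 := mul_mem h2 (pow_mem_nmG two_pos a (Units.mk0 x hx))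
  rwa [div_mul_cancel] at h4

/-- `p = 2`: a class with a large norm group -/
theorem exists_big_two (h2 : (2 : F) ≠ 0) (hng : ¬ Good F 2) (hfin : (pwG F 2).index ≠ 0)
    {n : ℕ} (hn : 5 + 2 * n < dd 2 F) :
    ∃ a : Fˣ, a ∉ pwG F 2 ∧ 2 ^ n < (pwG F 2).relIndex (nmG 2 a) := by
  have hprime : Fact (Nat.Prime 2) := ⟨Nat.prime_two⟩
  by_contra hcon
  push Not at hcon
  have hrel0 : ∀ A : Subgroup Fˣ, (pwG F 2).relIndex A ≠ 0 := by
    intro A h
    have h4 := Subgroup.relIndex_dvd_index_of_normal (pwG F 2) A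
    rw [h] at h4
    exact hfin (zero_dvd_iff.1 h4)
  obtain ⟨-, ⟨O, U, hU1, hU2, hU3, hU4, hO1, hO2⟩, -⟩ :=
    Pool.Agent.Results.MP_600e55_nt.QuadraticBoundH26.result F h2 (2 ^ n) Nat.one_le_two_pow
      (fun a ha => ⟨hrel0 _, by
        refine le_trans ?_ (hcon a ha)
        refine Subgroup.relIndex_le_of_le_right ?_ (hrel0 _)
        rintro c ⟨x, y, hc⟩
        exact val_mem_two hc⟩)
  apply hng
  refine ⟨O, ⟨by exact_mod_cast hO1, by exact_mod_cast h2, hO2⟩, fun htop => ?_⟩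
  have h5 : U = ⊤ := by
    rw [eq_top_iff, ← htop]
    exact sup_le hU1 hU2
  have h6 : (pwG F 2).index ≤ 32 * (2 ^ n) ^ 2 := by
    have h7 := hU4
    rw [h5] at h7
    have h8 : (pwG F 2).relIndex ⊤ = (pwG F 2).index := Subgroup.relIndex_top_right _
    rw [← h8]
    exact h7
  rw [index_dd hfin] at h6
  have h7 : 32 * (2 ^ n) ^ 2 = 2 ^ (5 + 2 * n) := by
    rw [pow_add, ← pow_mul, mul_comm n 2]
    norm_num
  rw [h7] at h6
  have h8 := (Nat.pow_le_pow_iff_right (by norm_num : 1 < 2)).1 h6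
  omega

end two

section odd

variable {p : ℕ} {F : Type} [Field F]

lemma neg_odd [Fact p.Prime] (hp2 : p ≠ 2) : (-1 : Fˣ) ∈ pwG F p := by
  have hp : p.Prime := Fact.out
  have hodd : Odd p := hp.odd_of_ne_two hp2
  exact ⟨-1, hodd.neg_one_pow⟩

lemma val_mem_odd [Fact p.Prime] (hp2 : p ≠ 2) {a c : Fˣ} {x y : F}
    (h : (c : F) = x ^ p + a * y ^ p) : c ∈ nmG p a := by
  have hp : p.Prime := Fact.out
  have hodd : Odd p := hp.odd_of_ne_two hp2
  by_cases hx : x = 0
  · have hy : y ≠ 0 := by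
      rintro rfl
      apply c.ne_zero
      rw [h, hx, zero_pow hp.ne_zero]
      ring
    have h1 : c = a * (Units.mk0 y hy) ^ p := by
      ext
      rw [h, hx, zero_pow hp.ne_zero]
      push_cast
      rw [Units.val_mk0]
      ring
    rw [h1]
    exact mul_mem (self_mem_nmG hp.pos (neg_odd hp2) a) (pow_mem_nmG hp.pos a _)
  by_cases hy : y = 0
  · have h1 : c = (Units.mk0 x hx) ^ p := by
      ext
      rw [h, hy, zero_pow hp.ne_zero]
      push_cast
      rw [Units.val_mk0]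
      ring
    rw [h1]
    exact pow_mem_nmG hp.pos a _
  have h2 : c / (Units.mk0 x hx) ^ p ∈ nmG p (a * (-(Units.mk0 y hy) / Units.mk0 x hx) ^ p) := by
    refine one_sub_mem hp.pos ?_
    rw [Units.val_div_eq_div_val, h]
    push_cast
    rw [Units.val_mk0, Units.val_mk0, div_pow, hodd.neg_pow]
    field_simp
    ring
  have h3 : nmG p (a * (-(Units.mk0 y hy) / Units.mk0 x hx) ^ p) = nmG p a := by
    refine nmG_congr ?_
    have h4 : cls p ((-(Units.mk0 y hy) / Units.mk0 x hx) ^ p) = 0 := cls_eq_zero.2 ⟨_, rfl⟩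
    rw [cls_mul, h4, add_zero]
  rw [h3] at h2
  have h4 := mul_mem h2 (pow_mem_nmG hp.pos a (Units.mk0 x hx))
  rwa [div_mul_cancel] at h4

/-- `p` odd: a class with a large norm group -/
theorem exists_big_odd [Fact p.Prime] (hp2 : p ≠ 2) (hζ : ∃ ζ : F, IsPrimitiveRoot ζ p)
    (hng : ¬ Good F p) (hfin : (pwG F p).index ≠ 0) {n : ℕ} (hn : 5 + 4 * n < dd p F) :
    ∃ a : Fˣ, a ∉ pwG F p ∧ p ^ n < (pwG F p).relIndex (nmG p a) := by
  have hp : p.Prime := Fact.out
  have hp3 : 3 ≤ p := by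
    have := hp.two_le
    omega
  by_contra hcon
  push Not at hcon
  have hfinq : Finite (Fˣ ⧸ pwG F p) := Nat.finite_of_card_ne_zero hfin
  have hp0 : (p : F) ≠ 0 := by
    obtain ⟨ζ, hζ⟩ := hζ
    have : NeZero p := ⟨hp.ne_zero⟩
    exact hζ.neZero'.ne
  obtain ⟨⟨O, U, hU1, hU2, hU3, hU4, hO1, hO2⟩, -⟩ :=
    Pool.Agent.Results.MP_600e55_nt.FewValues.result p hp2 F hζ (p ^ n) (n + 1)
      (Nat.one_le_pow _ _ hp.pos) (by
        rw [pow_succ, mul_comm]
        exact Nat.mul_le_mul_left _ (by omega))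
      (fun a ha => ⟨(@Set.finite_univ _ hfinq).subset (Set.subset_univ _), by
        refine le_trans ?_ (hcon a ha)
        have h1 := Subgroup.relIndex_ker (nmG p a) (QuotientGroup.mk' (pwG F p))
        rw [QuotientGroup.ker_mk'] at h1
        rw [h1]
        have h2 : Pool.Agent.Results.MP_600e55_nt.FewValues.valueClasses p a ⊆
            (((nmG p a).map (QuotientGroup.mk' (pwG F p)) : Subgroup (Fˣ ⧸ pwG F p)) :
              Set (Fˣ ⧸ pwG F p)) := by
          rintro g ⟨c, x, y, hc, rfl⟩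
          exact ⟨c, val_mem_odd hp2 hc, rfl⟩
        exact Set.ncard_le_ncard h2 ((@Set.finite_univ _ hfinq).subset (Set.subset_univ _))⟩)
  apply hng
  refine ⟨O, ⟨hO1, hp0, hO2⟩, fun htop => ?_⟩
  have h5 : U = ⊤ := by
    rw [eq_top_iff, ← htop]
    exact sup_le hU1 hU2
  have h6 : (pwG F p).index ≤ 64 * 2 ^ (n + 1) * p * (p ^ n) ^ 3 := by
    have h7 := hU4
    rw [h5] at h7
    have h8 : (pwG F p).relIndex ⊤ = (pwG F p).index := Subgroup.relIndex_top_right _
    rw [← h8]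
    exact h7
  rw [index_dd hfin] at h6
  have h7 : 64 * 2 ^ (n + 1) * p * (p ^ n) ^ 3 < p ^ (6 + 4 * n) := by
    have e1 : 64 * 2 ^ (n + 1) * p * (p ^ n) ^ 3 = 128 * 2 ^ n * (p * (p ^ n) ^ 3) := by ring
    have e2 : p ^ (6 + 4 * n) = (p ^ 5 * p ^ n) * (p * (p ^ n) ^ 3) := by ring
    rw [e1, e2]
    refine Nat.mul_lt_mul_of_pos_right ?_ (by positivity)
    have h9 : 128 < p ^ 5 := lt_of_lt_of_le (by norm_num : 128 < 3 ^ 5) (Nat.pow_le_pow_left hp3 5)
    have h10 : 2 ^ n ≤ p ^ n := Nat.pow_le_pow_left hp.two_le n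
    calc 128 * 2 ^ n ≤ 128 * p ^ n := Nat.mul_le_mul_left _ h10
      _ < p ^ 5 * p ^ n := Nat.mul_lt_mul_of_pos_right h9 (by positivity)
  have h8 := (Nat.pow_lt_pow_iff_right hp.one_lt).1 (lt_of_le_of_lt h6 h7)
  omega

end odd

end Pool.Agent.H403.Z
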