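import Mathlib
import Pool.Agent.H403.Z.Pow1

set_option autoImplicit false
set_option linter.unusedSectionVars false

/-! Power law growth: the steps and the induction. -/

namespace Pool.Agent.H403.Z

open Module Pool.Agent.Y920.EP

section step

variable {p : ℕ}

/-- growth in a quadratic extension, without a condition on `-1` -/
lemma growth_two {F L : Type} [Field F] [Field L] [Algebra F L] [FiniteDimensional F L]
    [IsGalois F L] (hL : Module.finrank F L = 2) (hζ : ∃ ζ : F, IsPrimitiveRoot ζ 2)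
    (hfin : (pwG F 2).index ≠ 0) :
    (pwG L 2).index ≠ 0 ∧
    dd 2 F + finrank (ZMod 2) (LinearMap.range (vmap 2 (nu F L))) ≤ dd 2 L + 1 := by
  have hprime : Fact (Nat.Prime 2) := ⟨Nat.prime_two⟩
  obtain ⟨σ, ω, θ, c, h⟩ := exists_CE Nat.prime_two hL hζ
  have hLfin := fin_step h hfin
  refine ⟨hLfin, ?_⟩
  have := (card_VS hfin).2
  have := (card_VS hLfin).2
  rw [dd_eq hfin, dd_eq hLfin]
  have h1 := LinearMap.finrank_range_add_finrank_ker (vmap 2 (nu F L))
  have h2 := LinearMap.finrank_range_add_finrank_ker (vmap 2 (iu F L))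
  have h3 : LinearMap.range (vmap 2 (iu F L)) ≤ LinearMap.ker (vmap 2 (nu F L)) := by
    rintro _ ⟨v, rfl⟩
    obtain ⟨x, rfl⟩ := cls_surj v
    rw [LinearMap.mem_ker, vmap_cls, vmap_cls, nu_iu h.deg]
    exact cls_eq_zero.2 ⟨x, rfl⟩
  have h4 := Submodule.finrank_mono h3
  have h5 : LinearMap.ker (vmap 2 (iu F L)) ≤ Submodule.span (ZMod 2) {cls 2 c} := by
    intro v hv
    obtain ⟨g, rfl⟩ := cls_surj v
    rw [LinearMap.mem_ker, vmap_cls, cls_eq_zero] at hv
    obtain ⟨y, hy⟩ := hv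
    have hy' : (y : L) ^ 2 = algebraMap F L g := by
      rw [← Units.val_pow_eq_pow_val]
      exact congrArg Units.val hy
    obtain ⟨i, b, rfl⟩ := kummer Nat.prime_two h hy'
    rw [mem_span_cls]
    exact mul_mem (Subgroup.mem_sup_left (pow_mem (Subgroup.mem_zpowers c) _))
      (Subgroup.mem_sup_right ⟨b, rfl⟩)
  have h6 := Submodule.finrank_mono h5
  have h7 : finrank (ZMod 2) (Submodule.span (ZMod 2) {cls 2 c}) ≤ 1 :=
    (finrank_span_le_card ({cls 2 c} : Set (VS F 2))).trans (by simp)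
  omega

/-- growth in a cyclic extension of odd degree `p` -/
lemma growth_odd [Fact p.Prime] (hp2 : p ≠ 2) {F L : Type} [Field F] [Field L] [Algebra F L]
    [FiniteDimensional F L]
    [IsGalois F L] (hL : Module.finrank F L = p) (hζ : ∃ ζ : F, IsPrimitiveRoot ζ p)
    (hfin : (pwG F p).index ≠ 0) :
    (pwG L p).index ≠ 0 ∧
    dd p F + (p - 1) * (finrank (ZMod p) (LinearMap.range (vmap p (nu F L))) - 1) ≤ dd p L := by
  have hp : p.Prime := Fact.out
  obtain ⟨σ, ω, θ, c, h⟩ := exists_CE hp hL hζ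
  have hLfin := fin_step h hfin
  refine ⟨hLfin, ?_⟩
  have := (card_VS hfin).2
  have := (card_VS hLfin).2
  rw [dd_eq hfin, dd_eq hLfin]
  exact (cyc_of_CE h (neg_odd hp2)).growth hp.two_le

/-- the property of a step -/
def Step (p a b c : ℕ) : Prop := ∀ (F : Type) [Field F], (∃ ζ : F, IsPrimitiveRoot ζ p) →
  ¬ Good F p → (pwG F p).index ≠ 0 → c < dd p F → ∃ x : Fˣ, x ∉ pwG F p ∧
    ∀ (L : Type) [Field L] [Algebra F L] [FiniteDimensional F L] [IsGalois F L] (θ : L),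
      θ ^ p = algebraMap F L x → finrank F L = p →
      (pwG L p).index ≠ 0 ∧ b * dd p F + c * a ≤ a * dd p L + c * b

theorem step_two : Step 2 2 3 7 := by
  intro F _ hζ hng hfin hd
  have hprime : Fact (Nat.Prime 2) := ⟨Nat.prime_two⟩
  have h2 : (2 : F) ≠ 0 := by
    obtain ⟨ζ, hζ⟩ := hζ
    have := hζ.neZero'.ne
    exact_mod_cast this
  obtain ⟨x, hx, hbig⟩ := exists_big_two h2 hng hfin (n := (dd 2 F - 6) / 2) (by omega)
  refine ⟨x, hx, fun L _ _ _ _ θ hθ hdeg => ?_⟩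
  obtain ⟨h1, h3⟩ := growth_two hdeg hζ hfin
  refine ⟨h1, ?_⟩
  rw [relIndex_range hfin hx hθ hdeg] at hbig
  have h4 := (Nat.pow_lt_pow_iff_right (by norm_num : 1 < 2)).1 hbig
  omega

theorem step_odd [Fact p.Prime] (hp2 : p ≠ 2) : Step p 4 (p + 3) 9 := by
  intro F _ hζ hng hfin hd
  have hp : p.Prime := Fact.out
  obtain ⟨x, hx, hbig⟩ := exists_big_odd hp2 hζ hng hfin (n := (dd p F - 6) / 4) (by omega)
  refine ⟨x, hx, fun L _ _ _ _ θ hθ hdeg => ?_⟩
  obtain ⟨h1, h3⟩ := growth_odd hp2 hdeg hζ hfin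
  refine ⟨h1, ?_⟩
  rw [relIndex_range hfin hx hθ hdeg] at hbig
  have h4 := (Nat.pow_lt_pow_iff_right hp.one_lt).1 hbig
  set r := finrank (ZMod p) (LinearMap.range (vmap p (nu F L)))
  obtain ⟨q, rfl⟩ : ∃ q, p = q + 1 := ⟨p - 1, by have := hp.pos; omega⟩
  rw [Nat.add_sub_cancel] at h3
  have h5 : dd (q + 1) F ≤ 4 * (r - 1) + 9 := by omega
  nlinarith [Nat.mul_le_mul_left q h5]

end step

end Pool.Agent.H403.Z
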