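import Mathlib
import Pool.Agent.H403.Z.Pow2
import Pool.Agent.H403.Z.Max

set_option autoImplicit false
set_option linter.unusedSectionVars false

/-! Power law growth: the induction. -/

namespace Pool.Agent.H403.Z

open Module Pool.Agent.Y920.EP IntermediateField Polynomial Pool.Agent.H403.W

/-- the field `F(c^(1/p))` in `Ω` -/
theorem exists_layer {p : ℕ} [Fact p.Prime] {F Ω : Type} [Field F] [Field Ω] [Algebra F Ω]
    (halg : Algebra.IsAlgebraic F Ω)
    (hroot : ∀ x : Ω, ∃ y, y ^ p = x) (hζ : ∃ ζ : F, IsPrimitiveRoot ζ p) {c : Fˣ}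
    (hc : c ∉ pwG F p) :
    ∃ (K : IntermediateField F Ω) (θ : K), FiniteDimensional F K ∧ IsGalois F K ∧
      Module.finrank F K = p ∧ θ ^ p = algebraMap F K c := by
  have hp : p.Prime := Fact.out
  have Hc := Pool.Agent.Y349.EP.irr hp c hc
  obtain ⟨ζ, hζ⟩ := hζ
  have hne : (primitiveRoots p F).Nonempty := ⟨ζ, (mem_primitiveRoots hp.pos).mpr hζ⟩
  obtain ⟨θ, hθ⟩ := hroot (algebraMap F Ω c)
  have hint : IsIntegral F θ := Algebra.IsIntegral.isIntegral θ
  have hmin : minpoly F θ = X ^ p - C (c : F) := by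
    refine (minpoly.eq_of_irreducible_of_monic Hc ?_ (monic_X_pow_sub_C _ hp.ne_zero)).symm
    rw [map_sub, map_pow, aeval_X, aeval_C, hθ, sub_self]
  have hdeg : Module.finrank F F⟮θ⟯ = p := by
    rw [adjoin.finrank hint, hmin, natDegree_X_pow_sub_C]
  have hfd : FiniteDimensional F F⟮θ⟯ := adjoin.finiteDimensional hint
  have hgen : (AdjoinSimple.gen F θ) ^ p = algebraMap F F⟮θ⟯ c := by
    apply (algebraMap F⟮θ⟯ Ω).injective
    rw [map_pow, AdjoinSimple.algebraMap_gen, hθ]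
    rfl
  have hgal : IsGalois F F⟮θ⟯ := by
    have h2 : ∃ α : F⟮θ⟯, α ^ (Module.finrank F F⟮θ⟯) ∈ Set.range (algebraMap F F⟮θ⟯) ∧
        F⟮α⟯ = ⊤ := by
      refine ⟨AdjoinSimple.gen F θ, ?_, ?_⟩
      · rw [hdeg]
        exact ⟨c, hgen.symm⟩
      · have hint' : IsIntegral F (AdjoinSimple.gen F θ) := Algebra.IsIntegral.isIntegral _
        apply IntermediateField.eq_of_le_of_finrank_eq le_top
        rw [adjoin.finrank hint', minpoly_gen, hmin, natDegree_X_pow_sub_C,
          IntermediateField.finrank_top', hdeg]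
    have h3 := (isCyclic_tfae F F⟮θ⟯ (by rw [hdeg]; exact hne)).out 2 0
    exact (h3.1 h2).1
  exact ⟨F⟮θ⟯, AdjoinSimple.gen F θ, hfd, hgal, hdeg, hgen⟩

lemma dd_iso {p : ℕ} {K K' : Type} [Field K] [Field K'] (e : K ≃+* K') : dd p K = dd p K' := by
  rw [dd, dd, index_iso e]

/-- **the power law** -/
theorem pow_growth {p a b c : ℕ} [Fact p.Prime] (ha : 0 < a) (hab : a ≤ b) (hs : Step p a b c) :
    ∀ (m : ℕ) (F Ω : Type) [Field F] [Field Ω] [Algebra F Ω], PX p F Ω →
      (∀ x : Ω, ∃ y, y ^ p = x) → (∃ ζ : F, IsPrimitiveRoot ζ p) → ¬ Good F p →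
      (pwG F p).index ≠ 0 → c < dd p F →
      ∃ K : IntermediateField F Ω, FiniteDimensional F K ∧ finrank F K = p ^ m ∧
        b ^ m * dd p F + c * a ^ m ≤ a ^ m * dd p K + c * b ^ m := by
  have hp : p.Prime := Fact.out
  intro m
  induction m with
  | zero =>
    intro F Ω _ _ _ hX hroot hζ hng hfin hd
    refine ⟨⊥, inferInstance, by rw [IntermediateField.finrank_bot, pow_zero], ?_⟩
    rw [dd_iso (botEquiv F Ω).toRingEquiv]
    simp
  | succ m ih =>
    intro F Ω _ _ _ hX hroot hζ hng hfin hd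
    have := hX.gal
    obtain ⟨x, hx, hL⟩ := hs F hζ hng hfin hd
    obtain ⟨K₁, θ, hfd, hgal, hdeg, hθ⟩ := exists_layer (Ω := Ω) inferInstance hroot hζ hx
    obtain ⟨hfin1, h1⟩ := hL K₁ θ hθ hdeg
    have hζ1 : ∃ ζ : K₁, IsPrimitiveRoot ζ p := by
      obtain ⟨ζ, hζ⟩ := hζ
      exact ⟨_, hζ.map_of_injective (algebraMap F K₁).injective⟩
    have hd1 : c < dd p K₁ := by
      by_contra hcon
      push Not at hcon
      have h2 : a * dd p K₁ ≤ a * c := Nat.mul_le_mul_left _ hcon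
      have h3 : b * (c + 1) ≤ b * dd p F := Nat.mul_le_mul_left _ hd
      nlinarith
    obtain ⟨K₂, hfd2, hdeg2, h2⟩ := ih K₁ Ω (hX.up hp K₁) hroot hζ1
      (fun h => hng (good_step hdeg hζ h)) hfin1 hd1
    refine ⟨K₂.restrictScalars F, ?_, ?_, ?_⟩
    · have : FiniteDimensional F K₂ := FiniteDimensional.trans F K₁ K₂
      exact this
    · have h3 : Module.finrank F K₁ * Module.finrank K₁ K₂ =
          Module.finrank F (K₂.restrictScalars F) := Module.finrank_mul_finrank F K₁ K₂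
      rw [← h3, hdeg, hdeg2, pow_succ, mul_comm]
    · let e : (K₂.restrictScalars F) ≃+* K₂ :=
        { toFun := fun x => ⟨x.1, x.2⟩
          invFun := fun x => ⟨x.1, x.2⟩
          left_inv := fun _ => rfl
          right_inv := fun _ => rfl
          map_mul' := fun _ _ => rfl
          map_add' := fun _ _ => rfl }
      rw [dd_iso e]
      have h4 := Nat.mul_le_mul_left (b ^ m) h1
      have h5 := Nat.mul_le_mul_left a h2
      rw [pow_succ, pow_succ]
      nlinarith

end Pool.Agent.H403.Z
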