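import Mathlib
import Pool.Graph.R_seed8.Y419.EP.Inert
import Pool.Agent.H403.Z.Sub2

set_option autoImplicit false
set_option linter.unusedSectionVars false
set_option linter.unusedVariables false
set_option linter.deprecated false

/-! Finitely generated subnormal subgroups and the inertia group. -/

namespace Pool.Agent.H403.Z

open Module Pool.Agent.Y920.EP Polynomial IntermediateField Pool.Agent.H403.W

section cont

theorem agree' {K A B : Type} [Field K] [Field A] [Algebra K A] [Field B] [Algebra K B]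
    (σ τ : A →ₐ[K] B) (θ : A) (h : σ θ = τ θ) (x : A) (hx : x ∈ K⟮θ⟯) : σ x = τ x := by
  induction hx using IntermediateField.adjoin_induction with
  | mem x hx => rw [Set.mem_singleton_iff.1 hx, h]
  | algebraMap x => rw [σ.commutes, τ.commutes]
  | add x y _ _ hx hy => rw [map_add, map_add, hx, hy]
  | inv x _ hx => rw [map_inv₀, map_inv₀, hx]
  | mul x y _ _ hx hy => rw [map_mul, map_mul, hx, hy]

theorem exists_gen' {K A : Type} [Field K] [Field A] [Algebra K A] [Algebra.IsSeparable K A]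
    (E : IntermediateField K A) [FiniteDimensional K E] : ∃ θ : A, E = K⟮θ⟯ := by
  haveI : Algebra.IsSeparable K E := inferInstance
  obtain ⟨α, hα⟩ := Field.exists_primitive_element K E
  refine ⟨α, ?_⟩
  rw [← IntermediateField.lift_adjoin_simple, hα, IntermediateField.lift_top]

variable {p : ℕ} {F K : Type} [Field F] [Field K] [Algebra F K]

theorem resHom_continuous [Fact p.Prime] (h : PX p F K) {O : ValuationSubring K} (hinv : Inv F O)
    (hp0 : (p : K) ≠ 0) (hp : (p : K)⁻¹ ∈ O) : Continuous (resHom hinv) := by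
  have hg1 := h.gal
  have hg2 := (res_PX h hinv hp0 hp).gal
  refine continuous_of_continuousAt_one (resHom hinv) ?_
  rw [ContinuousAt, map_one]
  intro U hU
  rw [krullTopology_mem_nhds_one_iff] at hU
  obtain ⟨E, hfd, hE⟩ := hU
  obtain ⟨z, hz⟩ := exists_gen' E
  obtain ⟨x, rfl⟩ := rs_surj _ z
  rw [Filter.mem_map, krullTopology_mem_nhds_one_iff]
  refine ⟨F⟮(x : K)⟯, adjoin.finiteDimensional (Algebra.IsIntegral.isIntegral _), ?_⟩
  intro σ hσ
  apply hE
  rw [SetLike.mem_coe, IntermediateField.mem_fixingSubgroup_iff]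
  intro w hw
  rw [hz] at hw
  refine agree' (resHom hinv σ : RF O ≃ₐ[RF (dn F O)] RF O).toAlgHom (AlgHom.id _ _) (rs O x) ?_ w hw
  change resHom hinv σ (rs O x) = rs O x
  rw [resHom_rs]
  congr 1
  apply Subtype.ext
  exact (IntermediateField.mem_fixingSubgroup_iff _ _).1 hσ x (mem_adjoin_simple_self F _)

theorem resHom_surj [Fact p.Prime] (h : PX p F K) {O : ValuationSubring K} (hinv : Inv F O)
    (hp0 : (p : K) ≠ 0) (hp : (p : K)⁻¹ ∈ O) : Function.Surjective (resHom hinv) := by
  have hg1 := h.gal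
  have hg2 := (res_PX h hinv hp0 hp).gal
  have hc := resHom_continuous h hinv hp0 hp
  have hcl : IsClosed ((resHom hinv).range : Set (RF O ≃ₐ[RF (dn F O)] RF O)) := by
    rw [MonoidHom.coe_range]
    exact (isCompact_range hc).isClosed
  have h1 : (fixedField (resHom hinv).range).fixingSubgroup = (resHom hinv).range :=
    InfiniteGalois.fixingSubgroup_fixedField ⟨(resHom hinv).range, hcl⟩
  have h2 : fixedField (resHom hinv).range = ⊥ := by
    rw [eq_bot_iff]
    intro z hz
    rw [mem_fixedField_iff] at hz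
    exact IntermediateField.mem_bot.2 (fixed_res h hinv hp0 hp z hz)
  rw [h2, fixingSubgroup_bot] at h1
  exact MonoidHom.range_eq_top.1 h1.symm

/-- the residue field of the maximal `p`-extension -/
theorem res_maxP [Fact p.Prime] (hM : MaxP p F K) {O : ValuationSubring K} (hinv : Inv F O)
    (hp0 : (p : K) ≠ 0) (hp : (p : K)⁻¹ ∈ O) : MaxP p (RF (dn F O)) (RF O) := by
  have hpp : p.Prime := Fact.out
  have hX : PX p F K := ⟨hM.gal, fun E hfd hgal => (by
    have := hM.gal
    exact (PS_of_maxP hM E).2.2)⟩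
  refine ⟨(res_PX hX hinv hp0 hp).gal, res_deg hX hinv hp0 hp, fun z => ?_⟩
  obtain ⟨x, rfl⟩ := rs_surj _ z
  obtain ⟨y, hy⟩ := hM.root (x : K)
  have hyO : y ∈ O := by
    have h1 : O.valuation y ^ p ≤ 1 := by
      rw [← map_pow, hy]
      exact (O.valuation_le_one_iff _).2 x.2
    rw [← ValuationSubring.valuation_le_one_iff]
    by_contra hc
    push Not at hc
    exact absurd h1 (not_le.2 (one_lt_pow₀ hc hpp.ne_zero))
  refine ⟨rs O ⟨y, hyO⟩, ?_⟩
  rw [← map_pow]
  congr 1
  exact Subtype.ext hy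

lemma tfg_map {G G' : Type} [Group G] [TopologicalSpace G] [IsTopologicalGroup G]
    [Group G'] [TopologicalSpace G'] [IsTopologicalGroup G'] {f : G →* G'} (hf : Continuous f)
    {H : Subgroup G} (hH : TFG H) (hcl : IsClosed ((H.map f : Subgroup G') : Set G')) :
    TFG (H.map f) := by
  obtain ⟨S, hS, hSH⟩ := hH
  refine ⟨f '' S, hS.image f, le_antisymm ?_ ?_⟩
  · refine Subgroup.topologicalClosure_minimal _ ?_ hcl
    rw [Subgroup.closure_le]
    rintro _ ⟨s, hs, rfl⟩
    refine ⟨s, ?_, rfl⟩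
    rw [← hSH]
    exact Subgroup.le_topologicalClosure _ (Subgroup.subset_closure hs)
  · rintro _ ⟨h, hh, rfl⟩
    rw [← hSH] at hh
    have h1 : f h ∈ closure (f '' (Subgroup.closure S : Set G)) :=
      image_closure_subset_closure_image hf ⟨h, hh, rfl⟩
    refine closure_mono ?_ h1
    rintro _ ⟨g, hg, rfl⟩
    rw [SetLike.mem_coe, ← MonoidHom.map_closure]
    exact ⟨g, hg, rfl⟩

end cont

section main

variable {p : ℕ} {F Ω : Type} [Field F] [Field Ω] [Algebra F Ω]

/-- **finitely generated subnormal subgroups and the inertia group** -/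
theorem main_group [Fact p.Prime] (hM : MaxP p F Ω) (hζ : ∃ ζ : F, IsPrimitiveRoot ζ p)
    (H : Subgroup (Ω ≃ₐ[F] Ω)) (hs : H.IsSubnormal) (hcl : IsClosed (H : Set (Ω ≃ₐ[F] Ω)))
    (hidx : H.index = 0) (hne : H ≠ ⊥) (hfg : TFG H) :
    ∃ (V : ValuationSubring Ω) (hinv : Inv F V), Pw p V ∧ Gd p (dn F V) ∧
      ¬ Good (RF (dn F V)) p ∧ (resHom hinv).ker ≠ ⊥ ∧
      (∀ σ ∈ (resHom hinv).ker, ∀ τ ∈ (resHom hinv).ker, σ * τ = τ * σ) ∧
      (H ≤ (resHom hinv).ker ∨ (H ⊔ (resHom hinv).ker).index ≠ 0) := by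
  have hp : p.Prime := Fact.out
  have := hM.gal
  have hX : PX p F Ω := ⟨hM.gal, fun E hfd hgal => (PS_of_maxP hM E).2.2⟩
  obtain ⟨O₀, hO₀⟩ := good_of_subnormal hM hζ H hs hcl hidx hne hfg
  obtain ⟨O, hO, -, hmin⟩ := exists_min hO₀
  have hng := not_good_res hp hO.1 hmin
  obtain ⟨V, rfl⟩ := Pool.Agent.Y620.ET.t_EXTV F Ω O
  have hinv : Inv F V := inv_of_comap hX hp hζ hO.1 rfl
  have hVpw : Pw p V := by
    refine ⟨?_, ?_, ?_⟩
    · have h1 : (p : F)⁻¹ ∈ V.comap (algebraMap F Ω) := hO.1.1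
      rwa [ValuationSubring.mem_comap, map_inv₀, map_natCast] at h1
    · intro h0
      apply hO.1.2.1
      apply (algebraMap F Ω).injective
      rw [map_natCast, h0, map_zero]
    · intro x _ _
      exact hM.root (1 + x)
  have hcont := resHom_continuous hX hinv hVpw.2.1 hVpw.1
  have hsurj := resHom_surj hX hinv hVpw.2.1 hVpw.1
  have hM' := res_maxP hM hinv hVpw.2.1 hVpw.1
  have hgal' := hM'.gal
  refine ⟨V, hinv, hVpw, hO, hng, ?_, ?_, ?_⟩
  · obtain ⟨c, hc⟩ : ∃ c : Fˣ, c ∉ (dn F V).unitGroup ⊔ pwG F p := by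
      by_contra hc
      push Not at hc
      exact hO.2 (eq_top_iff.2 fun c _ => hc c)
    obtain ⟨y, hy⟩ := hM.root (algebraMap F Ω c)
    obtain ⟨σ, hσ1, hσ⟩ := Pool.Agent.Y419.EP.t_INERT' p hp F Ω hζ V hinv (c : F) y c.ne_zero hy (by
      intro f hf h3 h4
      apply hc
      have h5 : Units.mk0 f hf ^ p ∈ pwG F p := ⟨_, rfl⟩
      have h6 : c * Units.mk0 f hf ^ p ∈ (dn F V).unitGroup := by
        have h7 : (dn F V).valuation (c * f ^ p) ≤ 1 := ((dn F V).valuation_le_one_iff _).2 h3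
        have h8 : (dn F V).valuation (c * f ^ p)⁻¹ ≤ 1 := by
          refine ((dn F V).valuation_le_one_iff _).2 ?_
          rw [ValuationSubring.mem_comap]
          exact h4
        rw [map_inv₀] at h8
        have h9 : (dn F V).valuation (c * f ^ p) ≠ 0 :=
          (Valuation.ne_zero_iff _).2 (mul_ne_zero c.ne_zero (pow_ne_zero _ hf))
        exact le_antisymm h7 ((inv_le_one₀ (zero_lt_iff.2 h9)).1 h8)
      have h10 := mul_mem (show c * Units.mk0 f hf ^ p ∈ (dn F V).unitGroup ⊔ pwG F p from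
        Subgroup.mem_sup_left h6)
        (inv_mem (show Units.mk0 f hf ^ p ∈ (dn F V).unitGroup ⊔ pwG F p from
          Subgroup.mem_sup_right h5))
      rwa [mul_inv_cancel_right] at h10)
    intro hbot
    apply hσ1
    have h1 : σ ∈ (resHom hinv).ker := (resHom_eq_one hinv).2 hσ
    rw [hbot] at h1
    exact h1
  · intro σ hσ τ hτ
    exact comm_of_inertia hX hζ hVpw hinv ((resHom_eq_one hinv).1 hσ) ((resHom_eq_one hinv).1 hτ)
  · have hcl' : IsClosed ((H.map (resHom hinv) : Subgroup _) : Set (RF V ≃ₐ[RF (dn F V)] RF V)) := by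
      rw [Subgroup.coe_map]
      exact (hcl.isCompact.image hcont).isClosed
    have hfg' := tfg_map hcont hfg hcl'
    by_cases hbot : H.map (resHom hinv) = ⊥
    · left
      exact (Subgroup.map_eq_bot_iff _).1 hbot
    · right
      intro h0
      apply hng
      refine good_of_subnormal hM' (prim_res hp hζ hO.1) _ (hs.map hsurj) hcl' ?_ hbot hfg'
      rw [← Subgroup.comap_map_eq, Subgroup.index_comap_of_surjective _ hsurj] at h0
      exact h0

end main

end Pool.Agent.H403.Z
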