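import Mathlib
import Pool.Graph.R_seed8.Y920.ETC.FieldR
import Pool.Graph.R_seed8.Y620.ET.Res
import Pool.Graph.R_seed8.R649.ET.FieldSixteen
import Pool.Agent.H403.Z.Nor5

set_option autoImplicit false
set_option linter.unusedSectionVars false

/-! Quaternionic structures of fields with a compatible valuation ring. -/

namespace Pool.Agent.H403.Z

open scoped Quaternion
open Pool.Agent.H315R3.ETC Pool.Agent.TH188.ET Pool.Agent.Y920.ETC
open Pool.Agent.Y920.EP (pwG Pw)

/-- the structure of `F` is an iterated group extension of that of the residue field -/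
theorem struct_of_good {F : Type} [Field F] (h2 : (2 : F) ≠ 0) (hfin : (sqG F).index ≠ 0)
    (h : Good F 2) :
    ∃ O : ValuationSubring F, (∀ x : F, x ∈ O → x⁻¹ ∉ O → IsSquare (1 + x)) ∧
      (2 : IsLocalRing.ResidueField O) ≠ 0 ∧
      ∃ (T : QData) (k : ℕ), 1 ≤ k ∧ 2 ^ k * (sqG (IsLocalRing.ResidueField O)).index =
        (sqG F).index ∧ IsStructureOf (IsLocalRing.ResidueField O) T ∧
        IsStructureOf F (ext^[k] T) := by
  obtain ⟨O, hO, hne⟩ := h
  have hSq : Sqr O := by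
    refine ⟨by exact_mod_cast hO.1, h2, fun x hx hx' => ?_⟩
    obtain ⟨y, hy⟩ := hO.2.2 x hx hx'
    exact ⟨y, by rw [← hy, pow_two]⟩
  obtain ⟨S, hS, hSf, hSq'⟩ := exists_structure h2 (finSq_of_index hfin)
  have hS' := hS
  obtain ⟨φ, hs, hk, hn, h0, hq⟩ := hS
  obtain ⟨h2k, hstr, hbi⟩ := Pool.Agent.Y620.ET.t_RES F O hSq S φ hs hk hn h0 hq
  have hneg : S.neg ∈ O.unitGroup.map φ := by
    by_contra hc'
    exact (hbi _ hc').2.1 rfl
  have hstr' := hstr hneg
  have hfK : Finite (restrN S (O.unitGroup.map φ) hneg).G :=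
    inferInstanceAs (Finite (O.unitGroup.map φ))
  obtain ⟨k, hk1, hk2⟩ := chain _ S hSq' hSf le_rfl (O.unitGroup.map φ) hneg hbi
  have hcard : Nat.card S.G = (sqG F).index := card_eq hs hk
  obtain ⟨ψ, hs', hk', hn', h0', hq'⟩ := hstr'
  have hcκ : Nat.card (O.unitGroup.map φ) = (sqG (IsLocalRing.ResidueField O)).index :=
    card_eq hs' hk'
  refine ⟨O, hSq.2.2, h2k, restrN S (O.unitGroup.map φ) hneg, k, ?_, ?_, hstr hneg, ?_⟩
  · by_contra hk0
    have hk0' : k = 0 := by omega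
    rw [hk0', pow_zero, one_mul] at hk1
    apply hne
    have htop : O.unitGroup.map φ = ⊤ := by
      have : Finite S.G := hSf
      exact Subgroup.eq_top_of_card_eq _ hk1
    rw [eq_top_iff]
    intro x _
    have hx : φ x ∈ O.unitGroup.map φ := by rw [htop]; trivial
    obtain ⟨u, hu, hux⟩ := hx
    have h1 : φ (x / u) = 1 := by rw [map_div, hux, div_self']
    obtain ⟨b, hb⟩ := (hk _).1 h1
    have h3 : x = u * b ^ 2 := by rw [← hb, mul_div_cancel]
    rw [h3]
    exact mul_mem (Subgroup.mem_sup_left hu) (Subgroup.mem_sup_right ⟨b, rfl⟩)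
  · rw [← hcκ, hk1, hcard]
  · refine structure_iso hS' (iso_symm hk2) ?_
    have h1q : (restrN S (O.unitGroup.map φ) hneg).q 1 1 =
        (restrN S (O.unitGroup.map φ) hneg).zero := h0
    have : ∀ (k : ℕ) (T : QData), T.q 1 1 = T.zero → (ext^[k] T).q 1 1 = (ext^[k] T).zero := by
      intro k T hT
      induction k with
      | zero => exact hT
      | succ k ih =>
        rw [Function.iterate_succ_apply']
        show (((ext^[k] T).q 1 1, pw (pw (ext^[k] T).neg 1) 1 * pw 1 1 * pw 1 1) :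
          (ext^[k] T).Q × (ext^[k] T).G) = ((ext^[k] T).zero, 1)
        rw [ih]
        simp [pw]
    exact this k _ h1q

/-- at most four square classes -/
theorem elem_of_four {F : Type} [Field F] (h2 : (2 : F) ≠ 0) (hfin : (sqG F).index ≠ 0)
    (h4 : (sqG F).index ≤ 4) : ∃ S : QData, Elem S ∧ IsStructureOf F S := by
  have hF : FinSq F := finSq_of_index hfin
  have hF' : Finite (Fˣ ⧸ sqG F) := hF
  obtain ⟨e, he⟩ : ∃ e : Fin 4 → (Fˣ ⧸ sqG F), Function.Surjective e := by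
    have h1 : Nat.card (Fˣ ⧸ sqG F) ≤ 4 := h4
    let f := Finite.equivFin (Fˣ ⧸ sqG F)
    have hpos : 0 < Nat.card (Fˣ ⧸ sqG F) := Nat.card_pos
    refine ⟨fun i => if hi : i.1 < Nat.card (Fˣ ⧸ sqG F) then f.symm ⟨i.1, hi⟩ else
      f.symm ⟨0, hpos⟩, fun x => ⟨⟨(f x).1, (f x).2.trans_le h1⟩, ?_⟩⟩
    simp
  refine Pool.Agent.R649.ETS.field_sixteen h2 hF
    ⟨fun i => ((e (finProdFinEquiv.symm (Fin.cast (by norm_num) i) : Fin 4 × Fin 4).1).out,
      (e (finProdFinEquiv.symm (Fin.cast (by norm_num) i) : Fin 4 × Fin 4).2).out), fun a b => ?_⟩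
  obtain ⟨i, hi⟩ := he (QuotientGroup.mk a)
  obtain ⟨j, hj⟩ := he (QuotientGroup.mk b)
  refine ⟨Fin.cast (by norm_num) (finProdFinEquiv (i, j)), ?_⟩
  have hc : (finProdFinEquiv.symm (Fin.cast (by norm_num) (Fin.cast (by norm_num)
      (finProdFinEquiv (i, j)) : Fin 16)) : Fin 4 × Fin 4) = (i, j) := by
    simp
  beta_reduce
  rw [hc, hi, hj]
  have key : ∀ c : Fˣ, ∃ d : Fˣ, ((QuotientGroup.mk c : Fˣ ⧸ sqG F)).out = c * d ^ 2 := by
    intro c
    have h1 : (QuotientGroup.mk c : Fˣ ⧸ sqG F) =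
        QuotientGroup.mk ((QuotientGroup.mk c : Fˣ ⧸ sqG F)).out := (Quotient.out_eq' _).symm
    rw [QuotientGroup.eq, mem_sqG] at h1
    obtain ⟨d, hd⟩ := h1
    exact ⟨d, by rw [← hd, mul_inv_cancel_left]⟩
  obtain ⟨c, hc1⟩ := key a
  obtain ⟨d, hd1⟩ := key b
  rw [hc1, hd1]
  exact (qiso_left h2 a b c).trans (qiso_right h2 _ b d)

end Pool.Agent.H403.Z
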