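import Mathlib
import Pool.Agent.H403.Z.Res6

set_option autoImplicit false
set_option linter.unusedSectionVars false
set_option linter.unusedVariables false
set_option linter.deprecated false

/-! The residue field of a field with an infinite Galois extension with few classes. -/

namespace Pool.Agent.H403.Z

open Module Pool.Agent.Y920.EP Polynomial IntermediateField Pool.Agent.H403.W

section cyc

/-- the subgroup of the elements which fix all roots of unity of `p`-power order -/
def cycK (p : ℕ) (F K : Type) [Field F] [Field K] [Algebra F K] : Subgroup (K ≃ₐ[F] K) where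
  carrier := {σ | ∀ (n : ℕ) (x : K), x ^ p ^ n = 1 → σ x = x}
  mul_mem' := by
    intro σ τ hσ hτ n x hx
    rw [AlgEquiv.mul_apply, hτ n x hx, hσ n x hx]
  one_mem' := fun _ _ _ => rfl
  inv_mem' := by
    intro σ hσ n x hx
    have h := hσ n x hx
    conv_lhs => rw [← h]
    exact σ.symm_apply_apply x

lemma inertia_le_cyc {p : ℕ} [Fact p.Prime] {F K : Type} [Field F] [Field K] [Algebra F K]
    {V : ValuationSubring K} (hV : Pw p V)
    {σ : K ≃ₐ[F] K} (hσ : ∀ x : K, x ∈ V → V.valuation (σ x - x) < 1) :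
    σ ∈ cycK p F K := by
  have hp : p.Prime := Fact.out
  have key : ∀ (n : ℕ) (η : K), η ^ p ^ n = 1 → V.valuation (η - 1) < 1 → η = 1 := by
    intro n
    induction n with
    | zero => intro η h _; simpa using h
    | succ n ih =>
      intro η h1 h2
      have h3 : ∀ k : ℕ, V.valuation (η ^ k - 1) < 1 := by
        intro k
        induction k with
        | zero => simp
        | succ k ih => rw [pow_succ]; exact near_mul ih h2
      have h4 : η ^ p = 1 := ih _ (by rw [← pow_mul, ← pow_succ']; exact h1) (h3 p)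
      exact root_eq_one hp hV h4 h2
  intro n x hx
  have hv : V.valuation x = 1 := by
    have h1 : V.valuation x ^ p ^ n = 1 := by rw [← map_pow, hx, map_one]
    exact eq_one_of_pow (pow_ne_zero n hp.ne_zero) h1
  have hx0 : x ≠ 0 := by
    rintro rfl
    rw [map_zero] at hv
    exact zero_ne_one hv
  have h1 : σ x / x = 1 := by
    refine key n _ ?_ ?_
    · rw [div_pow, ← map_pow, hx, map_one, div_one]
    · have h2 : σ x / x - 1 = (σ x - x) / x := by field_simp
      rw [h2, map_div₀, hv, div_one]
      exact hσ x ((V.valuation_le_one_iff _).1 hv.le)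
  rwa [div_eq_one_iff_eq hx0] at h1

end cyc

section small

variable {p : ℕ} {F Ω : Type} [Field F] [Field Ω] [Algebra F Ω]

/-- the residue field of a minimal compatible ring -/
theorem res_cases [Fact p.Prime] (hM : MaxP p F Ω) (hζ : ∃ ζ : F, IsPrimitiveRoot ζ p)
    (K : IntermediateField F Ω) (hK : IsGalois F K) (hinf : ¬ FiniteDimensional F K)
    (hfin : (pwG K p).index ≠ 0) (hne : (pwG K p).index ≠ 1) :
    ∃ O : ValuationSubring F, Gd p O ∧ ¬ Good (RF O) p ∧
      (O.unitGroup ≤ (pwG K p).comap (iu F K) ∨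
        ((cycK p F K).index ≠ 0 ∧ ∃ (L : Type) (_ : Field L) (_ : Algebra (RF O) L),
          FiniteDimensional (RF O) L ∧ PX p (RF O) L ∧ (pwG L p).index ≠ 0 ∧
            (pwG L p).index ≤ (pwG K p).index)) := by
  have hp : p.Prime := Fact.out
  have := hM.gal
  have hXΩ : PX p F Ω := ⟨hM.gal, fun E hfd hgal => (PS_of_maxP hM E).2.2⟩
  have hXK : PX p F K := PX_of_max hM K hK
  have hXKΩ : PX p K Ω := hXΩ.upInf K
  have hζK : ∃ ζ : K, IsPrimitiveRoot ζ p := by
    obtain ⟨ζ, hζ⟩ := hζ
    exact ⟨_, hζ.map_of_injective (algebraMap F K).injective⟩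
  obtain ⟨O₀, hO₀⟩ := good_of_infinite hM hζ K hK hinf hfin hne
  obtain ⟨O, hO, -, hmin⟩ := exists_min hO₀
  have hng := not_good_res hp hO.1 hmin
  obtain ⟨U, rfl⟩ := Pool.Agent.Y620.ET.t_EXTV F K O
  have hinvK : Inv F U := inv_of_comap hXK hp hζ hO.1 rfl
  obtain ⟨V, rfl⟩ := Pool.Agent.Y620.ET.t_EXTV K Ω U
  have hdn : V.comap (algebraMap F Ω) = (V.comap (algebraMap K Ω)).comap (algebraMap F K) := by
    ext x
    rw [ValuationSubring.mem_comap, ValuationSubring.mem_comap, ValuationSubring.mem_comap]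
    rfl
  have hinvΩ : Inv F V := inv_of_comap hXΩ hp hζ hO.1 hdn
  have hinvKΩ : Inv K V := fun σ x => hinvΩ (σ.restrictScalars F) x
  have hVpw : Pw p V := by
    refine ⟨?_, ?_, ?_⟩
    · have h1 : (p : F)⁻¹ ∈ V.comap (algebraMap F Ω) := by rw [hdn]; exact hO.1.1
      rwa [ValuationSubring.mem_comap, map_inv₀, map_natCast] at h1
    · intro h0
      apply hO.1.2.1
      apply (algebraMap F Ω).injective
      rw [map_natCast, h0, map_zero]
    · intro x _ _
      exact hM.root (1 + x)
  have hVK : Pw p (dn K V) := desc_pw hp hζK hinvKΩ hVpw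
  refine ⟨_, hO, hng, ?_⟩
  by_cases h1 : (pwG (RF (dn K V)) p).index = 1
  · left
    have h2 := units_of_index_one hp hVK h1
    intro x hx
    rw [Subgroup.mem_comap]
    apply h2
    have hx1 : (x : F) ∈ dn F (dn K V) := ((dn F (dn K V)).valuation_le_one_iff _).1 (le_of_eq hx)
    have hx2 : (x : F)⁻¹ ∈ dn F (dn K V) := by
      rw [← ValuationSubring.valuation_le_one_iff, map_inv₀,
        show (dn F (dn K V)).valuation (x : F) = 1 from hx, inv_one]
    rw [ValuationSubring.mem_comap] at hx1 hx2
    rw [map_inv₀, ← ValuationSubring.valuation_le_one_iff, map_inv₀] at hx2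
    rw [← ValuationSubring.valuation_le_one_iff] at hx1
    have h3 : (dn K V).valuation (algebraMap F K x) ≠ 0 :=
      (Valuation.ne_zero_iff _).2 ((_root_.map_ne_zero _).2 x.ne_zero)
    exact le_antisymm hx1 ((inv_le_one₀ (zero_lt_iff.2 h3)).1 hx2)
  · right
    have hfd : FiniteDimensional (RF (dn F (dn K V))) (RF (dn K V)) := by
      by_contra hfd
      exact hng (good_of_PX (res_PX hXK hinvK hVK.2.1 hVK.1)
        (prim_res hp hζ (desc_pw hp hζ hinvK hVK)) hfd (index_res_ne hp hVK hfin) h1)
    refine ⟨?_, RF (dn K V), inferInstance, inferInstance, hfd,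
      res_PX hXK hinvK hVK.2.1 hVK.1, index_res_ne hp hVK hfin, ?_⟩
    · have h2 : (resHom hinvK).ker ≤ cycK p F K := by
        intro σ hσ
        exact inertia_le_cyc hVK ((resHom_eq_one hinvK).1 hσ)
      have h3 : (resHom hinvK).ker.index ≠ 0 := by
        rw [Subgroup.index_ker]
        have : Finite (RF (dn K V) ≃ₐ[RF (dn F (dn K V))] RF (dn K V)) := Finite.of_fintype _
        exact Nat.card_pos.ne'
      have h4 := Subgroup.index_dvd_of_le h2
      intro h5
      rw [h5] at h4
      exact h3 (zero_dvd_iff.1 h4)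
    · rw [index_res hp hVK]
      exact Nat.le_of_dvd (Nat.pos_of_ne_zero hfin)
        (Subgroup.relIndex_dvd_index_of_normal (pwG K p) (dn K V).unitGroup)

/-- fields without compatible rings: finite Galois extensions have at least as many classes -/
theorem index_le_of_finite [Fact p.Prime] {L : Type} [Field L] [Algebra F L]
    (h : PX p F L) (hfd : FiniteDimensional F L) (hζ : ∃ ζ : F, IsPrimitiveRoot ζ p)
    (hneg : (-1 : Fˣ) ∈ pwG F p) (hng : ¬ Good F p) (hfin : (pwG F p).index ≠ 0)
    (hbig : Big F p) : (pwG F p).index ≤ (pwG L p).index := by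
  have hp : p.Prime := Fact.out
  have := h.gal
  let e : (⊤ : IntermediateField F L) ≃ₐ[F] L := topEquiv
  have h1 : IsGalois F (⊤ : IntermediateField F L) := IsGalois.of_algEquiv e.symm
  obtain ⟨k, hk⟩ := h.deg ⊤ inferInstance h1
  have hk' : Module.finrank F L = p ^ k := by rw [← hk, e.toLinearEquiv.finrank_eq]
  obtain ⟨-, -, h3⟩ := tower hk' hζ hneg _ (⊤ : IntermediateField F L) rfl
  rcases h3 hbig hfin with h4 | ⟨h4, h5⟩
  · exact absurd h4 hng
  · rw [index_iso e.toRingEquiv] at h5
    refine le_trans ?_ h5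
    refine Nat.le_mul_of_pos_left _ (pow_pos ?_ _)
    rw [hk]
    exact pow_pos hp.pos k

end small

end Pool.Agent.H403.Z
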