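import Mathlib
import Pool.Graph.R_seed8.Results.MP_2429c0_al.SmallK2
import Pool.Agent.H403.Z.Wit1
import Pool.Agent.H403.Z.Wit2

set_option autoImplicit false
set_option linter.unusedSectionVars false
set_option linter.unusedVariables false
set_option linter.deprecated false

/-! Quaternionic structures of fields with an infinite Galois extension with few classes. -/

namespace Pool.Agent.H403.Z

open scoped Quaternion
open Pool.Agent.H315R3.ETC Pool.Agent.TH188.ET Pool.Agent.Y920.ETC
open Pool.Agent.Y920.EP (pwG Pw)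
open Pool.Agent.H403.W

/-- the structure of `F` is an iterated group extension of that of the residue field -/
theorem struct_of_gd {F : Type} [Field F] (h2 : (2 : F) ≠ 0) (hfin : (sqG F).index ≠ 0)
    {O : ValuationSubring F} (hgd : Gd 2 O) :
    (∀ x : F, x ∈ O → x⁻¹ ∉ O → IsSquare (1 + x)) ∧
      (2 : IsLocalRing.ResidueField O) ≠ 0 ∧
      ∃ (T : QData) (k : ℕ), 1 ≤ k ∧ 2 ^ k * (sqG (IsLocalRing.ResidueField O)).index =
        (sqG F).index ∧ IsStructureOf (IsLocalRing.ResidueField O) T ∧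
        IsStructureOf F (ext^[k] T) := by
  obtain ⟨hO, hne⟩ := hgd
  have hSq : Sqr O := by
    refine ⟨by exact_mod_cast hO.1, h2, fun x hx hx' => ?_⟩
    obtain ⟨y, hy⟩ := hO.2.2 x hx hx'
    exact ⟨y, by rw [← hy, pow_two]⟩
  obtain ⟨S, hS, hSf, hSq'⟩ := exists_structure h2 (finSq_of_index hfin)
  have hS' := hS
  obtain ⟨φ, hs, hk, hn, h0, hq⟩ := hS
  obtain ⟨h2k, hstr, hbi⟩ := Pool.Agent.Y620.ET.t_RES F O hSq S φ hs hk hn h0 hq
  have hneg : S.neg ∈ O.unitGroup.map φ := by
    by_contra hc'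
    exact (hbi _ hc').2.1 rfl
  have hstr' := hstr hneg
  have hfK : Finite (restrN S (O.unitGroup.map φ) hneg).G :=
    inferInstanceAs (Finite (O.unitGroup.map φ))
  obtain ⟨k, hk1, hk2⟩ := chain _ S hSq' hSf le_rfl (O.unitGroup.map φ) hneg hbi
  have hcard : Nat.card S.G = (sqG F).index := card_eq hs hk
  obtain ⟨ψ, hs', hk', hn', h0', hq'⟩ := hstr'
  have hcκ : Nat.card (O.unitGroup.map φ) = (sqG (IsLocalRing.ResidueField O)).index :=
    card_eq hs' hk'
  refine ⟨hSq.2.2, h2k, restrN S (O.unitGroup.map φ) hneg, k, ?_, ?_, hstr hneg, ?_⟩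
  · by_contra hk0
    have hk0' : k = 0 := by omega
    rw [hk0', pow_zero, one_mul] at hk1
    apply hne
    have htop : O.unitGroup.map φ = ⊤ := by
      have : Finite S.G := hSf
      exact Subgroup.eq_top_of_card_eq _ hk1
    rw [eq_top_iff]
    intro x _
    have hx : φ x ∈ O.unitGroup.map φ := by rw [htop]; trivial
    obtain ⟨u, hu, hux⟩ := hx
    have h1 : φ (x / u) = 1 := by rw [map_div, hux, div_self']
    obtain ⟨b, hb⟩ := (hk _).1 h1
    have h3 : x = u * b ^ 2 := by rw [← hb, mul_div_cancel]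
    rw [h3]
    exact mul_mem (Subgroup.mem_sup_left hu) (Subgroup.mem_sup_right ⟨b, rfl⟩)
  · rw [← hcκ, hk1, hcard]
  · refine structure_iso hS' (iso_symm hk2) ?_
    have h1q : (restrN S (O.unitGroup.map φ) hneg).q 1 1 =
        (restrN S (O.unitGroup.map φ) hneg).zero := h0
    have : ∀ (k : ℕ) (T : QData), T.q 1 1 = T.zero → (ext^[k] T).q 1 1 = (ext^[k] T).zero := by
      intro k T hT
      induction k with
      | zero => exact hT
      | succ k ih =>
        rw [Function.iterate_succ_apply']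
        show (((ext^[k] T).q 1 1, pw (pw (ext^[k] T).neg 1) 1 * pw 1 1 * pw 1 1) :
          (ext^[k] T).Q × (ext^[k] T).G) = ((ext^[k] T).zero, 1)
        rw [ih]
        simp [pw]
    exact this k _ h1q

/-- at most eight square classes, `-1` a square -/
theorem elem_of_eight {F : Type} [Field F] (h2 : (2 : F) ≠ 0) (hfin : (sqG F).index ≠ 0)
    (hneg : (-1 : Fˣ) ∈ sqG F) (h8 : (sqG F).index ≤ 8) :
    ∃ S : QData, Elem S ∧ IsStructureOf F S := by
  refine (Pool.Agent.Results.MP_2429c0_al.SmallK2.result h2 (finSq_of_index hfin)).2.1 fun a => ?_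
  set N := Pool.Agent.Results.MP_2429c0_al.SmallK2.normGroup a with hN
  have hmem : ∀ c : Fˣ, c ∈ N ↔ ∃ x y : F, (c : F) = x ^ 2 - a * y ^ 2 := fun c => Iff.rfl
  have hle : sqG F ≤ N := by
    rintro _ ⟨b, rfl⟩
    rw [hmem]
    exact ⟨b, 0, by simp⟩
  by_cases ha : a ∈ sqG F
  · have htop : N = ⊤ := by
      rw [eq_top_iff]
      intro c _
      obtain ⟨b, hb⟩ := ha
      have hb' : (b : F) ^ 2 = a := congrArg Units.val hb
      rw [hmem]
      refine ⟨(c + 1) / 2, ((c - 1) / 2) / b, ?_⟩
      rw [← hb']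
      have := b.ne_zero
      field_simp
      ring
    rw [htop, Subgroup.index_top]
    norm_num
  · have h1 : a ∈ N := by
      have h3 : -a ∈ N := by
        rw [hmem]
        exact ⟨0, 1, by rw [Units.val_neg]; ring⟩
      have h4 := mul_mem (hle hneg) h3
      rwa [neg_mul_neg, one_mul] at h4
    have h3 := Subgroup.relIndex_mul_index hle
    have h4 : (sqG F).relIndex N ≠ 1 := by
      intro h5
      rw [Subgroup.relIndex_eq_one] at h5
      exact ha (h5 h1)
    have h5 : (sqG F).relIndex N ≠ 0 := by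
      intro h6
      rw [h6, zero_mul] at h3
      exact hfin h3.symm
    have h6 : 2 ≤ (sqG F).relIndex N := by omega
    by_contra hc
    push Not at hc
    have h7 : 2 * 5 ≤ (sqG F).relIndex N * N.index := Nat.mul_le_mul h6 hc
    omega

end Pool.Agent.H403.Z
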